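import Pool.Agent.Q260.GM.Zl2

set_option autoImplicit false

/-!
# The logarithmic derivative of zeta near the critical line, under RH
-/

namespace Pool.Agent.Q260.GM

open MeasureTheory Filter Topology Set Complex
open scoped ComplexConjugate
open Pool.Agent.Y23 (Zt mu IsZ isZ_iff isZ_conj mu_conj zsummable zsum_le Lg one_le_Lg ZZ YL Rg ZZ_eq cjZ)
open Pool.Agent.H24R2.JP (XX)
open Pool.Agent.Q260.LF (hk pf line_of ZZ_right logDeriv_Gammaℝ)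
open H353.E (dig_aux dig_norm)

lemma sx_eq (x t : ℝ) : sx x t = 1 / 2 + (⟨x, t⟩ : ℂ) := by
  unfold sx
  apply Complex.ext <;> simp

lemma mem_Rg {x : ℝ} (hx : 0 < x) (h1 : x ≤ 1 / 4) (t : ℝ) : (⟨x, t⟩ : ℂ) ∈ Rg := by
  refine ⟨?_, ?_, Or.inl ?_⟩
  · intro h
    have := congrArg Complex.re h
    simp at this
    linarith
  · intro h
    have := congrArg Complex.re h
    simp at this
    linarith
  · show -1 / 2 < x
    linarith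

lemma sx_ne (hRH : RiemannHypothesis) {x : ℝ} (hx : 0 < x) (t : ℝ) : riemannZeta (sx x t) ≠ 0 := by
  apply zeta_ne hRH
  unfold sx
  simp
  linarith

lemma LD_eq (hRH : RiemannHypothesis) {x : ℝ} (hx : 0 < x) (h1 : x ≤ 1 / 4) (t : ℝ) :
    deriv riemannZeta (sx x t) / riemannZeta (sx x t) = ZZ ⟨x, t⟩ - YL ⟨x, t⟩ := by
  have h := ZZ_eq (mem_Rg hx h1 t) (by rw [← sx_eq]; exact sx_ne hRH hx t)
  rw [h, ← sx_eq]
  ring

lemma YL_e {x : ℝ} (hx : 0 < x) (h1 : x ≤ 1 / 4) (t : ℝ) :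
    ‖YL ⟨x, t⟩ - 1 / 2 * log ((1 / 2 + (⟨x, t⟩ : ℂ)) / 2 + 2)‖ ≤ 12 := by
  set w : ℂ := ⟨x, t⟩ with hw
  have hwr : w.re = x := rfl
  have hs : 0 < (1 / 2 + w : ℂ).re := by simp [hwr]; linarith
  have hs2 : ((1 / 2 + w : ℂ) / 2).re = (1 / 2 + x) / 2 := by simp [hwr]
  unfold YL
  rw [logDeriv_Gammaℝ hs]
  have n1 : w - 1 / 2 ≠ 0 := by
    intro h
    have := congrArg Complex.re h
    simp [hwr] at this
    linarith
  have n2 : w + 1 / 2 ≠ 0 := by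
    intro h
    have := congrArg Complex.re h
    simp [hwr] at this
    linarith
  have n3 : 4 * w ^ 2 - 1 ≠ 0 := by
    have e : 4 * w ^ 2 - 1 = 4 * ((w - 1 / 2) * (w + 1 / 2)) := by ring
    rw [e]
    exact mul_ne_zero (by norm_num) (mul_ne_zero n1 n2)
  have e1 : 8 * w / (4 * w ^ 2 - 1) = 1 / (w - 1 / 2) + 1 / (w + 1 / 2) := by
    rw [div_add_div _ _ n1 n2, div_eq_div_iff n3 (mul_ne_zero n1 n2)]
    ring
  have b1 : ‖1 / (w - 1 / 2)‖ ≤ 4 := by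
    rw [norm_div, norm_one, div_le_iff₀ (norm_pos_iff.2 n1)]
    have h := Complex.abs_re_le_norm (w - 1 / 2)
    have h2 : (w - 1 / 2).re = x - 1 / 2 := by simp [hwr]
    rw [h2, abs_of_nonpos (by linarith)] at h
    linarith
  have b2 : ‖1 / (w + 1 / 2)‖ ≤ 2 := by
    rw [norm_div, norm_one, div_le_iff₀ (norm_pos_iff.2 n2)]
    have h := Complex.abs_re_le_norm (w + 1 / 2)
    have h2 : (w + 1 / 2).re = x + 1 / 2 := by simp [hwr]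
    rw [h2, abs_of_nonneg (by linarith)] at h
    linarith
  have b3 := dig_aux (s := (1 / 2 + w) / 2) (by rw [hs2]; linarith)
  have b4 : ‖-(Real.log Real.pi : ℂ) / 2‖ ≤ 2 := by
    rw [norm_div, norm_neg, Complex.norm_real, Real.norm_eq_abs, Complex.norm_ofNat]
    have h5 : 0 ≤ Real.log Real.pi := Real.log_nonneg (by linarith [Real.pi_gt_three])
    have h6 := Real.log_le_sub_one_of_pos Real.pi_pos
    have h7 := Real.pi_lt_four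
    rw [abs_of_nonneg h5]
    linarith
  have e2 : 8 * w / (4 * w ^ 2 - 1) + (-(Real.log Real.pi : ℂ) / 2 + 1 / 2 * logDeriv Gamma ((1 / 2 + w) / 2)) -
      1 / 2 * log ((1 / 2 + w) / 2 + 2) = (1 / (w - 1 / 2) + 1 / (w + 1 / 2)) + -(Real.log Real.pi : ℂ) / 2 +
      1 / 2 * (logDeriv Gamma ((1 / 2 + w) / 2) - log ((1 / 2 + w) / 2 + 2)) := by
    rw [e1]; ring
  rw [e2]
  have b5 : ‖(1 / 2 : ℂ) * (logDeriv Gamma ((1 / 2 + w) / 2) - log ((1 / 2 + w) / 2 + 2))‖ ≤ 7 / 2 := by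
    rw [norm_mul]
    have : ‖(1 / 2 : ℂ)‖ = 1 / 2 := by simp
    rw [this]
    linarith
  have c1 := norm_add_le ((1 / (w - 1 / 2) + 1 / (w + 1 / 2)) + -(Real.log Real.pi : ℂ) / 2)
    (1 / 2 * (logDeriv Gamma ((1 / 2 + w) / 2) - log ((1 / 2 + w) / 2 + 2)))
  have c2 := norm_add_le (1 / (w - 1 / 2) + 1 / (w + 1 / 2)) (-(Real.log Real.pi : ℂ) / 2)
  have c3 := norm_add_le (1 / (w - 1 / 2)) (1 / (w + 1 / 2))
  linarith

lemma s2_norm {x : ℝ} (hx : 0 < x) (h1 : x ≤ 1 / 4) (t : ℝ) :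
    1 ≤ ‖(1 / 2 + (⟨x, t⟩ : ℂ)) / 2 + 2‖ ∧ |t| / 2 ≤ ‖(1 / 2 + (⟨x, t⟩ : ℂ)) / 2 + 2‖ ∧
      ‖(1 / 2 + (⟨x, t⟩ : ℂ)) / 2 + 2‖ ≤ 3 + |t| := by
  have e1 : ((1 / 2 + (⟨x, t⟩ : ℂ)) / 2 + 2).re = (1 / 2 + x) / 2 + 2 := by simp
  have e2 : ((1 / 2 + (⟨x, t⟩ : ℂ)) / 2 + 2).im = t / 2 := by simp
  have h2 := Complex.abs_re_le_norm ((1 / 2 + (⟨x, t⟩ : ℂ)) / 2 + 2)
  have h3 := Complex.abs_im_le_norm ((1 / 2 + (⟨x, t⟩ : ℂ)) / 2 + 2)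
  have h4 := Complex.norm_le_abs_re_add_abs_im ((1 / 2 + (⟨x, t⟩ : ℂ)) / 2 + 2)
  rw [e1, abs_of_nonneg (by linarith)] at h2
  rw [e2, abs_div, abs_two] at h3
  rw [e1, e2, abs_of_nonneg (by linarith : 0 ≤ (1 / 2 + x) / 2 + 2), abs_div, abs_two] at h4
  have := abs_nonneg t
  exact ⟨by linarith, h3, by linarith⟩

lemma YL_re {x : ℝ} (hx : 0 < x) (h1 : x ≤ 1 / 4) {t : ℝ} (ht : 1 ≤ |t|) :
    |(YL ⟨x, t⟩).re - Real.log |t| / 2| ≤ 13 := by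
  have h2 := (Complex.abs_re_le_norm _).trans (YL_e hx h1 t)
  obtain ⟨n1, n2, n3⟩ := s2_norm hx h1 t
  have e : (1 / 2 * log ((1 / 2 + (⟨x, t⟩ : ℂ)) / 2 + 2)).re =
      1 / 2 * Real.log ‖(1 / 2 + (⟨x, t⟩ : ℂ)) / 2 + 2‖ := by
    have : (1 / 2 : ℂ) = ((1 / 2 : ℝ) : ℂ) := by push_cast; rfl
    rw [this, Complex.re_ofReal_mul, Complex.log_re]
  rw [sub_re, e] at h2
  have h0 : 0 < |t| := by linarith
  have k1 : Real.log |t| - 1 ≤ Real.log ‖(1 / 2 + (⟨x, t⟩ : ℂ)) / 2 + 2‖ := by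
    have h3 := Real.log_le_log (by positivity) n2
    rw [Real.log_div h0.ne' two_ne_zero] at h3
    have := Real.log_two_lt_d9
    linarith
  have k2 : Real.log ‖(1 / 2 + (⟨x, t⟩ : ℂ)) / 2 + 2‖ ≤ Real.log |t| + 2 := by
    have h3 := Real.log_le_log (by linarith) n3
    have h4 := Real.log_le_log (by linarith) (by linarith : 3 + |t| ≤ 4 * |t|)
    rw [Real.log_mul (by norm_num) h0.ne'] at h4
    have h5 : Real.log 4 = 2 * Real.log 2 := by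
      rw [show (4 : ℝ) = 2 ^ 2 by norm_num, Real.log_pow]; norm_num
    have := Real.log_two_lt_d9
    linarith
  rw [abs_le] at h2 ⊢
  constructor <;> linarith [h2.1, h2.2]

lemma YL_norm {x : ℝ} (hx : 0 < x) (h1 : x ≤ 1 / 4) (t : ℝ) : ‖YL ⟨x, t⟩‖ ≤ 15 * Lg t := by
  have h2 := YL_e hx h1 t
  obtain ⟨n1, n2, n3⟩ := s2_norm hx h1 t
  have h3 := Pool.Agent.Q260.LF.norm_log_le n1
  have h4 := Real.log_le_log (by linarith) n3
  have h5 := norm_add_le (YL ⟨x, t⟩ - 1 / 2 * log ((1 / 2 + (⟨x, t⟩ : ℂ)) / 2 + 2))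
    (1 / 2 * log ((1 / 2 + (⟨x, t⟩ : ℂ)) / 2 + 2))
  rw [sub_add_cancel] at h5
  have h6 : ‖(1 / 2 : ℂ) * log ((1 / 2 + (⟨x, t⟩ : ℂ)) / 2 + 2)‖ =
      1 / 2 * ‖log ((1 / 2 + (⟨x, t⟩ : ℂ)) / 2 + 2)‖ := by
    rw [norm_mul]
    have : ‖(1 / 2 : ℂ)‖ = 1 / 2 := by simp
    rw [this]
  have h7 := one_le_Lg t
  have h8 : Lg t = Real.log (3 + |t|) := rfl
  have := Real.pi_lt_four
  rw [h6] at h5
  rw [← h8] at h4
  linarith

/-- the real part near the critical line -/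
theorem DD_approx (hRH : RiemannHypothesis) {x : ℝ} (hx : 0 < x) (h1 : x ≤ 1 / 4) {t : ℝ}
    (ht : 1 ≤ |t|) : |DD x t - (Real.log |t| / 2 - Pz x t)| ≤ 13 := by
  have h2 := YL_re hx h1 ht
  unfold DD
  rw [LD_eq hRH hx h1 t, sub_re, re_ZZ hRH hx (by linarith) t]
  have : -(Pz x t - (YL ⟨x, t⟩).re) - (Real.log |t| / 2 - Pz x t) =
    (YL ⟨x, t⟩).re - Real.log |t| / 2 := by ring
  rw [this]
  exact h2

lemma inv_diff {x : ℝ} (hx : 0 < x) (h1 : x ≤ 1) (u : ℝ) :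
    ‖1 / (⟨x, u⟩ : ℂ) - 1 / (⟨1, u⟩ : ℂ)‖ ≤ 1 / x * (1 / (1 + u ^ 2)) := by
  have n1 : (⟨x, u⟩ : ℂ) ≠ 0 := by
    intro h; have := congrArg Complex.re h; simp at this; exact hx.ne' this
  have n2 : (⟨1, u⟩ : ℂ) ≠ 0 := by
    intro h; have := congrArg Complex.re h; simp at this
  rw [div_sub_div _ _ n1 n2, norm_div, norm_mul]
  have e : (1 * (⟨1, u⟩ : ℂ) - (⟨x, u⟩ : ℂ) * 1) = ((1 - x : ℝ) : ℂ) := by
    apply Complex.ext <;> simp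
  rw [e, Complex.norm_real, Real.norm_eq_abs, abs_of_nonneg (by linarith)]
  have q1 : ‖(⟨x, u⟩ : ℂ)‖ ^ 2 = x ^ 2 + u ^ 2 := by
    rw [← Complex.normSq_eq_norm_sq, Complex.normSq_apply]; ring
  have q2 : ‖(⟨1, u⟩ : ℂ)‖ ^ 2 = 1 + u ^ 2 := by
    rw [← Complex.normSq_eq_norm_sq, Complex.normSq_apply]; ring
  have h3 : (x * (1 + u ^ 2)) ^ 2 ≤ (‖(⟨x, u⟩ : ℂ)‖ * ‖(⟨1, u⟩ : ℂ)‖) ^ 2 := by
    rw [mul_pow, mul_pow, q1, q2]
    have : x ^ 2 * (1 + u ^ 2) ≤ x ^ 2 + u ^ 2 := by nlinarith [mul_nonneg (sq_nonneg u) (by nlinarith : 0 ≤ 1 - x ^ 2)]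
    nlinarith [sq_nonneg u, mul_le_mul_of_nonneg_right this (by positivity : 0 ≤ 1 + u ^ 2)]
  have h4 := (pow_le_pow_iff_left₀ (by positivity) (by positivity) two_ne_zero).1 h3
  have h5 : 0 < x * (1 + u ^ 2) := by positivity
  rw [one_div_mul_one_div, div_le_div_iff₀ (by linarith) h5]
  nlinarith

lemma ZZ_norm (hRH : RiemannHypothesis) : ∃ C : ℝ, 0 < C ∧ ∀ x : ℝ, 0 < x → x ≤ 1 → ∀ t : ℝ,
    ‖ZZ ⟨x, t⟩‖ ≤ C * Lg t / x := by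
  obtain ⟨K, hK, hKs⟩ := zsum_le
  obtain ⟨C, hC, hR⟩ := ZZ_right
  refine ⟨K + 3 * C, by positivity, fun x hx h1 t => ?_⟩
  have hL := one_le_Lg t
  have hz : 0 < (⟨x, t⟩ : ℂ).re := hx
  have hz1 : 0 < (⟨1, t⟩ : ℂ).re := one_pos
  have s1 := (hk_summ hRH hz).of_norm
  have s2 := (hk_summ hRH hz1).of_norm
  have e : ZZ ⟨x, t⟩ - ZZ ⟨1, t⟩ = ∑' ρ : Zt, ((mu ρ : ℂ) * hk ⟨x, t⟩ ((ρ : ℂ) - 1 / 2) -
      (mu ρ : ℂ) * hk ⟨1, t⟩ ((ρ : ℂ) - 1 / 2)) := by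
    rw [pfR hRH hz, pfR hRH hz1, s1.tsum_sub s2]
  have hb : ∀ ρ : Zt, ‖(mu ρ : ℂ) * hk ⟨x, t⟩ ((ρ : ℂ) - 1 / 2) -
      (mu ρ : ℂ) * hk ⟨1, t⟩ ((ρ : ℂ) - 1 / 2)‖ ≤
      1 / x * (((mu ρ : ℝ) * (1 / (1 + ((ρ : ℂ).im - t) ^ 2)) + (mu ρ : ℝ) * (1 / (1 + ((ρ : ℂ).im - -t) ^ 2))) / 2) := by
    intro ρ
    rw [← mul_sub, norm_mul, Complex.norm_natCast]
    have hr := zt_re hRH ρ
    have hi := zt_im ρ
    set ζ := (ρ : ℂ) - 1 / 2 with hζ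
    have a1 : (⟨x, t⟩ : ℂ) - ζ = ⟨x, t - ζ.im⟩ := by apply Complex.ext <;> simp [hr]
    have a2 : (⟨x, t⟩ : ℂ) + ζ = ⟨x, t + ζ.im⟩ := by apply Complex.ext <;> simp [hr]
    have a3 : (⟨1, t⟩ : ℂ) - ζ = ⟨1, t - ζ.im⟩ := by apply Complex.ext <;> simp [hr]
    have a4 : (⟨1, t⟩ : ℂ) + ζ = ⟨1, t + ζ.im⟩ := by apply Complex.ext <;> simp [hr]
    have m1 : ∀ u : ℝ, (⟨x, u⟩ : ℂ) ≠ 0 := fun u h => by
      have := congrArg Complex.re h; simp at this; exact hx.ne' this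
    have m2 : ∀ u : ℝ, (⟨1, u⟩ : ℂ) ≠ 0 := fun u h => by
      have := congrArg Complex.re h; simp at this
    rw [hk_half (by rw [a1]; exact m1 _) (by rw [a2]; exact m1 _),
      hk_half (by rw [a3]; exact m2 _) (by rw [a4]; exact m2 _), a1, a2, a3, a4]
    have e2 : (1 / (⟨x, t - ζ.im⟩ : ℂ) + 1 / (⟨x, t + ζ.im⟩ : ℂ)) / 2 -
        (1 / (⟨1, t - ζ.im⟩ : ℂ) + 1 / (⟨1, t + ζ.im⟩ : ℂ)) / 2 =
        ((1 / (⟨x, t - ζ.im⟩ : ℂ) - 1 / (⟨1, t - ζ.im⟩ : ℂ)) +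
          (1 / (⟨x, t + ζ.im⟩ : ℂ) - 1 / (⟨1, t + ζ.im⟩ : ℂ))) / 2 := by ring
    rw [e2, norm_div, Complex.norm_ofNat]
    have c1 := inv_diff hx h1 (t - ζ.im)
    have c2 := inv_diff hx h1 (t + ζ.im)
    have c3 := norm_add_le (1 / (⟨x, t - ζ.im⟩ : ℂ) - 1 / (⟨1, t - ζ.im⟩ : ℂ))
      (1 / (⟨x, t + ζ.im⟩ : ℂ) - 1 / (⟨1, t + ζ.im⟩ : ℂ))
    have d1 : ((ρ : ℂ).im - t) ^ 2 = (t - ζ.im) ^ 2 := by rw [hi]; ring
    have d2 : ((ρ : ℂ).im - -t) ^ 2 = (t + ζ.im) ^ 2 := by rw [hi]; ring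
    rw [d1, d2]
    calc (mu ρ : ℝ) * (‖1 / (⟨x, t - ζ.im⟩ : ℂ) - 1 / (⟨1, t - ζ.im⟩ : ℂ) +
          (1 / (⟨x, t + ζ.im⟩ : ℂ) - 1 / (⟨1, t + ζ.im⟩ : ℂ))‖ / 2) ≤ (mu ρ : ℝ) *
          ((1 / x * (1 / (1 + (t - ζ.im) ^ 2)) + 1 / x * (1 / (1 + (t + ζ.im) ^ 2))) / 2) := by
          apply mul_le_mul_of_nonneg_left _ (Nat.cast_nonneg _)
          linarith
      _ = _ := by ring
  have hsum : Summable (fun ρ : Zt => 1 / x * (((mu ρ : ℝ) * (1 / (1 + ((ρ : ℂ).im - t) ^ 2)) +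
      (mu ρ : ℝ) * (1 / (1 + ((ρ : ℂ).im - -t) ^ 2))) / 2)) :=
    (((zsummable t).add (zsummable (-t))).div_const 2).mul_left _
  have h3 := tsum_of_norm_bounded hsum.hasSum hb
  rw [← e, tsum_mul_left, tsum_div_const, (zsummable t).tsum_add (zsummable (-t))] at h3
  have h4 := hKs t
  have h5 := hKs (-t)
  have h6 : Lg (-t) = Lg t := by unfold Lg; rw [abs_neg]
  rw [h6] at h5
  have h7 := hR ⟨1, t⟩ le_rfl
  have h8 : Real.log (2 + ‖(⟨1, t⟩ : ℂ)‖) ≤ Lg t := by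
    apply Real.log_le_log (by positivity)
    have := Complex.norm_le_abs_re_add_abs_im (⟨1, t⟩ : ℂ)
    simp only [abs_one] at this
    linarith
  have h9 : ‖ZZ ⟨1, t⟩‖ ≤ C * (2 * Lg t) := h7.trans (mul_le_mul_of_nonneg_left (by linarith) hC.le)
  have h10 : ‖ZZ ⟨x, t⟩‖ ≤ ‖ZZ ⟨x, t⟩ - ZZ ⟨1, t⟩‖ + ‖ZZ ⟨1, t⟩‖ := by
    have := norm_add_le (ZZ ⟨x, t⟩ - ZZ ⟨1, t⟩) (ZZ ⟨1, t⟩)
    rwa [sub_add_cancel] at this
  have h11 : 1 ≤ 1 / x := by rw [le_div_iff₀ hx]; linarith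
  have h12 : ‖ZZ ⟨x, t⟩ - ZZ ⟨1, t⟩‖ ≤ 1 / x * (K * Lg t) :=
    h3.trans (mul_le_mul_of_nonneg_left (by linarith) (by positivity))
  have h13 : C * (2 * Lg t) ≤ 1 / x * (3 * C * Lg t) := by
    have : 0 ≤ 3 * C * Lg t := by positivity
    nlinarith
  calc ‖ZZ ⟨x, t⟩‖ ≤ 1 / x * (K * Lg t) + 1 / x * (3 * C * Lg t) := by linarith
    _ = _ := by ring

/-- the crude bound -/
theorem LD_bound (hRH : RiemannHypothesis) : ∃ C : ℝ, 0 < C ∧ ∀ x : ℝ, 0 < x → x ≤ 1 / 4 →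
    ∀ t : ℝ, ‖deriv riemannZeta (sx x t) / riemannZeta (sx x t)‖ ≤ C * Lg t / x := by
  obtain ⟨C, hC, h⟩ := ZZ_norm hRH
  refine ⟨C + 15, by positivity, fun x hx h1 t => ?_⟩
  rw [LD_eq hRH hx h1 t]
  have h2 := h x hx (by linarith) t
  have h3 := YL_norm hx h1 t
  have h4 := norm_sub_le (ZZ ⟨x, t⟩) (YL ⟨x, t⟩)
  have hL := one_le_Lg t
  have h5 : 15 * Lg t ≤ 15 * Lg t / x := by
    rw [le_div_iff₀ hx]
    nlinarith
  calc _ ≤ C * Lg t / x + 15 * Lg t / x := by linarith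
    _ = _ := by ring

lemma LD_cont (hRH : RiemannHypothesis) {x : ℝ} (hx : 0 < x) (h1 : x ≤ 1 / 4) :
    Continuous (fun t : ℝ => deriv riemannZeta (sx x t) / riemannZeta (sx x t)) := by
  have hne : ∀ t : ℝ, sx x t ≠ 1 := by
    intro t h
    have := congrArg Complex.re h
    unfold sx at this
    simp at this
    linarith
  have hsx : Continuous (fun t : ℝ => sx x t) := by unfold sx; fun_prop
  rw [continuous_iff_continuousAt]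
  intro t
  have hU : IsOpen ({1}ᶜ : Set ℂ) := isOpen_compl_singleton
  have hd : DifferentiableOn ℂ riemannZeta ({1}ᶜ : Set ℂ) := fun s hs =>
    (differentiableAt_riemannZeta hs).differentiableWithinAt
  have ha : AnalyticAt ℂ riemannZeta (sx x t) := hd.analyticAt (hU.mem_nhds (hne t))
  have h2 : ContinuousAt (fun s => deriv riemannZeta s / riemannZeta s) (sx x t) :=
    ha.deriv.continuousAt.div ha.continuousAt (sx_ne hRH hx t)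
  exact ContinuousAt.comp (f := fun t : ℝ => sx x t) h2 hsx.continuousAt

lemma DD_cont (hRH : RiemannHypothesis) {x : ℝ} (hx : 0 < x) (h1 : x ≤ 1 / 4) :
    Continuous (fun t : ℝ => DD x t) := by
  unfold DD
  exact (Complex.continuous_re.comp (LD_cont hRH hx h1)).neg

lemma DD_abs (hRH : RiemannHypothesis) : ∃ C : ℝ, 0 < C ∧ ∀ x : ℝ, 0 < x → x ≤ 1 / 4 →
    ∀ t : ℝ, |DD x t| ≤ C * Lg t / x := by
  obtain ⟨C, hC, h⟩ := LD_bound hRH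
  refine ⟨C, hC, fun x hx h1 t => ?_⟩
  unfold DD
  rw [abs_neg]
  exact (Complex.abs_re_le_norm _).trans (h x hx h1 t)

lemma DD_even {x : ℝ} (hx : 0 < x) (h1 : x ≤ 1 / 4) (t : ℝ) : DD x (-t) = DD x t := by
  unfold DD
  have e : sx x (-t) = conj (sx x t) := by unfold sx; apply Complex.ext <;> simp
  have hne : sx x t ≠ 1 := by
    intro h
    have := congrArg Complex.re h
    unfold sx at this
    simp at this
    linarith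
  have hd : HasDerivAt riemannZeta (deriv riemannZeta (sx x t)) (sx x t) :=
    (differentiableAt_riemannZeta hne).hasDerivAt
  have h2 := hd.conj_conj
  have e3 : (conj ∘ riemannZeta ∘ conj) = riemannZeta := by
    funext z
    simp only [Function.comp]
    rw [riemannZeta_conj, Complex.conj_conj]
  have e4 : deriv riemannZeta (conj (sx x t)) = conj (deriv riemannZeta (sx x t)) := by
    have h3 : HasDerivAt riemannZeta (conj (deriv riemannZeta (sx x t))) (conj (sx x t)) := by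
      have h4 := h2
      change HasDerivAt (conj ∘ riemannZeta ∘ conj) _ _ at h4
      rwa [e3] at h4
    exact h3.deriv
  rw [e, e4, riemannZeta_conj, ← map_div₀, Complex.conj_re]

end Pool.Agent.Q260.GM
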