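import Mathlib

set_option autoImplicit false

/-!
# Primes in short intervals and pairs of zeros: definitions
-/

namespace Pool.Agent.Q260.GM

open MeasureTheory Filter Topology Set Complex

/-- `ψ(e^w) - e^w` -/
noncomputable def ph (w : ℝ) : ℝ := Chebyshev.psi (Real.exp w) - Real.exp w

/-- the normalised error for the primes in `(e^u, e^(u+κ)]`:
`e^(-u/2) (ψ(e^(u+κ)) - ψ(e^u) - (e^κ - 1) e^u)` -/
noncomputable def Dl (κ u : ℝ) : ℝ := Real.exp (-(u / 2)) * (ph (u + κ) - ph u)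

/-- `ψ(x) - x = O(x ^ (1/2 + ε))` in mean square -/
def L2psi : Prop := ∀ θ : ℝ, 1 < θ →
  IntegrableOn (fun w => ph w ^ 2 * Real.exp (-(θ * w))) (Ioi 0)

/-- the point `1/2 + x + i t` -/
noncomputable def sx (x t : ℝ) : ℂ := ((1 / 2 + x : ℝ) : ℂ) + (t : ℂ) * I

/-- `- Re ζ'/ζ (1/2 + x + i t)` -/
noncomputable def DD (x t : ℝ) : ℝ := -(deriv riemannZeta (sx x t) / riemannZeta (sx x t)).re

/-- the test function with the transform `exp (-2a|α|)` -/
noncomputable def ra (a x : ℝ) : ℝ := 4 * a / (4 * a ^ 2 + 4 * Real.pi ^ 2 * x ^ 2)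

/-- `∫_0^∞ exp(-2aα) min(α, 1) dα` -/
noncomputable def MM (a : ℝ) : ℝ := ∫ α in Ioi (0 : ℝ), Real.exp (-(2 * a * α)) * min α 1

/-- the kernel `(2 sin(λy/2)/y)²` -/
noncomputable def kk (lam y : ℝ) : ℝ := lam ^ 2 * Real.sinc (lam * y / 2) ^ 2

end Pool.Agent.Q260.GM
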