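import Pool.Agent.Q260.GM.Ub

set_option autoImplicit false

/-!
# The mean square of the error in short intervals and of `Re ζ'/ζ`: the identity
-/

namespace Pool.Agent.Q260.GM

open MeasureTheory Filter Topology Set Complex
open Pool.Agent.Y23 (Lg one_le_Lg)
open Pool.Agent.Q213.GM (ph_meas Dl_meas laplace)

/-- the exact transform -/
noncomputable def Pf (κ x t : ℝ) : ℝ :=
  (-(hs κ (sx x t)) * (deriv riemannZeta (sx x t) / riemannZeta (sx x t)) - Es κ (sx x t)).re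

lemma sx_cont (x : ℝ) : Continuous (fun t : ℝ => sx x t) := by unfold sx; fun_prop

lemma sx_ne0 {x : ℝ} (hx : 0 < x) (t : ℝ) : sx x t ≠ 0 := by
  intro h
  have := congrArg Complex.re h
  rw [sx_re] at this
  simp at this
  linarith

lemma Pf_cont (hRH : RiemannHypothesis) {κ x : ℝ} (hx : 0 < x) (h1 : x ≤ 1 / 4) :
    Continuous (Pf κ x) := by
  have c1 : Continuous fun t : ℝ => hs κ (sx x t) := by
    unfold hs
    have := sx_cont x
    exact (by fun_prop : Continuous fun t : ℝ => cexp (-(κ * sx x t / 2))).mul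
      ((by fun_prop : Continuous fun t : ℝ => cexp (κ * sx x t) - 1).div this (sx_ne0 hx))
  have c2 : Continuous fun t : ℝ => Es κ (sx x t) := by
    unfold Es
    have := sx_cont x
    exact (by fun_prop : Continuous fun t : ℝ => cexp (-(κ * sx x t / 2))).mul
      (continuous_const.div (this.sub continuous_const) fun t => sub_ne_zero.2 (sx_ne_one hx h1 t))
  exact Complex.continuous_re.comp ((c1.neg.mul (LD_cont hRH hx h1)).sub c2)

lemma gt_intOn (h : L2psi) {κ x : ℝ} (hκ : 0 < κ) (hκ2 : κ ≤ 1 / 2) (hx : 0 < x) (h1 : x ≤ 1 / 4) :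
    IntegrableOn (gt κ x) (Ioi 0) := by
  have h2 := (lap_int h hκ hκ2 hx h1 0).1.norm.const_mul (Real.exp (-(κ / 4)) * Real.exp (-(x * (κ / 2))))
  have h3 : IntegrableOn (fun u => (Fc κ x u)) (Ioi 0) := by
    refine h2.mono' (Fc_meas κ x).aestronglyMeasurable (ae_of_all _ fun u => ?_)
    rw [norm_mul, Complex.norm_real, Complex.norm_exp, Real.norm_eq_abs, Real.norm_eq_abs]
    have e1 : (-(((x : ℂ) + ((0 : ℝ) : ℂ) * I) * (u : ℂ))).re = -(x * u) := by simp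
    rw [e1]
    unfold Fc
    rw [abs_mul, abs_mul, abs_of_pos (Real.exp_pos _), abs_of_pos (Real.exp_pos _)]
    have e2 : Real.exp (-(x * (u + κ / 2))) = Real.exp (-(x * (κ / 2))) * Real.exp (-(x * u)) := by
      rw [← Real.exp_add]; congr 1; ring
    rw [e2]
    apply le_of_eq
    ring
  exact (gt_integrable (w := fun y => y) rfl h3).integrableOn

/-- **the Plancherel formula** -/
lemma S_planch (h : L2psi) {κ x : ℝ} (hκ : 0 < κ) (hκ2 : κ ≤ 1 / 2) (hx : 0 < x) (h1 : x ≤ 1 / 4) :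
    Integrable (fun t => Pf κ x t ^ 2) ∧
    Real.exp (-(κ * (1 / 2 + x))) * (∫ u in Ioi (0 : ℝ), Dl κ u ^ 2 * Real.exp (-(2 * x * u))) =
      1 / Real.pi * ∫ t, Pf κ x t ^ 2 := by
  have h2 := Pool.Agent.Q184.GM.cos_plancherel (gt_intOn h hκ hκ2 hx h1) (gt_sq h hκ hx).1
  rw [(gt_sq h hκ hx).2] at h2
  have e : (fun t : ℝ => (∫ u in Ioi (0 : ℝ), gt κ x u * Real.cos (t * u)) ^ 2) = fun t => Pf κ x t ^ 2 := by
    funext t
    rw [gt_cos h hκ hκ2 hx h1 t]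
    rfl
  rw [e] at h2
  exact h2

/-- the approximate transform -/
noncomputable def Qf (κ x t : ℝ) : ℝ := h0 κ t * DD x t

lemma PQ_sub (hRH : RiemannHypothesis) : ∃ C : ℝ, 0 < C ∧ ∀ κ x : ℝ, 0 < κ → κ ≤ 1 / 2 → 0 < x →
    x ≤ 1 / 4 → ∀ t : ℝ, (Pf κ x t - Qf κ x t) ^ 2 ≤ C / x ^ 2 * κ ^ 2 * w1 t := by
  obtain ⟨C, hC, hLD⟩ := LD_bound hRH
  refine ⟨32 * C ^ 2 + 128, by positivity, fun κ x hκ hκ2 hx h1 t => ?_⟩
  set Z := deriv riemannZeta (sx x t) / riemannZeta (sx x t) with hZ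
  have hL := one_le_Lg t
  have e : Pf κ x t - Qf κ x t = (-(hs κ (sx x t) - (h0 κ t : ℂ)) * Z - Es κ (sx x t)).re := by
    unfold Pf Qf DD
    rw [← hZ]
    have e1 : h0 κ t * -Z.re = (-(h0 κ t : ℂ) * Z).re := by
      rw [neg_mul, neg_re, Complex.re_ofReal_mul]; ring
    rw [e1, ← sub_re]
    congr 1
    ring
  have b1 : |Pf κ x t - Qf κ x t| ≤ ‖hs κ (sx x t) - (h0 κ t : ℂ)‖ * (C * Lg t / x) + ‖Es κ (sx x t)‖ := by
    rw [e]
    refine (Complex.abs_re_le_norm _).trans ((norm_sub_le _ _).trans ?_)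
    rw [norm_mul, norm_neg]
    have := mul_le_mul_of_nonneg_left (hLD x hx h1 t) (norm_nonneg (hs κ (sx x t) - (h0 κ t : ℂ)))
    linarith
  have b2 := pow_le_pow_left₀ (abs_nonneg _) b1 2
  rw [sq_abs] at b2
  have b3 := hs_sub_sq hκ hκ2 hx h1 t
  have b4 := Es_sq hκ hκ2 hx h1 t
  have b5 := w1_ge t
  refine b2.trans ?_
  have b6 : (‖hs κ (sx x t) - (h0 κ t : ℂ)‖ * (C * Lg t / x) + ‖Es κ (sx x t)‖) ^ 2 ≤
      2 * (‖hs κ (sx x t) - (h0 κ t : ℂ)‖ ^ 2 * (C * Lg t / x) ^ 2) + 2 * ‖Es κ (sx x t)‖ ^ 2 := by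
    nlinarith [sq_nonneg (‖hs κ (sx x t) - (h0 κ t : ℂ)‖ * (C * Lg t / x) - ‖Es κ (sx x t)‖)]
  refine b6.trans ?_
  have b7 : ‖hs κ (sx x t) - (h0 κ t : ℂ)‖ ^ 2 * (C * Lg t / x) ^ 2 ≤
      16 * κ ^ 2 / (1 + t ^ 2) * (C * Lg t / x) ^ 2 := mul_le_mul_of_nonneg_right b3 (sq_nonneg _)
  have b8 : 64 * κ ^ 2 / (1 + t ^ 2) ≤ 64 * κ ^ 2 / (1 + t ^ 2) * (Lg t ^ 2 / x ^ 2) := by
    have h3 : 1 ≤ Lg t ^ 2 / x ^ 2 := by
      rw [le_div_iff₀ (by positivity)]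
      nlinarith
    have h4 : 0 ≤ 64 * κ ^ 2 / (1 + t ^ 2) := by positivity
    nlinarith
  have e2 : 16 * κ ^ 2 / (1 + t ^ 2) * (C * Lg t / x) ^ 2 = 16 * C ^ 2 / x ^ 2 * κ ^ 2 * (Lg t ^ 2 / (1 + t ^ 2)) := by
    field_simp
  have e3 : 64 * κ ^ 2 / (1 + t ^ 2) * (Lg t ^ 2 / x ^ 2) = 64 / x ^ 2 * κ ^ 2 * (Lg t ^ 2 / (1 + t ^ 2)) := by
    field_simp
  have b9 : (32 * C ^ 2 + 128) / x ^ 2 * κ ^ 2 * (Lg t ^ 2 / (1 + t ^ 2)) ≤
      (32 * C ^ 2 + 128) / x ^ 2 * κ ^ 2 * w1 t := mul_le_mul_of_nonneg_left b5 (by positivity)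
  refine le_trans ?_ b9
  have e4 : (32 * C ^ 2 + 128) / x ^ 2 * κ ^ 2 * (Lg t ^ 2 / (1 + t ^ 2)) =
      2 * (16 * C ^ 2 / x ^ 2 * κ ^ 2 * (Lg t ^ 2 / (1 + t ^ 2))) +
      2 * (64 / x ^ 2 * κ ^ 2 * (Lg t ^ 2 / (1 + t ^ 2))) := by ring
  rw [e4, ← e2, ← e3]
  linarith

lemma Q_sq (hRH : RiemannHypothesis) : ∃ C : ℝ, 0 < C ∧ ∀ κ x : ℝ, 0 < κ → κ ≤ 1 → 0 < x →
    x ≤ 1 / 4 → ∀ t : ℝ, Qf κ x t ^ 2 ≤ C / x ^ 2 * κ ^ (1 / 2 : ℝ) * w1 t := by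
  obtain ⟨C, hC, hD⟩ := DD_abs hRH
  refine ⟨5 * C ^ 2, by positivity, fun κ x hκ hκ1 hx h1 t => ?_⟩
  unfold Qf
  rw [mul_pow]
  have h2 := pow_le_pow_left₀ (abs_nonneg _) (hD x hx h1 t) 2
  rw [sq_abs] at h2
  calc h0 κ t ^ 2 * DD x t ^ 2 ≤ 5 * (κ ^ (1 / 2 : ℝ) * (1 + t ^ 2) ^ (-(3 / 4) : ℝ)) * (C * Lg t / x) ^ 2 :=
        mul_le_mul (h0_sq hκ hκ1 t) h2 (sq_nonneg _) (by positivity)
    _ = _ := by unfold w1; ring

lemma Qf_cont (hRH : RiemannHypothesis) {κ x : ℝ} (hx : 0 < x) (h1 : x ≤ 1 / 4) :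
    Continuous (Qf κ x) := by
  unfold Qf
  exact (h0_cont κ).mul (DD_cont hRH hx h1)

lemma Qf_int (hRH : RiemannHypothesis) {κ x : ℝ} (hκ : 0 < κ) (hκ1 : κ ≤ 1) (hx : 0 < x)
    (h1 : x ≤ 1 / 4) : Integrable (fun t => Qf κ x t ^ 2) := by
  obtain ⟨C, hC, h⟩ := Q_sq hRH
  refine (w1_int.const_mul (C / x ^ 2 * κ ^ (1 / 2 : ℝ))).mono' ((Qf_cont hRH hx h1).pow 2).aestronglyMeasurable
    (ae_of_all _ fun t => ?_)
  rw [Real.norm_eq_abs, abs_of_nonneg (sq_nonneg _)]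
  exact h κ x hκ hκ1 hx h1 t

/-- **the mean square identity with error term** -/
theorem T1a (hRH : RiemannHypothesis) (h : L2psi) : ∃ C : ℝ, 0 < C ∧ ∀ κ x : ℝ, 0 < κ → κ ≤ 1 / 2 →
    0 < x → x ≤ 1 / 4 →
    |(∫ u in Ioi (0 : ℝ), Dl κ u ^ 2 * Real.exp (-(2 * x * u))) -
      1 / Real.pi * ∫ t, Qf κ x t ^ 2| ≤ C / x ^ 2 * κ ^ (5 / 4 : ℝ) := by
  obtain ⟨C1, hC1, hP⟩ := PQ_sub hRH
  obtain ⟨C2, hC2, hQ⟩ := Q_sq hRH
  set J : ℝ := ∫ t, w1 t with hJ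
  have hJ0 : 0 ≤ J := integral_nonneg w1_nonneg
  have hpi := Real.pi_pos
  have hpi1 : 1 / Real.pi ≤ 1 := by
    rw [div_le_one hpi]; linarith [Real.pi_gt_three]
  refine ⟨4 * (C1 + C2) * (J + 1) * 10 , by positivity, fun κ x hκ hκ2 hx h1 => ?_⟩
  set S : ℝ := ∫ u in Ioi (0 : ℝ), Dl κ u ^ 2 * Real.exp (-(2 * x * u)) with hS
  have hS0 : 0 ≤ S := setIntegral_nonneg measurableSet_Ioi fun u _ => by positivity
  obtain ⟨hPi, hPe⟩ := S_planch h hκ hκ2 hx h1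
  rw [← hS] at hPe
  have hQi := Qf_int hRH hκ (by linarith) hx h1
  set IP : ℝ := ∫ t, Pf κ x t ^ 2 with hIP
  set IQ : ℝ := ∫ t, Qf κ x t ^ 2 with hIQ
  -- the difference
  have hdi : Integrable (fun t => (Pf κ x t - Qf κ x t) ^ 2) := by
    refine (w1_int.const_mul (C1 / x ^ 2 * κ ^ 2)).mono'
      (((Pf_cont hRH hx h1).sub (Qf_cont hRH hx h1)).pow 2).aestronglyMeasurable (ae_of_all _ fun t => ?_)
    rw [Real.norm_eq_abs, abs_of_nonneg (sq_nonneg _)]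
    exact hP κ x hκ hκ2 hx h1 t
  have hD : ∫ t, (Pf κ x t - Qf κ x t) ^ 2 ≤ C1 / x ^ 2 * κ ^ 2 * J := by
    rw [hJ, ← integral_const_mul]
    exact integral_mono hdi (w1_int.const_mul _) fun t => hP κ x hκ hκ2 hx h1 t
  have hIQ0 : 0 ≤ IQ := integral_nonneg fun t => sq_nonneg _
  have hIQ1 : IQ ≤ C2 / x ^ 2 * κ ^ (1 / 2 : ℝ) * J := by
    rw [hJ, ← integral_const_mul]
    exact integral_mono hQi (w1_int.const_mul _) fun t => hQ κ x hκ (by linarith) hx h1 t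
  set η : ℝ := κ ^ (3 / 4 : ℝ) with hη
  have hη0 : 0 < η := by positivity
  have hη1 : η ≤ 1 := Real.rpow_le_one hκ.le (by linarith) (by norm_num)
  have hdiff : |IP - IQ| ≤ η * IQ + (1 + 1 / η) * ∫ t, (Pf κ x t - Qf κ x t) ^ 2 := by
    have hu : ∀ t : ℝ, |Pf κ x t ^ 2 - Qf κ x t ^ 2| ≤
        η * Qf κ x t ^ 2 + (1 + 1 / η) * (Pf κ x t - Qf κ x t) ^ 2 := by
      intro t
      set p := Qf κ x t
      set q := Pf κ x t - p with hq
      have e : Pf κ x t = p + q := by rw [hq]; ring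
      rw [e]
      have h3 : 2 * p * q ≤ η * p ^ 2 + 1 / η * q ^ 2 := by
        have h5 : 0 ≤ (η * p - q) ^ 2 / η := div_nonneg (sq_nonneg _) hη0.le
        have h6 : (η * p - q) ^ 2 / η = η * p ^ 2 - 2 * p * q + 1 / η * q ^ 2 := by
          field_simp
          ring
        linarith
      have h3' : -(2 * p * q) ≤ η * p ^ 2 + 1 / η * q ^ 2 := by
        have h5 : 0 ≤ (η * p + q) ^ 2 / η := div_nonneg (sq_nonneg _) hη0.le
        have h6 : (η * p + q) ^ 2 / η = η * p ^ 2 + 2 * p * q + 1 / η * q ^ 2 := by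
          field_simp
          ring
        linarith
      rw [abs_le]
      constructor <;> nlinarith [sq_nonneg q]
    rw [hIP, hIQ, ← integral_sub hPi hQi, ← integral_const_mul, ← integral_const_mul,
      ← integral_add (hQi.const_mul _) (hdi.const_mul _)]
    refine (abs_integral_le_integral_abs).trans ?_
    exact integral_mono (hPi.sub hQi).abs ((hQi.const_mul _).add (hdi.const_mul _)) hu
  -- powers of κ
  have k1 : η * κ ^ (1 / 2 : ℝ) = κ ^ (5 / 4 : ℝ) := by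
    rw [hη, ← Real.rpow_add hκ]; norm_num
  have k2 : 1 / η * κ ^ 2 = κ ^ (5 / 4 : ℝ) := by
    rw [hη, one_div, ← Real.rpow_neg hκ.le, ← Real.rpow_natCast, ← Real.rpow_add hκ]; norm_num
  have k3 : κ ^ 2 ≤ κ ^ (5 / 4 : ℝ) := by
    rw [← Real.rpow_natCast]
    exact Real.rpow_le_rpow_of_exponent_ge hκ (by linarith) (by norm_num)
  have k4 : κ * κ ^ (1 / 2 : ℝ) ≤ κ ^ (5 / 4 : ℝ) := by
    nth_rewrite 1 [← Real.rpow_one κ]
    rw [← Real.rpow_add hκ]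
    exact Real.rpow_le_rpow_of_exponent_ge hκ (by linarith) (by norm_num)
  have k5 : κ * κ ^ (5 / 4 : ℝ) ≤ κ ^ (5 / 4 : ℝ) := by
    have : 0 ≤ κ ^ (5 / 4 : ℝ) := by positivity
    nlinarith
  set E : ℝ := κ ^ (5 / 4 : ℝ) with hE
  have hE0 : 0 < E := by positivity
  have hX : 0 < 1 / x ^ 2 := by positivity
  have hdiff2 : |IP - IQ| ≤ 2 * (C1 + C2) * J * (1 / x ^ 2) * E := by
    refine hdiff.trans ?_
    have h3 : η * IQ ≤ C2 * J * (1 / x ^ 2) * E := by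
      calc η * IQ ≤ η * (C2 / x ^ 2 * κ ^ (1 / 2 : ℝ) * J) := mul_le_mul_of_nonneg_left hIQ1 hη0.le
        _ = C2 * J * (1 / x ^ 2) * (η * κ ^ (1 / 2 : ℝ)) := by ring
        _ = _ := by rw [k1]
    have h4 : (1 + 1 / η) * (∫ t, (Pf κ x t - Qf κ x t) ^ 2) ≤ 2 * C1 * J * (1 / x ^ 2) * E := by
      calc (1 + 1 / η) * (∫ t, (Pf κ x t - Qf κ x t) ^ 2) ≤ (1 + 1 / η) * (C1 / x ^ 2 * κ ^ 2 * J) :=
            mul_le_mul_of_nonneg_left hD (by positivity)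
        _ = C1 * J * (1 / x ^ 2) * (κ ^ 2 + 1 / η * κ ^ 2) := by ring
        _ ≤ C1 * J * (1 / x ^ 2) * (E + E) := by
            apply mul_le_mul_of_nonneg_left _ (by positivity)
            rw [k2]; linarith
        _ = _ := by ring
    have h5 : 0 ≤ C2 * J * (1 / x ^ 2) * E := by positivity
    have e : 2 * (C1 + C2) * J * (1 / x ^ 2) * E = 2 * C1 * J * (1 / x ^ 2) * E +
      2 * (C2 * J * (1 / x ^ 2) * E) := by ring
    rw [e]
    linarith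
  -- the exponential factor
  set y : ℝ := κ * (1 / 2 + x) with hy
  have hy0 : 0 < y := by positivity
  have hy1 : y ≤ κ := by rw [hy]; nlinarith
  have hSe : S = Real.exp y * (1 / Real.pi * IP) := by
    rw [← hPe, ← mul_assoc, ← Real.exp_add, add_neg_cancel, Real.exp_zero, one_mul]
  have hey := exp_sub_one_le hy0.le (by linarith : y ≤ 1)
  have hey0 : 0 ≤ Real.exp y - 1 := by linarith [Real.one_le_exp hy0.le]
  have hIP0 : 0 ≤ IP := integral_nonneg fun t => sq_nonneg _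
  have e1 : S - 1 / Real.pi * IQ = (Real.exp y - 1) * (1 / Real.pi * IP) + 1 / Real.pi * (IP - IQ) := by
    rw [hSe]; ring
  have hIPle : IP ≤ IQ + 2 * (C1 + C2) * J * (1 / x ^ 2) * E := by
    linarith [(abs_le.1 hdiff2).2]
  have f1 : (Real.exp y - 1) * (1 / Real.pi * IP) ≤ 2 * κ * IP := by
    have : 1 / Real.pi * IP ≤ IP := by nlinarith
    calc (Real.exp y - 1) * (1 / Real.pi * IP) ≤ (2 * κ) * IP :=
          mul_le_mul (by linarith) this (by positivity) (by positivity)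
      _ = _ := rfl
  have f2 : 2 * κ * IP ≤ 2 * (C2 * J * (1 / x ^ 2) * E) + 2 * (2 * (C1 + C2) * J * (1 / x ^ 2) * E) := by
    calc 2 * κ * IP ≤ 2 * κ * (C2 / x ^ 2 * κ ^ (1 / 2 : ℝ) * J + 2 * (C1 + C2) * J * (1 / x ^ 2) * E) :=
          mul_le_mul_of_nonneg_left (by linarith) (by positivity)
      _ = 2 * (C2 * J * (1 / x ^ 2) * (κ * κ ^ (1 / 2 : ℝ))) + 2 * (2 * (C1 + C2) * J * (1 / x ^ 2) * (κ * E)) := by
          ring
      _ ≤ _ := by gcongr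
  have f3 : |1 / Real.pi * (IP - IQ)| ≤ 2 * (C1 + C2) * J * (1 / x ^ 2) * E := by
    rw [abs_mul, abs_of_pos (by positivity : 0 < 1 / Real.pi)]
    calc 1 / Real.pi * |IP - IQ| ≤ 1 * |IP - IQ| := mul_le_mul_of_nonneg_right hpi1 (abs_nonneg _)
      _ ≤ _ := by rw [one_mul]; exact hdiff2
  rw [e1]
  have g0 : 0 ≤ (Real.exp y - 1) * (1 / Real.pi * IP) := by positivity
  refine (abs_add_le _ _).trans ?_
  rw [abs_of_nonneg g0]
  have e5 : 4 * (C1 + C2) * (J + 1) * 10 / x ^ 2 * E = 40 * (C1 * J * (1 / x ^ 2) * E) +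
      40 * (C2 * J * (1 / x ^ 2) * E) + 40 * (C1 + C2) * (1 / x ^ 2) * E := by ring
  rw [e5]
  have g1 : 0 ≤ C1 * J * (1 / x ^ 2) * E := by positivity
  have g2 : 0 ≤ C2 * J * (1 / x ^ 2) * E := by positivity
  have g3 : 0 ≤ 40 * (C1 + C2) * (1 / x ^ 2) * E := by positivity
  have e6 : 2 * (C1 + C2) * J * (1 / x ^ 2) * E = 2 * (C1 * J * (1 / x ^ 2) * E) +
    2 * (C2 * J * (1 / x ^ 2) * E) := by ring
  rw [e6] at f2 f3
  linarith

end Pool.Agent.Q260.GM
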