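import Pool.Agent.Q260.GM.Ta

set_option autoImplicit false

/-!
# Pointwise bounds for the Poisson sums
-/

namespace Pool.Agent.Q260.GM

open MeasureTheory Filter Topology Set
open Pool.Agent.Y23 (Zt mu zsummable zsum_le Lg one_le_Lg)
open Pool.Agent.Y749.Rig (Mp nT nT_pos mm mm_nonneg Mp_integral RR mem_ZZ)

open Classical in
/-- the zeros with ordinate in `(0, T]` -/
noncomputable def FZ (T : ℝ) : Finset Zt :=
  (Pool.Agent.Y749.Rig.ZZ T).subtype (fun s => riemannZeta s = 0 ∧ 0 < s.re ∧ s.re < 1)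

lemma sum_FZ (T : ℝ) (f : ℂ → ℝ) : ∑ ρ ∈ FZ T, f ρ = ∑ s ∈ Pool.Agent.Y749.Rig.ZZ T, f s := by
  classical
  unfold FZ
  refine Finset.sum_subtype_of_mem f fun s hs => ?_
  have := mem_ZZ.1 hs
  exact ⟨this.1, this.2.1, this.2.2.1⟩

lemma mem_FZ {T : ℝ} (ρ : Zt) : ρ ∈ FZ T ↔ 0 ≤ (ρ : ℂ).im ∧ (ρ : ℂ).im ≤ T := by
  classical
  unfold FZ
  rw [Finset.mem_subtype, mem_ZZ]
  constructor
  · intro h; exact ⟨h.2.2.2.1, h.2.2.2.2⟩
  · intro h; exact ⟨ρ.2.1, ρ.2.2.1, ρ.2.2.2, h.1, h.2⟩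

lemma PT_FZ (T x t : ℝ) : PT T x t = ∑ ρ ∈ FZ T, (mu ρ : ℝ) * pk x (t - (ρ : ℂ).im) :=
  (sum_FZ T fun s => mm s * pk x (t - s.im)).symm

lemma fin_le : ∃ K : ℝ, 0 < K ∧ (∀ t : ℝ,
    ∑' ρ : Zt, (mu ρ : ℝ) * (1 / (1 + ((ρ : ℂ).im - t) ^ 2)) ≤ K * Lg t) ∧ ∀ T t : ℝ,
    ∑ s ∈ Pool.Agent.Y749.Rig.ZZ T, mm s * (1 / (1 + (s.im - t) ^ 2)) ≤ K * Lg t := by
  obtain ⟨K, hK, h⟩ := zsum_le
  refine ⟨K, hK, h, fun T t => ?_⟩
  refine le_trans ?_ (h t)
  rw [← sum_FZ T fun s => mm s * (1 / (1 + (s.im - t) ^ 2))]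
  exact (zsummable t).sum_le_tsum _ fun ρ _ => mul_nonneg (Nat.cast_nonneg _) (by positivity)

lemma PT_le_Pz {x : ℝ} (hx : 0 < x) (h1 : x ≤ 1) (T t : ℝ) : PT T x t ≤ Pz x t := by
  rw [PT_FZ, Pz_eq]
  exact (pz_summ hx h1 t).sum_le_tsum _ fun ρ _ => mul_nonneg (Nat.cast_nonneg _) (pk_nonneg hx.le _)

lemma Pz_le {K : ℝ} (hK : ∀ t : ℝ,
    ∑' ρ : Zt, (mu ρ : ℝ) * (1 / (1 + ((ρ : ℂ).im - t) ^ 2)) ≤ K * Lg t) {x : ℝ} (hx : 0 < x)
    (h1 : x ≤ 1) (t : ℝ) : Pz x t ≤ K * Lg t / x := by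
  rw [Pz_eq]
  have h2 : ∑' ρ : Zt, (mu ρ : ℝ) * pk x (t - (ρ : ℂ).im) ≤
      ∑' ρ : Zt, 1 / x * ((mu ρ : ℝ) * (1 / (1 + ((ρ : ℂ).im - t) ^ 2))) := by
    refine (pz_summ hx h1 t).tsum_le_tsum (fun ρ => ?_) ((zsummable t).mul_left _)
    calc (mu ρ : ℝ) * pk x (t - (ρ : ℂ).im) ≤ (mu ρ : ℝ) * (1 / x * (1 / (1 + (t - (ρ : ℂ).im) ^ 2))) :=
          mul_le_mul_of_nonneg_left (pk_le hx h1 _) (Nat.cast_nonneg _)
      _ = _ := by rw [← neg_sub t, neg_sq]; ring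
  rw [tsum_mul_left] at h2
  refine h2.trans ?_
  calc 1 / x * _ ≤ 1 / x * (K * Lg t) := mul_le_mul_of_nonneg_left (hK t) (by positivity)
    _ = _ := by ring

/-- the contribution of the other zeros in the interior is small -/
lemma Pz_out {K : ℝ} (hK : ∀ t : ℝ,
    ∑' ρ : Zt, (mu ρ : ℝ) * (1 / (1 + ((ρ : ℂ).im - t) ^ 2)) ≤ K * Lg t) {x : ℝ} (hx : 0 < x)
    (h1 : x ≤ 1) {T t : ℝ} (ht : 1 ≤ t) (hT : t ≤ T - 1) :
    Pz x t - PT T x t ≤ x * (K * Lg 0 + K * Lg T) := by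
  classical
  have hs := pz_summ hx h1 t
  have e : Pz x t = PT T x t + ∑' ρ : Zt, (if ρ ∈ FZ T then 0 else (mu ρ : ℝ) * pk x (t - (ρ : ℂ).im)) := by
    rw [Pz_eq, PT_FZ]
    have s1 : Summable (fun ρ : Zt => if ρ ∈ FZ T then (mu ρ : ℝ) * pk x (t - (ρ : ℂ).im) else 0) :=
      summable_of_ne_finset_zero (s := FZ T) fun ρ hρ => by rw [if_neg hρ]
    have s2 : Summable (fun ρ : Zt => if ρ ∈ FZ T then 0 else (mu ρ : ℝ) * pk x (t - (ρ : ℂ).im)) :=
      Summable.of_nonneg_of_le (fun ρ => by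
        split_ifs
        · exact le_rfl
        · exact mul_nonneg (Nat.cast_nonneg _) (pk_nonneg hx.le _)) (fun ρ => by
        split_ifs
        · exact mul_nonneg (Nat.cast_nonneg _) (pk_nonneg hx.le _)
        · exact le_rfl) hs
    have e1 : ∑ ρ ∈ FZ T, (mu ρ : ℝ) * pk x (t - (ρ : ℂ).im) =
        ∑' ρ : Zt, if ρ ∈ FZ T then (mu ρ : ℝ) * pk x (t - (ρ : ℂ).im) else 0 := by
      rw [tsum_eq_sum (s := FZ T) fun ρ hρ => by rw [if_neg hρ]]
      refine Finset.sum_congr rfl fun ρ hρ => ?_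
      rw [if_pos hρ]
    rw [e1, ← s1.tsum_add s2]
    refine tsum_congr fun ρ => ?_
    split_ifs <;> simp
  rw [e, add_sub_cancel_left]
  have hb : ∀ ρ : Zt, (if ρ ∈ FZ T then 0 else (mu ρ : ℝ) * pk x (t - (ρ : ℂ).im)) ≤
      x * ((mu ρ : ℝ) * (1 / (1 + ((ρ : ℂ).im - 0) ^ 2)) + (mu ρ : ℝ) * (1 / (1 + ((ρ : ℂ).im - T) ^ 2))) := by
    intro ρ
    set γ := (ρ : ℂ).im with hγ
    have p1 : 0 ≤ (mu ρ : ℝ) * (1 / (1 + (γ - 0) ^ 2)) := mul_nonneg (Nat.cast_nonneg _) (by positivity)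
    have p2 : 0 ≤ (mu ρ : ℝ) * (1 / (1 + (γ - T) ^ 2)) := mul_nonneg (Nat.cast_nonneg _) (by positivity)
    split_ifs with hρ
    · positivity
    · rw [mem_FZ, not_and_or, not_le, not_le] at hρ
      rcases hρ with h | h
      · have h3 : pk x (t - γ) ≤ x * (1 / (1 + (γ - 0) ^ 2)) := by
          unfold pk
          rw [mul_one_div]
          apply div_le_div_of_nonneg_left hx.le (by positivity)
          rw [← hγ] at h
          nlinarith [sq_nonneg x]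
        have h4 := mul_le_mul_of_nonneg_left h3 (Nat.cast_nonneg (mu (ρ : ℂ)) : (0 : ℝ) ≤ _)
        nlinarith
      · have h3 : pk x (t - γ) ≤ x * (1 / (1 + (γ - T) ^ 2)) := by
          unfold pk
          rw [mul_one_div]
          apply div_le_div_of_nonneg_left hx.le (by positivity)
          rw [← hγ] at h
          nlinarith [sq_nonneg x]
        have h4 := mul_le_mul_of_nonneg_left h3 (Nat.cast_nonneg (mu (ρ : ℂ)) : (0 : ℝ) ≤ _)
        nlinarith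
  have hS : Summable (fun ρ : Zt => x * ((mu ρ : ℝ) * (1 / (1 + ((ρ : ℂ).im - 0) ^ 2)) +
      (mu ρ : ℝ) * (1 / (1 + ((ρ : ℂ).im - T) ^ 2)))) := ((zsummable 0).add (zsummable T)).mul_left _
  have s2 : Summable (fun ρ : Zt => if ρ ∈ FZ T then 0 else (mu ρ : ℝ) * pk x (t - (ρ : ℂ).im)) :=
    Summable.of_nonneg_of_le (fun ρ => by
      split_ifs
      · exact le_rfl
      · exact mul_nonneg (Nat.cast_nonneg _) (pk_nonneg hx.le _)) hb hS
  refine (s2.tsum_le_tsum hb hS).trans ?_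
  rw [tsum_mul_left, (zsummable 0).tsum_add (zsummable T)]
  exact mul_le_mul_of_nonneg_left (add_le_add (hK 0) (hK T)) hx.le

/-- outside `[0, T]` -/
lemma PT_edge {K : ℝ} (hK0 : 0 < K) (hK : ∀ t : ℝ,
    ∑' ρ : Zt, (mu ρ : ℝ) * (1 / (1 + ((ρ : ℂ).im - t) ^ 2)) ≤ K * Lg t)
    (hF : ∀ T t : ℝ, ∑ s ∈ Pool.Agent.Y749.Rig.ZZ T, mm s * (1 / (1 + (s.im - t) ^ 2)) ≤ K * Lg t)
    {x : ℝ} (hx : 0 < x) (h1 : x ≤ 1) {T t : ℝ} (hT : 1 ≤ T) (ht : t ∉ Icc 0 T) :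
    PT T x t ≤ 2 * (2 * K * Lg T / x + x * NZ T) * (1 / (1 + t ^ 2) + 1 / (1 + (t - T) ^ 2)) ∧
    PT T x t ^ 2 ≤ 2 * ((2 * K * Lg T / x) ^ 2 + x * (K * Lg T) * (x * NZ T)) *
      (1 / (1 + t ^ 2) + 1 / (1 + (t - T) ^ 2)) := by
  have hL := one_le_Lg T
  have hN := NZ_nonneg T
  have hP := PT_nonneg hx.le T t
  -- the distance to the interval
  obtain ⟨v, hv0, hv1, hv2, hvt⟩ : ∃ v : ℝ, 0 < v ∧ (∀ γ : ℝ, 0 ≤ γ → γ ≤ T → v ^ 2 ≤ (t - γ) ^ 2) ∧
      (1 ≤ v → ∃ c : ℝ, (c = 0 ∨ c = T) ∧ ∀ γ : ℝ, 0 ≤ γ → γ ≤ T → 1 + (γ - c) ^ 2 ≤ (t - γ) ^ 2) ∧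
      1 / (1 + v ^ 2) ≤ 1 / (1 + t ^ 2) + 1 / (1 + (t - T) ^ 2) ∧ (v < 1 → |t| ≤ 1 + T) := by
    rw [mem_Icc, not_and_or, not_le, not_le] at ht
    rcases ht with h | h
    · refine ⟨-t, by linarith, fun γ g0 g1 => by nlinarith, fun hv => ⟨0, Or.inl rfl, fun γ g0 g1 => by nlinarith⟩,
        ?_, fun hv => ?_⟩
      · rw [neg_sq]
        have : 0 ≤ 1 / (1 + (t - T) ^ 2) := by positivity
        linarith
      · rw [abs_of_neg h]; linarith
    · refine ⟨t - T, by linarith, fun γ g0 g1 => by nlinarith, fun hv => ⟨T, Or.inr rfl, fun γ g0 g1 => by nlinarith⟩,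
        ?_, fun hv => ?_⟩
      · have : 0 ≤ 1 / (1 + t ^ 2) := by positivity
        linarith
      · rw [abs_of_pos (by linarith)]; linarith
  obtain ⟨hvt, hvl⟩ := hvt
  set W := 1 / (1 + t ^ 2) + 1 / (1 + (t - T) ^ 2) with hW
  have hW0 : 0 ≤ W := by positivity
  have hA : 0 ≤ 2 * K * Lg T / x := by positivity
  rcases lt_or_ge v 1 with hv | hv
  · have h2 := (PT_le_Pz hx h1 T t).trans (Pz_le hK hx h1 t)
    have h3 : Lg t ≤ 2 * Lg T := by
      have h4 : 3 + |t| ≤ (3 + |T|) ^ 2 := by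
        have := hvl hv
        have := le_abs_self T
        nlinarith
      have h5 := Real.log_le_log (by positivity) h4
      rw [Real.log_pow] at h5
      exact_mod_cast h5
    have h4 : PT T x t ≤ 2 * K * Lg T / x := by
      refine h2.trans ?_
      apply div_le_div_of_nonneg_right _ hx.le
      nlinarith
    have h5 : 1 / 2 ≤ W := by
      refine le_trans ?_ hvt
      rw [div_le_div_iff₀ two_pos (by positivity)]
      nlinarith
    constructor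
    · have : 0 ≤ x * NZ T := by positivity
      nlinarith
    · have h6 : PT T x t ^ 2 ≤ (2 * K * Lg T / x) ^ 2 := pow_le_pow_left₀ hP h4 2
      have : 0 ≤ x * (K * Lg T) * (x * NZ T) := by positivity
      nlinarith
  · have h2 : PT T x t ≤ x * NZ T * (1 / v ^ 2) := by
      unfold PT NZ
      rw [Finset.mul_sum, Finset.sum_mul]
      refine Finset.sum_le_sum fun s hs => ?_
      have hz := mem_ZZ.1 hs
      have h3 : pk x (t - s.im) ≤ x * (1 / v ^ 2) := by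
        unfold pk
        rw [mul_one_div]
        apply div_le_div_of_nonneg_left hx.le (by positivity)
        have := hv1 s.im hz.2.2.2.1 hz.2.2.2.2
        nlinarith [sq_nonneg x]
      have := mul_le_mul_of_nonneg_left h3 (mm_nonneg s)
      linarith
    obtain ⟨c, hc, hc2⟩ := hv2 hv
    have hc3 : Lg c ≤ Lg T := by
      rcases hc with rfl | rfl
      · unfold Lg
        apply Real.log_le_log (by positivity)
        simp
      · exact le_rfl
    have h3 : PT T x t ≤ x * (K * Lg T) := by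
      have h4 : PT T x t ≤ x * ∑ s ∈ Pool.Agent.Y749.Rig.ZZ T, mm s * (1 / (1 + (s.im - c) ^ 2)) := by
        unfold PT
        rw [Finset.mul_sum]
        refine Finset.sum_le_sum fun s hs => ?_
        have hz := mem_ZZ.1 hs
        have h3 : pk x (t - s.im) ≤ x * (1 / (1 + (s.im - c) ^ 2)) := by
          unfold pk
          rw [mul_one_div]
          apply div_le_div_of_nonneg_left hx.le (by positivity)
          have := hc2 s.im hz.2.2.2.1 hz.2.2.2.2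
          nlinarith [sq_nonneg x]
        have := mul_le_mul_of_nonneg_left h3 (mm_nonneg s)
        linarith
      refine h4.trans (mul_le_mul_of_nonneg_left ?_ hx.le)
      refine (hF T c).trans ?_
      exact mul_le_mul_of_nonneg_left hc3 hK0.le
    have h4 : 1 / v ^ 2 ≤ 2 * W := by
      have : 1 / v ^ 2 ≤ 2 * (1 / (1 + v ^ 2)) := by
        rw [mul_one_div, div_le_div_iff₀ (by positivity) (by positivity)]
        nlinarith
      linarith
    constructor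
    · have : x * NZ T * (1 / v ^ 2) ≤ x * NZ T * (2 * W) := mul_le_mul_of_nonneg_left h4 (by positivity)
      have h6 : 0 ≤ 2 * K * Lg T / x * W := by positivity
      nlinarith
    · have h5 : PT T x t ^ 2 ≤ x * (K * Lg T) * (x * NZ T * (1 / v ^ 2)) := by
        rw [sq]
        exact mul_le_mul h3 h2 hP (by positivity)
      have h6 : x * (K * Lg T) * (x * NZ T * (1 / v ^ 2)) ≤ x * (K * Lg T) * (x * NZ T * (2 * W)) := by
        apply mul_le_mul_of_nonneg_left _ (by positivity)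
        exact mul_le_mul_of_nonneg_left h4 (by positivity)
      have h7 : 0 ≤ (2 * K * Lg T / x) ^ 2 * W := by positivity
      nlinarith

end Pool.Agent.Q260.GM
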