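import Pool.Agent.Q260.GM.Wd
import Pool.Agent.Q296.GM.Rh
import Pool.Agent.Q241.HF.Fin
import Pool.Agent.Q128.GM.Weak

set_option autoImplicit false

/-!
# The equivalence
-/

namespace Pool.Agent.Q260.GM

open MeasureTheory Filter Topology Set
open Pool.Agent.Y749.Rig (Mp Weak mG)
open Q241.OP.G (Mont)

/-- **from the upper bound for primes to the zeros** -/
theorem fwd (h : UH) : RiemannHypothesis ∧ Mont := by
  have hk := UHk_of_UH h
  have hL2 : L2psi := Pool.Agent.Q213.GM.L2_of_upper fun b hb =>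
    ⟨b - 1 + 1, by
      filter_upwards [hk 1 b le_rfl hb 1 one_pos] with κ h1
      rw [one_mul] at h1
      exact h1⟩
  have hRH : RiemannHypothesis := Pool.Agent.Q213.GM.rh_of_L2 hL2
  have hw : Weak atTop := Pool.Agent.Q128.GM.weak_of_ra fun a ha => by
    rw [Pool.Agent.Q96.GM.mG_ra ha]
    exact ra_lim hRH hL2 hk ha
  exact ⟨hRH, Q241.OP.G.Mont_of fun x => Pool.Agent.Y749.Rig.Aa_lim le_rfl hw x⟩

/-- **from the zeros to the primes** -/
theorem bwd (hRH : RiemannHypothesis) (hM : Mont) {a b : ℝ} (ha : 0 < a) (hab : a < b) :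
    Tendsto (fun T => T / Real.log T ^ 2 * JJ T a b) atTop (𝓝 (∫ α in a..b, mn α)) := by
  have hL2 := Pool.Agent.Q296.GM.L2_of_rh hRH
  have hw : Weak atTop := Pool.Agent.Y749.Rig.weak_win le_rfl fun α β hαβ =>
    Pool.Agent.Y744.Nr_all le_rfl (Q241.HF.Aa_of_Mont hM) hαβ
  have hR : ∀ a : ℝ, 0 < a → Tendsto (fun T => ∫ x, ra a x ∂(Mp T)) atTop (𝓝 (1 + 2 * MM a)) := by
    intro a ha
    rw [← Pool.Agent.Q96.GM.mG_ra ha]
    exact hw (ra a) (ra_cont ha) (ra_qd ha)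
  exact JJ_lim (fun c d hc hcd => win_lim hL2 (fun a ha => SS_lim hRH hL2 hR ha) hc hcd) ha hab

theorem main : (UH ↔ RiemannHypothesis ∧ Mont) ∧ (UL ↔ RiemannHypothesis ∧ Mont) ∧
    (UH → ∀ a b : ℝ, 0 < a → a < b →
      Tendsto (fun T => T / Real.log T ^ 2 * JJ T a b) atTop (𝓝 (∫ α in a..b, min α 1))) := by
  have hb : RiemannHypothesis ∧ Mont → UL := fun h a b ha hab => by
    have := bwd h.1 h.2 (by linarith : 0 < a) hab
    rwa [mn_high ha hab.le] at this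
  exact ⟨⟨fwd, fun h => UH_of_UL (hb h)⟩, ⟨fun h => fwd (UH_of_UL h), hb⟩,
    fun h a b ha hab => bwd (fwd h).1 (fwd h).2 ha hab⟩

end Pool.Agent.Q260.GM
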