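import Pool.Agent.Q260.GM.DefsA
import Pool.Agent.Y749.Rig.FFe
import Pool.Agent.Q260.LF.PF

set_option autoImplicit false

/-!
# Primes in short intervals and pairs of zeros: definitions
-/

namespace Pool.Agent.Q260.GM

open MeasureTheory Filter Topology Set Complex
open Pool.Agent.Y23 (Zt mu)

/-- the sum of the Poisson kernels `x / (x² + (t - γ)²)` over all nontrivial zeros -/
noncomputable def Pz (x t : ℝ) : ℝ :=
  ∑' ρ : Zt, (mu ρ : ℝ) * (x / (x ^ 2 + (t - (ρ : ℂ).im) ^ 2))

end Pool.Agent.Q260.GM
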