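import Pool.Agent.Q260.GM.DefsA
import Pool.Agent.H385R2.Mert

/-!
Primes in short intervals, the elementary range (lemma job J5 of helper260).
-/

set_option autoImplicit false
set_option linter.unusedVariables false

namespace Pool.Agent.Q96.GM

open Pool.Agent.Q260.GM MeasureTheory Filter Topology



/-- Mertens, with weight `log n`, upper bound on intervals, and squares of `ArithmeticFunction.vonMangoldt` -/
lemma sum_sq_le {N M : ℕ} (hN : 1 ≤ N) (hNM : N ≤ M) :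
    ∑ n ∈ Finset.Ioc N M, ArithmeticFunction.vonMangoldt n ^ 2 / n ≤
      (Real.log M ^ 2 - Real.log N ^ 2) / 2 + 13 * Real.log M + 13 * Real.log N := by
  have key : ∀ K : ℕ, 1 ≤ K →
      |∑ n ∈ Finset.Icc 1 K, ArithmeticFunction.vonMangoldt n / n * Real.log n - Real.log K ^ 2 / 2| ≤ 13 * Real.log K := by
    intro K hK
    have h1 := H385.mert_abel (fun n => ArithmeticFunction.vonMangoldt n / n) 6 1 (by norm_num) zero_le_one
      (fun m hm => H385.mert_sum m hm) (fun s => s) continuous_id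
      (fun x y _ _ => by rw [one_mul]) K hK
    rw [integral_id] at h1
    have h2 := H385.mert_sum K hK
    have hlog : 0 ≤ Real.log K := Real.log_natCast_nonneg K
    have h3 : |(∑ n ∈ Finset.Icc 1 K, ArithmeticFunction.vonMangoldt n / n - Real.log K) * Real.log K| ≤ 6 * Real.log K := by
      rw [abs_mul, abs_of_nonneg hlog]
      exact mul_le_mul_of_nonneg_right h2 hlog
    rw [abs_le] at h1 h3 ⊢
    constructor <;> nlinarith [h1.1, h1.2, h3.1, h3.2]
  have hM := key M (hN.trans hNM)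
  have hN' := key N hN
  have h1 : ∑ n ∈ Finset.Ioc N M, ArithmeticFunction.vonMangoldt n ^ 2 / n ≤ ∑ n ∈ Finset.Ioc N M, ArithmeticFunction.vonMangoldt n / n * Real.log n := by
    refine Finset.sum_le_sum fun n hn => ?_
    have hn1 : 0 < n := lt_of_lt_of_le (by omega) (Finset.mem_Ioc.1 hn).1.le
    have hn0 : (0 : ℝ) < n := by exact_mod_cast hn1
    have h2 : 0 ≤ ArithmeticFunction.vonMangoldt n := ArithmeticFunction.vonMangoldt_nonneg
    have h3 : ArithmeticFunction.vonMangoldt n ≤ Real.log n := ArithmeticFunction.vonMangoldt_le_log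
    have h4 : ArithmeticFunction.vonMangoldt n ^ 2 / n = ArithmeticFunction.vonMangoldt n / n * ArithmeticFunction.vonMangoldt n := by ring
    rw [h4]
    exact mul_le_mul_of_nonneg_left h3 (div_nonneg h2 hn0.le)
  have h2 : ∑ n ∈ Finset.Ioc N M, ArithmeticFunction.vonMangoldt n / n * Real.log n =
      ∑ n ∈ Finset.Icc 1 M, ArithmeticFunction.vonMangoldt n / n * Real.log n - ∑ n ∈ Finset.Icc 1 N, ArithmeticFunction.vonMangoldt n / n * Real.log n := by
    have h3 : Finset.Icc 1 M = Finset.Icc 1 N ∪ Finset.Ioc N M := by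
      ext n
      simp only [Finset.mem_union, Finset.mem_Icc, Finset.mem_Ioc]
      omega
    rw [h3, Finset.sum_union]
    · ring
    · rw [Finset.disjoint_left]
      intro n hn hn'
      have := (Finset.mem_Icc.1 hn).2
      have := (Finset.mem_Ioc.1 hn').1
      omega
  rw [abs_le] at hM hN'
  linarith [hM.2, hN'.1]

/-- the prime sum -/
lemma psi_sub {x y : ℝ} (h : x ≤ y) :
    Chebyshev.psi y - Chebyshev.psi x = ∑ n ∈ Finset.Ioc ⌊x⌋₊ ⌊y⌋₊, ArithmeticFunction.vonMangoldt n := by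
  unfold Chebyshev.psi
  have hf : ⌊x⌋₊ ≤ ⌊y⌋₊ := Nat.floor_mono h
  have h3 : Finset.Ioc 0 ⌊y⌋₊ = Finset.Ioc 0 ⌊x⌋₊ ∪ Finset.Ioc ⌊x⌋₊ ⌊y⌋₊ := by
    ext n
    simp only [Finset.mem_union, Finset.mem_Ioc]
    omega
  rw [h3, Finset.sum_union]
  · ring
  · rw [Finset.disjoint_left]
    intro n hn hn'
    have := (Finset.mem_Ioc.1 hn).2
    have := (Finset.mem_Ioc.1 hn').1
    omega

lemma card_le {x y : ℝ} (hx : 0 ≤ x) {k : ℕ} (h : y - x ≤ k) :
    (Finset.Ioc ⌊x⌋₊ ⌊y⌋₊).card ≤ k := by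
  rw [Nat.card_Ioc]
  have h1 : ⌊y⌋₊ ≤ ⌊x + k⌋₊ := Nat.floor_mono (by linarith)
  rw [Nat.floor_add_natCast hx] at h1
  omega

/-- the majorant -/
noncomputable def HH (κ a b u : ℝ) : ℝ :=
  ∑ n ∈ Finset.Ioc ⌊Real.exp a⌋₊ ⌊Real.exp (b + κ)⌋₊, ArithmeticFunction.vonMangoldt n ^ 2 *
    (Set.Ico (Real.log n - κ) (Real.log n)).indicator (fun u => Real.exp (-u)) u

lemma Dl_sq (κ u : ℝ) : Dl κ u ^ 2 = Real.exp (-u) *
    (Chebyshev.psi (Real.exp (u + κ)) - Chebyshev.psi (Real.exp u) -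
      (Real.exp κ - 1) * Real.exp u) ^ 2 := by
  unfold Dl ph
  have h1 : Real.exp (-u) = Real.exp (-(u / 2)) ^ 2 := by
    rw [← Real.exp_nat_mul]; congr 1; push_cast; ring
  rw [h1, mul_pow]
  congr 2
  rw [Real.exp_add]
  ring

lemma Dl_sq_le {κ a b u : ℝ} (hκ : 0 < κ) (hau : a ≤ u) (hub : u ≤ b) {k : ℕ}
    (hk : Real.exp (u + κ) - Real.exp u ≤ k) :
    Dl κ u ^ 2 ≤ k * HH κ a b u + (Real.exp κ - 1) ^ 2 * Real.exp u := by
  have hle : Real.exp u ≤ Real.exp (u + κ) := Real.exp_le_exp.2 (by linarith)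
  rw [Dl_sq, psi_sub hle]
  set S := Finset.Ioc ⌊Real.exp u⌋₊ ⌊Real.exp (u + κ)⌋₊ with hS
  set P := ∑ n ∈ S, ArithmeticFunction.vonMangoldt n with hP
  set E := (Real.exp κ - 1) * Real.exp u with hE
  have hP0 : 0 ≤ P := Finset.sum_nonneg fun n _ => ArithmeticFunction.vonMangoldt_nonneg
  have hE0 : 0 ≤ E := mul_nonneg (by linarith [Real.add_one_le_exp κ]) (Real.exp_pos u).le
  have h1 : (P - E) ^ 2 ≤ P ^ 2 + E ^ 2 := by nlinarith [mul_nonneg hP0 hE0]
  have h2 : Real.exp (-u) * E ^ 2 = (Real.exp κ - 1) ^ 2 * Real.exp u := by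
    rw [hE, mul_pow, sq (Real.exp u), Real.exp_neg]
    field_simp
  have h3 : P ^ 2 ≤ k * ∑ n ∈ S, ArithmeticFunction.vonMangoldt n ^ 2 := by
    refine sq_sum_le_card_mul_sum_sq.trans ?_
    refine mul_le_mul_of_nonneg_right ?_ (Finset.sum_nonneg fun n _ => sq_nonneg _)
    exact_mod_cast card_le (Real.exp_pos u).le hk
  have h4 : Real.exp (-u) * ∑ n ∈ S, ArithmeticFunction.vonMangoldt n ^ 2 ≤ HH κ a b u := by
    unfold HH
    have hsub : S ⊆ Finset.Ioc ⌊Real.exp a⌋₊ ⌊Real.exp (b + κ)⌋₊ := by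
      rw [hS]
      exact Finset.Ioc_subset_Ioc (Nat.floor_mono (Real.exp_le_exp.2 hau))
        (Nat.floor_mono (Real.exp_le_exp.2 (by linarith)))
    refine le_trans ?_ (Finset.sum_le_sum_of_subset_of_nonneg hsub fun n _ _ =>
      mul_nonneg (sq_nonneg _) (Set.indicator_nonneg (fun x _ => (Real.exp_pos _).le) _))
    rw [Finset.mul_sum]
    refine Finset.sum_le_sum fun n hn => ?_
    have hn1 := (Finset.mem_Ioc.1 hn).1
    have hn2 := (Finset.mem_Ioc.1 hn).2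
    have hn0 : 0 < n := by omega
    have hn0' : (0 : ℝ) < n := by exact_mod_cast hn0
    have h5 : Real.exp u < n := (Nat.floor_lt (Real.exp_pos u).le).1 hn1
    have h6 : (n : ℝ) ≤ Real.exp (u + κ) := (Nat.le_floor_iff (Real.exp_pos _).le).1 hn2
    have h7 : u < Real.log n := by rwa [Real.lt_log_iff_exp_lt hn0']
    have h8 : Real.log n ≤ u + κ := by rwa [Real.log_le_iff_le_exp hn0']
    rw [Set.indicator_of_mem (show u ∈ Set.Ico (Real.log n - κ) (Real.log n) from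
      ⟨by linarith, h7⟩)]
    rw [mul_comm]
  calc Real.exp (-u) * (P - E) ^ 2 ≤ Real.exp (-u) * (P ^ 2 + E ^ 2) :=
        mul_le_mul_of_nonneg_left h1 (Real.exp_pos _).le
    _ = Real.exp (-u) * P ^ 2 + (Real.exp κ - 1) ^ 2 * Real.exp u := by rw [mul_add, h2]
    _ ≤ Real.exp (-u) * (k * ∑ n ∈ S, ArithmeticFunction.vonMangoldt n ^ 2) + (Real.exp κ - 1) ^ 2 * Real.exp u := by
        gcongr
    _ = k * (Real.exp (-u) * ∑ n ∈ S, ArithmeticFunction.vonMangoldt n ^ 2) + (Real.exp κ - 1) ^ 2 * Real.exp u := by ring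
    _ ≤ _ := by gcongr

lemma integral_ind {κ : ℝ} (hκ : 0 < κ) {n : ℕ} (hn : 0 < n) :
    Integrable ((Set.Ico (Real.log n - κ) (Real.log n)).indicator (fun u => Real.exp (-u))) ∧
    ∫ u, (Set.Ico (Real.log n - κ) (Real.log n)).indicator (fun u => Real.exp (-u)) u =
      (Real.exp κ - 1) / n := by
  have hn0 : (0 : ℝ) < n := by exact_mod_cast hn
  have hc : Continuous fun u : ℝ => Real.exp (-u) := by fun_prop
  constructor
  · rw [integrable_indicator_iff measurableSet_Ico]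
    exact (hc.integrableOn_Icc).mono_set Set.Ico_subset_Icc_self
  · rw [integral_indicator measurableSet_Ico, integral_Ico_eq_integral_Ioc,
      ← intervalIntegral.integral_of_le (by linarith)]
    rw [intervalIntegral.integral_comp_neg (f := fun u => Real.exp u), integral_exp, neg_sub,
      Real.exp_sub, Real.exp_neg, Real.exp_log hn0]
    ring

lemma HH_integrable {κ : ℝ} (hκ : 0 < κ) (a b : ℝ) : Integrable (HH κ a b) := by
  unfold HH
  refine integrable_finsetSum _ fun n hn => ?_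
  have hn0 : 0 < n := lt_of_le_of_lt (Nat.zero_le _) (Finset.mem_Ioc.1 hn).1
  exact (integral_ind hκ hn0).1.const_mul _

lemma HH_nonneg (κ a b u : ℝ) : 0 ≤ HH κ a b u :=
  Finset.sum_nonneg fun n _ => mul_nonneg (sq_nonneg _)
    (Set.indicator_nonneg (fun x _ => (Real.exp_pos _).le) _)

lemma HH_integral_le {κ a b : ℝ} (hκ : 0 < κ) (hκ1 : κ ≤ 1) (ha : 0 ≤ a) (hab : a ≤ b) :
    ∫ u in a..b, HH κ a b u ≤ (Real.exp κ - 1) * ((b ^ 2 - a ^ 2) / 2 + 28 * (b + 1)) := by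
  rw [intervalIntegral.integral_of_le hab]
  refine (setIntegral_le_integral (HH_integrable hκ a b)
    (Eventually.of_forall fun u => HH_nonneg κ a b u)).trans ?_
  set N := ⌊Real.exp a⌋₊ with hN
  set M := ⌊Real.exp (b + κ)⌋₊ with hM
  have hN1 : 1 ≤ N := by
    rw [hN, Nat.one_le_floor_iff]; exact Real.one_le_exp ha
  have hNM : N ≤ M := Nat.floor_mono (Real.exp_le_exp.2 (by linarith))
  have h1 : ∫ u, HH κ a b u = (Real.exp κ - 1) * ∑ n ∈ Finset.Ioc N M, ArithmeticFunction.vonMangoldt n ^ 2 / n := by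
    unfold HH
    rw [integral_finsetSum, Finset.mul_sum]
    · refine Finset.sum_congr rfl fun n hn => ?_
      have hn0 : 0 < n := lt_of_le_of_lt (Nat.zero_le _) (Finset.mem_Ioc.1 hn).1
      rw [integral_const_mul, (integral_ind hκ hn0).2]
      ring
    · intro n hn
      have hn0 : 0 < n := lt_of_le_of_lt (Nat.zero_le _) (Finset.mem_Ioc.1 hn).1
      exact (integral_ind hκ hn0).1.const_mul _
  rw [h1]
  have he : 0 ≤ Real.exp κ - 1 := by linarith [Real.add_one_le_exp κ]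
  refine mul_le_mul_of_nonneg_left ?_ he
  refine (sum_sq_le hN1 hNM).trans ?_
  have hN0 : (0 : ℝ) < N := by exact_mod_cast hN1
  have hM0 : (0 : ℝ) < M := by exact_mod_cast hN1.trans hNM
  have hNe : (N : ℝ) ≤ Real.exp a := Nat.floor_le (Real.exp_pos a).le
  have hMe : (M : ℝ) ≤ Real.exp (b + κ) := Nat.floor_le (Real.exp_pos _).le
  have hlM : Real.log M ≤ b + 1 := by
    rw [Real.log_le_iff_le_exp hM0]
    exact hMe.trans (Real.exp_le_exp.2 (by linarith))
  have hlN : Real.log N ≤ a := by rw [Real.log_le_iff_le_exp hN0]; exact hNe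
  have hlN0 : 0 ≤ Real.log N := Real.log_natCast_nonneg N
  have hlM0 : 0 ≤ Real.log M := Real.log_natCast_nonneg M
  have hlN' : a - 1 ≤ Real.log N := by
    rw [Real.le_log_iff_exp_le hN0]
    have h2 : Real.exp a < N + 1 := Nat.lt_floor_add_one _
    have h3 : (1 : ℝ) ≤ N := by exact_mod_cast hN1
    have h4 : Real.exp (a - 1) * Real.exp 1 = Real.exp a := by
      rw [← Real.exp_add]; congr 1; ring
    have h5 : (2 : ℝ) ≤ Real.exp 1 := by linarith [Real.add_one_le_exp (1 : ℝ)]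
    have h6 : 0 < Real.exp (a - 1) := Real.exp_pos _
    nlinarith
  have h7 : a ^ 2 - 2 * a ≤ Real.log N ^ 2 := by
    rcases le_total a 1 with h | h
    · nlinarith [sq_nonneg (Real.log N)]
    · nlinarith
  have h8 : Real.log M ^ 2 ≤ (b + 1) ^ 2 := by nlinarith
  nlinarith

lemma ph_bound {w B : ℝ} (h : w ≤ B) : |ph w| ≤ Chebyshev.psi (Real.exp B) + Real.exp B := by
  unfold ph
  have h1 : 0 ≤ Chebyshev.psi (Real.exp w) :=
    Finset.sum_nonneg fun n _ => ArithmeticFunction.vonMangoldt_nonneg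
  have h2 : Chebyshev.psi (Real.exp w) ≤ Chebyshev.psi (Real.exp B) :=
    Chebyshev.psi_mono (Real.exp_le_exp.2 h)
  have h3 : Real.exp w ≤ Real.exp B := Real.exp_le_exp.2 h
  have h4 := Real.exp_pos w
  rw [abs_le]
  constructor <;> linarith

lemma measurable_ph : Measurable ph := by
  unfold ph
  exact ((Chebyshev.psi_mono).measurable.comp Real.measurable_exp).sub Real.measurable_exp

lemma measurable_Dl (κ : ℝ) : Measurable (Dl κ) := by
  unfold Dl
  refine Measurable.mul (by fun_prop) ?_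
  exact (measurable_ph.comp (measurable_id.add_const κ)).sub measurable_ph

lemma Dl_intervalIntegrable {κ a b : ℝ} (hκ : 0 < κ) (ha : 0 ≤ a) (hab : a ≤ b) :
    IntervalIntegrable (fun u => Dl κ u ^ 2) volume a b := by
  rw [intervalIntegrable_iff_integrableOn_Icc_of_le hab]
  set B0 := Chebyshev.psi (Real.exp (b + κ)) + Real.exp (b + κ) with hB0
  refine Measure.integrableOn_of_bounded (M := (2 * B0) ^ 2) (by
    rw [Real.volume_Icc]; exact ENNReal.ofReal_ne_top)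
    ((measurable_Dl κ).pow_const 2).aestronglyMeasurable ?_
  rw [ae_restrict_iff' measurableSet_Icc]
  refine Eventually.of_forall fun u hu => ?_
  have h1 := ph_bound (show u ≤ b + κ by linarith [hu.2])
  have h2 := ph_bound (show u + κ ≤ b + κ by linarith [hu.2])
  have h3 : |Dl κ u| ≤ 2 * B0 := by
    unfold Dl
    rw [abs_mul, abs_of_pos (Real.exp_pos _)]
    have h4 : Real.exp (-(u / 2)) ≤ 1 := Real.exp_le_one_iff.2 (by linarith [hu.1])
    have h5 : |ph (u + κ) - ph u| ≤ 2 * B0 := by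
      have := abs_sub (ph (u + κ)) (ph u)
      linarith
    calc Real.exp (-(u / 2)) * |ph (u + κ) - ph u| ≤ 1 * (2 * B0) :=
          mul_le_mul h4 h5 (abs_nonneg _) zero_le_one
      _ = 2 * B0 := one_mul _
  rw [Real.norm_eq_abs, abs_pow]
  exact pow_le_pow_left₀ (abs_nonneg _) h3 2

/-- the bound on an interval where short intervals contain at most `k` integers -/
lemma Dl_integral_le {κ a b : ℝ} (hκ : 0 < κ) (hκ1 : κ ≤ 1) (ha : 0 ≤ a) (hab : a ≤ b) {k : ℕ}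
    (hk : Real.exp b * (Real.exp κ - 1) ≤ k) :
    ∫ u in a..b, Dl κ u ^ 2 ≤ k * ((Real.exp κ - 1) * ((b ^ 2 - a ^ 2) / 2 + 28 * (b + 1))) +
      (Real.exp κ - 1) ^ 2 * Real.exp b := by
  have he : 0 ≤ Real.exp κ - 1 := by linarith [Real.add_one_le_exp κ]
  have hi1 : IntervalIntegrable (HH κ a b) volume a b := (HH_integrable hκ a b).intervalIntegrable
  have hi2 : IntervalIntegrable (fun u => (Real.exp κ - 1) ^ 2 * Real.exp u) volume a b :=
    (by fun_prop : Continuous fun u => (Real.exp κ - 1) ^ 2 * Real.exp u).intervalIntegrable _ _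
  have h1 : ∫ u in a..b, Dl κ u ^ 2 ≤
      ∫ u in a..b, (k * HH κ a b u + (Real.exp κ - 1) ^ 2 * Real.exp u) := by
    refine intervalIntegral.integral_mono_on hab (Dl_intervalIntegrable hκ ha hab)
      ((hi1.const_mul _).add hi2) fun u hu => ?_
    refine Dl_sq_le hκ hu.1 hu.2 ?_
    refine le_trans ?_ hk
    rw [Real.exp_add]
    have h2 : Real.exp u ≤ Real.exp b := Real.exp_le_exp.2 hu.2
    nlinarith
  rw [intervalIntegral.integral_add (hi1.const_mul _) hi2, intervalIntegral.integral_const_mul,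
    intervalIntegral.integral_const_mul, integral_exp] at h1
  have h2 := HH_integral_le hκ hκ1 ha hab
  have h3 : (k : ℝ) * ∫ u in a..b, HH κ a b u ≤
      k * ((Real.exp κ - 1) * ((b ^ 2 - a ^ 2) / 2 + 28 * (b + 1))) :=
    mul_le_mul_of_nonneg_left h2 (Nat.cast_nonneg k)
  have h4 : (Real.exp κ - 1) ^ 2 * (Real.exp b - Real.exp a) ≤
      (Real.exp κ - 1) ^ 2 * Real.exp b := by
    have := Real.exp_pos a
    exact mul_le_mul_of_nonneg_left (by linarith) (sq_nonneg _)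
  linarith

/-- **J5.** The elementary range of the variance of primes in short intervals. -/
theorem primes_low {c d : ℝ} (hc : 0 ≤ c) (hcd : c < d) (hd : d ≤ 1) {ε : ℝ} (hε : 0 < ε) :
    ∀ᶠ κ : ℝ in 𝓝[>] 0, ∫ u in (c * Real.log (1 / κ))..(d * Real.log (1 / κ)), Dl κ u ^ 2 ≤
      ((d ^ 2 - c ^ 2) / 2 + ε) * (κ * Real.log (1 / κ) ^ 2) := by
  obtain ⟨d', hcd', hdd', hd'⟩ : ∃ d', c < d' ∧ d' < d ∧ (d ^ 2 - d' ^ 2) / 2 ≤ ε / 4 := by
    refine ⟨max ((c + d) / 2) (d - ε / 8), ?_, ?_, ?_⟩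
    · exact lt_of_lt_of_le (by linarith) (le_max_left _ _)
    · exact max_lt (by linarith) (by linarith)
    · have h1 : d - ε / 8 ≤ max ((c + d) / 2) (d - ε / 8) := le_max_right _ _
      have h2 : max ((c + d) / 2) (d - ε / 8) < d := max_lt (by linarith) (by linarith)
      have h3 : 0 ≤ max ((c + d) / 2) (d - ε / 8) := le_trans (by linarith) (le_max_left _ _)
      nlinarith
  have hd'1 : d' < 1 := by linarith
  have hL : Tendsto (fun κ : ℝ => Real.log (1 / κ)) (𝓝[>] 0) atTop := by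
    have h1 : Tendsto (fun κ : ℝ => 1 / κ) (𝓝[>] 0) atTop :=
      tendsto_inv_nhdsGT_zero.congr fun κ => (one_div κ).symm
    exact Real.tendsto_log_atTop.comp h1
  have hv : Tendsto (fun κ : ℝ => (Real.log (1 / κ))⁻¹) (𝓝[>] 0) (𝓝 0) :=
    tendsto_inv_atTop_zero.comp hL
  have hκ0 : Tendsto (fun κ : ℝ => κ) (𝓝[>] 0) (𝓝 0) := nhdsWithin_le_nhds
  set D := (d ^ 2 - c ^ 2) / 2 with hD
  have hlim : Tendsto (fun κ : ℝ => (1 + κ) * ((D + ε / 4) + 84 * ((Real.log (1 / κ))⁻¹ +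
      (Real.log (1 / κ))⁻¹ ^ 2)) + 2 * (1 + κ) ^ 2 * (Real.log (1 / κ))⁻¹ ^ 2) (𝓝[>] 0)
      (𝓝 ((1 + 0) * ((D + ε / 4) + 84 * (0 + 0 ^ 2)) + 2 * (1 + 0) ^ 2 * 0 ^ 2)) := by
    have h1 : Tendsto (fun κ : ℝ => 1 + κ) (𝓝[>] 0) (𝓝 (1 + 0)) := tendsto_const_nhds.add hκ0
    exact (h1.mul (tendsto_const_nhds.add ((hv.add (hv.pow 2)).const_mul 84))).add
      (((h1.pow 2).const_mul 2).mul (hv.pow 2))
  have hlt : (1 + 0) * ((D + ε / 4) + 84 * (0 + 0 ^ 2)) + 2 * (1 + 0) ^ 2 * 0 ^ 2 < D + ε := by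
    norm_num; linarith
  have hE : Tendsto (fun κ : ℝ => 2 * Real.exp (-((1 - d') * Real.log (1 / κ)))) (𝓝[>] 0)
      (𝓝 (2 * 0)) := by
    refine Tendsto.const_mul 2 (Real.tendsto_exp_neg_atTop_nhds_zero.comp ?_)
    exact hL.const_mul_atTop (by linarith)
  have hκpos : ∀ᶠ κ : ℝ in 𝓝[>] 0, 0 < κ := self_mem_nhdsWithin
  have hκ1 : ∀ᶠ κ : ℝ in 𝓝[>] 0, κ < 1 := hκ0.eventually (eventually_lt_nhds zero_lt_one)
  filter_upwards [hκpos, hκ1, hL.eventually_ge_atTop 1, hlim.eventually (eventually_lt_nhds hlt),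
    hE.eventually (eventually_lt_nhds (show 2 * 0 < (1 : ℝ) by norm_num))] with κ hκ hκ1 hL1 hmain hexp
  set L := Real.log (1 / κ) with hLdef
  have hL0 : 0 < L := by linarith
  have heL : Real.exp L = 1 / κ := Real.exp_log (by positivity)
  have he0 : 0 ≤ Real.exp κ - 1 := by linarith [Real.add_one_le_exp κ]
  have he1 : Real.exp κ - 1 ≤ κ * (1 + κ) := by
    have h1 := (abs_le.1 (Real.abs_exp_sub_one_sub_id_le (x := κ) (by
      rw [abs_of_pos hκ]; exact hκ1.le))).2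
    nlinarith
  have hk1 : Real.exp (d' * L) * (Real.exp κ - 1) ≤ (1 : ℕ) := by
    have h1 : Real.exp (d' * L) = Real.exp (-((1 - d') * L)) * (1 / κ) := by
      rw [← heL, ← Real.exp_add]; congr 1; ring
    rw [h1]
    have h2 : (1 / κ) * (Real.exp κ - 1) ≤ 2 := by
      rw [one_div, inv_mul_le_iff₀ hκ]; nlinarith
    have h3 : 0 < Real.exp (-((1 - d') * L)) := Real.exp_pos _
    push_cast
    calc Real.exp (-((1 - d') * L)) * (1 / κ) * (Real.exp κ - 1)
        = Real.exp (-((1 - d') * L)) * ((1 / κ) * (Real.exp κ - 1)) := by ring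
      _ ≤ Real.exp (-((1 - d') * L)) * 2 := mul_le_mul_of_nonneg_left h2 h3.le
      _ ≤ 1 := by linarith
  have hdL : Real.exp (d * L) ≤ 1 / κ := by
    rw [← heL]; exact Real.exp_le_exp.2 (by nlinarith)
  have hk2 : Real.exp (d * L) * (Real.exp κ - 1) ≤ (2 : ℕ) := by
    have h2 : (1 / κ) * (Real.exp κ - 1) ≤ 2 := by
      rw [one_div, inv_mul_le_iff₀ hκ]; nlinarith
    push_cast
    exact (mul_le_mul_of_nonneg_right hdL he0).trans h2
  have ha1 : 0 ≤ c * L := mul_nonneg hc hL0.le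
  have hab1 : c * L ≤ d' * L := mul_le_mul_of_nonneg_right hcd'.le hL0.le
  have hab2 : d' * L ≤ d * L := mul_le_mul_of_nonneg_right hdd'.le hL0.le
  have hI1 := Dl_integral_le hκ hκ1.le ha1 hab1 hk1
  have hI2 := Dl_integral_le hκ hκ1.le (ha1.trans hab1) hab2 hk2
  have hsplit := intervalIntegral.integral_add_adjacent_intervals
    (Dl_intervalIntegrable hκ ha1 hab1) (Dl_intervalIntegrable hκ (ha1.trans hab1) hab2)
  have hdL' : Real.exp (d' * L) ≤ 1 / κ := (Real.exp_le_exp.2 hab2).trans hdL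
  -- the tail terms
  have hT : ∀ t, t ≤ 1 / κ → 0 ≤ t → (Real.exp κ - 1) ^ 2 * t ≤ κ * (1 + κ) ^ 2 := by
    intro t ht ht0
    have h1 : (Real.exp κ - 1) ^ 2 ≤ (κ * (1 + κ)) ^ 2 := pow_le_pow_left₀ he0 he1 2
    calc (Real.exp κ - 1) ^ 2 * t ≤ (κ * (1 + κ)) ^ 2 * (1 / κ) :=
          mul_le_mul h1 ht ht0 (sq_nonneg _)
      _ = κ * (1 + κ) ^ 2 := by field_simp
  have hT1 := hT _ hdL' (Real.exp_pos _).le
  have hT2 := hT _ hdL (Real.exp_pos _).le
  have hdle : d' * L ≤ L := by nlinarith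
  have hdle2 : d * L ≤ L := by nlinarith
  have hbr1 : 0 ≤ ((d' * L) ^ 2 - (c * L) ^ 2) / 2 + 28 * (d' * L + 1) := by nlinarith
  have hbr2 : 0 ≤ ((d * L) ^ 2 - (d' * L) ^ 2) / 2 + 28 * (d * L + 1) := by nlinarith
  have hb1 : ((d' * L) ^ 2 - (c * L) ^ 2) / 2 + 28 * (d' * L + 1) ≤
      (d' ^ 2 - c ^ 2) / 2 * L ^ 2 + 28 * (L + 1) := by nlinarith
  have hb2 : ((d * L) ^ 2 - (d' * L) ^ 2) / 2 + 28 * (d * L + 1) ≤
      (d ^ 2 - d' ^ 2) / 2 * L ^ 2 + 28 * (L + 1) := by nlinarith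
  have hsum : ((d' * L) ^ 2 - (c * L) ^ 2) / 2 + 28 * (d' * L + 1) +
      2 * (((d * L) ^ 2 - (d' * L) ^ 2) / 2 + 28 * (d * L + 1)) ≤
      (D + ε / 4) * L ^ 2 + 84 * (L + 1) := by
    have h1 : (d ^ 2 - d' ^ 2) / 2 * L ^ 2 ≤ ε / 4 * L ^ 2 :=
      mul_le_mul_of_nonneg_right hd' (sq_nonneg L)
    have h2 : (d' ^ 2 - c ^ 2) / 2 * L ^ 2 + (d ^ 2 - d' ^ 2) / 2 * L ^ 2 = D * L ^ 2 := by
      rw [hD]; ring
    linarith
  have hprod : (Real.exp κ - 1) * (((d' * L) ^ 2 - (c * L) ^ 2) / 2 + 28 * (d' * L + 1) +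
      2 * (((d * L) ^ 2 - (d' * L) ^ 2) / 2 + 28 * (d * L + 1))) ≤
      κ * (1 + κ) * ((D + ε / 4) * L ^ 2 + 84 * (L + 1)) :=
    mul_le_mul he1 hsum (by linarith) (by positivity)
  have hfin : κ * (1 + κ) * ((D + ε / 4) * L ^ 2 + 84 * (L + 1)) + 2 * (κ * (1 + κ) ^ 2) ≤
      (D + ε) * (κ * L ^ 2) := by
    have h1 := mul_le_mul_of_nonneg_left hmain.le (show 0 ≤ κ * L ^ 2 by positivity)
    have h2 : κ * L ^ 2 * ((1 + κ) * ((D + ε / 4) + 84 * (L⁻¹ + L⁻¹ ^ 2)) +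
        2 * (1 + κ) ^ 2 * L⁻¹ ^ 2) =
        κ * (1 + κ) * ((D + ε / 4) * L ^ 2 + 84 * (L + 1)) + 2 * (κ * (1 + κ) ^ 2) := by
      field_simp
    rw [h2] at h1
    linarith
  rw [← hsplit]
  push_cast at hI1 hI2
  linarith

end Pool.Agent.Q96.GM
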