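import Pool.Agent.Q260.GM.Zl3
import Pool.Agent.Q184.GM.Cauchy

set_option autoImplicit false

/-!
# The finite Poisson sums
-/

namespace Pool.Agent.Q260.GM

open MeasureTheory Filter Topology Set
open Pool.Agent.Y23 (Zt mu zsummable zsum_le Lg one_le_Lg)
open Pool.Agent.Y749.Rig (Mp nT nT_pos mm mm_nonneg Mp_integral RR mem_ZZ)

/-- the Poisson sum over the zeros with ordinate in `(0, T]` -/
noncomputable def PT (T x t : ℝ) : ℝ := ∑ s ∈ Pool.Agent.Y749.Rig.ZZ T, mm s * pk x (t - s.im)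

/-- the number of zeros -/
noncomputable def NZ (T : ℝ) : ℝ := ∑ s ∈ Pool.Agent.Y749.Rig.ZZ T, mm s

lemma NZ_nonneg (T : ℝ) : 0 ≤ NZ T := Finset.sum_nonneg fun s _ => mm_nonneg s

lemma NZ_asymp {ε : ℝ} (hε : 0 < ε) : ∀ᶠ T in atTop, |NZ T - nT T| ≤ ε * nT T := by
  obtain ⟨T0, hT0, h⟩ := Pool.Agent.W54.TCF.NT_asymp' ε hε
  filter_upwards [eventually_ge_atTop T0] with T hT
  obtain ⟨h1, h2⟩ := h T hT
  have e1 : NZ T = (H370.NN riemannZeta 0 T : ℝ) := by
    rw [← Pool.Agent.Y744.sum_Zt, NZ, Pool.Agent.Y749.Rig.ZZ_eq]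
    rfl
  have e2 : nT T = T / (2 * Real.pi) * Real.log T := by unfold nT; ring
  rw [e1, e2, abs_le]
  constructor <;> linarith

lemma pk_cont {x : ℝ} (hx : 0 < x) (c : ℝ) : Continuous fun t : ℝ => pk x (t - c) := by
  unfold pk
  exact continuous_const.div (by fun_prop) fun t => by positivity

lemma pk_hasInt {x : ℝ} (hx : 0 < x) (c : ℝ) :
    Integrable (fun t : ℝ => pk x (t - c)) ∧ ∫ t : ℝ, pk x (t - c) = Real.pi := by
  have h0 : Integrable (fun t : ℝ => (1 + t ^ 2)⁻¹) := integrable_inv_one_add_sq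
  have e : (fun t : ℝ => pk x t) = fun t : ℝ => x⁻¹ * (1 + (t * x⁻¹) ^ 2)⁻¹ := by
    funext t
    unfold pk
    field_simp
  have h1 : Integrable (fun t : ℝ => pk x t) := by
    rw [e]
    exact (h0.comp_mul_right' (inv_ne_zero hx.ne')).const_mul _
  refine ⟨h1.comp_sub_right c, ?_⟩
  rw [integral_sub_right_eq_self (fun t => pk x t) c, e, integral_const_mul,
    Measure.integral_comp_mul_right (fun t : ℝ => (1 + t ^ 2)⁻¹), integral_univ_inv_one_add_sq]
  rw [inv_inv, abs_of_pos hx, smul_eq_mul, ← mul_assoc, inv_mul_cancel₀ hx.ne', one_mul]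

lemma PT_cont {x : ℝ} (hx : 0 < x) (T : ℝ) : Continuous (PT T x) := by
  unfold PT
  exact continuous_finsetSum _ fun s _ => continuous_const.mul (pk_cont hx _)

lemma PT_nonneg {x : ℝ} (hx : 0 ≤ x) (T t : ℝ) : 0 ≤ PT T x t :=
  Finset.sum_nonneg fun s _ => mul_nonneg (mm_nonneg s) (pk_nonneg hx _)

lemma PT_int {x : ℝ} (hx : 0 < x) (T : ℝ) : Integrable (PT T x) ∧ ∫ t, PT T x t = Real.pi * NZ T := by
  have hi : ∀ s ∈ Pool.Agent.Y749.Rig.ZZ T, Integrable (fun t : ℝ => mm s * pk x (t - s.im)) :=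
    fun s _ => (pk_hasInt hx s.im).1.const_mul _
  refine ⟨integrable_finsetSum _ hi, ?_⟩
  unfold PT NZ
  rw [integral_finsetSum _ hi, Finset.mul_sum]
  refine Finset.sum_congr rfl fun s _ => ?_
  rw [integral_const_mul, (pk_hasInt hx s.im).2, mul_comm]

lemma PT_sq {x : ℝ} (hx : 0 < x) (T : ℝ) : Integrable (fun t => PT T x t ^ 2) ∧
    ∫ t, PT T x t ^ 2 = ∑ s ∈ Pool.Agent.Y749.Rig.ZZ T, ∑ s' ∈ Pool.Agent.Y749.Rig.ZZ T,
      mm s * mm s' * (2 * Real.pi * x / (4 * x ^ 2 + (s.im - s'.im) ^ 2)) := by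
  have e : (fun t => PT T x t ^ 2) = fun t => ∑ s ∈ Pool.Agent.Y749.Rig.ZZ T,
      ∑ s' ∈ Pool.Agent.Y749.Rig.ZZ T, mm s * mm s' * (pk x (t - s.im) * pk x (t - s'.im)) := by
    funext t
    unfold PT
    rw [sq, Finset.sum_mul_sum]
    refine Finset.sum_congr rfl fun s _ => Finset.sum_congr rfl fun s' _ => ?_
    ring
  have hi : ∀ s s' : ℂ, Integrable (fun t : ℝ => mm s * mm s' * (pk x (t - s.im) * pk x (t - s'.im))) :=
    fun s s' => (Pool.Agent.Q184.GM.cauchy_conv hx s.im s'.im).1.const_mul _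
  rw [e]
  refine ⟨integrable_finsetSum _ fun s _ => integrable_finsetSum _ fun s' _ => hi s s', ?_⟩
  rw [integral_finsetSum _ fun s _ => integrable_finsetSum _ fun s' _ => hi s s']
  refine Finset.sum_congr rfl fun s _ => ?_
  rw [integral_finsetSum _ fun s' _ => hi s s']
  refine Finset.sum_congr rfl fun s' _ => ?_
  rw [integral_const_mul]
  congr 1
  exact (Pool.Agent.Q184.GM.cauchy_conv hx s.im s'.im).2

/-- the mean square of the finite Poisson sum and the pair measure -/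
lemma PT_pair {T : ℝ} (hT : 10 ≤ T) {a : ℝ} (ha : 0 < a) :
    ∫ t, PT T (a / Real.log T) t ^ 2 = T * Real.log T ^ 2 / 4 * ∫ x, ra a x ∂(Mp T) := by
  have hn := nT_pos hT
  have hL : 0 < Real.log T := Real.log_pos (by linarith)
  have hpi := Real.pi_pos
  rw [(PT_sq (div_pos ha hL) T).2, Mp_integral hT]
  unfold RR
  have key : ∀ A B : ℝ, A * nT T = T * Real.log T ^ 2 / 4 * B →
      A = T * Real.log T ^ 2 / 4 * (B / nT T) := by
    intro A B h
    rw [mul_div_assoc', eq_div_iff hn.ne', h]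
  apply key
  rw [Finset.sum_mul, Finset.mul_sum]
  refine Finset.sum_congr rfl fun s _ => ?_
  rw [Finset.sum_mul, Finset.mul_sum]
  refine Finset.sum_congr rfl fun s' _ => ?_
  unfold ra nT
  have h1 : 0 < 4 * (a / Real.log T) ^ 2 + (s.im - s'.im) ^ 2 := by positivity
  have h2 : 0 < 4 * a ^ 2 + 4 * Real.pi ^ 2 * ((s.im - s'.im) * Real.log T / (2 * Real.pi)) ^ 2 := by
    positivity
  field_simp
  ring

end Pool.Agent.Q260.GM
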