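import Pool.Agent.Q260.GM.Tb

set_option autoImplicit false

/-!
# Integrals over `[0, T]`
-/

namespace Pool.Agent.Q260.GM

open MeasureTheory Filter Topology Set
open Pool.Agent.Y23 (Zt mu zsummable zsum_le Lg one_le_Lg)
open Pool.Agent.Y749.Rig (Mp nT nT_pos mm mm_nonneg Mp_integral RR mem_ZZ)

lemma W_int (T : ℝ) : Integrable (fun t : ℝ => 1 / (1 + t ^ 2) + 1 / (1 + (t - T) ^ 2)) ∧
    ∫ t : ℝ, (1 / (1 + t ^ 2) + 1 / (1 + (t - T) ^ 2)) = 2 * Real.pi := by
  have h0 : Integrable (fun t : ℝ => 1 / (1 + t ^ 2)) := by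
    simp only [one_div]
    exact integrable_inv_one_add_sq
  have h1 := h0.comp_sub_right T
  refine ⟨h0.add h1, ?_⟩
  have e1 : ∫ t : ℝ, 1 / (1 + t ^ 2) = Real.pi := by
    simp only [one_div]
    exact integral_univ_inv_one_add_sq
  have e2 : ∫ t : ℝ, 1 / (1 + (t - T) ^ 2) = Real.pi := by
    rw [integral_sub_right_eq_self (fun t : ℝ => 1 / (1 + t ^ 2)) T, e1]
  rw [integral_add h0 h1, e1, e2]
  ring

lemma cut {f : ℝ → ℝ} (hf : Integrable f) (h0 : ∀ t, 0 ≤ f t) {c T : ℝ} (hc : 0 ≤ c) (hT : 0 ≤ T)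
    (h : ∀ t, t ∉ Icc 0 T → f t ≤ c * (1 / (1 + t ^ 2) + 1 / (1 + (t - T) ^ 2))) :
    |(∫ t in (0 : ℝ)..T, f t) - ∫ t, f t| ≤ c * (2 * Real.pi) := by
  obtain ⟨hW, hWi⟩ := W_int T
  rw [intervalIntegral.integral_of_le hT, ← integral_Icc_eq_integral_Ioc,
    ← integral_add_compl (measurableSet_Icc (a := (0 : ℝ)) (b := T)) hf]
  have h1 : 0 ≤ ∫ t in (Icc 0 T)ᶜ, f t := setIntegral_nonneg measurableSet_Icc.compl fun t _ => h0 t
  have h2 : ∫ t in (Icc 0 T)ᶜ, f t ≤ c * (2 * Real.pi) := by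
    calc ∫ t in (Icc 0 T)ᶜ, f t ≤ ∫ t in (Icc 0 T)ᶜ, c * (1 / (1 + t ^ 2) + 1 / (1 + (t - T) ^ 2)) :=
          setIntegral_mono_on hf.integrableOn (hW.const_mul c).integrableOn measurableSet_Icc.compl
            fun t ht => h t ht
      _ ≤ ∫ t, c * (1 / (1 + t ^ 2) + 1 / (1 + (t - T) ^ 2)) :=
          setIntegral_le_integral (hW.const_mul c) (ae_of_all _ fun t => by
            show 0 ≤ c * (1 / (1 + t ^ 2) + 1 / (1 + (t - T) ^ 2))
            positivity)
      _ = _ := by rw [integral_const_mul, hWi]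
  rw [sub_add_cancel_left, abs_neg, abs_of_nonneg h1]
  exact h2

/-- the sum of the constants -/
lemma PT_cut {K : ℝ} (hK0 : 0 < K) (hK : ∀ t : ℝ,
    ∑' ρ : Zt, (mu ρ : ℝ) * (1 / (1 + ((ρ : ℂ).im - t) ^ 2)) ≤ K * Lg t)
    (hF : ∀ T t : ℝ, ∑ s ∈ Pool.Agent.Y749.Rig.ZZ T, mm s * (1 / (1 + (s.im - t) ^ 2)) ≤ K * Lg t)
    {x : ℝ} (hx : 0 < x) (h1 : x ≤ 1) {T : ℝ} (hT : 1 ≤ T) :
    |(∫ t in (0 : ℝ)..T, PT T x t) - Real.pi * NZ T| ≤
      2 * (2 * K * Lg T / x + x * NZ T) * (2 * Real.pi) ∧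
    |(∫ t in (0 : ℝ)..T, PT T x t ^ 2) - ∫ t, PT T x t ^ 2| ≤
      2 * ((2 * K * Lg T / x) ^ 2 + x * (K * Lg T) * (x * NZ T)) * (2 * Real.pi) := by
  have hL := one_le_Lg T
  have hN := NZ_nonneg T
  constructor
  · rw [← (PT_int hx T).2]
    exact cut (PT_int hx T).1 (PT_nonneg hx.le T) (by positivity) (by linarith)
      fun t ht => (PT_edge hK0 hK hF hx h1 hT ht).1
  · exact cut (PT_sq hx T).1 (fun t => sq_nonneg _) (by positivity) (by linarith)
      fun t ht => (PT_edge hK0 hK hF hx h1 hT ht).2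

lemma log_sq_le {T t : ℝ} (ht : 0 < t) (hT : t ≤ T) :
    (Real.log T - Real.log t) ^ 2 ≤ 16 * (Real.sqrt T * t ^ (-(1 / 2) : ℝ)) := by
  have hT0 : 0 < T := ht.trans_le hT
  have h1 : 1 ≤ T / t := by rw [le_div_iff₀ ht]; linarith
  have h2 := Real.log_le_rpow_div (x := T / t) (by positivity) (ε := 1 / 4) (by norm_num)
  rw [Real.log_div hT0.ne' ht.ne'] at h2
  have h3 : 0 ≤ Real.log T - Real.log t := by
    have := Real.log_le_log ht hT
    linarith
  have h4 := pow_le_pow_left₀ h3 h2 2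
  refine h4.trans (le_of_eq ?_)
  rw [div_pow, ← Real.rpow_natCast ((T / t) ^ (1 / 4 : ℝ)), ← Real.rpow_mul (by positivity)]
  have e1 : (1 / 4 : ℝ) * ((2 : ℕ) : ℝ) = 1 / 2 := by norm_num
  rw [e1, Real.div_rpow hT0.le ht.le, Real.sqrt_eq_rpow, Real.rpow_neg ht.le]
  ring

lemma int_sqrt {T : ℝ} (hT : 2 ≤ T) : ∫ t in (1 : ℝ)..(T - 1), Real.sqrt T * t ^ (-(1 / 2) : ℝ) ≤ 2 * T := by
  rw [intervalIntegral.integral_const_mul, integral_rpow (Or.inl (by norm_num))]
  have e : (-(1 / 2) + 1 : ℝ) = 1 / 2 := by norm_num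
  rw [e, ← Real.sqrt_eq_rpow, Real.one_rpow]
  have h1 : Real.sqrt (T - 1) ≤ Real.sqrt T := Real.sqrt_le_sqrt (by linarith)
  have h2 : Real.sqrt T * Real.sqrt T = T := Real.mul_self_sqrt (by linarith)
  have h3 := Real.sqrt_nonneg T
  have h4 : Real.sqrt T * Real.sqrt (T - 1) ≤ T := by nlinarith
  have e2 : Real.sqrt T * ((Real.sqrt (T - 1) - 1) / (1 / 2)) = 2 * (Real.sqrt T * Real.sqrt (T - 1)) - 2 * Real.sqrt T := by
    ring
  rw [e2]
  linarith

/-- the error in the approximation in mean square -/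
lemma delta_int (hRH : RiemannHypothesis) {K C : ℝ} (hK0 : 0 < K) (hC : 0 < C) (hK : ∀ t : ℝ,
    ∑' ρ : Zt, (mu ρ : ℝ) * (1 / (1 + ((ρ : ℂ).im - t) ^ 2)) ≤ K * Lg t)
    (hD : ∀ x : ℝ, 0 < x → x ≤ 1 / 4 → ∀ t : ℝ, |DD x t| ≤ C * Lg t / x)
    {x : ℝ} (hx : 0 < x) (h1 : x ≤ 1 / 4) {T : ℝ} (hT : 2 ≤ T) :
    ∫ t in (0 : ℝ)..T, (DD x t - (Real.log T / 2 - PT T x t)) ^ 2 ≤
      (2 * (13 + x * (K * Lg 0 + K * Lg T)) ^ 2 + 16) * T + 2 * ((C + K + 1) * Lg T / x) ^ 2 := by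
  have hL := one_le_Lg T
  have hL0 := one_le_Lg 0
  set d : ℝ → ℝ := fun t => DD x t - (Real.log T / 2 - PT T x t) with hd
  have hdc : Continuous d := (DD_cont hRH hx h1).sub (continuous_const.sub (PT_cont hx T))
  set B0 : ℝ := 13 + x * (K * Lg 0 + K * Lg T) with hB0
  set M : ℝ := (C + K + 1) * Lg T / x with hM
  have hM0 : 0 ≤ M := by positivity
  have hB00 : 0 ≤ B0 := by positivity
  have hlogT : 0 ≤ Real.log T := Real.log_nonneg (by linarith)
  have crude : ∀ t : ℝ, 0 ≤ t → t ≤ T → d t ^ 2 ≤ M ^ 2 := by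
    intro t t0 t1
    have hm : Lg t ≤ Lg T := by
      unfold Lg
      apply Real.log_le_log (by positivity)
      rw [abs_of_nonneg t0, abs_of_nonneg (by linarith)]
      linarith
    have a1 : |DD x t| ≤ C * Lg T / x := (hD x hx h1 t).trans (by
      apply div_le_div_of_nonneg_right _ hx.le
      exact mul_le_mul_of_nonneg_left hm hC.le)
    have a2 : PT T x t ≤ K * Lg T / x := ((PT_le_Pz hx (by linarith) T t).trans
      (Pz_le hK hx (by linarith) t)).trans (by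
      apply div_le_div_of_nonneg_right _ hx.le
      exact mul_le_mul_of_nonneg_left hm hK0.le)
    have a3 : 0 ≤ PT T x t := PT_nonneg hx.le T t
    have a4 : Real.log T ≤ Lg T / x := by
      have h5 : Real.log T ≤ Lg T := by
        unfold Lg
        apply Real.log_le_log (by linarith)
        rw [abs_of_nonneg (by linarith)]; linarith
      refine h5.trans ?_
      rw [le_div_iff₀ hx]
      nlinarith
    have e : M = C * Lg T / x + K * Lg T / x + Lg T / x := by rw [hM]; ring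
    apply sq_le_sq'
    · rw [abs_le] at a1
      simp only [hd]
      rw [e]
      have : 0 ≤ K * Lg T / x := by positivity
      linarith [a1.1]
    · rw [abs_le] at a1
      simp only [hd]
      rw [e]
      have : 0 ≤ Lg T / x := by positivity
      linarith [a1.2]
  have mid : ∀ t ∈ Icc (1 : ℝ) (T - 1), d t ^ 2 ≤ 2 * B0 ^ 2 + 8 * (Real.sqrt T * t ^ (-(1 / 2) : ℝ)) := by
    intro t ht
    have ht0 : 0 < t := by linarith [ht.1]
    have a1 := DD_approx hRH hx h1 (t := t) (by rw [abs_of_pos ht0]; exact ht.1)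
    rw [abs_of_pos ht0] at a1
    have a2 := Pz_out hK hx (by linarith) ht.1 ht.2
    have a3 := PT_le_Pz hx (by linarith : x ≤ 1) T t
    have a4 := log_sq_le ht0 (by linarith [ht.2] : t ≤ T)
    have a5 : 0 ≤ Real.log T - Real.log t := by
      have := Real.log_le_log ht0 (by linarith [ht.2] : t ≤ T)
      linarith
    have a6 : |d t| ≤ B0 + (Real.log T - Real.log t) / 2 := by
      have e : d t = (DD x t - (Real.log t / 2 - Pz x t)) - (Pz x t - PT T x t) -
          (Real.log T - Real.log t) / 2 := by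
        simp only [hd]; ring
      rw [e]
      rw [abs_le] at a1 ⊢
      constructor <;> linarith [a1.1, a1.2]
    have a7 := pow_le_pow_left₀ (abs_nonneg _) a6 2
    rw [sq_abs] at a7
    nlinarith [sq_nonneg (B0 - (Real.log T - Real.log t) / 2)]
  have hdi : ∀ a b : ℝ, IntervalIntegrable (fun t => d t ^ 2) volume a b := fun a b =>
    (hdc.pow 2).intervalIntegrable a b
  have e : ∫ t in (0 : ℝ)..T, d t ^ 2 = (∫ t in (0 : ℝ)..1, d t ^ 2) + (∫ t in (1 : ℝ)..(T - 1), d t ^ 2) +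
      ∫ t in (T - 1)..T, d t ^ 2 := by
    rw [intervalIntegral.integral_add_adjacent_intervals (hdi _ _) (hdi _ _),
      intervalIntegral.integral_add_adjacent_intervals (hdi _ _) (hdi _ _)]
  have i1 : ∫ t in (0 : ℝ)..1, d t ^ 2 ≤ M ^ 2 := by
    have := intervalIntegral.integral_mono_on (zero_le_one) (hdi 0 1) (intervalIntegrable_const (c := M ^ 2))
      fun t ht => crude t ht.1 (by linarith [ht.2])
    simpa using this
  have i3 : ∫ t in (T - 1)..T, d t ^ 2 ≤ M ^ 2 := by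
    have := intervalIntegral.integral_mono_on (by linarith : T - 1 ≤ T) (hdi (T - 1) T) (intervalIntegrable_const (c := M ^ 2))
      fun t ht => crude t (by linarith [ht.1]) ht.2
    simpa using this
  have hci : IntervalIntegrable (fun t : ℝ => Real.sqrt T * t ^ (-(1 / 2) : ℝ)) volume 1 (T - 1) :=
    (intervalIntegral.intervalIntegrable_rpow' (by norm_num)).const_mul _
  have i2 : ∫ t in (1 : ℝ)..(T - 1), d t ^ 2 ≤ 2 * B0 ^ 2 * T + 16 * T := by
    have h2 := intervalIntegral.integral_mono_on (by linarith : 1 ≤ T - 1) (hdi 1 (T - 1))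
      ((intervalIntegrable_const (c := 2 * B0 ^ 2)).add (hci.const_mul 8)) mid
    rw [intervalIntegral.integral_add intervalIntegrable_const (hci.const_mul 8),
      intervalIntegral.integral_const, smul_eq_mul, intervalIntegral.integral_const_mul] at h2
    have h3 := int_sqrt hT
    nlinarith [sq_nonneg B0]
  show ∫ t in (0 : ℝ)..T, d t ^ 2 ≤ _
  rw [e]
  linarith

end Pool.Agent.Q260.GM
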