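import Pool.Agent.Q260.GM.Tc

set_option autoImplicit false

/-!
# The mean square of `Re ζ'/ζ` and the pairs of zeros
-/

namespace Pool.Agent.Q260.GM

open MeasureTheory Filter Topology Set
open Pool.Agent.Y23 (Zt mu zsummable zsum_le Lg one_le_Lg)
open Pool.Agent.Y749.Rig (Mp nT nT_pos mm mm_nonneg Mp_integral RR mem_ZZ Mp_bdd Bdd QD)

lemma ra_nonneg {a : ℝ} (ha : 0 ≤ a) (x : ℝ) : 0 ≤ ra a x := by unfold ra; positivity

lemma ra_le {a1 a2 a : ℝ} (h0 : 0 < a1) (h1 : a1 ≤ a) (h2 : a ≤ a2) (x : ℝ) :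
    ra a x ≤ (1 / a1 + a2) * (1 / (1 + x ^ 2)) := by
  have ha : 0 < a := by linarith
  have hpi := Real.pi_gt_three
  unfold ra
  rw [mul_one_div, div_le_div_iff₀ (by positivity) (by positivity)]
  have e1 : 4 * a ≤ (1 / a1 + a2) * (4 * a ^ 2) := by
    have h3 : 1 ≤ 1 / a1 * a := by rw [one_div, inv_mul_eq_div, le_div_iff₀ h0]; linarith
    have h4 : 0 ≤ a2 * (4 * a ^ 2) := by
      have : 0 ≤ a2 := by linarith
      positivity
    nlinarith
  have e2 : 4 * a ≤ (1 / a1 + a2) * (4 * Real.pi ^ 2) := by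
    have h3 : 0 ≤ 1 / a1 := by positivity
    have h4 : 9 ≤ Real.pi ^ 2 := by nlinarith
    nlinarith
  nlinarith [sq_nonneg x, mul_le_mul_of_nonneg_right e2 (sq_nonneg x)]

lemma ra_cont {a : ℝ} (ha : 0 < a) : Continuous (ra a) := by
  unfold ra
  exact continuous_const.div (by fun_prop) fun x => by positivity

lemma ra_qd {a : ℝ} (ha : 0 < a) : QD (ra a) := ⟨1 / a + a, fun x => by
  rw [abs_of_nonneg (ra_nonneg ha.le x)]
  exact (ra_le ha le_rfl le_rfl x).trans (le_of_eq (by ring))⟩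

/-- uniform bound for the pair sums -/
lemma ra_bdd {a1 a2 : ℝ} (h0 : 0 < a1) : ∃ R : ℝ, 0 < R ∧ ∀ᶠ T in atTop, ∀ a ∈ Icc a1 a2,
    0 ≤ ∫ x, ra a x ∂(Mp T) ∧ ∫ x, ra a x ∂(Mp T) ≤ R := by
  obtain ⟨C, hC, h⟩ := Mp_bdd
  have hC0 : 0 ≤ C := by linarith
  have hD : 0 ≤ Pool.Agent.Y749.Rig.DD 0 := Pool.Agent.Y749.Rig.DD_nonneg 0
  refine ⟨(1 / a1 + |a2|) * (2 * C * Pool.Agent.Y749.Rig.DD 0) + 1, by positivity, ?_⟩
  filter_upwards [h] with T hT a ha
  have ha0 : 0 < a := by linarith [ha.1]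
  have hq : QD fun x : ℝ => 1 / (1 + x ^ 2) := ⟨1, fun x => by rw [abs_of_nonneg (by positivity)]⟩
  have hc : Continuous fun x : ℝ => 1 / (1 + x ^ 2) :=
    continuous_const.div (by fun_prop) fun x => by positivity
  have hi := hT.integrable hC0 hc hq
  have h1 : ∫ x, 1 / (1 + x ^ 2) ∂(Mp T) ≤ 2 * C * Pool.Agent.Y749.Rig.DD 0 := by
    rw [← Pool.Agent.Y749.Rig.wt_integral]
    have e : (fun x : ℝ => (1 + x ^ 2) * (1 / (1 + x ^ 2))) = fun _ => 1 := by
      funext x
      field_simp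
    rw [e, integral_const, smul_eq_mul, mul_one, Measure.real]
    exact ENNReal.toReal_le_of_le_ofReal (by positivity) (Pool.Agent.Y749.Rig.wt_univ hC0 hT)
  constructor
  · exact integral_nonneg fun x => ra_nonneg ha0.le x
  · have h2 : ∫ x, ra a x ∂(Mp T) ≤ ∫ x, (1 / a1 + a2) * (1 / (1 + x ^ 2)) ∂(Mp T) :=
      integral_mono_of_nonneg (ae_of_all _ fun x => ra_nonneg ha0.le x) (hi.const_mul _)
        (ae_of_all _ fun x => ra_le h0 ha.1 ha.2 x)
    rw [integral_const_mul] at h2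
    have h3 : a2 ≤ |a2| := le_abs_self _
    have h4 : 0 ≤ ∫ x, 1 / (1 + x ^ 2) ∂(Mp T) := integral_nonneg fun x => by positivity
    have h5 : 0 ≤ 1 / a1 := by positivity
    have h6 : (1 / a1 + a2) * ∫ x, 1 / (1 + x ^ 2) ∂(Mp T) ≤ (1 / a1 + |a2|) * (2 * C * Pool.Agent.Y749.Rig.DD 0) :=
      (mul_le_mul_of_nonneg_right (by linarith) h4).trans (mul_le_mul_of_nonneg_left h1 (by positivity))
    linarith

lemma Lg_log {T : ℝ} (hT : 3 ≤ T) : Lg T ≤ 2 * Real.log T ∧ 1 ≤ Real.log T := by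
  constructor
  · have h1 : 3 + |T| ≤ T ^ 2 := by
      rw [abs_of_nonneg (by linarith)]; nlinarith
    have h2 := Real.log_le_log (by positivity) h1
    rw [Real.log_pow] at h2
    exact_mod_cast h2
  · exact (Pool.Agent.Y749.Rig.one_lt_log hT).le

lemma log4_small {ε : ℝ} (hε : 0 < ε) : ∀ᶠ T : ℝ in atTop, Real.log T ^ 4 ≤ ε * T := by
  have h := (Real.isLittleO_pow_log_id_atTop (n := 4)).bound hε
  filter_upwards [h, eventually_ge_atTop 1] with T h1 h2
  simp only [id, Real.norm_eq_abs] at h1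
  rw [abs_of_nonneg (by positivity), abs_of_nonneg (by linarith)] at h1
  exact h1

/-- **the mean square of the real part of the logarithmic derivative** -/
lemma pair_mean_aux (hRH : RiemannHypothesis) {a1 a2 : ℝ} (h1 : 0 < a1) (h12 : a1 ≤ a2) {ε : ℝ}
    (hε : 0 < ε) (hε1 : ε ≤ 1) : ∀ᶠ T : ℝ in atTop, ∀ a ∈ Icc a1 a2,
    |(∫ t in (0 : ℝ)..T, DD (a / Real.log T) t ^ 2) -
      T * Real.log T ^ 2 / 4 * ((∫ x, ra a x ∂(Mp T)) - 1)| ≤ ε * (T * Real.log T ^ 2) := by
  obtain ⟨K, hK0, hK, hF⟩ := fin_le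
  obtain ⟨C, hC0, hD⟩ := DD_abs hRH
  obtain ⟨R, hR0, hR⟩ := ra_bdd (a1 := a1) (a2 := a2) h1
  have hpi := Real.pi_pos
  have ha2 : 0 < a2 := by linarith
  -- constants
  set C1 : ℝ := 2 * (13 + a2 * (4 * K)) ^ 2 + 16 with hC1
  set C2 : ℝ := 2 * ((C + K + 1) * 2 / a1) ^ 2 with hC2
  set C3 : ℝ := 4 * Real.pi * (4 * K / a1 + a2) with hC3
  set C4 : ℝ := 4 * Real.pi * ((4 * K / a1) ^ 2 + 2 * K * a2 ^ 2) with hC4
  have c1 : 0 ≤ C1 := by positivity
  have c2 : 0 ≤ C2 := by positivity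
  have c3 : 0 ≤ C3 := by positivity
  have c4 : 0 ≤ C4 := by positivity
  -- the small parameters
  obtain ⟨η, hη0, hη1⟩ : ∃ η : ℝ, 0 < η ∧ η * (R + 2) ≤ ε / 8 :=
    ⟨ε / 8 / (R + 2), by positivity, by rw [div_mul_cancel₀ _ (by positivity)]⟩
  obtain ⟨ν, hν0, hν1, hν2, hν3⟩ : ∃ ν : ℝ, 0 < ν ∧ ν * ((1 + 1 / η) * (C1 + C2)) ≤ ε / 8 ∧
      ν * (2 * C3 + 2 * C4) ≤ ε / 8 ∧ ν ≤ ε / 8 := by
    refine ⟨min (ε / 8 / ((1 + 1 / η) * (C1 + C2) + 1)) (min (ε / 8 / (2 * C3 + 2 * C4 + 1)) (ε / 8)),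
      by positivity, ?_, ?_, ?_⟩
    · have h0 : 0 ≤ (1 + 1 / η) * (C1 + C2) := by positivity
      calc _ ≤ ε / 8 / ((1 + 1 / η) * (C1 + C2) + 1) * ((1 + 1 / η) * (C1 + C2)) :=
            mul_le_mul_of_nonneg_right (min_le_left _ _) h0
        _ ≤ ε / 8 / ((1 + 1 / η) * (C1 + C2) + 1) * ((1 + 1 / η) * (C1 + C2) + 1) :=
            mul_le_mul_of_nonneg_left (by linarith) (by positivity)
        _ = _ := by rw [div_mul_cancel₀ _ (by positivity)]
    · have h0 : 0 ≤ 2 * C3 + 2 * C4 := by positivity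
      calc _ ≤ ε / 8 / (2 * C3 + 2 * C4 + 1) * (2 * C3 + 2 * C4) :=
            mul_le_mul_of_nonneg_right ((min_le_right _ _).trans (min_le_left _ _)) h0
        _ ≤ ε / 8 / (2 * C3 + 2 * C4 + 1) * (2 * C3 + 2 * C4 + 1) :=
            mul_le_mul_of_nonneg_left (by linarith) (by positivity)
        _ = _ := by rw [div_mul_cancel₀ _ (by positivity)]
    · exact (min_le_right _ _).trans (min_le_right _ _)
  have hlog : ∀ᶠ T : ℝ in atTop, max (max (1 / ν) (4 * a2)) 2 ≤ Real.log T :=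
    Real.tendsto_log_atTop.eventually_ge_atTop _
  filter_upwards [hR, NZ_asymp (ε := min ν 1) (by positivity), hlog, log4_small (ε := min ν 1) (by positivity),
    eventually_ge_atTop (10 : ℝ)] with T hRT hN hl hl4 hT10 a ha
  obtain ⟨hLg, hL1⟩ := Lg_log (show 3 ≤ T by linarith)
  set L : ℝ := Real.log T with hL
  have hL2 : 2 ≤ L := (le_max_right _ _).trans hl
  have hLν : 1 ≤ ν * L := by
    have : 1 / ν ≤ L := (le_max_left _ _).trans ((le_max_left _ _).trans hl)
    rwa [div_le_iff₀' hν0] at this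
  have hLa : 4 * a2 ≤ L := (le_max_right _ _).trans ((le_max_left _ _).trans hl)
  have ha0 : 0 < a := by linarith [ha.1]
  have hLp : 0 < L := by linarith
  have hTp : 0 < T := by linarith
  set x : ℝ := a / L with hx
  have hx0 : 0 < x := div_pos ha0 hLp
  have hx1 : x ≤ 1 / 4 := by
    rw [hx, div_le_iff₀ hLp]
    linarith [ha.2]
  have hxL : x * L = a := by rw [hx]; field_simp
  have hn := nT_pos hT10
  have hnT : nT T = T * L / (2 * Real.pi) := rfl
  have hNle : NZ T ≤ 2 * nT T := by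
    have h3 := (abs_le.1 hN).2
    have h4 : min ν 1 * nT T ≤ 1 * nT T := mul_le_mul_of_nonneg_right (min_le_right _ _) hn.le
    linarith
  have hxN : x * NZ T ≤ a2 * T := by
    calc x * NZ T ≤ x * (2 * nT T) := mul_le_mul_of_nonneg_left hNle hx0.le
      _ = a * T / Real.pi := by rw [hnT, ← hxL]; field_simp
      _ ≤ a2 * T := by
        rw [div_le_iff₀ hpi]
        have : 1 ≤ Real.pi := by linarith [Real.pi_gt_three]
        have h5 : a * T ≤ a2 * T := mul_le_mul_of_nonneg_right ha.2 hTp.le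
        nlinarith [mul_pos ha2 hTp]
  have hLgx : Lg T / x ≤ 2 / a1 * L ^ 2 := by
    rw [div_le_iff₀ hx0]
    calc Lg T ≤ 2 * L := hLg
      _ ≤ 2 / a1 * a * L := by
        have : 1 ≤ a / a1 := by rw [le_div_iff₀ h1]; linarith [ha.1]
        have e : 2 / a1 * a * L = 2 * (a / a1) * L := by ring
        rw [e]
        nlinarith
      _ = _ := by rw [← hxL]; ring
  have hLgx0 : 0 ≤ Lg T / x := by
    have := one_le_Lg T
    positivity
  -- the quantities
  set Rr : ℝ := ∫ y, ra a y ∂(Mp T) with hRr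
  obtain ⟨hr0, hr1⟩ := hRT a ha
  have hA := delta_int hRH hK0 hC0 hK hD hx0 hx1 (show 2 ≤ T by linarith)
  obtain ⟨hP1, hP2⟩ := PT_cut hK0 hK hF hx0 (by linarith) (show 1 ≤ T by linarith)
  rw [PT_pair hT10 ha0] at hP2
  set A : ℝ := ∫ t in (0 : ℝ)..T, DD x t ^ 2 with hAdef
  set B : ℝ := ∫ t in (0 : ℝ)..T, (L / 2 - PT T x t) ^ 2 with hB
  set D2 : ℝ := ∫ t in (0 : ℝ)..T, (DD x t - (L / 2 - PT T x t)) ^ 2 with hD2
  set I1 : ℝ := ∫ t in (0 : ℝ)..T, PT T x t with hI1
  set I2 : ℝ := ∫ t in (0 : ℝ)..T, PT T x t ^ 2 with hI2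
  have cD := DD_cont hRH hx0 hx1
  have cP := PT_cont hx0 T
  have hBe : B = T * L ^ 2 / 4 - L * I1 + I2 := by
    have e : ∀ t : ℝ, (L / 2 - PT T x t) ^ 2 = L ^ 2 / 4 - L * PT T x t + PT T x t ^ 2 := fun t => by ring
    rw [hB, intervalIntegral.integral_congr (g := fun t => L ^ 2 / 4 - L * PT T x t + PT T x t ^ 2)
      fun t _ => e t, intervalIntegral.integral_add, intervalIntegral.integral_sub,
      intervalIntegral.integral_const_mul, intervalIntegral.integral_const, smul_eq_mul]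
    · ring
    · exact intervalIntegrable_const
    · exact (cP.intervalIntegrable _ _).const_mul _
    · exact intervalIntegrable_const.sub ((cP.intervalIntegrable _ _).const_mul _)
    · exact (cP.pow 2).intervalIntegrable _ _
  have hAB : |A - B| ≤ η * B + (1 + 1 / η) * D2 := by
    have hu : ∀ t : ℝ, DD x t ^ 2 - (L / 2 - PT T x t) ^ 2 ≤
        η * (L / 2 - PT T x t) ^ 2 + (1 + 1 / η) * (DD x t - (L / 2 - PT T x t)) ^ 2 := by
      intro t
      set p := L / 2 - PT T x t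
      set q := DD x t - p with hq
      have e : DD x t = p + q := by rw [hq]; ring
      rw [e]
      have h3 : 2 * p * q ≤ η * p ^ 2 + 1 / η * q ^ 2 := by
        have h4 := sq_nonneg (η * p - q)
        have h5 : 0 ≤ (η * p - q) ^ 2 / η := div_nonneg h4 hη0.le
        have h6 : (η * p - q) ^ 2 / η = η * p ^ 2 - 2 * p * q + 1 / η * q ^ 2 := by
          field_simp
          ring
        linarith
      nlinarith
    have hl : ∀ t : ℝ, -(η * (L / 2 - PT T x t) ^ 2 + (1 + 1 / η) * (DD x t - (L / 2 - PT T x t)) ^ 2) ≤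
        DD x t ^ 2 - (L / 2 - PT T x t) ^ 2 := by
      intro t
      set p := L / 2 - PT T x t
      set q := DD x t - p with hq
      have e : DD x t = p + q := by rw [hq]; ring
      rw [e]
      have h3 : -(2 * p * q) ≤ η * p ^ 2 + 1 / η * q ^ 2 := by
        have h4 := sq_nonneg (η * p + q)
        have h5 : 0 ≤ (η * p + q) ^ 2 / η := div_nonneg h4 hη0.le
        have h6 : (η * p + q) ^ 2 / η = η * p ^ 2 + 2 * p * q + 1 / η * q ^ 2 := by
          field_simp
          ring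
        linarith
      nlinarith [sq_nonneg q]
    have i1 : IntervalIntegrable (fun t => DD x t ^ 2 - (L / 2 - PT T x t) ^ 2) volume 0 T := by
      apply Continuous.intervalIntegrable
      fun_prop
    have i2 : IntervalIntegrable (fun t => η * (L / 2 - PT T x t) ^ 2 +
        (1 + 1 / η) * (DD x t - (L / 2 - PT T x t)) ^ 2) volume 0 T := by
      apply Continuous.intervalIntegrable
      fun_prop
    have e1 : A - B = ∫ t in (0 : ℝ)..T, (DD x t ^ 2 - (L / 2 - PT T x t) ^ 2) := by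
      rw [hAdef, hB, intervalIntegral.integral_sub]
      · exact (cD.pow 2).intervalIntegrable _ _
      · apply Continuous.intervalIntegrable
        fun_prop
    have e2 : η * B + (1 + 1 / η) * D2 = ∫ t in (0 : ℝ)..T, (η * (L / 2 - PT T x t) ^ 2 +
        (1 + 1 / η) * (DD x t - (L / 2 - PT T x t)) ^ 2) := by
      rw [hB, hD2, intervalIntegral.integral_add, intervalIntegral.integral_const_mul,
        intervalIntegral.integral_const_mul]
      · apply Continuous.intervalIntegrable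
        fun_prop
      · apply Continuous.intervalIntegrable
        fun_prop
    rw [e1, e2, abs_le]
    constructor
    · rw [← intervalIntegral.integral_neg]
      exact intervalIntegral.integral_mono_on hTp.le i2.neg i1 fun t _ => hl t
    · exact intervalIntegral.integral_mono_on hTp.le i1 i2 fun t _ => hu t
  -- the error terms
  have hL4 : L ^ 4 ≤ T := by
    have : min ν 1 * T ≤ 1 * T := mul_le_mul_of_nonneg_right (min_le_right _ _) hTp.le
    linarith
  have hD2le : D2 ≤ (C1 + C2) * T := by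
    have h3 : x * (K * Lg 0 + K * Lg T) ≤ a2 * (4 * K) := by
      have h4 : Lg 0 ≤ Lg T := by
        unfold Lg
        apply Real.log_le_log (by positivity)
        simp
      have h5 : K * Lg 0 + K * Lg T ≤ 4 * K * L := by nlinarith
      calc x * (K * Lg 0 + K * Lg T) ≤ x * (4 * K * L) := mul_le_mul_of_nonneg_left h5 hx0.le
        _ = a * (4 * K) := by rw [← hxL]; ring
        _ ≤ a2 * (4 * K) := mul_le_mul_of_nonneg_right ha.2 (by positivity)
    have h0 : 0 ≤ x * (K * Lg 0 + K * Lg T) := by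
      have := one_le_Lg T
      have := one_le_Lg 0
      positivity
    have h4 : (13 + x * (K * Lg 0 + K * Lg T)) ^ 2 ≤ (13 + a2 * (4 * K)) ^ 2 :=
      pow_le_pow_left₀ (by linarith) (by linarith) 2
    have h5 : 2 * ((C + K + 1) * Lg T / x) ^ 2 ≤ C2 * L ^ 4 := by
      have h6 : (C + K + 1) * Lg T / x ≤ (C + K + 1) * 2 / a1 * L ^ 2 := by
        rw [mul_div_assoc]
        calc (C + K + 1) * (Lg T / x) ≤ (C + K + 1) * (2 / a1 * L ^ 2) :=
              mul_le_mul_of_nonneg_left hLgx (by positivity)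
          _ = _ := by ring
      have h7 : 0 ≤ (C + K + 1) * Lg T / x := by
        have := one_le_Lg T
        positivity
      have h8 := pow_le_pow_left₀ h7 h6 2
      calc 2 * ((C + K + 1) * Lg T / x) ^ 2 ≤ 2 * ((C + K + 1) * 2 / a1 * L ^ 2) ^ 2 := by linarith
        _ = _ := by rw [hC2]; ring
    have h8 : C2 * L ^ 4 ≤ C2 * T := mul_le_mul_of_nonneg_left hL4 c2
    have h9 : (2 * (13 + x * (K * Lg 0 + K * Lg T)) ^ 2 + 16) * T ≤ C1 * T :=
      mul_le_mul_of_nonneg_right (by rw [hC1]; linarith) hTp.le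
    linarith
  have hL24 : L ^ 2 ≤ L ^ 4 := pow_le_pow_right₀ hL1 (by norm_num)
  have e1 : |I1 - Real.pi * NZ T| ≤ C3 * (2 * T) := by
    refine hP1.trans ?_
    have h3 : 2 * K * Lg T / x ≤ 4 * K / a1 * L ^ 2 := by
      rw [mul_div_assoc]
      calc 2 * K * (Lg T / x) ≤ 2 * K * (2 / a1 * L ^ 2) := mul_le_mul_of_nonneg_left hLgx (by positivity)
        _ = _ := by ring
    have h4 : 4 * K / a1 * L ^ 2 ≤ 4 * K / a1 * T := mul_le_mul_of_nonneg_left (by linarith) (by positivity)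
    have h5 : 0 ≤ 4 * K / a1 * T := by positivity
    calc 2 * (2 * K * Lg T / x + x * NZ T) * (2 * Real.pi) ≤
          2 * (4 * K / a1 * T + a2 * T) * (2 * Real.pi) := by
          apply mul_le_mul_of_nonneg_right _ (by positivity)
          linarith
      _ = C3 * T := by rw [hC3]; ring
      _ ≤ C3 * (2 * T) := mul_le_mul_of_nonneg_left (by linarith) c3
  have e2 : |I2 - T * L ^ 2 / 4 * Rr| ≤ C4 * (2 * T) := by
    refine hP2.trans ?_
    have h3 : 2 * K * Lg T / x ≤ 4 * K / a1 * L ^ 2 := by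
      rw [mul_div_assoc]
      calc 2 * K * (Lg T / x) ≤ 2 * K * (2 / a1 * L ^ 2) := mul_le_mul_of_nonneg_left hLgx (by positivity)
        _ = _ := by ring
    have h30 : 0 ≤ 2 * K * Lg T / x := by
      have := one_le_Lg T
      positivity
    have h4 : (2 * K * Lg T / x) ^ 2 ≤ (4 * K / a1) ^ 2 * T := by
      calc (2 * K * Lg T / x) ^ 2 ≤ (4 * K / a1 * L ^ 2) ^ 2 := pow_le_pow_left₀ h30 h3 2
        _ = (4 * K / a1) ^ 2 * L ^ 4 := by ring
        _ ≤ _ := mul_le_mul_of_nonneg_left hL4 (by positivity)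
    have h5 : x * (K * Lg T) ≤ 2 * K * a2 := by
      calc x * (K * Lg T) ≤ x * (K * (2 * L)) := by gcongr
        _ = 2 * K * a := by rw [← hxL]; ring
        _ ≤ _ := mul_le_mul_of_nonneg_left ha.2 (by positivity)
    have h50 : 0 ≤ x * (K * Lg T) := by
      have := one_le_Lg T
      positivity
    have h6 : x * (K * Lg T) * (x * NZ T) ≤ 2 * K * a2 * (a2 * T) :=
      mul_le_mul h5 hxN (mul_nonneg hx0.le (NZ_nonneg T)) (by positivity)
    calc 2 * ((2 * K * Lg T / x) ^ 2 + x * (K * Lg T) * (x * NZ T)) * (2 * Real.pi) ≤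
          2 * ((4 * K / a1) ^ 2 * T + 2 * K * a2 * (a2 * T)) * (2 * Real.pi) := by
          apply mul_le_mul_of_nonneg_right _ (by positivity)
          linarith
      _ = C4 * T := by rw [hC4]; ring
      _ ≤ C4 * (2 * T) := mul_le_mul_of_nonneg_left (by linarith) c4
  have e3 : |L * (Real.pi * NZ T) - T * L ^ 2 / 2| ≤ ν * (T * L ^ 2) / 2 := by
    have h3 : T * L ^ 2 / 2 = L * (Real.pi * nT T) := by rw [hnT]; field_simp
    rw [h3, ← mul_sub, ← mul_sub, abs_mul, abs_mul, abs_of_pos hLp, abs_of_pos hpi]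
    have h4 : |NZ T - nT T| ≤ ν * nT T := hN.trans (mul_le_mul_of_nonneg_right (min_le_left _ _) hn.le)
    calc L * (Real.pi * |NZ T - nT T|) ≤ L * (Real.pi * (ν * nT T)) := by gcongr
      _ = ν * (T * L ^ 2) / 2 := by rw [hnT]; field_simp
  set Q : ℝ := T * L ^ 2 with hQ
  have hQ0 : 0 < Q := by positivity
  have hTQ : T * L ≤ ν * Q := by
    have : T * L * 1 ≤ T * L * (ν * L) := mul_le_mul_of_nonneg_left hLν (by positivity)
    calc T * L = T * L * 1 := by ring
      _ ≤ T * L * (ν * L) := this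
      _ = _ := by rw [hQ]; ring
  have hTQ2 : T ≤ ν * Q := by
    have : T * 1 ≤ T * L := mul_le_mul_of_nonneg_left hL1 hTp.le
    linarith
  have hBB : |B - T * L ^ 2 / 4 * (Rr - 1)| ≤ ε / 4 * Q := by
    have h3 : B - T * L ^ 2 / 4 * (Rr - 1) = -(L * (Real.pi * NZ T) - T * L ^ 2 / 2) -
        L * (I1 - Real.pi * NZ T) + (I2 - T * L ^ 2 / 4 * Rr) := by rw [hBe]; ring
    have h4 : |L * (I1 - Real.pi * NZ T)| ≤ C3 * (2 * (ν * Q)) := by
      rw [abs_mul, abs_of_pos hLp]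
      calc L * |I1 - Real.pi * NZ T| ≤ L * (C3 * (2 * T)) := mul_le_mul_of_nonneg_left e1 hLp.le
        _ = C3 * (2 * (T * L)) := by ring
        _ ≤ _ := by gcongr
    have h5 : C4 * (2 * T) ≤ C4 * (2 * (ν * Q)) := by gcongr
    have h6 : ν * (2 * C3 + 2 * C4) * Q ≤ ε / 8 * Q := mul_le_mul_of_nonneg_right hν2 hQ0.le
    have h7 : ν * Q ≤ ε / 8 * Q := mul_le_mul_of_nonneg_right hν3 hQ0.le
    rw [h3]
    rw [abs_le] at e2 e3 h4 ⊢
    constructor <;> linarith [e2.1, e2.2, e3.1, e3.2, h4.1, h4.2]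
  have hBle : B ≤ (R + 2) * Q := by
    have h3 := (abs_le.1 hBB).2
    have h4 : T * L ^ 2 / 4 * (Rr - 1) ≤ R * Q := by
      calc T * L ^ 2 / 4 * (Rr - 1) ≤ T * L ^ 2 / 4 * R :=
            mul_le_mul_of_nonneg_left (by linarith) (by positivity)
        _ = R * Q / 4 := by rw [hQ]; ring
        _ ≤ R * Q := by
            have : 0 ≤ R * Q := by positivity
            linarith
    have h5 : ε / 4 * Q ≤ 2 * Q := mul_le_mul_of_nonneg_right (by linarith) hQ0.le
    have h6 : (R + 2) * Q = R * Q + 2 * Q := by ring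
    rw [h6]
    linarith
  have h3 : η * B ≤ ε / 8 * Q := by
    calc η * B ≤ η * ((R + 2) * Q) := mul_le_mul_of_nonneg_left hBle hη0.le
      _ = η * (R + 2) * Q := by ring
      _ ≤ _ := mul_le_mul_of_nonneg_right hη1 hQ0.le
  have h4 : (1 + 1 / η) * D2 ≤ ε / 8 * Q := by
    calc (1 + 1 / η) * D2 ≤ (1 + 1 / η) * ((C1 + C2) * T) := mul_le_mul_of_nonneg_left hD2le (by positivity)
      _ ≤ (1 + 1 / η) * ((C1 + C2) * (ν * Q)) := by gcongr
      _ = ν * ((1 + 1 / η) * (C1 + C2)) * Q := by ring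
      _ ≤ _ := mul_le_mul_of_nonneg_right hν1 hQ0.le
  have h5 : 0 ≤ ε * Q := by positivity
  rw [abs_le] at hAB hBB ⊢
  constructor <;> linarith [hAB.1, hAB.2, hBB.1, hBB.2]

/-- **the mean square of the real part of the logarithmic derivative** -/
theorem pair_mean (hRH : RiemannHypothesis) {a1 a2 : ℝ} (h1 : 0 < a1) (h12 : a1 ≤ a2) {ε : ℝ}
    (hε : 0 < ε) : ∀ᶠ T : ℝ in atTop, ∀ a ∈ Icc a1 a2,
    |(∫ t in (0 : ℝ)..T, DD (a / Real.log T) t ^ 2) -
      T * Real.log T ^ 2 / 4 * ((∫ x, ra a x ∂(Mp T)) - 1)| ≤ ε * (T * Real.log T ^ 2) := by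
  filter_upwards [pair_mean_aux hRH h1 h12 (ε := min ε 1) (by positivity) (min_le_right _ _),
    eventually_ge_atTop (0 : ℝ)] with T h hT a ha
  exact (h a ha).trans (mul_le_mul_of_nonneg_right (min_le_left _ _) (by positivity))

end Pool.Agent.Q260.GM
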