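import Pool.Agent.Q260.GM.Zl3
import Pool.Agent.Q184.GM.CosPl
import Pool.Agent.Q213.GM.Laplace
import Pool.Agent.Q213.GM.Upper

set_option autoImplicit false

/-!
# The cosine transform of the error in short intervals
-/

namespace Pool.Agent.Q260.GM

open MeasureTheory Filter Topology Set Complex
open Pool.Agent.Q213.GM (ph_meas Dl_meas laplace)

lemma ph_sq_int (h : L2psi) {x : ℝ} (hx : 0 < x) :
    IntegrableOn (fun w => ph w ^ 2 * Real.exp (-((1 + 2 * x) * w))) (Ioi 0) := h _ (by linarith)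

lemma ph_sq_shift (h : L2psi) {κ x : ℝ} (hκ : 0 < κ) (hx : 0 < x) :
    IntegrableOn (fun u => ph (u + κ) ^ 2 * Real.exp (-((1 + 2 * x) * (u + κ)))) (Ioi 0) := by
  have h1 : IntegrableOn (fun w : ℝ => ph w ^ 2 * Real.exp (-((1 + 2 * x) * w))) (Ioi κ) :=
    (ph_sq_int h hx).mono_set (Ioi_subset_Ioi hκ.le)
  have h2 := ((measurePreserving_add_right volume κ).integrableOn_comp_preimage
    (MeasurableEquiv.addRight κ).measurableEmbedding (s := Ioi κ)
    (f := fun w : ℝ => ph w ^ 2 * Real.exp (-((1 + 2 * x) * w)))).2 h1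
  rw [preimage_add_const_Ioi, sub_self] at h2
  exact h2

lemma Dl_sq_int (h : L2psi) {κ x : ℝ} (hκ : 0 < κ) (hx : 0 < x) :
    IntegrableOn (fun u => Dl κ u ^ 2 * Real.exp (-(2 * x * u))) (Ioi 0) := by
  have h1 := ((ph_sq_shift h hκ hx).const_mul (2 * Real.exp ((1 + 2 * x) * κ))).add
    ((ph_sq_int h hx).const_mul 2)
  refine h1.mono' ?_ (ae_of_all _ fun u => ?_)
  · exact (((Dl_meas κ).pow_const 2).mul (by fun_prop)).aestronglyMeasurable
  · rw [Real.norm_eq_abs, abs_of_nonneg (by positivity)]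
    show Dl κ u ^ 2 * Real.exp (-(2 * x * u)) ≤ 2 * Real.exp ((1 + 2 * x) * κ) *
      (ph (u + κ) ^ 2 * Real.exp (-((1 + 2 * x) * (u + κ)))) + 2 * (ph u ^ 2 * Real.exp (-((1 + 2 * x) * u)))
    have e1 : Real.exp ((1 + 2 * x) * κ) * Real.exp (-((1 + 2 * x) * (u + κ))) =
        Real.exp (-((1 + 2 * x) * u)) := by
      rw [← Real.exp_add]; congr 1; ring
    have e2 : Dl κ u ^ 2 * Real.exp (-(2 * x * u)) =
        Real.exp (-((1 + 2 * x) * u)) * (ph (u + κ) - ph u) ^ 2 := by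
      unfold Dl
      rw [mul_pow, ← Real.exp_nat_mul]
      have : Real.exp (-((1 + 2 * x) * u)) = Real.exp (((2 : ℕ) : ℝ) * -(u / 2)) * Real.exp (-(2 * x * u)) := by
        rw [← Real.exp_add]; congr 1; push_cast; ring
      rw [this]; ring
    have e3 : 2 * Real.exp ((1 + 2 * x) * κ) * (ph (u + κ) ^ 2 * Real.exp (-((1 + 2 * x) * (u + κ)))) =
        2 * (Real.exp (-((1 + 2 * x) * u)) * ph (u + κ) ^ 2) := by
      rw [← e1]; ring
    rw [e2, e3]
    have h4 : (ph (u + κ) - ph u) ^ 2 ≤ 2 * ph (u + κ) ^ 2 + 2 * ph u ^ 2 := by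
      nlinarith [sq_nonneg (ph (u + κ) + ph u)]
    have h5 := mul_le_mul_of_nonneg_left h4 (Real.exp_pos (-((1 + 2 * x) * u))).le
    linarith

/-- the core of the shifted function -/
noncomputable def Fc (κ x u : ℝ) : ℝ := Real.exp (-(κ / 4)) * Dl κ u * Real.exp (-(x * (u + κ / 2)))

/-- the shifted function -/
noncomputable def gt (κ x v : ℝ) : ℝ := (Ioi (0 : ℝ)).indicator (Fc κ x) (v - κ / 2)

lemma Fc_meas (κ x : ℝ) : Measurable (Fc κ x) := by
  unfold Fc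
  exact (measurable_const.mul (Dl_meas κ)).mul (by fun_prop)

lemma gt_zero {κ : ℝ} (hκ : 0 < κ) (x : ℝ) {v : ℝ} (hv : v ∉ Ioi (0 : ℝ)) : gt κ x v = 0 := by
  unfold gt
  rw [indicator_of_notMem]
  rw [mem_Ioi, not_lt] at hv ⊢
  linarith

lemma int_Ioi_of_zero {E : Type*} [NormedAddCommGroup E] [NormedSpace ℝ E] {f : ℝ → E}
    (h : ∀ v, v ∉ Ioi (0 : ℝ) → f v = 0) : ∫ v in Ioi (0 : ℝ), f v = ∫ v, f v :=
  setIntegral_eq_integral_of_forall_compl_eq_zero h

/-- integrals of the shifted function -/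
lemma gt_integral {κ : ℝ} (hκ : 0 < κ) (x : ℝ) (w : ℝ → ℝ → ℝ) (hw : ∀ v, w 0 v = 0) :
    ∫ v in Ioi (0 : ℝ), w (gt κ x v) v = ∫ u in Ioi (0 : ℝ), w (Fc κ x u) (u + κ / 2) := by
  rw [int_Ioi_of_zero fun v hv => by rw [gt_zero hκ x hv, hw],
    ← integral_add_right_eq_self (fun v => w (gt κ x v) v) (κ / 2),
    ← integral_indicator measurableSet_Ioi]
  refine integral_congr_ae (ae_of_all _ fun u => ?_)
  simp only [gt, add_sub_cancel_right]
  by_cases h : u ∈ Ioi (0 : ℝ)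
  · rw [indicator_of_mem h, indicator_of_mem h]
  · rw [indicator_of_notMem h, indicator_of_notMem h, hw]

lemma gt_integrable {κ x : ℝ} {w : ℝ → ℝ} (hw : w 0 = 0)
    (h : IntegrableOn (fun u => w (Fc κ x u)) (Ioi 0)) : Integrable (fun v => w (gt κ x v)) := by
  have h1 : Integrable ((Ioi (0 : ℝ)).indicator fun u => w (Fc κ x u)) :=
    h.integrable_indicator measurableSet_Ioi
  have h2 := h1.comp_sub_right (κ / 2)
  refine h2.congr (ae_of_all _ fun v => ?_)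
  simp only [gt]
  by_cases h : v - κ / 2 ∈ Ioi (0 : ℝ)
  · rw [indicator_of_mem h, indicator_of_mem h]
  · rw [indicator_of_notMem h, indicator_of_notMem h, hw]

lemma Fc_sq (κ x u : ℝ) : Fc κ x u ^ 2 =
    Real.exp (-(κ * (1 / 2 + x))) * (Dl κ u ^ 2 * Real.exp (-(2 * x * u))) := by
  unfold Fc
  rw [mul_pow, mul_pow, ← Real.exp_nat_mul, ← Real.exp_nat_mul]
  have : Real.exp (((2 : ℕ) : ℝ) * -(κ / 4)) * Real.exp (((2 : ℕ) : ℝ) * -(x * (u + κ / 2))) =
      Real.exp (-(κ * (1 / 2 + x))) * Real.exp (-(2 * x * u)) := by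
    rw [← Real.exp_add, ← Real.exp_add]; congr 1; push_cast; ring
  linear_combination Dl κ u ^ 2 * this

lemma gt_sq (h : L2psi) {κ x : ℝ} (hκ : 0 < κ) (hx : 0 < x) :
    IntegrableOn (fun v => gt κ x v ^ 2) (Ioi 0) ∧ ∫ v in Ioi (0 : ℝ), gt κ x v ^ 2 =
      Real.exp (-(κ * (1 / 2 + x))) * ∫ u in Ioi (0 : ℝ), Dl κ u ^ 2 * Real.exp (-(2 * x * u)) := by
  constructor
  · refine (gt_integrable (w := fun y => y ^ 2) (by norm_num) ?_).integrableOn
    simp only [Fc_sq]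
    exact (Dl_sq_int h hκ hx).const_mul _
  · rw [gt_integral hκ x (fun y _ => y ^ 2) (fun v => by norm_num)]
    simp only [Fc_sq]
    rw [integral_const_mul]

/-- the factor `exp(-κ s/2)(exp(κ s) - 1)/s` -/
noncomputable def hs (κ : ℝ) (s : ℂ) : ℂ := cexp (-(κ * s / 2)) * ((cexp (κ * s) - 1) / s)

/-- the small term -/
noncomputable def Es (κ : ℝ) (s : ℂ) : ℂ := cexp (-(κ * s / 2)) * ((cexp κ - 1) / (s - 1))

lemma sx_ne_one {x : ℝ} (hx : 0 < x) (h1 : x ≤ 1 / 4) (t : ℝ) : sx x t ≠ 1 := by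
  intro h
  have := congrArg Complex.re h
  unfold sx at this
  simp at this
  linarith

lemma sx_re (x t : ℝ) : (sx x t).re = 1 / 2 + x := by unfold sx; simp

lemma sx_im (x t : ℝ) : (sx x t).im = t := by unfold sx; simp

lemma lap_int (h : L2psi) {κ x : ℝ} (hκ : 0 < κ) (hκ2 : κ ≤ 1 / 2) (hx : 0 < x) (h1 : x ≤ 1 / 4) (t : ℝ) :
    IntegrableOn (fun u : ℝ => (Dl κ u : ℂ) * cexp (-((x + t * I) * u))) (Ioi 0) ∧
    ∫ u in Ioi (0 : ℝ), (Dl κ u : ℂ) * cexp (-((x + t * I) * u)) =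
      -((cexp (κ * sx x t) - 1) / sx x t) * (deriv riemannZeta (sx x t) / riemannZeta (sx x t)) -
        (cexp κ - 1) / (sx x t - 1) := by
  have h2 := laplace h hκ hκ2 (s := sx x t) (by rw [sx_re]; linarith) (sx_ne_one hx h1 t)
  have e : sx x t - 1 / 2 = (x + t * I : ℂ) := by unfold sx; push_cast; ring
  rw [e] at h2
  exact h2

/-- the cosine transform -/
lemma gt_cos (h : L2psi) {κ x : ℝ} (hκ : 0 < κ) (hκ2 : κ ≤ 1 / 2) (hx : 0 < x) (h1 : x ≤ 1 / 4) (t : ℝ) :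
    ∫ v in Ioi (0 : ℝ), gt κ x v * Real.cos (t * v) =
      (-(hs κ (sx x t)) * (deriv riemannZeta (sx x t) / riemannZeta (sx x t)) - Es κ (sx x t)).re := by
  obtain ⟨hi, hv⟩ := lap_int h hκ hκ2 hx h1 t
  rw [gt_integral hκ x (fun y v => y * Real.cos (t * v)) (fun v => by ring)]
  have e1 : -(hs κ (sx x t)) * (deriv riemannZeta (sx x t) / riemannZeta (sx x t)) - Es κ (sx x t) =
      cexp (-(κ * sx x t / 2)) * ∫ u in Ioi (0 : ℝ), (Dl κ u : ℂ) * cexp (-((x + t * I) * u)) := by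
    rw [hv]; unfold hs Es; ring
  rw [e1, ← integral_const_mul]
  have hi2 := hi.const_mul (cexp (-(κ * sx x t / 2)))
  have e2 := Complex.reCLM.integral_comp_comm hi2
  simp only [Complex.reCLM_apply] at e2
  rw [← e2]
  refine integral_congr_ae (ae_of_all _ fun u => ?_)
  show Fc κ x u * Real.cos (t * (u + κ / 2)) =
    (cexp (-(κ * sx x t / 2)) * ((Dl κ u : ℂ) * cexp (-((x + t * I) * u)))).re
  have e3 : cexp (-(κ * sx x t / 2)) * ((Dl κ u : ℂ) * cexp (-((x + t * I) * u))) =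
      ((Fc κ x u : ℝ) : ℂ) * cexp ((-(t * (u + κ / 2)) : ℝ) * I) := by
    unfold Fc sx
    push_cast
    have : cexp (-(κ * ((1 / 2 + x) + t * I) / 2)) * cexp (-((x + t * I) * u)) =
        cexp (-(κ / 4)) * cexp (-(x * (u + κ / 2))) * cexp (-(t * (u + κ / 2)) * I) := by
      rw [← Complex.exp_add, ← Complex.exp_add, ← Complex.exp_add]; congr 1; ring
    linear_combination (Dl κ u : ℂ) * this
  rw [e3, Complex.re_ofReal_mul, Complex.exp_ofReal_mul_I_re, Real.cos_neg]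

end Pool.Agent.Q260.GM
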