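import Pool.Agent.Q260.GM.Ua

set_option autoImplicit false

/-!
# The mean square of the error in short intervals and of `Re ζ'/ζ`
-/

namespace Pool.Agent.Q260.GM

open MeasureTheory Filter Topology Set Complex
open Pool.Agent.Y23 (Lg one_le_Lg)
open Pool.Agent.Q213.GM (ph_meas Dl_meas laplace)

/-- the real kernel -/
noncomputable def h0 (κ t : ℝ) : ℝ := κ * Real.sinc (κ * t / 2)

lemma h0_mul {κ : ℝ} (hκ : 0 < κ) (t : ℝ) : t * h0 κ t = 2 * Real.sin (κ * t / 2) := by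
  unfold h0
  rcases eq_or_ne t 0 with rfl | ht
  · simp
  · have h2 : κ * t / 2 ≠ 0 := by positivity
    rw [Real.sinc_of_ne_zero h2]
    field_simp

lemma h0_abs {κ : ℝ} (hκ : 0 < κ) (t : ℝ) : |h0 κ t| ≤ κ := by
  unfold h0
  rw [abs_mul, abs_of_pos hκ]
  have := Real.abs_sinc_le_one (κ * t / 2)
  nlinarith

lemma h0_even (κ t : ℝ) : h0 κ (-t) = h0 κ t := by
  unfold h0
  rw [mul_neg, neg_div, Real.sinc_neg]

lemma h0_cont (κ : ℝ) : Continuous (h0 κ) := by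
  unfold h0
  exact continuous_const.mul (Real.continuous_sinc.comp (by fun_prop))

lemma hs_eq (κ : ℝ) (s : ℂ) : hs κ s = (cexp (κ * s / 2) - cexp (-(κ * s / 2))) / s := by
  unfold hs
  rw [← mul_div_assoc, mul_sub, ← Complex.exp_add, mul_one]
  congr 3
  ring

lemma exp_sub_one_le {y : ℝ} (h0 : 0 ≤ y) (h1 : y ≤ 1) : Real.exp y - 1 ≤ 2 * y := by
  have h2 := Real.abs_exp_sub_one_le (x := y) (by rw [abs_of_nonneg h0]; exact h1)
  rw [abs_of_nonneg h0] at h2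
  exact (le_abs_self _).trans h2

lemma hs_sub {κ x : ℝ} (hκ : 0 < κ) (hκ2 : κ ≤ 1 / 2) (hx : 0 < x) (h1 : x ≤ 1 / 4) (t : ℝ) :
    ‖hs κ (sx x t) - (h0 κ t : ℂ)‖ ≤ 2 * κ / ‖sx x t‖ := by
  have hs0 : sx x t ≠ 0 := by
    intro h
    have := congrArg Complex.re h
    rw [sx_re] at this
    simp at this
    linarith
  have hn : 0 < ‖sx x t‖ := norm_pos_iff.2 hs0
  rw [le_div_iff₀ hn, ← norm_mul, hs_eq, sub_mul, div_mul_cancel₀ _ hs0]
  set σ : ℝ := 1 / 2 + x with hσ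
  set y : ℝ := κ * σ / 2 with hy
  set θ : ℝ := κ * t / 2 with hθ
  have e1 : cexp (κ * sx x t / 2) = (Real.exp y : ℂ) * cexp (θ * I) := by
    rw [Complex.ofReal_exp, ← Complex.exp_add]
    congr 1
    unfold sx
    rw [hy, hθ, hσ]
    push_cast
    ring
  have e2 : cexp (-(κ * sx x t / 2)) = (Real.exp (-y) : ℂ) * cexp (-(θ * I)) := by
    rw [Complex.ofReal_exp, ← Complex.exp_add]
    congr 1
    unfold sx
    rw [hy, hθ, hσ]
    push_cast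
    ring
  have e3 : (h0 κ t : ℂ) * sx x t = (σ * h0 κ t : ℝ) + (cexp (θ * I) - cexp (-(θ * I))) := by
    have h2 : cexp (θ * I) - cexp (-(θ * I)) = 2 * Complex.sin θ * I := by
      rw [Complex.sin]
      have : I * I = -1 := Complex.I_mul_I
      rw [← neg_mul]
      linear_combination (-(cexp (-θ * I) - cexp (θ * I))) * this
    rw [h2]
    have h3 := h0_mul hκ t
    rw [← hθ] at h3
    have h4 : ((t * h0 κ t : ℝ) : ℂ) = 2 * Complex.sin θ := by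
      rw [h3]; push_cast; rfl
    rw [← h4]
    unfold sx
    rw [hσ]
    push_cast
    ring
  have e4 : cexp (κ * sx x t / 2) - cexp (-(κ * sx x t / 2)) - (h0 κ t : ℂ) * sx x t =
      ((Real.exp y - 1 : ℝ) : ℂ) * cexp (θ * I) + ((1 - Real.exp (-y) : ℝ) : ℂ) * cexp (-(θ * I)) -
        ((σ * h0 κ t : ℝ) : ℂ) := by
    rw [e1, e2, e3]
    push_cast
    ring
  rw [e4]
  have hσ0 : 0 < σ := by rw [hσ]; linarith
  have hσ1 : σ ≤ 3 / 4 := by rw [hσ]; linarith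
  have hy0 : 0 ≤ y := by positivity
  have hy1 : y ≤ 3 / 8 * κ := by rw [hy]; nlinarith
  have b1 : ‖((Real.exp y - 1 : ℝ) : ℂ) * cexp (θ * I)‖ ≤ 2 * y := by
    rw [norm_mul, Complex.norm_exp_ofReal_mul_I, mul_one, Complex.norm_real, Real.norm_eq_abs,
      abs_of_nonneg (by linarith [Real.one_le_exp hy0])]
    exact exp_sub_one_le hy0 (by linarith)
  have b2 : ‖((1 - Real.exp (-y) : ℝ) : ℂ) * cexp (-(θ * I))‖ ≤ y := by
    have : -((θ : ℂ) * I) = ((-θ : ℝ) : ℂ) * I := by push_cast; ring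
    rw [norm_mul, this, Complex.norm_exp_ofReal_mul_I, mul_one, Complex.norm_real, Real.norm_eq_abs]
    have h3 : Real.exp (-y) ≤ 1 := Real.exp_le_one_iff.2 (by linarith)
    rw [abs_of_nonneg (by linarith)]
    have := Real.add_one_le_exp (-y)
    linarith
  have b3 : ‖((σ * h0 κ t : ℝ) : ℂ)‖ ≤ 3 / 4 * κ := by
    rw [Complex.norm_real, Real.norm_eq_abs, abs_mul, abs_of_pos hσ0]
    have := h0_abs hκ t
    have := abs_nonneg (h0 κ t)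
    nlinarith
  have c1 := norm_sub_le (((Real.exp y - 1 : ℝ) : ℂ) * cexp (θ * I) + ((1 - Real.exp (-y) : ℝ) : ℂ) * cexp (-(θ * I)))
    ((σ * h0 κ t : ℝ) : ℂ)
  have c2 := norm_add_le (((Real.exp y - 1 : ℝ) : ℂ) * cexp (θ * I)) (((1 - Real.exp (-y) : ℝ) : ℂ) * cexp (-(θ * I)))
  linarith

lemma sx_norm {x : ℝ} (hx : 0 < x) (t : ℝ) : (1 + t ^ 2) / 4 ≤ ‖sx x t‖ ^ 2 := by
  rw [← Complex.normSq_eq_norm_sq, Complex.normSq_apply, sx_re, sx_im]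
  nlinarith

lemma sx1_norm {x : ℝ} (_hx : 0 < x) (h1 : x ≤ 1 / 4) (t : ℝ) : (1 + t ^ 2) / 16 ≤ ‖sx x t - 1‖ ^ 2 := by
  rw [← Complex.normSq_eq_norm_sq, Complex.normSq_apply, sub_re, sub_im, sx_re, sx_im, one_re, one_im]
  nlinarith

lemma hs_sub_sq {κ x : ℝ} (hκ : 0 < κ) (hκ2 : κ ≤ 1 / 2) (hx : 0 < x) (h1 : x ≤ 1 / 4) (t : ℝ) :
    ‖hs κ (sx x t) - (h0 κ t : ℂ)‖ ^ 2 ≤ 16 * κ ^ 2 / (1 + t ^ 2) := by
  have h2 := pow_le_pow_left₀ (norm_nonneg _) (hs_sub hκ hκ2 hx h1 t) 2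
  have h3 := sx_norm hx t
  refine h2.trans ?_
  rw [div_pow, div_le_div_iff₀ (lt_of_lt_of_le (by positivity) h3) (by positivity)]
  nlinarith [sq_nonneg κ, mul_le_mul_of_nonneg_left h3 (sq_nonneg κ)]

lemma Es_sq {κ x : ℝ} (hκ : 0 < κ) (hκ2 : κ ≤ 1 / 2) (hx : 0 < x) (h1 : x ≤ 1 / 4) (t : ℝ) :
    ‖Es κ (sx x t)‖ ^ 2 ≤ 64 * κ ^ 2 / (1 + t ^ 2) := by
  have h3 := sx1_norm hx h1 t
  have h4 : ‖Es κ (sx x t)‖ ≤ 2 * κ / ‖sx x t - 1‖ := by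
    unfold Es
    rw [norm_mul, norm_div, ← mul_div_assoc]
    apply div_le_div_of_nonneg_right _ (norm_nonneg _)
    have h5 : ‖cexp (-(κ * sx x t / 2))‖ ≤ 1 := by
      rw [Complex.norm_exp, Real.exp_le_one_iff]
      have : (-((κ : ℂ) * sx x t / 2)).re = -(κ * (1 / 2 + x) / 2) := by
        rw [neg_re]
        have h6 : (κ : ℂ) * sx x t / 2 = ((κ / 2 : ℝ) : ℂ) * sx x t := by push_cast; ring
        rw [h6, Complex.re_ofReal_mul, sx_re]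
        ring
      rw [this]
      have : 0 ≤ κ * (1 / 2 + x) / 2 := by positivity
      linarith
    have h6 : ‖cexp (κ : ℂ) - 1‖ ≤ 2 * κ := by
      have e : cexp (κ : ℂ) - 1 = ((Real.exp κ - 1 : ℝ) : ℂ) := by push_cast; rfl
      rw [e, Complex.norm_real, Real.norm_eq_abs, abs_of_nonneg (by linarith [Real.one_le_exp hκ.le])]
      exact exp_sub_one_le hκ.le (by linarith)
    calc ‖cexp (-(κ * sx x t / 2))‖ * ‖cexp (κ : ℂ) - 1‖ ≤ 1 * (2 * κ) :=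
          mul_le_mul h5 h6 (norm_nonneg _) zero_le_one
      _ = _ := one_mul _
  have h2 := pow_le_pow_left₀ (norm_nonneg _) h4 2
  refine h2.trans ?_
  rw [div_pow, div_le_div_iff₀ (lt_of_lt_of_le (by positivity) h3) (by positivity)]
  nlinarith [sq_nonneg κ, mul_le_mul_of_nonneg_left h3 (sq_nonneg κ)]

/-- the weight -/
noncomputable def w1 (t : ℝ) : ℝ := Lg t ^ 2 * (1 + t ^ 2) ^ (-(3 / 4) : ℝ)

lemma w1_nonneg (t : ℝ) : 0 ≤ w1 t := by unfold w1; positivity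

lemma Lg_cont : Continuous Lg := by
  unfold Lg
  exact Continuous.log (by fun_prop) fun t => by positivity

lemma w1_cont : Continuous w1 := by
  unfold w1
  refine (Lg_cont.pow 2).mul ?_
  exact Continuous.rpow_const (by fun_prop) fun t => Or.inl (by positivity)

lemma w1_int : Integrable w1 := by
  have h := integrable_rpow_neg_one_add_norm_sq (E := ℝ) (μ := volume) (r := 5 / 4) (by norm_num)
  refine (h.const_mul (64 * 12 ^ (1 / 8 : ℝ))).mono' w1_cont.aestronglyMeasurable (ae_of_all _ fun t => ?_)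
  rw [Real.norm_eq_abs, abs_of_nonneg (w1_nonneg t)]
  unfold w1
  have h1 : 0 < 3 + |t| := by positivity
  have h2 := Real.log_le_rpow_div h1.le (ε := 1 / 8) (by norm_num)
  have h3 : 0 ≤ Lg t := by linarith [one_le_Lg t]
  have h4 := pow_le_pow_left₀ h3 h2 2
  have h5 : ((3 + |t|) ^ (1 / 8 : ℝ) / (1 / 8)) ^ 2 ≤ 64 * (12 ^ (1 / 8 : ℝ) * (1 + t ^ 2) ^ (1 / 8 : ℝ)) := by
    rw [div_pow, ← Real.mul_rpow (by norm_num) (by positivity)]
    have h6 : ((3 + |t|) ^ (1 / 8 : ℝ)) ^ 2 = ((3 + |t|) ^ 2) ^ (1 / 8 : ℝ) := by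
      rw [← Real.rpow_natCast, ← Real.rpow_natCast, ← Real.rpow_mul h1.le, ← Real.rpow_mul h1.le, mul_comm]
    have h7 : (3 + |t|) ^ 2 ≤ 12 * (1 + t ^ 2) := by
      nlinarith [sq_abs t, sq_nonneg (|t| - 1)]
    have h8 : ((3 + |t|) ^ 2) ^ (1 / 8 : ℝ) ≤ (12 * (1 + t ^ 2)) ^ (1 / 8 : ℝ) :=
      Real.rpow_le_rpow (by positivity) h7 (by norm_num)
    rw [h6]
    have h10 : ((3 + |t|) ^ 2) ^ (1 / 8 : ℝ) / (1 / 8) ^ 2 = 64 * ((3 + |t|) ^ 2) ^ (1 / 8 : ℝ) := by ring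
    rw [h10]
    linarith
  have h9 : (1 + t ^ 2 : ℝ) ^ (-(5 / 4) / 2 : ℝ) = (1 + t ^ 2) ^ (1 / 8 : ℝ) * (1 + t ^ 2) ^ (-(3 / 4) : ℝ) := by
    rw [← Real.rpow_add (by positivity)]; norm_num
  rw [Real.norm_eq_abs, sq_abs, h9]
  calc Lg t ^ 2 * (1 + t ^ 2) ^ (-(3 / 4) : ℝ) ≤
        64 * (12 ^ (1 / 8 : ℝ) * (1 + t ^ 2) ^ (1 / 8 : ℝ)) * (1 + t ^ 2) ^ (-(3 / 4) : ℝ) :=
        mul_le_mul_of_nonneg_right (h4.trans h5) (by positivity)
    _ = _ := by ring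

lemma w1_ge (t : ℝ) : Lg t ^ 2 / (1 + t ^ 2) ≤ w1 t := by
  unfold w1
  rw [div_eq_mul_inv]
  apply mul_le_mul_of_nonneg_left _ (sq_nonneg _)
  rw [← Real.rpow_neg_one]
  exact Real.rpow_le_rpow_of_exponent_le (by nlinarith) (by norm_num)

lemma h0_sq {κ : ℝ} (hκ : 0 < κ) (h1 : κ ≤ 1) (t : ℝ) :
    h0 κ t ^ 2 ≤ 5 * (κ ^ (1 / 2 : ℝ) * (1 + t ^ 2) ^ (-(3 / 4) : ℝ)) := by
  set m := h0 κ t ^ 2 with hm
  have hm0 : 0 ≤ m := sq_nonneg _
  have a1 : m ≤ κ ^ 2 := by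
    rw [hm, ← sq_abs]
    exact pow_le_pow_left₀ (abs_nonneg _) (h0_abs hκ t) 2
  have a2 : m * t ^ 2 ≤ 4 := by
    have h3 := h0_mul hκ t
    have h4 : m * t ^ 2 = (t * h0 κ t) ^ 2 := by rw [hm]; ring
    rw [h4, h3]
    nlinarith [Real.sin_sq_le_one (κ * t / 2)]
  have a3 : m ≤ 5 / (1 + t ^ 2) := by
    rw [le_div_iff₀ (by positivity)]
    nlinarith
  have e : m = m ^ (1 / 4 : ℝ) * m ^ (3 / 4 : ℝ) := by
    rw [← Real.rpow_add_of_nonneg hm0 (by norm_num) (by norm_num)]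
    norm_num
  rw [e]
  have b1 : m ^ (1 / 4 : ℝ) ≤ κ ^ (1 / 2 : ℝ) := by
    have := Real.rpow_le_rpow hm0 a1 (by norm_num : (0 : ℝ) ≤ 1 / 4)
    rw [← Real.rpow_natCast, ← Real.rpow_mul hκ.le] at this
    norm_num at this ⊢
    exact this
  have b2 : m ^ (3 / 4 : ℝ) ≤ 5 * (1 + t ^ 2) ^ (-(3 / 4) : ℝ) := by
    have h3 := Real.rpow_le_rpow hm0 a3 (by norm_num : (0 : ℝ) ≤ 3 / 4)
    have h30 : (5 / (1 + t ^ 2)) ^ (3 / 4 : ℝ) = 5 ^ (3 / 4 : ℝ) * (1 + t ^ 2) ^ (-(3 / 4) : ℝ) := by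
      rw [Real.div_rpow (by norm_num) (by positivity), Real.rpow_neg (by positivity)]
      rfl
    rw [h30] at h3
    have h4 : (5 : ℝ) ^ (3 / 4 : ℝ) ≤ 5 := by
      calc (5 : ℝ) ^ (3 / 4 : ℝ) ≤ 5 ^ (1 : ℝ) := Real.rpow_le_rpow_of_exponent_le (by norm_num) (by norm_num)
        _ = 5 := Real.rpow_one 5
    exact h3.trans (mul_le_mul_of_nonneg_right h4 (by positivity))
  calc m ^ (1 / 4 : ℝ) * m ^ (3 / 4 : ℝ) ≤ κ ^ (1 / 2 : ℝ) * (5 * (1 + t ^ 2) ^ (-(3 / 4) : ℝ)) :=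
        mul_le_mul b1 b2 (by positivity) (by positivity)
    _ = _ := by ring

end Pool.Agent.Q260.GM
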