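import Pool.Agent.Q260.GM.Td
import Pool.Agent.Q260.GM.Uc

set_option autoImplicit false

/-!
# The normalised density of the mean square of `Re ζ'/ζ`
-/

namespace Pool.Agent.Q260.GM

open MeasureTheory Filter Topology Set
open Pool.Agent.Y23 (Lg one_le_Lg)
open Pool.Agent.Y749.Rig (Mp)

/-- the logarithm -/
noncomputable def LL (κ : ℝ) : ℝ := Real.log (1 / κ)

lemma LL_top : Tendsto LL (𝓝[>] 0) atTop := by
  have h1 : Tendsto (fun κ : ℝ => 1 / κ) (𝓝[>] 0) atTop := by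
    simpa only [one_div] using tendsto_inv_nhdsGT_zero
  exact Real.tendsto_log_atTop.comp h1

lemma ev_pos : ∀ᶠ κ : ℝ in 𝓝[>] 0, 0 < κ := eventually_mem_nhdsWithin

lemma ev_le {c : ℝ} (hc : 0 < c) : ∀ᶠ κ : ℝ in 𝓝[>] 0, κ ≤ c := by
  filter_upwards [Ioc_mem_nhdsGT hc] with κ h using h.2

lemma ev_L (c : ℝ) : ∀ᶠ κ : ℝ in 𝓝[>] 0, c ≤ LL κ := LL_top.eventually_ge_atTop c

lemma inv_top : Tendsto (fun κ : ℝ => 1 / κ) (𝓝[>] 0) atTop := by
  simpa only [one_div] using tendsto_inv_nhdsGT_zero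

/-- the density -/
noncomputable def gd (κ a y : ℝ) : ℝ := DD (a / LL κ) (y / κ) ^ 2 / LL κ ^ 2

lemma gd_nonneg (κ a y : ℝ) : 0 ≤ gd κ a y := by unfold gd; positivity

lemma gd_cont (hRH : RiemannHypothesis) {κ a : ℝ} (hx : 0 < a / LL κ) (h1 : a / LL κ ≤ 1 / 4) :
    Continuous (gd κ a) := by
  unfold gd
  exact ((((DD_cont hRH hx h1).comp (continuous_id.div_const κ))).pow 2).div_const _

lemma gd_int {κ a : ℝ} (hκ : 0 < κ) (Y : ℝ) : ∫ y in (0 : ℝ)..Y, gd κ a y =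
    κ / LL κ ^ 2 * ∫ t in (0 : ℝ)..(Y / κ), DD (a / LL κ) t ^ 2 := by
  unfold gd
  rw [intervalIntegral.integral_div, intervalIntegral.integral_comp_div (fun t => DD (a / LL κ) t ^ 2) hκ.ne',
    zero_div, smul_eq_mul]
  ring

lemma mean_bdd (hRH : RiemannHypothesis) {a1 a2 : ℝ} (h1 : 0 < a1) (h12 : a1 ≤ a2) :
    ∃ C : ℝ, 0 < C ∧ ∀ᶠ T : ℝ in atTop, ∀ a ∈ Icc a1 a2,
      ∫ t in (0 : ℝ)..T, DD (a / Real.log T) t ^ 2 ≤ C * (T * Real.log T ^ 2) := by
  obtain ⟨R, hR0, hR⟩ := ra_bdd (a1 := a1) (a2 := a2) h1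
  refine ⟨R + 1, by positivity, ?_⟩
  filter_upwards [pair_mean hRH h1 h12 (ε := 1) one_pos, hR, eventually_ge_atTop (0 : ℝ)] with T h2 h3 hT a ha
  have h4 := (abs_le.1 (h2 a ha)).2
  obtain ⟨h5, h6⟩ := h3 a ha
  have h7 : T * Real.log T ^ 2 / 4 * ((∫ x, ra a x ∂(Mp T)) - 1) ≤ R * (T * Real.log T ^ 2) := by
    have h8 : 0 ≤ T * Real.log T ^ 2 := by positivity
    nlinarith [mul_le_mul_of_nonneg_left h6 h8, mul_nonneg hR0.le h8]
  linarith

/-- the integrated density grows at most linearly -/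
lemma G_bdd (hRH : RiemannHypothesis) {a1 a2 : ℝ} (h1 : 0 < a1) (h12 : a1 ≤ a2) :
    ∃ C : ℝ, 0 < C ∧ ∀ᶠ κ : ℝ in 𝓝[>] 0, ∀ a ∈ Icc a1 a2, ∀ Y : ℝ, 0 ≤ Y → Y ≤ 1 / κ ^ 2 →
      ∫ y in (0 : ℝ)..Y, gd κ a y ≤ C * (1 + Y) := by
  obtain ⟨C, hC, h⟩ := mean_bdd hRH h1 (by linarith : a1 ≤ 3 * a2)
  obtain ⟨T0, hT0⟩ := h.exists_forall_of_atTop
  refine ⟨9 * C, by positivity, ?_⟩
  filter_upwards [ev_pos, ev_le (c := 1 / 2) (by norm_num), ev_L (max 1 (4 * a2)),
    inv_top.eventually_ge_atTop T0] with κ hκ hκ1 hL hT a ha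
  have ha0 : 0 < a := by linarith [ha.1]
  have hL1 : 1 ≤ LL κ := (le_max_left _ _).trans hL
  have hL4 : 4 * a2 ≤ LL κ := (le_max_right _ _).trans hL
  have hLp : 0 < LL κ := by linarith
  have hx0 : 0 < a / LL κ := by positivity
  have hx1 : a / LL κ ≤ 1 / 4 := by rw [div_le_iff₀ hLp]; linarith [ha.2]
  have hgc := gd_cont hRH hx0 hx1
  -- the main range
  have main : ∀ Y : ℝ, 1 ≤ Y → Y ≤ 1 / κ ^ 2 → ∫ y in (0 : ℝ)..Y, gd κ a y ≤ 9 * C * Y := by
    intro Y hY1 hY2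
    rw [gd_int hκ]
    set T : ℝ := Y / κ with hTd
    have hTT : T0 ≤ T := by
      refine hT.trans ?_
      rw [hTd]
      exact div_le_div_of_nonneg_right hY1 hκ.le
    have hTp : 0 < T := by positivity
    have hlog : Real.log T = LL κ + Real.log Y := by
      rw [hTd, Real.log_div (by positivity) hκ.ne']
      unfold LL
      rw [Real.log_div one_ne_zero hκ.ne', Real.log_one]
      ring
    have hlY0 : 0 ≤ Real.log Y := Real.log_nonneg hY1
    have hlY1 : Real.log Y ≤ 2 * LL κ := by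
      have := Real.log_le_log (by linarith) hY2
      rw [one_div, Real.log_inv, Real.log_pow] at this
      unfold LL
      rw [one_div, Real.log_inv]
      push_cast at this
      linarith
    have hlT : LL κ ≤ Real.log T := by linarith
    have hlT3 : Real.log T ≤ 3 * LL κ := by linarith
    have hlTp : 0 < Real.log T := by linarith
    set a' : ℝ := a * Real.log T / LL κ with ha'
    have h2 : a' / Real.log T = a / LL κ := by rw [ha']; field_simp
    have ha1' : a1 ≤ a' := by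
      rw [ha', le_div_iff₀ hLp]
      nlinarith [ha.1]
    have ha2' : a' ≤ 3 * a2 := by
      rw [ha', div_le_iff₀ hLp]
      nlinarith [ha.2]
    have h3 := hT0 T hTT a' ⟨ha1', ha2'⟩
    rw [h2] at h3
    have h4 : Real.log T ^ 2 ≤ 9 * LL κ ^ 2 := by nlinarith
    calc κ / LL κ ^ 2 * ∫ t in (0 : ℝ)..T, DD (a / LL κ) t ^ 2 ≤ κ / LL κ ^ 2 * (C * (T * (9 * LL κ ^ 2))) := by
          apply mul_le_mul_of_nonneg_left _ (by positivity)
          refine h3.trans ?_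
          gcongr
      _ = 9 * C * Y := by rw [hTd]; field_simp
  intro Y hY0 hY
  rcases le_total 1 Y with hY1 | hY1
  · have := main Y hY1 hY
    have : 9 * C * Y ≤ 9 * C * (1 + Y) := mul_le_mul_of_nonneg_left (by linarith) (by positivity)
    linarith
  · have h2 := main 1 le_rfl (by
      rw [le_div_iff₀ (by positivity)]; nlinarith)
    have h3 : ∫ y in (0 : ℝ)..Y, gd κ a y ≤ ∫ y in (0 : ℝ)..1, gd κ a y :=
      intervalIntegral.integral_mono_interval le_rfl hY0 hY1 (ae_of_all _ fun y => gd_nonneg κ a y)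
        (hgc.intervalIntegrable _ _)
    have : 9 * C * 1 ≤ 9 * C * (1 + Y) := mul_le_mul_of_nonneg_left (by linarith) (by positivity)
    linarith

/-- integration by parts against the integrated density -/
lemma abel {f f' g : ℝ → ℝ} (hf : ∀ y, HasDerivAt f (f' y) y) (hf' : Continuous f') (hg : Continuous g)
    (A B : ℝ) : ∫ y in A..B, f y * g y = f B * (∫ y in (0 : ℝ)..B, g y) - f A * (∫ y in (0 : ℝ)..A, g y) -
      ∫ y in A..B, f' y * ∫ z in (0 : ℝ)..y, g z := by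
  have h1 : ∀ y, HasDerivAt (fun y => ∫ z in (0 : ℝ)..y, g z) (g y) y := fun y =>
    intervalIntegral.integral_hasDerivAt_right (hg.intervalIntegrable _ _)
      (hg.stronglyMeasurableAtFilter _ _) hg.continuousAt
  exact intervalIntegral.integral_mul_deriv_eq_deriv_mul (fun y _ => hf y) (fun y _ => h1 y)
    (hf'.intervalIntegrable _ _) (hg.intervalIntegrable _ _)

end Pool.Agent.Q260.GM
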