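import Pool.Agent.Q260.GM.Va

set_option autoImplicit false

/-!
# The tails of the normalised density
-/

namespace Pool.Agent.Q260.GM

open MeasureTheory Filter Topology Set
open Pool.Agent.Y23 (Lg one_le_Lg)

/-- the pointwise bound -/
lemma gd_point (hRH : RiemannHypothesis) {a1 a2 : ℝ} (h1 : 0 < a1) :
    ∃ C : ℝ, 0 < C ∧ ∀ᶠ κ : ℝ in 𝓝[>] 0, ∀ a ∈ Icc a1 a2, ∀ y : ℝ,
      gd κ a y / (1 + y ^ 2) ≤ C / κ ^ 2 * (w1 (y / κ) * (1 + (y / κ) ^ 2) ^ (-(1 / 4) : ℝ)) := by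
  obtain ⟨C, hC, h⟩ := DD_abs hRH
  refine ⟨C ^ 2 / a1 ^ 2, by positivity, ?_⟩
  filter_upwards [ev_pos, ev_le (c := 1) one_pos, ev_L (max 1 (4 * a2))] with κ hκ hκ1 hL a ha y
  have ha0 : 0 < a := by linarith [ha.1]
  have hL1 : 1 ≤ LL κ := (le_max_left _ _).trans hL
  have hL4 : 4 * a2 ≤ LL κ := (le_max_right _ _).trans hL
  have hLp : 0 < LL κ := by linarith
  have hx0 : 0 < a / LL κ := by positivity
  have hx1 : a / LL κ ≤ 1 / 4 := by rw [div_le_iff₀ hLp]; linarith [ha.2]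
  have h2 := pow_le_pow_left₀ (abs_nonneg _) (h (a / LL κ) hx0 hx1 (y / κ)) 2
  rw [sq_abs] at h2
  have h3 : gd κ a y ≤ C ^ 2 / a1 ^ 2 * Lg (y / κ) ^ 2 := by
    unfold gd
    rw [div_le_iff₀ (by positivity)]
    refine h2.trans ?_
    have e : (C * Lg (y / κ) / (a / LL κ)) ^ 2 = C ^ 2 / a ^ 2 * Lg (y / κ) ^ 2 * LL κ ^ 2 := by
      field_simp
    rw [e]
    have h4 : C ^ 2 / a ^ 2 ≤ C ^ 2 / a1 ^ 2 :=
      div_le_div_of_nonneg_left (by positivity) (by positivity) (pow_le_pow_left₀ h1.le ha.1 2)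
    gcongr
  have h5 : 1 / (1 + y ^ 2) ≤ 1 / κ ^ 2 * (1 / (1 + (y / κ) ^ 2)) := by
    rw [div_mul_div_comm, one_mul, div_le_div_iff₀ (by positivity) (by positivity)]
    have e : κ ^ 2 * (1 + (y / κ) ^ 2) = κ ^ 2 + y ^ 2 := by field_simp
    rw [one_mul, one_mul, e]
    nlinarith
  have h6 : w1 (y / κ) * (1 + (y / κ) ^ 2) ^ (-(1 / 4) : ℝ) = Lg (y / κ) ^ 2 * (1 / (1 + (y / κ) ^ 2)) := by
    unfold w1
    have e : (-(3 / 4) + -(1 / 4) : ℝ) = -1 := by norm_num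
    rw [mul_assoc, ← Real.rpow_add (by positivity), e, one_div, Real.rpow_neg_one]
  rw [h6, ← mul_one_div]
  calc gd κ a y * (1 / (1 + y ^ 2)) ≤ (C ^ 2 / a1 ^ 2 * Lg (y / κ) ^ 2) * (1 / κ ^ 2 * (1 / (1 + (y / κ) ^ 2))) :=
        mul_le_mul h3 h5 (by positivity) (by positivity)
    _ = _ := by ring

lemma w1_scale {κ : ℝ} (hκ : 0 < κ) : Integrable (fun y => w1 (y / κ)) ∧
    ∫ y, w1 (y / κ) = κ * ∫ t, w1 t := by
  refine ⟨w1_int.comp_div hκ.ne', ?_⟩
  rw [Measure.integral_comp_div w1 κ, abs_of_pos hκ, smul_eq_mul]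

lemma quarter_le_one (u : ℝ) : (1 + u ^ 2) ^ (-(1 / 4) : ℝ) ≤ 1 :=
  Real.rpow_le_one_of_one_le_of_nonpos (by nlinarith [sq_nonneg u]) (by norm_num)

lemma quarter_far {κ : ℝ} (hκ : 0 < κ) {u : ℝ} (hu : 1 / κ ^ 3 ≤ u) :
    (1 + u ^ 2) ^ (-(1 / 4) : ℝ) ≤ κ * Real.sqrt κ := by
  have hu0 : 0 < 1 / κ ^ 3 := by positivity
  have h1 : (1 / κ ^ 3) ^ 2 ≤ 1 + u ^ 2 := by nlinarith
  have h2 : (1 + u ^ 2) ^ (-(1 / 4) : ℝ) ≤ ((1 / κ ^ 3) ^ 2) ^ (-(1 / 4) : ℝ) :=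
    Real.rpow_le_rpow_of_nonpos (by positivity) h1 (by norm_num)
  refine h2.trans (le_of_eq ?_)
  have e1 : (1 / κ ^ 3 : ℝ) ^ 2 = κ ^ (-6 : ℝ) := by
    rw [Real.rpow_neg hκ.le, one_div, inv_pow, ← pow_mul]
    norm_num
  rw [e1, ← Real.rpow_mul hκ.le, Real.sqrt_eq_rpow]
  nth_rewrite 2 [← Real.rpow_one κ]
  rw [← Real.rpow_add hκ]
  norm_num

lemma int_inv_sq {A B : ℝ} (hA : 0 ≤ A) (hAB : A ≤ B) :
    ∫ y in A..B, 1 / (1 + y) ^ 2 = 1 / (1 + A) - 1 / (1 + B) := by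
  have h1 : ∀ y ∈ uIcc A B, HasDerivAt (fun y : ℝ => -(1 / (1 + y))) (1 / (1 + y) ^ 2) y := by
    intro y hy
    rw [uIcc_of_le hAB] at hy
    have hne : (1 + y) ≠ 0 := by linarith [hy.1]
    have h2 := ((hasDerivAt_id y).const_add 1).inv hne
    have h3 := h2.neg
    refine (h3.congr_deriv ?_).congr_of_eventuallyEq (Eventually.of_forall fun z => ?_)
    · simp only [id, neg_div, neg_neg]
    · simp [one_div]
  have hc : ContinuousOn (fun y : ℝ => 1 / (1 + y) ^ 2) (uIcc A B) := by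
    rw [uIcc_of_le hAB]
    refine continuousOn_const.div (by fun_prop) fun y hy => ?_
    have : 0 < 1 + y := by linarith [hy.1]
    positivity
  rw [intervalIntegral.integral_eq_sub_of_hasDerivAt h1 hc.intervalIntegrable]
  ring

/-- **uniform tails** -/
theorem tail_bdd (hRH : RiemannHypothesis) {a1 a2 : ℝ} (h1 : 0 < a1) (h12 : a1 ≤ a2) :
    ∃ C : ℝ, 0 < C ∧ ∀ᶠ κ : ℝ in 𝓝[>] 0, ∀ a ∈ Icc a1 a2,
      Integrable (fun y => gd κ a y / (1 + y ^ 2)) ∧ ∀ Y : ℝ, 0 ≤ Y → Y ≤ 1 / κ ^ 2 →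
        ∫ y in Ioi Y, gd κ a y / (1 + y ^ 2) ≤ C * (1 / (1 + Y) + Real.sqrt κ) := by
  obtain ⟨C1, hC1, hG⟩ := G_bdd hRH h1 h12
  obtain ⟨C2, hC2, hP⟩ := gd_point (a2 := a2) hRH h1
  set J : ℝ := ∫ t, w1 t with hJ
  have hJ0 : 0 ≤ J := integral_nonneg w1_nonneg
  refine ⟨10 * C1 + C2 * J, by positivity, ?_⟩
  filter_upwards [hG, hP, ev_pos, ev_le (c := 1) one_pos, ev_L (max 1 (4 * a2))] with κ hGκ hPκ hκ hκ1 hL a ha
  have ha0 : 0 < a := by linarith [ha.1]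
  have hL1 : 1 ≤ LL κ := (le_max_left _ _).trans hL
  have hL4 : 4 * a2 ≤ LL κ := (le_max_right _ _).trans hL
  have hLp : 0 < LL κ := by linarith
  have hx0 : 0 < a / LL κ := by positivity
  have hx1 : a / LL κ ≤ 1 / 4 := by rw [div_le_iff₀ hLp]; linarith [ha.2]
  have hgc := gd_cont hRH hx0 hx1
  have hfc : Continuous (fun y => gd κ a y / (1 + y ^ 2)) :=
    hgc.div (by fun_prop) fun y => by positivity
  obtain ⟨hw, hwi⟩ := w1_scale hκ
  have hint : Integrable (fun y => gd κ a y / (1 + y ^ 2)) := by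
    refine (hw.const_mul (C2 / κ ^ 2)).mono' hfc.aestronglyMeasurable (ae_of_all _ fun y => ?_)
    rw [Real.norm_eq_abs, abs_of_nonneg (div_nonneg (gd_nonneg _ _ _) (by positivity))]
    refine (hPκ a ha y).trans ?_
    apply mul_le_mul_of_nonneg_left _ (by positivity)
    have := quarter_le_one (y / κ)
    have := w1_nonneg (y / κ)
    nlinarith
  refine ⟨hint, fun Y hY0 hY1 => ?_⟩
  set B : ℝ := 1 / κ ^ 2 with hB
  have hB0 : 0 < B := by positivity
  have hfn : ∀ y, 0 ≤ gd κ a y / (1 + y ^ 2) := fun y => div_nonneg (gd_nonneg _ _ _) (by positivity)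
  have hsplit : ∫ y in Ioi Y, gd κ a y / (1 + y ^ 2) =
      (∫ y in Y..B, gd κ a y / (1 + y ^ 2)) + ∫ y in Ioi B, gd κ a y / (1 + y ^ 2) := by
    have := intervalIntegral.integral_Ioi_sub_Ioi hint.integrableOn hY1
    linarith
  -- far part
  have hfar : ∫ y in Ioi B, gd κ a y / (1 + y ^ 2) ≤ C2 * J * Real.sqrt κ := by
    have h2 : ∫ y in Ioi B, gd κ a y / (1 + y ^ 2) ≤
        ∫ y in Ioi B, C2 / κ ^ 2 * (κ * Real.sqrt κ) * w1 (y / κ) := by
      refine setIntegral_mono_on hint.integrableOn (hw.const_mul _).integrableOn measurableSet_Ioi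
        fun y hy => ?_
      refine (hPκ a ha y).trans ?_
      have h3 : 1 / κ ^ 3 ≤ y / κ := by
        rw [le_div_iff₀ hκ]
        have e : 1 / κ ^ 3 * κ = B := by rw [hB]; field_simp
        rw [e]
        exact le_of_lt hy
      have h4 := quarter_far hκ h3
      have h5 := mul_le_mul_of_nonneg_left h4 (w1_nonneg (y / κ))
      calc C2 / κ ^ 2 * (w1 (y / κ) * (1 + (y / κ) ^ 2) ^ (-(1 / 4) : ℝ)) ≤
            C2 / κ ^ 2 * (w1 (y / κ) * (κ * Real.sqrt κ)) := mul_le_mul_of_nonneg_left h5 (by positivity)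
        _ = _ := by ring
    refine h2.trans ?_
    have h3 : ∫ y in Ioi B, C2 / κ ^ 2 * (κ * Real.sqrt κ) * w1 (y / κ) ≤
        ∫ y, C2 / κ ^ 2 * (κ * Real.sqrt κ) * w1 (y / κ) :=
      setIntegral_le_integral (hw.const_mul _) (ae_of_all _ fun y => by
        have := w1_nonneg (y / κ)
        show 0 ≤ C2 / κ ^ 2 * (κ * Real.sqrt κ) * w1 (y / κ)
        positivity)
    refine h3.trans (le_of_eq ?_)
    rw [integral_const_mul, hwi, ← hJ]
    field_simp
  -- near part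
  have hnear : ∫ y in Y..B, gd κ a y / (1 + y ^ 2) ≤ 10 * C1 * (1 / (1 + Y)) := by
    have e0 : ∫ y in Y..B, gd κ a y / (1 + y ^ 2) = ∫ y in Y..B, (1 / (1 + y ^ 2)) * gd κ a y :=
      intervalIntegral.integral_congr fun y _ => by ring
    have hd : ∀ y : ℝ, HasDerivAt (fun y : ℝ => 1 / (1 + y ^ 2)) (-(2 * y) / (1 + y ^ 2) ^ 2) y := by
      intro y
      have hne : (1 + y ^ 2) ≠ 0 := by positivity
      have h2 := (((hasDerivAt_id y).pow 2).const_add 1).inv hne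
      refine (h2.congr_deriv ?_).congr_of_eventuallyEq (Eventually.of_forall fun z => ?_)
      · simp
      · simp [one_div]
    have hdc : Continuous fun y : ℝ => -(2 * y) / (1 + y ^ 2) ^ 2 := by
      refine Continuous.div (by fun_prop) (by fun_prop) fun y => by positivity
    rw [e0, abel hd hdc hgc]
    have hM0 : ∀ y : ℝ, 0 ≤ y → 0 ≤ ∫ z in (0 : ℝ)..y, gd κ a z := fun y hy =>
      intervalIntegral.integral_nonneg hy fun z _ => gd_nonneg _ _ _
    have b1 : 1 / (1 + B ^ 2) * (∫ y in (0 : ℝ)..B, gd κ a y) ≤ C1 * (2 / (1 + Y)) := by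
      have h2 := hGκ a ha B hB0.le le_rfl
      calc 1 / (1 + B ^ 2) * (∫ y in (0 : ℝ)..B, gd κ a y) ≤ 1 / (1 + B ^ 2) * (C1 * (1 + B)) :=
            mul_le_mul_of_nonneg_left h2 (by positivity)
        _ = C1 * ((1 + B) / (1 + B ^ 2)) := by ring
        _ ≤ C1 * (2 / (1 + Y)) := by
            apply mul_le_mul_of_nonneg_left _ hC1.le
            rw [div_le_div_iff₀ (by positivity) (by positivity)]
            nlinarith [sq_nonneg (B - 1), mul_le_mul_of_nonneg_left hY1 (by linarith : 0 ≤ 1 + B)]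
    have b2 : 0 ≤ 1 / (1 + Y ^ 2) * (∫ y in (0 : ℝ)..Y, gd κ a y) :=
      mul_nonneg (by positivity) (hM0 Y hY0)
    have b3 : -(∫ y in Y..B, -(2 * y) / (1 + y ^ 2) ^ 2 * ∫ z in (0 : ℝ)..y, gd κ a z) ≤ C1 * (8 * (1 / (1 + Y))) := by
      rw [← intervalIntegral.integral_neg]
      have hMc : Continuous fun y : ℝ => ∫ z in (0 : ℝ)..y, gd κ a z :=
        intervalIntegral.continuous_primitive (fun _ _ => hgc.intervalIntegrable _ _) 0
      have h2 : ∫ y in Y..B, -(-(2 * y) / (1 + y ^ 2) ^ 2 * ∫ z in (0 : ℝ)..y, gd κ a z) ≤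
          ∫ y in Y..B, C1 * (8 * (1 / (1 + y) ^ 2)) := by
        refine intervalIntegral.integral_mono_on hY1 ((hdc.mul hMc).neg.intervalIntegrable _ _) ?_ fun y hy => ?_
        · apply ContinuousOn.intervalIntegrable
          rw [uIcc_of_le hY1]
          refine continuousOn_const.mul (continuousOn_const.mul (continuousOn_const.div (by fun_prop) fun y hy => ?_))
          have : 0 < 1 + y := by linarith [hy.1]
          positivity
        · have hy0 : 0 ≤ y := hY0.trans hy.1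
          have h3 := hGκ a ha y hy0 hy.2
          have e : -(-(2 * y) / (1 + y ^ 2) ^ 2 * ∫ z in (0 : ℝ)..y, gd κ a z) =
              2 * y / (1 + y ^ 2) ^ 2 * ∫ z in (0 : ℝ)..y, gd κ a z := by ring
          rw [e]
          calc 2 * y / (1 + y ^ 2) ^ 2 * ∫ z in (0 : ℝ)..y, gd κ a z ≤ 2 * y / (1 + y ^ 2) ^ 2 * (C1 * (1 + y)) :=
                mul_le_mul_of_nonneg_left h3 (by positivity)
            _ = C1 * (2 * y * (1 + y) / (1 + y ^ 2) ^ 2) := by ring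
            _ ≤ C1 * (8 * (1 / (1 + y) ^ 2)) := by
                apply mul_le_mul_of_nonneg_left _ hC1.le
                rw [mul_one_div, div_le_div_iff₀ (by positivity) (by positivity)]
                have h4 : (1 + y) ^ 2 ≤ 2 * (1 + y ^ 2) := by nlinarith [sq_nonneg (y - 1)]
                have h5 : ((1 + y) ^ 2) ^ 2 ≤ (2 * (1 + y ^ 2)) ^ 2 := pow_le_pow_left₀ (by positivity) h4 2
                have h6 : 2 * y * (1 + y) ≤ 2 * (1 + y) ^ 2 := by nlinarith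
                calc 2 * y * (1 + y) * (1 + y) ^ 2 ≤ 2 * (1 + y) ^ 2 * (1 + y) ^ 2 :=
                      mul_le_mul_of_nonneg_right h6 (by positivity)
                  _ = 2 * ((1 + y) ^ 2) ^ 2 := by ring
                  _ ≤ 2 * (2 * (1 + y ^ 2)) ^ 2 := by linarith
                  _ = 8 * (1 + y ^ 2) ^ 2 := by ring
      refine h2.trans ?_
      rw [intervalIntegral.integral_const_mul, intervalIntegral.integral_const_mul, int_inv_sq hY0 hY1]
      have : 0 ≤ 1 / (1 + B) := by positivity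
      apply mul_le_mul_of_nonneg_left _ hC1.le
      linarith
    have e : 10 * C1 * (1 / (1 + Y)) = C1 * (2 / (1 + Y)) + C1 * (8 * (1 / (1 + Y))) := by ring
    rw [e]
    linarith
  rw [hsplit]
  have p1 : 0 ≤ 1 / (1 + Y) := by positivity
  have p2 := Real.sqrt_nonneg κ
  have : (10 * C1 + C2 * J) * (1 / (1 + Y) + Real.sqrt κ) = 10 * C1 * (1 / (1 + Y)) + C2 * J * Real.sqrt κ +
      (10 * C1 * Real.sqrt κ + C2 * J * (1 / (1 + Y))) := by ring
  rw [this]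
  have : 0 ≤ 10 * C1 * Real.sqrt κ + C2 * J * (1 / (1 + Y)) := by positivity
  linarith

end Pool.Agent.Q260.GM
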