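import Pool.Agent.Q260.GM.Vb

set_option autoImplicit false

/-!
# Primes in short intervals against the normalised density
-/

namespace Pool.Agent.Q260.GM

open MeasureTheory Filter Topology Set
open Pool.Agent.Y23 (Lg one_le_Lg)

/-- the weighted mean square for primes in short intervals -/
noncomputable def SS (κ x : ℝ) : ℝ := ∫ u in Ioi (0 : ℝ), Dl κ u ^ 2 * Real.exp (-(2 * x * u))

lemma SS_nonneg (κ x : ℝ) : 0 ≤ SS κ x := setIntegral_nonneg measurableSet_Ioi fun u _ => by positivity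

lemma kk_nonneg (lam y : ℝ) : 0 ≤ kk lam y := by unfold kk; positivity

lemma kk_cont (lam : ℝ) : Continuous (kk lam) := by
  unfold kk
  exact continuous_const.mul ((Real.continuous_sinc.comp (by fun_prop)).pow 2)

lemma kk_le (lam y : ℝ) : kk lam y ≤ (lam ^ 2 + 4) * (1 / (1 + y ^ 2)) := by
  have h1 : kk lam y ≤ lam ^ 2 := by
    unfold kk
    have h2 := Real.abs_sinc_le_one (lam * y / 2)
    have h3 : Real.sinc (lam * y / 2) ^ 2 ≤ 1 := by
      rw [← sq_abs]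
      have := abs_nonneg (Real.sinc (lam * y / 2))
      nlinarith
    nlinarith [sq_nonneg lam]
  have h2 : kk lam y * y ^ 2 ≤ 4 := by
    rcases eq_or_ne (lam * y / 2) 0 with h0 | h0
    · have h3 : lam * y = 0 := by linarith
      have e : kk lam y * y ^ 2 = (lam * y) ^ 2 * Real.sinc (lam * y / 2) ^ 2 := by unfold kk; ring
      rw [e, h3]
      norm_num
    · unfold kk
      rw [Real.sinc_of_ne_zero h0]
      have hl : lam ≠ 0 := by rintro rfl; simp at h0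
      have hy : y ≠ 0 := by rintro rfl; simp at h0
      have e : lam ^ 2 * (Real.sin (lam * y / 2) / (lam * y / 2)) ^ 2 * y ^ 2 = 4 * Real.sin (lam * y / 2) ^ 2 := by
        field_simp
        ring
      rw [e]
      nlinarith [Real.sin_sq_le_one (lam * y / 2)]
  rw [mul_one_div, le_div_iff₀ (by positivity)]
  nlinarith

lemma kk_even (lam y : ℝ) : kk lam (-y) = kk lam y := by
  unfold kk
  rw [mul_neg, neg_div, Real.sinc_neg]

/-- integrals of functions of quadratic decay against the density -/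
lemma gd_integrable {κ a : ℝ} {f : ℝ → ℝ} {B : ℝ} (hf : Continuous f)
    (hgc : Continuous (gd κ a)) (hb : ∀ y, |f y| ≤ B * (1 / (1 + y ^ 2)))
    (h : Integrable (fun y => gd κ a y / (1 + y ^ 2))) : Integrable (fun y => f y * gd κ a y) := by
  refine (h.const_mul B).mono' (hf.mul hgc).aestronglyMeasurable (ae_of_all _ fun y => ?_)
  rw [Real.norm_eq_abs, abs_mul, abs_of_nonneg (gd_nonneg κ a y)]
  calc |f y| * gd κ a y ≤ B * (1 / (1 + y ^ 2)) * gd κ a y :=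
        mul_le_mul_of_nonneg_right (hb y) (gd_nonneg κ a y)
    _ = _ := by ring

lemma Qf_gd (lam : ℝ) {κ a : ℝ} (hκ : 0 < κ) (hx : 0 < a / LL κ) (h1 : a / LL κ ≤ 1 / 4)
    (hL : 0 < LL κ) :
    ∫ t, Qf (lam * κ) (a / LL κ) t ^ 2 =
      2 * (κ * LL κ ^ 2 * ∫ y in Ioi (0 : ℝ), kk lam y * gd κ a y) := by
  have hev : ∀ t : ℝ, Qf (lam * κ) (a / LL κ) |t| ^ 2 = Qf (lam * κ) (a / LL κ) t ^ 2 := by
    intro t
    rcases abs_choice t with h | h
    · rw [h]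
    · rw [h]
      unfold Qf
      rw [h0_even, DD_even hx h1]
  have e1 : ∫ t, Qf (lam * κ) (a / LL κ) t ^ 2 = 2 * ∫ t in Ioi (0 : ℝ), Qf (lam * κ) (a / LL κ) t ^ 2 := by
    rw [← integral_comp_abs (f := fun t => Qf (lam * κ) (a / LL κ) t ^ 2)]
    exact integral_congr_ae (ae_of_all _ fun t => (hev t).symm)
  rw [e1]
  congr 1
  have e2 : ∀ t : ℝ, Qf (lam * κ) (a / LL κ) t ^ 2 =
      κ ^ 2 * LL κ ^ 2 * (kk lam (κ * t) * gd κ a (κ * t)) := by
    intro t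
    unfold Qf h0 kk gd
    have e3 : κ * t / κ = t := by field_simp
    have e4 : lam * κ * t / 2 = lam * (κ * t) / 2 := by ring
    rw [e3, e4]
    field_simp
  simp only [e2]
  rw [integral_const_mul, integral_comp_mul_left_Ioi (fun y => kk lam y * gd κ a y) 0 hκ, mul_zero,
    smul_eq_mul]
  field_simp

/-- **the fundamental relation** -/
theorem T1b (hRH : RiemannHypothesis) (h : L2psi) {a1 a2 : ℝ} (h1 : 0 < a1) (_h12 : a1 ≤ a2)
    {lam : ℝ} (hlam : 0 < lam) {ε : ℝ} (hε : 0 < ε) : ∀ᶠ κ : ℝ in 𝓝[>] 0, ∀ a ∈ Icc a1 a2,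
    |SS (lam * κ) (a / LL κ) - 2 / Real.pi * (κ * LL κ ^ 2 * ∫ y in Ioi (0 : ℝ), kk lam y * gd κ a y)| ≤
      ε * (κ * LL κ ^ 2) := by
  obtain ⟨C, hC, hT⟩ := T1a hRH h
  have hq : Tendsto (fun κ : ℝ => C / a1 ^ 2 * lam ^ (5 / 4 : ℝ) * κ ^ (1 / 4 : ℝ)) (𝓝[>] 0) (𝓝 0) := by
    have h2 : Tendsto (fun κ : ℝ => κ ^ (1 / 4 : ℝ)) (𝓝 0) (𝓝 (0 ^ (1 / 4 : ℝ))) :=
      (Real.continuousAt_rpow_const 0 (1 / 4) (Or.inr (by norm_num))).tendsto
    rw [Real.zero_rpow (by norm_num)] at h2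
    have h3 := (h2.mono_left (nhdsWithin_le_nhds (s := Ioi 0))).const_mul (C / a1 ^ 2 * lam ^ (5 / 4 : ℝ))
    rw [mul_zero] at h3
    exact h3
  filter_upwards [ev_pos, ev_le (c := 1 / 2 / lam) (by positivity), ev_L (max 1 (4 * a2)),
    hq.eventually (ge_mem_nhds hε)] with κ hκ hκ1 hL hsm a ha
  have ha0 : 0 < a := by linarith [ha.1]
  have hL1 : 1 ≤ LL κ := (le_max_left _ _).trans hL
  have hL4 : 4 * a2 ≤ LL κ := (le_max_right _ _).trans hL
  have hLp : 0 < LL κ := by linarith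
  have hx0 : 0 < a / LL κ := by positivity
  have hx1 : a / LL κ ≤ 1 / 4 := by rw [div_le_iff₀ hLp]; linarith [ha.2]
  have hlk : lam * κ ≤ 1 / 2 := by
    rw [le_div_iff₀ hlam] at hκ1
    linarith
  have h2 := hT (lam * κ) (a / LL κ) (by positivity) hlk hx0 hx1
  rw [Qf_gd lam hκ hx0 hx1 hLp] at h2
  have e : 1 / Real.pi * (2 * (κ * LL κ ^ 2 * ∫ y in Ioi (0 : ℝ), kk lam y * gd κ a y)) =
      2 / Real.pi * (κ * LL κ ^ 2 * ∫ y in Ioi (0 : ℝ), kk lam y * gd κ a y) := by ring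
  rw [e] at h2
  refine h2.trans ?_
  have e2 : (lam * κ) ^ (5 / 4 : ℝ) = lam ^ (5 / 4 : ℝ) * (κ ^ (1 / 4 : ℝ) * κ) := by
    rw [Real.mul_rpow hlam.le hκ.le]
    congr 1
    nth_rewrite 3 [← Real.rpow_one κ]
    rw [← Real.rpow_add hκ]
    norm_num
  have e3 : C / (a / LL κ) ^ 2 * (lam * κ) ^ (5 / 4 : ℝ) =
      C / a ^ 2 * lam ^ (5 / 4 : ℝ) * κ ^ (1 / 4 : ℝ) * (κ * LL κ ^ 2) := by
    rw [e2]; field_simp
  rw [e3]
  apply mul_le_mul_of_nonneg_right _ (by positivity)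
  refine le_trans ?_ hsm
  have h4 : C / a ^ 2 ≤ C / a1 ^ 2 :=
    div_le_div_of_nonneg_left hC.le (by positivity) (pow_le_pow_left₀ h1.le ha.1 2)
  gcongr

/-- the crude bound for primes in short intervals -/
theorem SS_bdd (hRH : RiemannHypothesis) (h : L2psi) {a1 a2 : ℝ} (h1 : 0 < a1) (h12 : a1 ≤ a2)
    {lam : ℝ} (hlam : 0 < lam) : ∃ C : ℝ, 0 < C ∧ ∀ᶠ κ : ℝ in 𝓝[>] 0, ∀ a ∈ Icc a1 a2,
    SS (lam * κ) (a / LL κ) ≤ C * (κ * LL κ ^ 2) := by
  obtain ⟨C, hC, hB⟩ := tail_bdd hRH h1 h12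
  refine ⟨(lam ^ 2 + 4) * (C * 2) + 1, by positivity, ?_⟩
  filter_upwards [T1b hRH h h1 h12 hlam (ε := 1) one_pos, hB, ev_pos, ev_le (c := 1) one_pos,
    ev_L (max 1 (4 * a2))] with κ hT hBκ hκ hκ1 hL a ha
  have ha0 : 0 < a := by linarith [ha.1]
  have hL1 : 1 ≤ LL κ := (le_max_left _ _).trans hL
  have hL4 : 4 * a2 ≤ LL κ := (le_max_right _ _).trans hL
  have hLp : 0 < LL κ := by linarith
  have hx0 : 0 < a / LL κ := by positivity
  have hx1 : a / LL κ ≤ 1 / 4 := by rw [div_le_iff₀ hLp]; linarith [ha.2]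
  have hgc := gd_cont hRH hx0 hx1
  obtain ⟨hi, hb⟩ := hBκ a ha
  have hb0 := hb 0 le_rfl (by positivity)
  have hsq : Real.sqrt κ ≤ 1 := by rw [Real.sqrt_le_one]; exact hκ1
  have hki : Integrable (fun y => kk lam y * gd κ a y) :=
    gd_integrable (kk_cont lam) hgc (fun y => by rw [abs_of_nonneg (kk_nonneg lam y)]; exact kk_le lam y) hi
  have h2 : ∫ y in Ioi (0 : ℝ), kk lam y * gd κ a y ≤ (lam ^ 2 + 4) * (C * 2) := by
    calc ∫ y in Ioi (0 : ℝ), kk lam y * gd κ a y ≤ ∫ y in Ioi (0 : ℝ), (lam ^ 2 + 4) * (gd κ a y / (1 + y ^ 2)) := by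
          refine setIntegral_mono_on hki.integrableOn (hi.const_mul _).integrableOn measurableSet_Ioi fun y _ => ?_
          calc kk lam y * gd κ a y ≤ (lam ^ 2 + 4) * (1 / (1 + y ^ 2)) * gd κ a y :=
                mul_le_mul_of_nonneg_right (kk_le lam y) (gd_nonneg κ a y)
            _ = _ := by ring
      _ = (lam ^ 2 + 4) * ∫ y in Ioi (0 : ℝ), gd κ a y / (1 + y ^ 2) := integral_const_mul _ _
      _ ≤ (lam ^ 2 + 4) * (C * 2) := by
          apply mul_le_mul_of_nonneg_left _ (by positivity)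
          refine hb0.trans ?_
          apply mul_le_mul_of_nonneg_left _ hC.le
          have : 1 / (1 + (0 : ℝ)) = 1 := by norm_num
          rw [this]
          linarith
  have h20 : 0 ≤ ∫ y in Ioi (0 : ℝ), kk lam y * gd κ a y :=
    setIntegral_nonneg measurableSet_Ioi fun y _ => mul_nonneg (kk_nonneg lam y) (gd_nonneg κ a y)
  have h3 := (abs_le.1 (hT a ha)).2
  have hK : 0 < κ * LL κ ^ 2 := by positivity
  have h4 : 2 / Real.pi * (κ * LL κ ^ 2 * ∫ y in Ioi (0 : ℝ), kk lam y * gd κ a y) ≤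
      (lam ^ 2 + 4) * (C * 2) * (κ * LL κ ^ 2) := by
    have h5 : 2 / Real.pi ≤ 1 := by
      rw [div_le_one Real.pi_pos]; linarith [Real.pi_gt_three]
    calc 2 / Real.pi * (κ * LL κ ^ 2 * ∫ y in Ioi (0 : ℝ), kk lam y * gd κ a y) ≤
          1 * (κ * LL κ ^ 2 * ∫ y in Ioi (0 : ℝ), kk lam y * gd κ a y) :=
          mul_le_mul_of_nonneg_right h5 (by positivity)
      _ ≤ 1 * (κ * LL κ ^ 2 * ((lam ^ 2 + 4) * (C * 2))) := by gcongr
      _ = _ := by ring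
  have e : ((lam ^ 2 + 4) * (C * 2) + 1) * (κ * LL κ ^ 2) = (lam ^ 2 + 4) * (C * 2) * (κ * LL κ ^ 2) +
    1 * (κ * LL κ ^ 2) := by ring
  rw [e]
  linarith

end Pool.Agent.Q260.GM
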