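import Pool.Agent.Q260.GM.Vc
import Pool.Agent.Q260.GM.LowC

set_option autoImplicit false

/-!
# From windows to weights
-/

namespace Pool.Agent.Q260.GM

open MeasureTheory Filter Topology Set

/-- **upper bounds on windows give upper bounds for weighted integrals** -/
theorem riemann {ι : Type*} {l : Filter ι} {g : ι → ℝ → ℝ} {w φ : ℝ → ℝ} {A : ℝ} (hA : 0 < A)
    (hg0 : ∀ i y, 0 ≤ g i y) (hgi : ∀ i a b, IntervalIntegrable (g i) volume a b)
    (hw : Continuous w) (hw0 : ∀ y, 0 ≤ y → 0 ≤ w y) (hφ : Continuous φ) (hφ0 : ∀ y, 0 ≤ y → 0 ≤ φ y)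
    (h : ∀ c d : ℝ, 0 ≤ c → c < d → ∀ ε : ℝ, 0 < ε →
      ∀ᶠ i in l, ∫ y in c..d, g i y ≤ (∫ y in c..d, w y) + ε) {ε : ℝ} (hε : 0 < ε) :
    ∀ᶠ i in l, ∫ y in (0 : ℝ)..A, φ y * g i y ≤ (∫ y in (0 : ℝ)..A, φ y * w y) + ε := by
  -- bounds
  obtain ⟨Φ, hΦ⟩ : ∃ Φ : ℝ, ∀ y ∈ Icc 0 A, φ y ≤ Φ := by
    obtain ⟨y, -, hy⟩ := isCompact_Icc.exists_isMaxOn (nonempty_Icc.2 hA.le) hφ.continuousOn
    exact ⟨φ y, fun z hz => hy hz⟩
  have hΦ0 : 0 ≤ Φ := (hφ0 0 le_rfl).trans (hΦ 0 ⟨le_rfl, hA.le⟩)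
  set V : ℝ := ∫ y in (0 : ℝ)..A, w y with hV
  have hV0 : 0 ≤ V := intervalIntegral.integral_nonneg hA.le fun y hy => hw0 y hy.1
  obtain ⟨δ, hδ0, hδ1⟩ : ∃ δ : ℝ, 0 < δ ∧ 2 * δ * V ≤ ε / 2 := by
    refine ⟨ε / 4 / (V + 1), by positivity, ?_⟩
    have : 2 * (ε / 4 / (V + 1)) * V = ε / 2 * (V / (V + 1)) := by field_simp; ring
    rw [this]
    have h2 : V / (V + 1) ≤ 1 := by rw [div_le_one (by positivity)]; linarith
    nlinarith
  -- uniform continuity
  have huc : UniformContinuousOn φ (Icc 0 A) := isCompact_Icc.uniformContinuousOn_of_continuous hφ.continuousOn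
  rw [Metric.uniformContinuousOn_iff] at huc
  obtain ⟨η, hη0, hη⟩ := huc δ hδ0
  obtain ⟨N, hN⟩ := exists_nat_gt (A / η)
  have hN0 : (0 : ℝ) < N := lt_of_le_of_lt (by positivity) hN
  have hNn : 0 < N := by exact_mod_cast hN0
  set s : ℝ := A / N with hs
  have hs0 : 0 < s := by positivity
  have hsη : s < η := by
    rw [hs, div_lt_iff₀ hN0]
    rw [div_lt_iff₀ hη0] at hN
    linarith
  set ε' : ℝ := ε / 2 / (N * (Φ + δ + 1)) with hε'
  have hε'0 : 0 < ε' := by positivity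
  have hall : ∀ᶠ i in l, ∀ k ∈ Finset.range N, ∫ y in (k * s)..((k + 1 : ℕ) * s), g i y ≤
      (∫ y in (k * s)..((k + 1 : ℕ) * s), w y) + ε' := by
    rw [eventually_all_finset]
    intro k _
    exact h _ _ (by positivity) (by push_cast; nlinarith) _ hε'0
  filter_upwards [hall] with i hi
  have hφg : ∀ a b : ℝ, IntervalIntegrable (fun y => φ y * g i y) volume a b := fun a b =>
    (hgi i a b).continuousOn_mul hφ.continuousOn
  have hφw : ∀ a b : ℝ, IntervalIntegrable (fun y => φ y * w y) volume a b := fun a b =>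
    (hφ.mul hw).intervalIntegrable a b
  have hw' : ∀ a b : ℝ, IntervalIntegrable w volume a b := fun a b => hw.intervalIntegrable a b
  have e0 : ((0 : ℕ) : ℝ) * s = 0 := by simp
  have eN : ((N : ℕ) : ℝ) * s = A := by rw [hs]; field_simp
  have t1 := intervalIntegral.sum_integral_adjacent_intervals (a := fun k : ℕ => (k : ℝ) * s) (n := N)
    (f := fun y => φ y * g i y) (μ := volume) fun k _ => hφg _ _
  have t2 := intervalIntegral.sum_integral_adjacent_intervals (a := fun k : ℕ => (k : ℝ) * s) (n := N)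
    (f := fun y => φ y * w y) (μ := volume) fun k _ => hφw _ _
  have t3 := intervalIntegral.sum_integral_adjacent_intervals (a := fun k : ℕ => (k : ℝ) * s) (n := N)
    (f := w) (μ := volume) fun k _ => hw' _ _
  rw [e0, eN] at t1 t2 t3
  rw [← t1, ← t2]
  have key : ∀ k ∈ Finset.range N, ∫ y in ((k : ℕ) : ℝ) * s..((k + 1 : ℕ) : ℝ) * s, φ y * g i y ≤
      (∫ y in ((k : ℕ) : ℝ) * s..((k + 1 : ℕ) : ℝ) * s, φ y * w y) +
        2 * δ * (∫ y in ((k : ℕ) : ℝ) * s..((k + 1 : ℕ) : ℝ) * s, w y) + (Φ + δ) * ε' := by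
    intro k hk
    have hkN : k < N := Finset.mem_range.1 hk
    set p : ℝ := (k : ℝ) * s with hp
    set q : ℝ := ((k + 1 : ℕ) : ℝ) * s with hq
    have hpq : p ≤ q := by rw [hp, hq]; push_cast; nlinarith
    have hqp : q - p = s := by rw [hp, hq]; push_cast; ring
    have hp0 : 0 ≤ p := by positivity
    have hqA : q ≤ A := by
      rw [← eN, hq]
      have : ((k + 1 : ℕ) : ℝ) ≤ (N : ℝ) := by exact_mod_cast hkN
      exact mul_le_mul_of_nonneg_right this hs0.le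
    have hpI : p ∈ Icc 0 A := ⟨hp0, hpq.trans hqA⟩
    have hcl : ∀ y ∈ Icc p q, |φ y - φ p| ≤ δ := by
      intro y hy
      have hyI : y ∈ Icc 0 A := ⟨hp0.trans hy.1, hy.2.trans hqA⟩
      have h3 := hη y hyI p hpI (by
        rw [Real.dist_eq, abs_of_nonneg (by linarith [hy.1])]
        linarith [hy.2])
      rw [Real.dist_eq] at h3
      exact h3.le
    have hgn : 0 ≤ ∫ y in p..q, g i y := intervalIntegral.integral_nonneg hpq fun y _ => hg0 i y
    have hwn : 0 ≤ ∫ y in p..q, w y := intervalIntegral.integral_nonneg hpq fun y hy => hw0 y (hp0.trans hy.1)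
    have f1 : ∫ y in p..q, φ y * g i y ≤ (φ p + δ) * ∫ y in p..q, g i y := by
      rw [← intervalIntegral.integral_const_mul]
      refine intervalIntegral.integral_mono_on hpq (hφg _ _) ((hgi i _ _).const_mul _) fun y hy => ?_
      have := (abs_le.1 (hcl y hy)).2
      exact mul_le_mul_of_nonneg_right (by linarith) (hg0 i y)
    have f2 : φ p * ∫ y in p..q, w y ≤ (∫ y in p..q, φ y * w y) + δ * ∫ y in p..q, w y := by
      rw [← intervalIntegral.integral_const_mul, ← intervalIntegral.integral_const_mul,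
        ← intervalIntegral.integral_add (hφw _ _) ((hw' _ _).const_mul _)]
      refine intervalIntegral.integral_mono_on hpq ((hw' _ _).const_mul _)
        ((hφw _ _).add ((hw' _ _).const_mul _)) fun y hy => ?_
      have := (abs_le.1 (hcl y hy)).1
      have h4 := hw0 y (hp0.trans hy.1)
      nlinarith
    have f3 := hi k hk
    have hφp : 0 ≤ φ p := hφ0 p hp0
    have hφp2 : φ p ≤ Φ := hΦ p hpI
    calc ∫ y in p..q, φ y * g i y ≤ (φ p + δ) * ∫ y in p..q, g i y := f1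
      _ ≤ (φ p + δ) * ((∫ y in p..q, w y) + ε') := mul_le_mul_of_nonneg_left f3 (by positivity)
      _ = φ p * (∫ y in p..q, w y) + δ * (∫ y in p..q, w y) + (φ p + δ) * ε' := by ring
      _ ≤ (∫ y in p..q, φ y * w y) + δ * (∫ y in p..q, w y) + δ * (∫ y in p..q, w y) + (Φ + δ) * ε' := by
          have : (φ p + δ) * ε' ≤ (Φ + δ) * ε' := mul_le_mul_of_nonneg_right (by linarith) hε'0.le
          linarith
      _ = _ := by ring
  refine (Finset.sum_le_sum key).trans ?_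
  rw [Finset.sum_add_distrib, Finset.sum_add_distrib, ← Finset.mul_sum, t3, Finset.sum_const,
    Finset.card_range, nsmul_eq_mul]
  have h5 : (N : ℝ) * ((Φ + δ) * ε') ≤ ε / 2 := by
    rw [hε']
    have e : (N : ℝ) * ((Φ + δ) * (ε / 2 / (N * (Φ + δ + 1)))) = ε / 2 * ((Φ + δ) / (Φ + δ + 1)) := by
      field_simp
    rw [e]
    have h6 : (Φ + δ) / (Φ + δ + 1) ≤ 1 := by rw [div_le_one (by positivity)]; linarith
    nlinarith
  linarith

/-- the weight -/
noncomputable def mn (α : ℝ) : ℝ := min α 1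

lemma mn_cont : Continuous mn := by unfold mn; fun_prop

lemma mn_nonneg {α : ℝ} (h : 0 ≤ α) : 0 ≤ mn α := le_min h zero_le_one

lemma mn_le (α : ℝ) : mn α ≤ 1 := min_le_right _ _

lemma mn_low {c d : ℝ} (hcd : c ≤ d) (hd : d ≤ 1) : ∫ α in c..d, mn α = (d ^ 2 - c ^ 2) / 2 := by
  rw [← integral_id]
  refine intervalIntegral.integral_congr fun α hα => ?_
  rw [uIcc_of_le hcd] at hα
  exact min_eq_left (hα.2.trans hd)

lemma mn_high {c d : ℝ} (hc : 1 ≤ c) (hcd : c ≤ d) : ∫ α in c..d, mn α = d - c := by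
  have : ∫ α in c..d, mn α = ∫ α in c..d, (1 : ℝ) := by
    refine intervalIntegral.integral_congr fun α hα => ?_
    rw [uIcc_of_le hcd] at hα
    exact min_eq_right (hc.trans hα.1)
  rw [this, intervalIntegral.integral_const, smul_eq_mul, mul_one]

/-- the hypothesis: upper bounds on the windows to the right of `1` -/
def UHk : Prop := ∀ c d : ℝ, 1 ≤ c → c < d → ∀ ε : ℝ, 0 < ε → ∀ᶠ κ : ℝ in 𝓝[>] 0,
  ∫ u in (c * LL κ)..(d * LL κ), Dl κ u ^ 2 ≤ (d - c + ε) * (κ * LL κ ^ 2)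

lemma win_all (h : UHk) {c d : ℝ} (hc : 0 ≤ c) (hcd : c < d) {ε : ℝ} (hε : 0 < ε) :
    ∀ᶠ κ : ℝ in 𝓝[>] 0, ∫ u in (c * LL κ)..(d * LL κ), Dl κ u ^ 2 ≤
      ((∫ α in c..d, mn α) + ε) * (κ * LL κ ^ 2) := by
  rcases le_or_gt d 1 with hd | hd
  · rw [mn_low hcd.le hd]
    exact Pool.Agent.Q96.GM.primes_low hc hcd hd hε
  rcases le_or_gt 1 c with hc1 | hc1
  · rw [mn_high hc1 hcd.le]
    exact h c d hc1 hcd ε hε
  · have e : ∫ α in c..d, mn α = (1 ^ 2 - c ^ 2) / 2 + (d - 1) := by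
      rw [← intervalIntegral.integral_add_adjacent_intervals (b := 1) (mn_cont.intervalIntegrable _ _)
        (mn_cont.intervalIntegrable _ _), mn_low hc1.le le_rfl, mn_high le_rfl hd.le]
    filter_upwards [Pool.Agent.Q96.GM.primes_low hc hc1 le_rfl (half_pos hε), h 1 d le_rfl hd _ (half_pos hε)]
      with κ h1 h2
    rw [← intervalIntegral.integral_add_adjacent_intervals (b := 1 * LL κ)
      (Pool.Agent.Q213.GM.Dl_sq_ii κ _ _) (Pool.Agent.Q213.GM.Dl_sq_ii κ _ _), e]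
    have h1' : ∫ u in (c * LL κ)..(1 * LL κ), Dl κ u ^ 2 ≤ ((1 ^ 2 - c ^ 2) / 2 + ε / 2) * (κ * LL κ ^ 2) := h1
    have e2 : ((1 ^ 2 - c ^ 2) / 2 + (d - 1) + ε) * (κ * LL κ ^ 2) =
      ((1 ^ 2 - c ^ 2) / 2 + ε / 2) * (κ * LL κ ^ 2) + (d - 1 + ε / 2) * (κ * LL κ ^ 2) := by ring
    rw [e2]
    exact add_le_add h1' h2

end Pool.Agent.Q260.GM
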