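import Pool.Agent.Q260.GM.Vd

set_option autoImplicit false

/-!
# Weighted upper bounds for primes in short intervals
-/

namespace Pool.Agent.Q260.GM

open MeasureTheory Filter Topology Set
open Pool.Agent.Q213.GM (Dl_sq_ii Dl_meas)

lemma lam_tendsto {lam : ℝ} (hlam : 0 < lam) : Tendsto (fun κ : ℝ => lam * κ) (𝓝[>] 0) (𝓝[>] 0) := by
  refine tendsto_nhdsWithin_iff.2 ⟨?_, ?_⟩
  · have h : Tendsto (fun κ : ℝ => lam * κ) (𝓝 0) (𝓝 (lam * 0)) := (continuous_const_mul lam).tendsto 0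
    rw [mul_zero] at h
    exact h.mono_left nhdsWithin_le_nhds
  · filter_upwards [ev_pos] with κ hκ
    exact mul_pos hlam hκ

lemma LL_lam {lam κ : ℝ} (hlam : 0 < lam) (hκ : 0 < κ) : LL (lam * κ) = LL κ - Real.log lam := by
  unfold LL
  rw [one_div, one_div, Real.log_inv, Real.log_inv, Real.log_mul hlam.ne' hκ.ne']
  ring

/-- windows for the scaled parameter -/
lemma win_lam (h : UHk) {lam : ℝ} (hlam : 0 < lam) {c d : ℝ} (hc : 0 ≤ c) (hcd : c < d) {ε : ℝ}
    (hε : 0 < ε) : ∀ᶠ κ : ℝ in 𝓝[>] 0, ∫ u in (c * LL κ)..(d * LL κ), Dl (lam * κ) u ^ 2 ≤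
      (lam * (∫ α in c..d, mn α) + ε) * (κ * LL κ ^ 2) := by
  set W : ℝ := ∫ α in c..d, mn α with hW
  have hW0 : 0 ≤ W := intervalIntegral.integral_nonneg hcd.le fun α hα => mn_nonneg (hc.trans hα.1)
  set δ : ℝ := min 1 (ε / (lam * (W + 6))) with hδ
  have hδ0 : 0 < δ := by positivity
  have hδ1 : δ ≤ 1 := min_le_left _ _
  have hδ2 : δ * (lam * (W + 6)) ≤ ε := by
    have : δ ≤ ε / (lam * (W + 6)) := min_le_right _ _
    rwa [le_div_iff₀ (by positivity)] at this
  set c' : ℝ := max 0 (c - δ) with hc'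
  set d' : ℝ := d + δ with hd'
  have hc'0 : 0 ≤ c' := le_max_left _ _
  have hc'c : c' ≤ c := max_le hc (by linarith)
  have hcc' : c - δ ≤ c' := le_max_right _ _
  have hdd' : d ≤ d' := by rw [hd']; linarith
  have hW' : ∫ α in c'..d', mn α ≤ W + 2 * δ := by
    have hmi : ∀ a b : ℝ, IntervalIntegrable mn volume a b := fun a b => mn_cont.intervalIntegrable a b
    have e1 : ∫ α in c'..d', mn α = (∫ α in c'..c, mn α) + W + ∫ α in d..d', mn α := by
      rw [hW, intervalIntegral.integral_add_adjacent_intervals (hmi _ _) (hmi _ _),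
        intervalIntegral.integral_add_adjacent_intervals (hmi _ _) (hmi _ _)]
    rw [e1]
    have h1 : ∫ α in c'..c, mn α ≤ δ := by
      have := intervalIntegral.integral_mono_on (μ := volume) hc'c (hmi _ _)
        (intervalIntegrable_const (c := (1 : ℝ))) fun α _ => mn_le α
      rw [intervalIntegral.integral_const, smul_eq_mul, mul_one] at this
      linarith
    have h2 : ∫ α in d..d', mn α ≤ δ := by
      have := intervalIntegral.integral_mono_on (μ := volume) hdd' (hmi _ _)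
        (intervalIntegrable_const (c := (1 : ℝ))) fun α _ => mn_le α
      rw [intervalIntegral.integral_const, smul_eq_mul, mul_one] at this
      rw [hd'] at this ⊢
      linarith
    linarith
  have hev := (lam_tendsto hlam).eventually (win_all h hc'0 (by linarith : c' < d') hδ0)
  have hd'0 : 0 < d' := by linarith
  filter_upwards [hev, ev_pos, ev_L (max 1 ((|c - δ| * |Real.log lam| + (d + δ) * |Real.log lam|) / δ)),
    ev_L (2 * |Real.log lam| / δ + |Real.log lam| + 1)] with κ h1 hκ hL hL2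
  have hL1 : 1 ≤ LL κ := (le_max_left _ _).trans hL
  have hLp : 0 < LL κ := by linarith
  have hLb : |c - δ| * |Real.log lam| + (d + δ) * |Real.log lam| ≤ δ * LL κ := by
    have := (le_max_right _ _).trans hL
    rw [div_le_iff₀ hδ0] at this
    linarith
  have hll := LL_lam hlam hκ
  have hla := neg_abs_le (Real.log lam)
  have hlb := le_abs_self (Real.log lam)
  have p1 : 0 ≤ |c - δ| * |Real.log lam| := by positivity
  have p2 : 0 ≤ (d + δ) * |Real.log lam| := by
    have : 0 ≤ d + δ := hd'0.le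
    positivity
  have g1 : c' * LL (lam * κ) ≤ c * LL κ := by
    rw [hll, hc']
    rcases max_choice 0 (c - δ) with h2 | h2
    · rw [h2, zero_mul]; positivity
    · rw [h2]
      have h3 : -((c - δ) * Real.log lam) ≤ |c - δ| * |Real.log lam| := by
        rw [← abs_mul]
        exact neg_le_abs _
      nlinarith
  have g2 : d * LL κ ≤ d' * LL (lam * κ) := by
    rw [hll, hd']
    have h3 : (d + δ) * Real.log lam ≤ (d + δ) * |Real.log lam| := mul_le_mul_of_nonneg_left hlb hd'0.le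
    nlinarith
  have g3 : ∫ u in (c * LL κ)..(d * LL κ), Dl (lam * κ) u ^ 2 ≤
      ∫ u in (c' * LL (lam * κ))..(d' * LL (lam * κ)), Dl (lam * κ) u ^ 2 :=
    intervalIntegral.integral_mono_interval g1 (mul_le_mul_of_nonneg_right hcd.le hLp.le) g2
      (ae_of_all _ fun u => sq_nonneg _) (Dl_sq_ii _ _ _)
  have g4 : LL (lam * κ) ^ 2 ≤ (1 + δ) * LL κ ^ 2 := by
    have h5 : 2 * |Real.log lam| ≤ δ * LL κ - δ * |Real.log lam| := by
      have h6 : 2 * |Real.log lam| / δ + |Real.log lam| ≤ LL κ := by linarith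
      have h7 := mul_le_mul_of_nonneg_left h6 hδ0.le
      have e : δ * (2 * |Real.log lam| / δ + |Real.log lam|) = 2 * |Real.log lam| + δ * |Real.log lam| := by
        field_simp
      linarith
    have h8 : |LL (lam * κ)| ≤ LL κ + |Real.log lam| := by
      rw [hll]
      refine (abs_sub _ _).trans ?_
      rw [abs_of_pos hLp]
    have h9 : LL (lam * κ) ^ 2 ≤ (LL κ + |Real.log lam|) ^ 2 := by
      rw [← sq_abs]
      exact pow_le_pow_left₀ (abs_nonneg _) h8 2
    refine h9.trans ?_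
    have h10 := abs_nonneg (Real.log lam)
    have h11 : |Real.log lam| ≤ LL κ := by
      have : 0 ≤ 2 * |Real.log lam| / δ := by positivity
      linarith
    have h12 : |Real.log lam| ≤ δ * LL κ := by
      have : 0 ≤ δ * |Real.log lam| := by positivity
      linarith
    nlinarith [mul_le_mul_of_nonneg_left h5 hLp.le, mul_le_mul_of_nonneg_left h12 h10]
  refine g3.trans (h1.trans ?_)
  have hWd : 0 ≤ (∫ α in c'..d', mn α) := intervalIntegral.integral_nonneg (by linarith) fun α hα =>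
    mn_nonneg (hc'0.trans hα.1)
  calc ((∫ α in c'..d', mn α) + δ) * (lam * κ * LL (lam * κ) ^ 2) ≤
        (W + 2 * δ + δ) * (lam * κ * ((1 + δ) * LL κ ^ 2)) := by
        gcongr
    _ = lam * ((W + 3 * δ) * (1 + δ)) * (κ * LL κ ^ 2) := by ring
    _ ≤ (lam * W + ε) * (κ * LL κ ^ 2) := by
        apply mul_le_mul_of_nonneg_right _ (by positivity)
        have : (W + 3 * δ) * (1 + δ) ≤ W + δ * (W + 6) := by nlinarith
        have h3 := mul_le_mul_of_nonneg_left this hlam.le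
        nlinarith

lemma mn_exp_int {c : ℝ} (hc : 0 < c) {φ : ℝ → ℝ} (hφ : Continuous φ) (hφ0 : ∀ y, 0 ≤ y → 0 ≤ φ y)
    (hφ1 : ∀ y, 0 ≤ y → φ y ≤ Real.exp (-(2 * c * y))) :
    IntegrableOn (fun α => φ α * mn α) (Ioi 0) := by
  have h1 : IntegrableOn (fun α : ℝ => Real.exp (-(2 * c) * α)) (Ioi 0) :=
    integrableOn_exp_mul_Ioi (by linarith) 0
  refine h1.mono' (hφ.mul mn_cont).aestronglyMeasurable ?_
  refine (ae_restrict_iff' measurableSet_Ioi).2 (ae_of_all _ fun α hα => ?_)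
  have hα0 : 0 ≤ α := le_of_lt hα
  rw [Real.norm_eq_abs, abs_of_nonneg (mul_nonneg (hφ0 α hα0) (mn_nonneg hα0))]
  have e : -(2 * c) * α = -(2 * c * α) := by ring
  rw [e]
  calc φ α * mn α ≤ Real.exp (-(2 * c * α)) * 1 :=
        mul_le_mul (hφ1 α hα0) (mn_le α) (mn_nonneg hα0) (Real.exp_pos _).le
    _ = _ := mul_one _

/-- **weighted upper bound** -/
theorem UHf (hRH : RiemannHypothesis) (hL2 : L2psi) (h : UHk) {lam : ℝ} (hlam : 0 < lam) {c : ℝ}
    (hc : 0 < c) {φ : ℝ → ℝ} (hφ : Continuous φ) (hφ0 : ∀ y, 0 ≤ y → 0 ≤ φ y)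
    (hφ1 : ∀ y, 0 ≤ y → φ y ≤ Real.exp (-(2 * c * y))) {ε : ℝ} (hε : 0 < ε) :
    ∀ᶠ κ : ℝ in 𝓝[>] 0, ∫ u in Ioi (0 : ℝ), Dl (lam * κ) u ^ 2 * φ (u / LL κ) ≤
      (lam * (∫ α in Ioi (0 : ℝ), φ α * mn α) + ε) * (κ * LL κ ^ 2) := by
  obtain ⟨C, hC, hS⟩ := SS_bdd hRH hL2 (a1 := c / 2) (a2 := c / 2) (by positivity) le_rfl hlam
  -- the cut
  obtain ⟨A, hA0, hA⟩ : ∃ A : ℝ, 0 < A ∧ Real.exp (-(c * A)) * C ≤ ε / 2 := by
    have h1 : Tendsto (fun A : ℝ => Real.exp (-(c * A)) * C) atTop (𝓝 (0 * C)) := by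
      refine Tendsto.mul_const _ ?_
      exact Real.tendsto_exp_neg_atTop_nhds_zero.comp (tendsto_id.const_mul_atTop hc)
    rw [zero_mul] at h1
    obtain ⟨A, h2, h3⟩ := ((h1.eventually (ge_mem_nhds (half_pos hε))).and (eventually_gt_atTop 0)).exists
    exact ⟨A, h3, h2⟩
  -- the Riemann lemma
  have hr := riemann (l := 𝓝[>] (0 : ℝ)) (g := fun κ α => Dl (lam * κ) (α * LL κ) ^ 2 * |κ * LL κ|⁻¹)
    (w := fun α => lam * mn α) (φ := φ) hA0 (fun κ α => by positivity)
    (fun κ a b => by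
      by_cases h0 : LL κ = 0
      · rw [h0]
        simp
      · have h1 := (Dl_sq_ii (lam * κ) (a * LL κ) (b * LL κ)).comp_mul_right (c := LL κ)
        rw [mul_div_assoc, div_self h0, mul_one, mul_div_assoc, div_self h0, mul_one] at h1
        exact h1.mul_const _)
    (continuous_const.mul mn_cont) (fun y hy => mul_nonneg hlam.le (mn_nonneg hy)) hφ hφ0
    (fun c' d' hc' hcd' ε' hε' => by
      filter_upwards [win_lam h hlam hc' hcd' hε', ev_pos, ev_L 1] with κ h1 hκ hL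
      have hLp : 0 < LL κ := by linarith
      rw [intervalIntegral.integral_mul_const, intervalIntegral.integral_comp_mul_right
        (fun u => Dl (lam * κ) u ^ 2) hLp.ne', smul_eq_mul, intervalIntegral.integral_const_mul,
        abs_of_pos (by positivity)]
      have h2 := mul_le_mul_of_nonneg_left h1 (by positivity : 0 ≤ (LL κ)⁻¹ * (κ * LL κ)⁻¹)
      have e : (LL κ)⁻¹ * (κ * LL κ)⁻¹ * ((lam * (∫ α in c'..d', mn α) + ε') * (κ * LL κ ^ 2)) =
          lam * (∫ α in c'..d', mn α) + ε' := by field_simp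
      rw [e] at h2
      linarith) (half_pos hε)
  filter_upwards [hr, hS, ev_pos, ev_L (max 1 (4 * (c / 2)))] with κ h1 h2 hκ hL
  have hL1 : 1 ≤ LL κ := (le_max_left _ _).trans hL
  have hLp : 0 < LL κ := by linarith
  have hK : 0 < κ * LL κ ^ 2 := by positivity
  have hx0 : 0 < c / LL κ := by positivity
  have hle : ∀ u ∈ Ioi (0 : ℝ), Dl (lam * κ) u ^ 2 * φ (u / LL κ) ≤
      Dl (lam * κ) u ^ 2 * Real.exp (-(2 * (c / LL κ) * u)) := by
    intro u hu
    have hu0 : 0 ≤ u / LL κ := div_nonneg (le_of_lt hu) hLp.le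
    apply mul_le_mul_of_nonneg_left _ (sq_nonneg _)
    refine (hφ1 _ hu0).trans (le_of_eq ?_)
    congr 1
    ring
  have hge : ∀ u ∈ Ioi (0 : ℝ), 0 ≤ Dl (lam * κ) u ^ 2 * φ (u / LL κ) := fun u hu =>
    mul_nonneg (sq_nonneg _) (hφ0 _ (div_nonneg (le_of_lt hu) hLp.le))
  have hmeas : Measurable fun u => Dl (lam * κ) u ^ 2 * φ (u / LL κ) :=
    ((Dl_meas _).pow_const 2).mul (hφ.measurable.comp (measurable_id.div_const _))
  have hi1 := Dl_sq_int hL2 (κ := lam * κ) (by positivity) hx0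
  have hint : IntegrableOn (fun u => Dl (lam * κ) u ^ 2 * φ (u / LL κ)) (Ioi 0) := by
    refine hi1.mono' hmeas.aestronglyMeasurable ?_
    refine (ae_restrict_iff' measurableSet_Ioi).2 (ae_of_all _ fun u hu => ?_)
    rw [Real.norm_eq_abs, abs_of_nonneg (hge u hu)]
    exact hle u hu
  have hAL : 0 ≤ A * LL κ := by positivity
  have hsplit := intervalIntegral.integral_Ioi_sub_Ioi hint hAL
  -- the main part
  have hmain : ∫ u in (0 : ℝ)..(A * LL κ), Dl (lam * κ) u ^ 2 * φ (u / LL κ) =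
      κ * LL κ ^ 2 * ∫ α in (0 : ℝ)..A, φ α * (Dl (lam * κ) (α * LL κ) ^ 2 * |κ * LL κ|⁻¹) := by
    rw [abs_of_pos (by positivity)]
    have e1 := intervalIntegral.integral_comp_mul_right (a := 0) (b := A)
      (fun u => Dl (lam * κ) u ^ 2 * φ (u / LL κ)) hLp.ne'
    rw [zero_mul, smul_eq_mul] at e1
    have e2 : ∫ u in (0 : ℝ)..(A * LL κ), Dl (lam * κ) u ^ 2 * φ (u / LL κ) =
        LL κ * ∫ α in (0 : ℝ)..A, Dl (lam * κ) (α * LL κ) ^ 2 * φ (α * LL κ / LL κ) := by
      rw [e1]; field_simp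
    rw [e2, ← intervalIntegral.integral_const_mul, ← intervalIntegral.integral_const_mul]
    refine intervalIntegral.integral_congr fun α _ => ?_
    show LL κ * (Dl (lam * κ) (α * LL κ) ^ 2 * φ (α * LL κ / LL κ)) =
      κ * LL κ ^ 2 * (φ α * (Dl (lam * κ) (α * LL κ) ^ 2 * (κ * LL κ)⁻¹))
    have e3 : α * LL κ / LL κ = α := by field_simp
    rw [e3]
    field_simp
  -- the tail
  have htail : ∫ u in Ioi (A * LL κ), Dl (lam * κ) u ^ 2 * φ (u / LL κ) ≤
      ε / 2 * (κ * LL κ ^ 2) := by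
    have hxx : 0 < c / 2 / LL κ := by positivity
    have hi2 := Dl_sq_int hL2 (κ := lam * κ) (by positivity) hxx
    have h3 : ∫ u in Ioi (A * LL κ), Dl (lam * κ) u ^ 2 * φ (u / LL κ) ≤
        ∫ u in Ioi (A * LL κ), Real.exp (-(c * A)) * (Dl (lam * κ) u ^ 2 * Real.exp (-(2 * (c / 2 / LL κ) * u))) := by
      refine setIntegral_mono_on (hint.mono_set (Ioi_subset_Ioi hAL))
        ((hi2.mono_set (Ioi_subset_Ioi hAL)).const_mul _) measurableSet_Ioi fun u hu => ?_
      have hu0 : u ∈ Ioi (0 : ℝ) := lt_of_le_of_lt hAL hu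
      refine (hle u hu0).trans ?_
      have e : Real.exp (-(c * A)) * (Dl (lam * κ) u ^ 2 * Real.exp (-(2 * (c / 2 / LL κ) * u))) =
          Dl (lam * κ) u ^ 2 * Real.exp (-(c * A) + -(2 * (c / 2 / LL κ) * u)) := by
        rw [Real.exp_add]; ring
      rw [e]
      apply mul_le_mul_of_nonneg_left _ (sq_nonneg _)
      rw [Real.exp_le_exp]
      have h4 : A * LL κ ≤ u := le_of_lt hu
      have h5 : A ≤ u / LL κ := by rw [le_div_iff₀ hLp]; exact h4
      have e2 : 2 * (c / LL κ) * u = c * (u / LL κ) + c * (u / LL κ) := by ring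
      have e3 : 2 * (c / 2 / LL κ) * u = c * (u / LL κ) := by ring
      rw [e2, e3]
      nlinarith
    refine h3.trans ?_
    rw [integral_const_mul]
    have h6 : ∫ u in Ioi (A * LL κ), Dl (lam * κ) u ^ 2 * Real.exp (-(2 * (c / 2 / LL κ) * u)) ≤
        SS (lam * κ) (c / 2 / LL κ) := by
      unfold SS
      exact setIntegral_mono_set hi2 (ae_of_all _ fun u => by positivity)
        (Ioi_subset_Ioi hAL).eventuallyLE
    have h7 := h2 (c / 2) ⟨le_rfl, le_rfl⟩
    calc Real.exp (-(c * A)) * ∫ u in Ioi (A * LL κ), Dl (lam * κ) u ^ 2 * Real.exp (-(2 * (c / 2 / LL κ) * u)) ≤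
          Real.exp (-(c * A)) * (C * (κ * LL κ ^ 2)) :=
          mul_le_mul_of_nonneg_left (h6.trans h7) (Real.exp_pos _).le
      _ = Real.exp (-(c * A)) * C * (κ * LL κ ^ 2) := by ring
      _ ≤ _ := mul_le_mul_of_nonneg_right hA hK.le
  have hlim : ∫ α in (0 : ℝ)..A, φ α * (lam * mn α) ≤ lam * ∫ α in Ioi (0 : ℝ), φ α * mn α := by
    have hmi := mn_exp_int hc hφ hφ0 hφ1
    have e : ∫ α in (0 : ℝ)..A, φ α * (lam * mn α) = lam * ∫ α in (0 : ℝ)..A, φ α * mn α := by
      rw [← intervalIntegral.integral_const_mul]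
      exact intervalIntegral.integral_congr fun α _ => by ring
    rw [e]
    apply mul_le_mul_of_nonneg_left _ hlam.le
    rw [intervalIntegral.integral_of_le hA0.le]
    refine setIntegral_mono_set hmi ?_ Ioc_subset_Ioi_self.eventuallyLE
    exact (ae_restrict_iff' measurableSet_Ioi).2 (ae_of_all _ fun α hα =>
      mul_nonneg (hφ0 α (le_of_lt hα)) (mn_nonneg (le_of_lt hα)))
  have hfin : κ * LL κ ^ 2 * (∫ α in (0 : ℝ)..A, φ α * (Dl (lam * κ) (α * LL κ) ^ 2 * |κ * LL κ|⁻¹)) ≤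
      κ * LL κ ^ 2 * (lam * (∫ α in Ioi (0 : ℝ), φ α * mn α) + ε / 2) :=
    mul_le_mul_of_nonneg_left (h1.trans (by linarith)) hK.le
  have e4 : (lam * (∫ α in Ioi (0 : ℝ), φ α * mn α) + ε) * (κ * LL κ ^ 2) =
      κ * LL κ ^ 2 * (lam * (∫ α in Ioi (0 : ℝ), φ α * mn α) + ε / 2) + ε / 2 * (κ * LL κ ^ 2) := by ring
  rw [e4]
  linarith

end Pool.Agent.Q260.GM
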