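import Pool.Agent.Q260.GM.Ve
import Pool.Agent.Q128.GM.Combo

set_option autoImplicit false

/-!
# Upper bounds for the Cauchy kernel
-/

namespace Pool.Agent.Q260.GM

open MeasureTheory Filter Topology Set

lemma MM_eq (a : ℝ) : MM a = ∫ α in Ioi (0 : ℝ), Real.exp (-(2 * a * α)) * mn α := rfl

lemma MM_int {a : ℝ} (ha : 0 < a) :
    IntegrableOn (fun α => Real.exp (-(2 * a * α)) * mn α) (Ioi 0) :=
  mn_exp_int ha (φ := fun α => Real.exp (-(2 * a * α))) (by fun_prop) (fun y _ => (Real.exp_pos _).le)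
    fun y _ => le_rfl

lemma MM_nonneg (a : ℝ) : 0 ≤ MM a :=
  setIntegral_nonneg measurableSet_Ioi fun α hα =>
    mul_nonneg (Real.exp_pos _).le (mn_nonneg (le_of_lt hα))

lemma SS_phi {lam κ a : ℝ} : SS (lam * κ) (a / LL κ) =
    ∫ u in Ioi (0 : ℝ), Dl (lam * κ) u ^ 2 * Real.exp (-(2 * a * (u / LL κ))) := by
  unfold SS
  refine integral_congr_ae (ae_of_all _ fun u => ?_)
  show Dl (lam * κ) u ^ 2 * Real.exp (-(2 * (a / LL κ) * u)) =
    Dl (lam * κ) u ^ 2 * Real.exp (-(2 * a * (u / LL κ)))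
  congr 2
  ring

lemma SS_up (hRH : RiemannHypothesis) (hL2 : L2psi) (h : UHk) {lam : ℝ} (hlam : 0 < lam) {a : ℝ}
    (ha : 0 < a) {ε : ℝ} (hε : 0 < ε) :
    ∀ᶠ κ : ℝ in 𝓝[>] 0, SS (lam * κ) (a / LL κ) ≤ (lam * MM a + ε) * (κ * LL κ ^ 2) := by
  have h1 := UHf hRH hL2 h hlam ha (φ := fun α => Real.exp (-(2 * a * α))) (by fun_prop)
    (fun y _ => (Real.exp_pos _).le) (fun y _ => le_rfl) hε
  filter_upwards [h1] with κ h2
  rw [SS_phi, MM_eq]
  exact h2

lemma SS_diff (hRH : RiemannHypothesis) (hL2 : L2psi) (h : UHk) {lam : ℝ} (hlam : 0 < lam) {a' a : ℝ}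
    (ha' : 0 < a') (haa : a' ≤ a) {ε : ℝ} (hε : 0 < ε) :
    ∀ᶠ κ : ℝ in 𝓝[>] 0, SS (lam * κ) (a' / LL κ) - SS (lam * κ) (a / LL κ) ≤
      (lam * (MM a' - MM a) + ε) * (κ * LL κ ^ 2) := by
  have ha : 0 < a := by linarith
  have hφ0 : ∀ y : ℝ, 0 ≤ y → 0 ≤ Real.exp (-(2 * a' * y)) - Real.exp (-(2 * a * y)) := by
    intro y hy
    rw [sub_nonneg, Real.exp_le_exp]
    nlinarith
  have h1 := UHf hRH hL2 h hlam ha' (φ := fun α => Real.exp (-(2 * a' * α)) - Real.exp (-(2 * a * α)))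
    (by fun_prop) hφ0 (fun y _ => by
      have := (Real.exp_pos (-(2 * a * y))).le
      linarith) hε
  have e : ∫ α in Ioi (0 : ℝ), (Real.exp (-(2 * a' * α)) - Real.exp (-(2 * a * α))) * mn α =
      MM a' - MM a := by
    rw [MM_eq, MM_eq, ← integral_sub (MM_int ha') (MM_int ha)]
    refine integral_congr_ae (ae_of_all _ fun α => ?_)
    show (Real.exp (-(2 * a' * α)) - Real.exp (-(2 * a * α))) * mn α =
      Real.exp (-(2 * a' * α)) * mn α - Real.exp (-(2 * a * α)) * mn α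
    ring
  rw [e] at h1
  filter_upwards [h1, ev_pos, ev_L 1] with κ h2 hκ hL
  have hLp : 0 < LL κ := by linarith
  rw [SS_phi, SS_phi, ← integral_sub]
  · refine le_trans (le_of_eq ?_) h2
    refine integral_congr_ae (ae_of_all _ fun u => ?_)
    show Dl (lam * κ) u ^ 2 * Real.exp (-(2 * a' * (u / LL κ))) -
      Dl (lam * κ) u ^ 2 * Real.exp (-(2 * a * (u / LL κ))) =
      Dl (lam * κ) u ^ 2 * (Real.exp (-(2 * a' * (u / LL κ))) - Real.exp (-(2 * a * (u / LL κ))))
    ring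
  · have := Dl_sq_int hL2 (κ := lam * κ) (x := a' / LL κ) (by positivity) (by positivity)
    refine this.congr (ae_of_all _ fun u => ?_)
    show Dl (lam * κ) u ^ 2 * Real.exp (-(2 * (a' / LL κ) * u)) = _
    congr 2
    ring
  · have := Dl_sq_int hL2 (κ := lam * κ) (x := a / LL κ) (by positivity) (by positivity)
    refine this.congr (ae_of_all _ fun u => ?_)
    show Dl (lam * κ) u ^ 2 * Real.exp (-(2 * (a / LL κ) * u)) = _
    congr 2
    ring

/-- the pairing with the density -/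
noncomputable def KI (f : ℝ → ℝ) (κ a : ℝ) : ℝ := ∫ y in Ioi (0 : ℝ), f y * gd κ a y

/-- the Cauchy kernel -/
noncomputable def cb (b y : ℝ) : ℝ := b / (b ^ 2 + y ^ 2)

lemma cb_cont {b : ℝ} (hb : 0 < b) : Continuous (cb b) := by
  unfold cb
  exact continuous_const.div (by fun_prop) fun y => by positivity

lemma cb_nonneg {b : ℝ} (hb : 0 < b) (y : ℝ) : 0 ≤ cb b y := by unfold cb; positivity

lemma cb_le {b : ℝ} (hb : 0 < b) (y : ℝ) : cb b y ≤ (b + 1 / b) * (1 / (1 + y ^ 2)) := by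
  unfold cb
  rw [mul_one_div, div_le_div_iff₀ (by positivity) (by positivity)]
  have e : (b + 1 / b) * (b ^ 2 + y ^ 2) = b ^ 3 + b + b * y ^ 2 + y ^ 2 / b := by field_simp; ring
  rw [e]
  have : 0 ≤ y ^ 2 / b := by positivity
  have : 0 ≤ b ^ 3 := by positivity
  nlinarith

/-- general position of the parameters -/
lemma ev_gen (hRH : RiemannHypothesis) {a1 a2 : ℝ} (h1 : 0 < a1) (h12 : a1 ≤ a2) :
    ∃ C : ℝ, 0 < C ∧ ∀ᶠ κ : ℝ in 𝓝[>] 0, 0 < κ ∧ κ ≤ 1 ∧ 1 ≤ LL κ ∧ ∀ a ∈ Icc a1 a2,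
      Continuous (gd κ a) ∧ Integrable (fun y => gd κ a y / (1 + y ^ 2)) ∧
      (∀ Y : ℝ, 0 ≤ Y → Y ≤ 1 / κ ^ 2 →
        ∫ y in Ioi Y, gd κ a y / (1 + y ^ 2) ≤ C * (1 / (1 + Y) + Real.sqrt κ)) ∧
      ∀ Y : ℝ, 0 ≤ Y → Y ≤ 1 / κ ^ 2 → ∫ y in (0 : ℝ)..Y, gd κ a y ≤ C * (1 + Y) := by
  obtain ⟨C1, hC1, hG⟩ := G_bdd hRH h1 h12
  obtain ⟨C2, hC2, hB⟩ := tail_bdd hRH h1 h12
  refine ⟨C1 + C2, by positivity, ?_⟩
  filter_upwards [hG, hB, ev_pos, ev_le (c := 1) one_pos, ev_L (max 1 (4 * a2))] with κ hGκ hBκ hκ hκ1 hL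
  have hL1 : 1 ≤ LL κ := (le_max_left _ _).trans hL
  have hL4 : 4 * a2 ≤ LL κ := (le_max_right _ _).trans hL
  have hLp : 0 < LL κ := by linarith
  refine ⟨hκ, hκ1, hL1, fun a ha => ?_⟩
  have ha0 : 0 < a := by linarith [ha.1]
  have hx0 : 0 < a / LL κ := by positivity
  have hx1 : a / LL κ ≤ 1 / 4 := by rw [div_le_iff₀ hLp]; linarith [ha.2]
  refine ⟨gd_cont hRH hx0 hx1, (hBκ a ha).1, fun Y hY0 hY1 => ?_, fun Y hY0 hY1 => ?_⟩
  · refine ((hBκ a ha).2 Y hY0 hY1).trans ?_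
    exact mul_le_mul_of_nonneg_right (by linarith) (by positivity)
  · refine (hGκ a ha Y hY0 hY1).trans ?_
    exact mul_le_mul_of_nonneg_right (by linarith) (by positivity)

/-- **from the kernels `kk` to the Cauchy kernel** -/
theorem to_cauchy (hRH : RiemannHypothesis) {a1 a2 : ℝ} (h1 : 0 < a1) (h12 : a1 ≤ a2) {a' a : ℝ}
    (ha' : a' ∈ Icc a1 a2) (ha : a ∈ Icc a1 a2) {p q M : ℝ} (hp : |p| ≤ 1) (hq : |q| ≤ 1)
    (h : ∀ lam : ℝ, 0 < lam → ∀ ε : ℝ, 0 < ε → ∀ᶠ κ : ℝ in 𝓝[>] 0,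
      2 / Real.pi * (p * KI (kk lam) κ a' + q * KI (kk lam) κ a) ≤ lam * M + ε)
    {b : ℝ} (hb : 0 < b) {ε : ℝ} (hε : 0 < ε) : ∀ᶠ κ : ℝ in 𝓝[>] 0,
      4 / Real.pi * (p * KI (cb b) κ a' + q * KI (cb b) κ a) ≤ M + ε := by
  obtain ⟨C, hC, hgen⟩ := ev_gen hRH h1 h12
  obtain ⟨C0, hcombo⟩ := Pool.Agent.Q128.GM.combo hb
  have hpi := Real.pi_pos
  set D : ℝ := |C0| + 2 * (b + 1 / b) with hD
  have hD0 : 0 < D := by positivity
  -- the choice of R
  obtain ⟨R, hR1, hR⟩ : ∃ R : ℝ, 1 ≤ R ∧ D * (C * (1 / (1 + R))) ≤ ε / 16 := by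
    refine ⟨max 1 (16 * D * C / ε), le_max_left _ _, ?_⟩
    have h2 : 16 * D * C / ε ≤ max 1 (16 * D * C / ε) := le_max_right _ _
    have h3 : 16 * D * C / ε ≤ 1 + max 1 (16 * D * C / ε) := by linarith
    have h4 : 0 < 1 + max 1 (16 * D * C / ε) := by positivity
    rw [div_le_iff₀ hε] at h3
    have e : D * (C * (1 / (1 + max 1 (16 * D * C / ε)))) = D * C / (1 + max 1 (16 * D * C / ε)) := by ring
    rw [e, div_le_iff₀ h4]
    linarith
  have hR0 : 0 < R := by linarith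
  -- the choice of ε0
  set ε0 : ℝ := min (1 / R) (min (ε / 16 / (C * (1 + R))) (ε / 8 / (|M| + 1))) with hε0
  have hε00 : 0 < ε0 := by positivity
  have he1 : ε0 ≤ 1 / R := min_le_left _ _
  have he2 : ε0 * (C * (1 + R)) ≤ ε / 16 := by
    have : ε0 ≤ ε / 16 / (C * (1 + R)) := (min_le_right _ _).trans (min_le_left _ _)
    rwa [le_div_iff₀ (by positivity)] at this
  have he3 : ε0 * (|M| + 1) ≤ ε / 8 := by
    have : ε0 ≤ ε / 8 / (|M| + 1) := (min_le_right _ _).trans (min_le_right _ _)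
    rwa [le_div_iff₀ (by positivity)] at this
  obtain ⟨n, c, lam, hcl, hsum, hnear, hfar⟩ := hcombo ε0 hε00
  set c' : ℝ := ∑ i, c i with hc'
  have hc'0 : 0 ≤ c' := Finset.sum_nonneg fun i _ => (hcl i).1
  set ε1 : ℝ := ε / 8 / (c' + 1) with hε1
  have hε10 : 0 < ε1 := by positivity
  have hε11 : c' * ε1 ≤ ε / 8 := by
    rw [hε1]
    have e : c' * (ε / 8 / (c' + 1)) = ε / 8 * (c' / (c' + 1)) := by ring
    rw [e]
    have h6 : c' / (c' + 1) ≤ 1 := by rw [div_le_one (by positivity)]; linarith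
    nlinarith
  have hker : ∀ᶠ κ : ℝ in 𝓝[>] 0, ∀ i ∈ (Finset.univ : Finset (Fin n)),
      2 / Real.pi * (p * KI (kk (lam i)) κ a' + q * KI (kk (lam i)) κ a) ≤ lam i * M + ε1 := by
    rw [eventually_all_finset]
    intro i _
    exact h (lam i) (hcl i).2 ε1 hε10
  have hsq : ∀ᶠ κ : ℝ in 𝓝[>] 0, D * (C * Real.sqrt κ) ≤ ε / 16 := by
    have h2 : Tendsto (fun κ : ℝ => D * (C * Real.sqrt κ)) (𝓝 0) (𝓝 (D * (C * Real.sqrt 0))) :=
      ((continuous_const.mul (continuous_const.mul Real.continuous_sqrt)).tendsto 0)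
    rw [Real.sqrt_zero, mul_zero, mul_zero] at h2
    exact (h2.mono_left nhdsWithin_le_nhds).eventually (ge_mem_nhds (by positivity))
  filter_upwards [hker, hgen, hsq, ev_le (c := 1 / R) (by positivity)] with κ hk hg hsκ hκR
  obtain ⟨hκ, hκ1, hL1, hg⟩ := hg
  have hRκ : R ≤ 1 / κ ^ 2 := by
    rw [le_div_iff₀ (by positivity)]
    rw [le_div_iff₀ hR0] at hκR
    nlinarith
  -- the comparison for a single parameter
  set F : ℝ → ℝ := fun y => ∑ i, c i * kk (lam i) y with hF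
  have hFc : Continuous F := continuous_finsetSum _ fun i _ => continuous_const.mul (kk_cont _)
  have hF0 : ∀ y, 0 ≤ F y := fun y => Finset.sum_nonneg fun i _ => mul_nonneg (hcl i).1 (kk_nonneg _ _)
  have hcmp : ∀ s ∈ Icc a1 a2, |2 * KI (cb b) κ s - ∑ i, c i * KI (kk (lam i)) κ s| ≤ ε / 8 + ε / 16 := by
    intro s hs
    obtain ⟨hgc, hgi, htail, hG⟩ := hg s hs
    have i1 : Integrable (fun y => cb b y * gd κ s y) :=
      gd_integrable (cb_cont hb) hgc (fun y => by
        rw [abs_of_nonneg (cb_nonneg hb y)]; exact cb_le hb y) hgi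
    have i2 : ∀ i, Integrable (fun y => kk (lam i) y * gd κ s y) := fun i =>
      gd_integrable (kk_cont _) hgc (fun y => by
        rw [abs_of_nonneg (kk_nonneg _ y)]; exact kk_le _ y) hgi
    have i3 : Integrable (fun y => F y * gd κ s y) := by
      have : (fun y => F y * gd κ s y) = fun y => ∑ i, c i * (kk (lam i) y * gd κ s y) := by
        funext y
        rw [hF]
        simp only
        rw [Finset.sum_mul]
        exact Finset.sum_congr rfl fun i _ => by ring
      rw [this]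
      exact integrable_finsetSum _ fun i _ => (i2 i).const_mul _
    have e1 : ∑ i, c i * KI (kk (lam i)) κ s = ∫ y in Ioi (0 : ℝ), F y * gd κ s y := by
      have : (fun y => F y * gd κ s y) = fun y => ∑ i, c i * (kk (lam i) y * gd κ s y) := by
        funext y
        rw [hF]
        simp only
        rw [Finset.sum_mul]
        exact Finset.sum_congr rfl fun i _ => by ring
      rw [this, integral_finsetSum _ fun i _ => ((i2 i).const_mul _).integrableOn]
      refine Finset.sum_congr rfl fun i _ => ?_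
      rw [integral_const_mul]
      rfl
    have e2 : 2 * KI (cb b) κ s - ∑ i, c i * KI (kk (lam i)) κ s =
        ∫ y in Ioi (0 : ℝ), (2 * cb b y - F y) * gd κ s y := by
      rw [e1]
      unfold KI
      rw [← integral_const_mul, ← integral_sub (i1.integrableOn.const_mul 2) i3.integrableOn]
      refine integral_congr_ae (ae_of_all _ fun y => ?_)
      show 2 * (cb b y * gd κ s y) - F y * gd κ s y = (2 * cb b y - F y) * gd κ s y
      ring
    rw [e2]
    refine abs_integral_le_integral_abs.trans ?_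
    have i4 : Integrable (fun y => |(2 * cb b y - F y) * gd κ s y|) := by
      have : Integrable (fun y => (2 * cb b y - F y) * gd κ s y) := by
        refine ((i1.const_mul 2).sub i3).congr (ae_of_all _ fun y => ?_)
        show 2 * (cb b y * gd κ s y) - F y * gd κ s y = _
        ring
      exact this.abs
    have hsplit := intervalIntegral.integral_Ioi_sub_Ioi i4.integrableOn hR0.le
    have n1 : ∫ y in (0 : ℝ)..R, |(2 * cb b y - F y) * gd κ s y| ≤ ε / 16 := by
      have h2 : ∫ y in (0 : ℝ)..R, |(2 * cb b y - F y) * gd κ s y| ≤ ∫ y in (0 : ℝ)..R, ε0 * gd κ s y := by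
        refine intervalIntegral.integral_mono_on hR0.le i4.intervalIntegrable
          ((hgc.intervalIntegrable _ _).const_mul _) fun y hy => ?_
        rw [abs_mul, abs_of_nonneg (gd_nonneg κ s y)]
        apply mul_le_mul_of_nonneg_right _ (gd_nonneg κ s y)
        have h3 := hnear y (by
          rw [abs_of_nonneg hy.1]
          refine hy.2.trans ?_
          rw [le_div_iff₀ hε00]
          rw [le_div_iff₀ hR0] at he1
          linarith)
        have e3 : 2 * cb b y = 2 * b / (b ^ 2 + y ^ 2) := by unfold cb; ring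
        rw [e3]
        exact h3
      refine h2.trans ?_
      rw [intervalIntegral.integral_const_mul]
      refine le_trans ?_ he2
      exact mul_le_mul_of_nonneg_left (hG R hR0.le hRκ) hε00.le
    have n2 : ∫ y in Ioi R, |(2 * cb b y - F y) * gd κ s y| ≤ ε / 16 + ε / 16 := by
      have h2 : ∫ y in Ioi R, |(2 * cb b y - F y) * gd κ s y| ≤ ∫ y in Ioi R, D * (gd κ s y / (1 + y ^ 2)) := by
        refine setIntegral_mono_on i4.integrableOn (hgi.const_mul _).integrableOn measurableSet_Ioi fun y _ => ?_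
        rw [abs_mul, abs_of_nonneg (gd_nonneg κ s y)]
        have h3 : |2 * cb b y - F y| ≤ D * (1 / (1 + y ^ 2)) := by
          have h4 := hfar y
          have h5 := cb_le hb y
          have h6 := cb_nonneg hb y
          have h7 := hF0 y
          have h8 : C0 / (1 + y ^ 2) ≤ |C0| * (1 / (1 + y ^ 2)) := by
            rw [mul_one_div]
            exact div_le_div_of_nonneg_right (le_abs_self _) (by positivity)
          have h9 : F y ≤ |C0| * (1 / (1 + y ^ 2)) := h4.trans h8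
          have e3 : D * (1 / (1 + y ^ 2)) = |C0| * (1 / (1 + y ^ 2)) + 2 * ((b + 1 / b) * (1 / (1 + y ^ 2))) := by
            rw [hD]; ring
          rw [e3, abs_le]
          constructor <;> linarith
        calc |2 * cb b y - F y| * gd κ s y ≤ D * (1 / (1 + y ^ 2)) * gd κ s y :=
              mul_le_mul_of_nonneg_right h3 (gd_nonneg κ s y)
          _ = _ := by ring
      refine h2.trans ?_
      rw [integral_const_mul]
      have h3 := mul_le_mul_of_nonneg_left (htail R hR0.le hRκ) hD0.le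
      have e3 : D * (C * (1 / (1 + R) + Real.sqrt κ)) = D * (C * (1 / (1 + R))) + D * (C * Real.sqrt κ) := by ring
      rw [e3] at h3
      linarith
    linarith
  have hc1 := hcmp a' ha'
  have hc2 := hcmp a ha
  -- the combination
  have hcomb : 2 / Real.pi * (p * ∑ i, c i * KI (kk (lam i)) κ a' + q * ∑ i, c i * KI (kk (lam i)) κ a) ≤
      M + ε / 8 + ε / 8 := by
    have e1 : 2 / Real.pi * (p * ∑ i, c i * KI (kk (lam i)) κ a' + q * ∑ i, c i * KI (kk (lam i)) κ a) =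
        ∑ i, c i * (2 / Real.pi * (p * KI (kk (lam i)) κ a' + q * KI (kk (lam i)) κ a)) := by
      rw [Finset.mul_sum, Finset.mul_sum, ← Finset.sum_add_distrib, Finset.mul_sum]
      exact Finset.sum_congr rfl fun i _ => by ring
    rw [e1]
    have h2 : ∑ i, c i * (2 / Real.pi * (p * KI (kk (lam i)) κ a' + q * KI (kk (lam i)) κ a)) ≤
        ∑ i, c i * (lam i * M + ε1) :=
      Finset.sum_le_sum fun i hi => mul_le_mul_of_nonneg_left (hk i hi) (hcl i).1
    refine h2.trans ?_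
    have e2 : ∑ i, c i * (lam i * M + ε1) = (∑ i, c i * lam i) * M + c' * ε1 := by
      rw [hc', Finset.sum_mul, Finset.sum_mul, ← Finset.sum_add_distrib]
      exact Finset.sum_congr rfl fun i _ => by ring
    rw [e2]
    have h3 : ((∑ i, c i * lam i) - 1) * M ≤ ε0 * (|M| + 1) := by
      calc ((∑ i, c i * lam i) - 1) * M ≤ |((∑ i, c i * lam i) - 1) * M| := le_abs_self _
        _ = |(∑ i, c i * lam i) - 1| * |M| := abs_mul _ _
        _ ≤ ε0 * |M| := mul_le_mul_of_nonneg_right hsum (abs_nonneg _)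
        _ ≤ ε0 * (|M| + 1) := mul_le_mul_of_nonneg_left (by linarith) hε00.le
    nlinarith
  set S1 := ∑ i, c i * KI (kk (lam i)) κ a'
  set S2 := ∑ i, c i * KI (kk (lam i)) κ a
  set X1 := 2 * KI (cb b) κ a' - S1 with hX1
  set X2 := 2 * KI (cb b) κ a - S2 with hX2
  have e5 : 4 / Real.pi * (p * KI (cb b) κ a' + q * KI (cb b) κ a) =
      2 / Real.pi * (p * S1 + q * S2) + 2 / Real.pi * (p * X1 + q * X2) := by
    rw [hX1, hX2]; ring
  rw [e5]
  have h6 : p * X1 + q * X2 ≤ (ε / 8 + ε / 16) + (ε / 8 + ε / 16) := by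
    have h7 : p * X1 ≤ ε / 8 + ε / 16 := by
      calc p * X1 ≤ |p * X1| := le_abs_self _
        _ = |p| * |X1| := abs_mul _ _
        _ ≤ 1 * (ε / 8 + ε / 16) := mul_le_mul hp hc1 (abs_nonneg _) zero_le_one
        _ = _ := one_mul _
    have h8 : q * X2 ≤ ε / 8 + ε / 16 := by
      calc q * X2 ≤ |q * X2| := le_abs_self _
        _ = |q| * |X2| := abs_mul _ _
        _ ≤ 1 * (ε / 8 + ε / 16) := mul_le_mul hq hc2 (abs_nonneg _) zero_le_one
        _ = _ := one_mul _
    linarith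
  have h9 : 2 / Real.pi * (p * X1 + q * X2) ≤ (ε / 8 + ε / 16) + (ε / 8 + ε / 16) := by
    have h10 : 2 / Real.pi ≤ 1 := by
      rw [div_le_one hpi]; linarith [Real.pi_gt_three]
    have h11 : 0 < 2 / Real.pi := by positivity
    calc 2 / Real.pi * (p * X1 + q * X2) ≤ 2 / Real.pi * ((ε / 8 + ε / 16) + (ε / 8 + ε / 16)) :=
          mul_le_mul_of_nonneg_left h6 h11.le
      _ ≤ 1 * ((ε / 8 + ε / 16) + (ε / 8 + ε / 16)) := mul_le_mul_of_nonneg_right h10 (by positivity)
      _ = _ := one_mul _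
  linarith

end Pool.Agent.Q260.GM
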