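import Pool.Agent.Q260.GM.Vf

set_option autoImplicit false

/-!
# The lower bound from the diagonal
-/

namespace Pool.Agent.Q260.GM

open MeasureTheory Filter Topology Set
open Pool.Agent.Y749.Rig (Mp Mp_zero Mp_bdd Mp_fin)

lemma kk_up (hRH : RiemannHypothesis) (hL2 : L2psi) (h : UHk) {a : ℝ} (ha : 0 < a) (lam : ℝ)
    (hlam : 0 < lam) (ε : ℝ) (hε : 0 < ε) : ∀ᶠ κ : ℝ in 𝓝[>] 0,
    2 / Real.pi * KI (kk lam) κ a ≤ lam * MM a + ε := by
  filter_upwards [SS_up hRH hL2 h hlam ha (half_pos hε), T1b hRH hL2 ha le_rfl hlam (half_pos hε),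
    ev_pos, ev_L 1] with κ h1 h2 hκ hL
  have hLp : 0 < LL κ := by linarith
  have hK : 0 < κ * LL κ ^ 2 := by positivity
  have h3 := (abs_le.1 (h2 a ⟨le_rfl, le_rfl⟩)).1
  have h4 : 2 / Real.pi * KI (kk lam) κ a * (κ * LL κ ^ 2) ≤ (lam * MM a + ε) * (κ * LL κ ^ 2) := by
    have e : 2 / Real.pi * KI (kk lam) κ a * (κ * LL κ ^ 2) =
      2 / Real.pi * (κ * LL κ ^ 2 * ∫ y in Ioi (0 : ℝ), kk lam y * gd κ a y) := by unfold KI; ring
    rw [e]
    linarith
  exact le_of_mul_le_mul_right h4 hK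

lemma kk_diff (hRH : RiemannHypothesis) (hL2 : L2psi) (h : UHk) {a' a : ℝ} (ha' : 0 < a') (haa : a' ≤ a)
    (lam : ℝ) (hlam : 0 < lam) (ε : ℝ) (hε : 0 < ε) : ∀ᶠ κ : ℝ in 𝓝[>] 0,
    2 / Real.pi * (KI (kk lam) κ a' - KI (kk lam) κ a) ≤ lam * (MM a' - MM a) + ε := by
  filter_upwards [SS_diff hRH hL2 h hlam ha' haa (show 0 < ε / 3 by positivity),
    T1b hRH hL2 ha' haa hlam (show 0 < ε / 3 by positivity), ev_pos, ev_L 1] with κ h1 h2 hκ hL
  have hLp : 0 < LL κ := by linarith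
  have hK : 0 < κ * LL κ ^ 2 := by positivity
  have h3 := (abs_le.1 (h2 a' ⟨le_rfl, haa⟩)).1
  have h5 := (abs_le.1 (h2 a ⟨haa, le_rfl⟩)).2
  have h4 : 2 / Real.pi * (KI (kk lam) κ a' - KI (kk lam) κ a) * (κ * LL κ ^ 2) ≤
      (lam * (MM a' - MM a) + ε) * (κ * LL κ ^ 2) := by
    have e : 2 / Real.pi * (KI (kk lam) κ a' - KI (kk lam) κ a) * (κ * LL κ ^ 2) =
      2 / Real.pi * (κ * LL κ ^ 2 * ∫ y in Ioi (0 : ℝ), kk lam y * gd κ a' y) -
      2 / Real.pi * (κ * LL κ ^ 2 * ∫ y in Ioi (0 : ℝ), kk lam y * gd κ a y) := by unfold KI; ring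
    rw [e]
    linarith
  exact le_of_mul_le_mul_right h4 hK

lemma cb_up (hRH : RiemannHypothesis) (hL2 : L2psi) (h : UHk) {a : ℝ} (ha : 0 < a) {b : ℝ} (hb : 0 < b)
    {ε : ℝ} (hε : 0 < ε) : ∀ᶠ κ : ℝ in 𝓝[>] 0, 4 / Real.pi * KI (cb b) κ a ≤ MM a + ε := by
  have h1 := to_cauchy hRH ha le_rfl (a' := a) (a := a) ⟨le_rfl, le_rfl⟩ ⟨le_rfl, le_rfl⟩
    (p := 0) (q := 1) (M := MM a) (by norm_num) (by norm_num) (fun lam hlam ε hε => by
      filter_upwards [kk_up hRH hL2 h ha lam hlam ε hε] with κ h2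
      simpa using h2) hb hε
  filter_upwards [h1] with κ h2
  simpa using h2

lemma cb_diff (hRH : RiemannHypothesis) (hL2 : L2psi) (h : UHk) {a' a : ℝ} (ha' : 0 < a') (haa : a' ≤ a)
    {b : ℝ} (hb : 0 < b) {ε : ℝ} (hε : 0 < ε) : ∀ᶠ κ : ℝ in 𝓝[>] 0,
    4 / Real.pi * (KI (cb b) κ a' - KI (cb b) κ a) ≤ MM a' - MM a + ε := by
  have h1 := to_cauchy hRH ha' haa (a' := a') (a := a) ⟨le_rfl, haa⟩ ⟨haa, le_rfl⟩
    (p := 1) (q := -1) (M := MM a' - MM a) (by norm_num) (by norm_num) (fun lam hlam ε hε => by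
      filter_upwards [kk_diff hRH hL2 h ha' haa lam hlam ε hε] with κ h2
      refine le_trans (le_of_eq ?_) h2
      ring) hb hε
  filter_upwards [h1] with κ h2
  refine le_trans (le_of_eq ?_) h2
  ring

/-- the pair sums are bounded below by the diagonal -/
lemma ra_diag {a1 a2 : ℝ} (h1 : 0 < a1) {ε : ℝ} (hε : 0 < ε) : ∀ᶠ T in atTop, ∀ a ∈ Icc a1 a2,
    1 / a - ε ≤ ∫ x, ra a x ∂(Mp T) := by
  obtain ⟨C, hC, hB⟩ := Mp_bdd
  filter_upwards [Mp_zero (ε := ε * a1) (by positivity), hB] with T hz hBT a ha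
  have ha0 : 0 < a := by linarith [ha.1]
  have hfin := Mp_fin T
  have hi : Integrable (ra a) (Mp T) := hBT.integrable (by linarith) (ra_cont ha0) (ra_qd ha0)
  have h2 : ∫ x in ({0} : Set ℝ), ra a x ∂(Mp T) ≤ ∫ x, ra a x ∂(Mp T) :=
    setIntegral_le_integral hi (ae_of_all _ fun x => ra_nonneg ha0.le x)
  have h3 : ∫ x in ({0} : Set ℝ), ra a x ∂(Mp T) = (Mp T).real {0} * ra a 0 := by
    rw [integral_singleton, smul_eq_mul]
  have h4 : ra a 0 = 1 / a := by
    unfold ra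
    field_simp
    ring
  rw [h3, h4] at h2
  refine le_trans ?_ h2
  have h5 : (1 - ε * a1) * (1 / a) ≤ (Mp T).real {0} * (1 / a) :=
    mul_le_mul_of_nonneg_right hz (by positivity)
  refine le_trans ?_ h5
  have h6 : ε * a1 * (1 / a) ≤ ε := by
    rw [mul_one_div, div_le_iff₀ ha0]
    exact mul_le_mul_of_nonneg_left ha.1 hε.le
  linarith

/-- lower bound for the mean square -/
lemma mean_low (hRH : RiemannHypothesis) {a1 a2 : ℝ} (h1 : 0 < a1) (h12 : a1 ≤ a2) {ε : ℝ} (hε : 0 < ε) :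
    ∀ᶠ T : ℝ in atTop, ∀ a ∈ Icc a1 a2, (1 / a - 1 - ε) / 4 * (T * Real.log T ^ 2) ≤
      ∫ t in (0 : ℝ)..T, DD (a / Real.log T) t ^ 2 := by
  filter_upwards [pair_mean hRH h1 h12 (ε := ε / 8) (by positivity), ra_diag (a2 := a2) h1 (ε := ε / 2) (by positivity),
    eventually_ge_atTop (0 : ℝ)] with T h2 h3 hT a ha
  have h4 := (abs_le.1 (h2 a ha)).1
  have h5 := h3 a ha
  have h6 : 0 ≤ T * Real.log T ^ 2 := by positivity
  have h7 : T * Real.log T ^ 2 / 4 * (1 / a - ε / 2 - 1) ≤ T * Real.log T ^ 2 / 4 * ((∫ x, ra a x ∂(Mp T)) - 1) :=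
    mul_le_mul_of_nonneg_left (by linarith) (by positivity)
  nlinarith

/-- lower bound for the integrated density -/
lemma G_low (hRH : RiemannHypothesis) {a : ℝ} (ha : 0 < a) (ha1 : a ≤ 1) {Y2 : ℝ} (hY2 : 0 < Y2)
    {δ : ℝ} (hδ : 0 < δ) : ∀ᶠ κ : ℝ in 𝓝[>] 0, ∀ Y ∈ Icc 0 Y2,
      (1 / a - 1) / 4 * Y - δ ≤ ∫ y in (0 : ℝ)..Y, gd κ a y := by
  set c : ℝ := 1 / a - 1 with hc
  have hc0 : 0 ≤ c := by
    rw [hc, sub_nonneg, le_div_iff₀ ha]; linarith
  -- the small Y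
  set Y1 : ℝ := min Y2 (4 * δ / (c + 1)) with hY1
  have hY10 : 0 < Y1 := by positivity
  have hY1c : c / 4 * Y1 ≤ δ := by
    have h1 : Y1 ≤ 4 * δ / (c + 1) := min_le_right _ _
    rw [le_div_iff₀ (by positivity)] at h1
    nlinarith
  -- the error parameters
  obtain ⟨η, hη0, hη1, hη2⟩ : ∃ η : ℝ, 0 < η ∧ η ≤ 1 / 2 ∧ (c + 4 / a + 20) * η * Y2 ≤ δ := by
    refine ⟨min (1 / 2) (δ / ((c + 4 / a + 20) * Y2)), by positivity, min_le_left _ _, ?_⟩
    have h1 : min (1 / 2) (δ / ((c + 4 / a + 20) * Y2)) ≤ δ / ((c + 4 / a + 20) * Y2) := min_le_right _ _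
    rw [le_div_iff₀ (by positivity)] at h1
    linarith
  have hml := mean_low hRH (a1 := a / 2) (a2 := 2 * a) (by positivity) (by linarith) hη0
  obtain ⟨T0, hT0⟩ := hml.exists_forall_of_atTop
  have hbl : ∀ᶠ κ : ℝ in 𝓝[>] 0, max T0 1 ≤ Y1 * (1 / κ) :=
    (inv_top.const_mul_atTop hY10).eventually_ge_atTop _
  filter_upwards [hbl, ev_pos, ev_le (c := 1) one_pos, ev_L (max 1 (max (4 * a) ((|Real.log Y1| + |Real.log Y2|) / η)))]
    with κ hT hκ hκ1 hL Y hY
  have hL1 : 1 ≤ LL κ := (le_max_left _ _).trans hL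
  have hL4 : 4 * a ≤ LL κ := (le_max_left _ _).trans ((le_max_right _ _).trans hL)
  have hLη : |Real.log Y1| + |Real.log Y2| ≤ η * LL κ := by
    have := (le_max_right _ _).trans ((le_max_right _ _).trans hL)
    rw [div_le_iff₀ hη0] at this
    linarith
  have hLp : 0 < LL κ := by linarith
  have hG0 : 0 ≤ ∫ y in (0 : ℝ)..Y, gd κ a y :=
    intervalIntegral.integral_nonneg hY.1 fun y _ => gd_nonneg κ a y
  rcases le_or_gt Y Y1 with hYY | hYY
  · have : c / 4 * Y ≤ c / 4 * Y1 := mul_le_mul_of_nonneg_left hYY (by positivity)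
    linarith
  · have hYp : 0 < Y := hY10.trans hYY
    rw [gd_int hκ]
    set T : ℝ := Y / κ with hTd
    have hTT : Y1 * (1 / κ) ≤ T := by
      rw [hTd, mul_one_div]
      exact div_le_div_of_nonneg_right hYY.le hκ.le
    have hTT0 : T0 ≤ T := (le_max_left _ _).trans (hT.trans hTT)
    have hT1 : 1 ≤ T := (le_max_right _ _).trans (hT.trans hTT)
    have hTp : 0 < T := by linarith
    have hlog : Real.log T = LL κ + Real.log Y := by
      rw [hTd, Real.log_div hYp.ne' hκ.ne']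
      unfold LL
      rw [Real.log_div one_ne_zero hκ.ne', Real.log_one]
      ring
    have hlY : |Real.log Y| ≤ η * LL κ := by
      refine le_trans ?_ hLη
      rw [abs_le]
      have h3 := Real.log_le_log hY10 hYY.le
      have h4 := Real.log_le_log hYp hY.2
      constructor
      · linarith [neg_abs_le (Real.log Y1), abs_nonneg (Real.log Y2)]
      · linarith [le_abs_self (Real.log Y2), abs_nonneg (Real.log Y1)]
    rw [abs_le] at hlY
    have hl1 : (1 - η) * LL κ ≤ Real.log T := by rw [hlog]; linarith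
    have hl2 : Real.log T ≤ (1 + η) * LL κ := by rw [hlog]; linarith
    have hlTp : 0 < Real.log T := by
      refine lt_of_lt_of_le ?_ hl1
      have : 0 < 1 - η := by linarith
      positivity
    set a' : ℝ := a * Real.log T / LL κ with ha'
    have h2 : a' / Real.log T = a / LL κ := by rw [ha']; field_simp
    have hl1' : LL κ / 2 ≤ Real.log T := by
      have : 0 ≤ (1 / 2 - η) * LL κ := mul_nonneg (by linarith) hLp.le
      linarith
    have hl2' : Real.log T ≤ 2 * LL κ := by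
      have : 0 ≤ (1 - η) * LL κ := mul_nonneg (by linarith) hLp.le
      linarith
    have ha1' : a / 2 ≤ a' := by
      rw [ha', le_div_iff₀ hLp]
      have := mul_le_mul_of_nonneg_left hl1' ha.le
      linarith
    have ha2' : a' ≤ 2 * a := by
      rw [ha', div_le_iff₀ hLp]
      have := mul_le_mul_of_nonneg_left hl2' ha.le
      linarith
    have h3 := hT0 T hTT0 a' ⟨ha1', ha2'⟩
    rw [h2] at h3
    have ha'0 : 0 < a' := by linarith
    have ha'up : a' ≤ (1 + η) * a := by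
      rw [ha', div_le_iff₀ hLp]
      have := mul_le_mul_of_nonneg_left hl2 ha.le
      linarith
    have hinv : 1 / a - 2 / a * η ≤ 1 / a' := by
      have h4 : 1 / ((1 + η) * a) ≤ 1 / a' := one_div_le_one_div_of_le ha'0 ha'up
      refine le_trans ?_ h4
      rw [le_div_iff₀ (by positivity)]
      have e : (1 / a - 2 / a * η) * ((1 + η) * a) = (1 - 2 * η) * (1 + η) := by field_simp
      rw [e]
      nlinarith
    -- the normalised lower bound
    have hgoal : κ / LL κ ^ 2 * ∫ t in (0 : ℝ)..T, DD (a / LL κ) t ^ 2 ≥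
        κ / LL κ ^ 2 * ((1 / a' - 1 - η) / 4 * (T * Real.log T ^ 2)) :=
      mul_le_mul_of_nonneg_left h3 (by positivity)
    refine le_trans ?_ hgoal
    have e1 : κ / LL κ ^ 2 * ((1 / a' - 1 - η) / 4 * (T * Real.log T ^ 2)) =
        Y * ((1 / a' - 1 - η) / 4 * (Real.log T / LL κ) ^ 2) := by
      rw [hTd]; field_simp
    rw [e1]
    set r : ℝ := Real.log T / LL κ with hr
    have hr1 : 1 - η ≤ r := by rw [hr, le_div_iff₀ hLp]; exact hl1
    have hr2 : r ≤ 1 + η := by rw [hr, div_le_iff₀ hLp]; exact hl2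
    have hr0 : 0 ≤ r := by linarith
    have hlow : c - (2 / a * η + η) ≤ 1 / a' - 1 - η := by rw [hc]; linarith
    have hra : 0 < 2 / a := by positivity
    -- (c - small) r² ≥ c - big small
    have h5 : c - (c + 4 / a + 20) * η ≤ (1 / a' - 1 - η) * r ^ 2 := by
      have h6 : (c - (2 / a * η + η)) * r ^ 2 ≤ (1 / a' - 1 - η) * r ^ 2 :=
        mul_le_mul_of_nonneg_right hlow (sq_nonneg _)
      refine le_trans ?_ h6
      have h7 : 1 - 2 * η ≤ r ^ 2 := by nlinarith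
      have h8 : r ^ 2 ≤ 3 := by nlinarith
      have h9 : c * (1 - 2 * η) ≤ c * r ^ 2 := mul_le_mul_of_nonneg_left h7 hc0
      have h10 : (2 / a * η + η) * r ^ 2 ≤ (2 / a * η + η) * 3 :=
        mul_le_mul_of_nonneg_left h8 (by positivity)
      have hac : 1 / a = c + 1 := by rw [hc]; ring
      have e4 : 4 / a = 4 * (c + 1) := by rw [← hac]; ring
      have e2 : 2 / a = 2 * (c + 1) := by rw [← hac]; ring
      rw [e2] at h10
      rw [e4, e2]
      nlinarith [mul_nonneg hc0 hη0.le]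
    have h6 : Y * (c - (c + 4 / a + 20) * η) ≤ Y * ((1 / a' - 1 - η) * r ^ 2) :=
      mul_le_mul_of_nonneg_left h5 hYp.le
    have h7 : (c + 4 / a + 20) * η * Y ≤ δ := by
      refine le_trans ?_ hη2
      exact mul_le_mul_of_nonneg_left hY.2 (by positivity)
    nlinarith

end Pool.Agent.Q260.GM
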