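import Pool.Agent.Q260.GM.Vg
import Pool.Agent.Q128.GM.Stieltjes

set_option autoImplicit false

/-!
# The limits
-/

namespace Pool.Agent.Q260.GM

open MeasureTheory Filter Topology Set
open Pool.Agent.Y749.Rig (Mp Mp_zero Mp_bdd Mp_fin)

lemma MM_upper {a : ℝ} (ha : 0 < a) : MM a ≤ (1 / a - 1) / 2 + a / 3 := by
  have h1 : IntegrableOn (fun α : ℝ => Real.exp (-(2 * a) * α)) (Ioi 0) :=
    integrableOn_exp_mul_Ioi (by linarith) 0
  have h2 : ∫ α in Ioi (0 : ℝ), Real.exp (-(2 * a) * α) = 1 / (2 * a) := by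
    rw [integral_exp_mul_Ioi (by linarith)]
    simp only [mul_zero, Real.exp_zero]
    field_simp
  set q : ℝ → ℝ := (Ioc (0 : ℝ) 1).indicator fun α => (1 - 2 * a * α) * (1 - α) with hq
  have hqc : Continuous fun α : ℝ => (1 - 2 * a * α) * (1 - α) := by fun_prop
  have hqi : Integrable q := by
    rw [hq, integrable_indicator_iff measurableSet_Ioc]
    exact (hqc.intervalIntegrable 0 1).1
  have hqv : ∫ α in Ioi (0 : ℝ), q α = 1 / 2 - a / 3 := by
    rw [hq, setIntegral_indicator measurableSet_Ioc]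
    have : Ioi (0 : ℝ) ∩ Ioc 0 1 = Ioc 0 1 := inter_eq_right.2 Ioc_subset_Ioi_self
    rw [this, ← intervalIntegral.integral_of_le zero_le_one]
    have e : ∀ α : ℝ, (1 - 2 * a * α) * (1 - α) = 1 - (1 + 2 * a) * α + 2 * a * α ^ 2 := fun α => by ring
    rw [intervalIntegral.integral_congr (g := fun α => 1 - (1 + 2 * a) * α + 2 * a * α ^ 2) fun α _ => e α,
      intervalIntegral.integral_add, intervalIntegral.integral_sub, intervalIntegral.integral_const,
      intervalIntegral.integral_const_mul, intervalIntegral.integral_const_mul, integral_id, integral_pow]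
    · simp only [smul_eq_mul]
      norm_num
      ring
    all_goals
      apply Continuous.intervalIntegrable
      fun_prop
  have h3 : MM a ≤ ∫ α in Ioi (0 : ℝ), (Real.exp (-(2 * a) * α) - q α) := by
    rw [MM_eq]
    refine setIntegral_mono_on (MM_int ha) (h1.sub hqi.integrableOn) measurableSet_Ioi fun α hα => ?_
    have hα0 : 0 < α := hα
    have e : -(2 * a) * α = -(2 * a * α) := by ring
    rw [e]
    rcases le_or_gt α 1 with h4 | h4
    · have hmem : α ∈ Ioc (0 : ℝ) 1 := ⟨hα0, h4⟩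
      rw [hq, indicator_of_mem hmem]
      have h5 : mn α = α := min_eq_left h4
      rw [h5]
      have h6 : 1 - 2 * a * α ≤ Real.exp (-(2 * a * α)) := by
        have := Real.add_one_le_exp (-(2 * a * α))
        linarith
      have h7 := mul_le_mul_of_nonneg_right h6 (by linarith : 0 ≤ 1 - α)
      linarith
    · have hmem : α ∉ Ioc (0 : ℝ) 1 := fun h5 => by linarith [h5.2]
      rw [hq, indicator_of_notMem hmem]
      have h5 : mn α = 1 := min_eq_right h4.le
      rw [h5]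
      linarith
  rw [integral_sub h1 hqi.integrableOn, h2, hqv] at h3
  refine h3.trans (le_of_eq ?_)
  field_simp
  ring

/-- the derivative of the Cauchy kernel -/
lemma cb_deriv {b : ℝ} (hb : 0 < b) (y : ℝ) :
    HasDerivAt (cb b) (-(2 * b * y) / (b ^ 2 + y ^ 2) ^ 2) y := by
  have hne : (b ^ 2 + y ^ 2) ≠ 0 := by positivity
  have h2 := ((((hasDerivAt_id y).pow 2).const_add (b ^ 2)).inv hne).const_mul b
  refine (h2.congr_deriv ?_).congr_of_eventuallyEq (Eventually.of_forall fun z => ?_)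
  · simp
    ring
  · simp [cb, div_eq_mul_inv]

lemma cb_integral {b : ℝ} (hb : 0 < b) (Y : ℝ) : ∫ y in (0 : ℝ)..Y, cb b y = Real.arctan (Y / b) := by
  have h1 : ∀ y : ℝ, HasDerivAt (fun y => Real.arctan (y / b)) (cb b y) y := by
    intro y
    have h2 := ((hasDerivAt_id y).div_const b).arctan
    refine h2.congr_deriv ?_
    unfold cb
    simp only [id]
    field_simp
  rw [intervalIntegral.integral_eq_sub_of_hasDerivAt (fun y _ => h1 y) ((cb_cont hb).intervalIntegrable _ _)]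
  simp

/-- **lower bound for the Cauchy kernel** -/
lemma cb_low (hRH : RiemannHypothesis) {a : ℝ} (ha : 0 < a) (ha1 : a ≤ 1) {b : ℝ} (hb : 0 < b)
    {ε : ℝ} (hε : 0 < ε) : ∀ᶠ κ : ℝ in 𝓝[>] 0, (1 / a - 1) / 2 - ε ≤ 4 / Real.pi * KI (cb b) κ a := by
  set c : ℝ := 1 / a - 1 with hc
  have hc0 : 0 ≤ c := by
    rw [hc, sub_nonneg, le_div_iff₀ ha]; linarith
  have hpi := Real.pi_pos
  obtain ⟨C, hC, hgen⟩ := ev_gen hRH ha le_rfl
  -- the cut
  obtain ⟨Y2, hY20, hY2⟩ : ∃ Y2 : ℝ, 0 < Y2 ∧ c / 2 - ε / 2 ≤ 4 / Real.pi * (c / 4 * Real.arctan (Y2 / b)) := by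
    have h1 : Tendsto (fun Y : ℝ => 4 / Real.pi * (c / 4 * Real.arctan (Y / b))) atTop
        (𝓝 (4 / Real.pi * (c / 4 * (Real.pi / 2)))) := by
      refine Tendsto.const_mul _ (Tendsto.const_mul _ ?_)
      exact (Real.tendsto_arctan_atTop.mono_right nhdsWithin_le_nhds).comp
        (tendsto_id.atTop_div_const hb)
    have e : 4 / Real.pi * (c / 4 * (Real.pi / 2)) = c / 2 := by field_simp
    rw [e] at h1
    obtain ⟨Y, h2, h3⟩ := ((h1.eventually (le_mem_nhds (by linarith : c / 2 - ε / 2 < c / 2))).and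
      (eventually_gt_atTop 0)).exists
    exact ⟨Y, h3, h2⟩
  obtain ⟨δ, hδ0, hδ⟩ : ∃ δ : ℝ, 0 < δ ∧ 4 / Real.pi * (δ / b) ≤ ε / 2 := by
    refine ⟨ε * Real.pi * b / 8, by positivity, le_of_eq ?_⟩
    field_simp
    norm_num
  filter_upwards [G_low hRH ha ha1 hY20 hδ0, hgen] with κ hG hg
  obtain ⟨hκ, hκ1, hL1, hg⟩ := hg
  obtain ⟨hgc, hgi, -, -⟩ := hg a ⟨le_rfl, le_rfl⟩
  have hdc : Continuous fun y : ℝ => -(2 * b * y) / (b ^ 2 + y ^ 2) ^ 2 := by
    refine Continuous.div (by fun_prop) (by fun_prop) fun y => by positivity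
  have a1 := abel (fun y => cb_deriv hb y) hdc hgc 0 Y2
  have a2 := abel (fun y => cb_deriv hb y) hdc (continuous_const (y := c / 4)) 0 Y2
  have hcc : ∀ y : ℝ, ∫ z in (0 : ℝ)..y, c / 4 = c / 4 * y := by
    intro y
    rw [intervalIntegral.integral_const, smul_eq_mul]; ring
  simp only [hcc] at a2
  rw [intervalIntegral.integral_same, mul_zero, sub_zero] at a1
  rw [mul_zero, mul_zero, sub_zero, intervalIntegral.integral_mul_const, cb_integral hb] at a2
  have hMc : Continuous fun y : ℝ => ∫ z in (0 : ℝ)..y, gd κ a z :=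
    intervalIntegral.continuous_primitive (fun _ _ => hgc.intervalIntegrable _ _) 0
  have hcmp : ∫ y in (0 : ℝ)..Y2, (-(2 * b * y) / (b ^ 2 + y ^ 2) ^ 2 * (c / 4 * y) -
      -(2 * b * y) / (b ^ 2 + y ^ 2) ^ 2 * ∫ z in (0 : ℝ)..y, gd κ a z) ≥
      ∫ y in (0 : ℝ)..Y2, δ * (-(2 * b * y) / (b ^ 2 + y ^ 2) ^ 2) := by
    refine intervalIntegral.integral_mono_on hY20.le ?_ ?_ fun y hy => ?_
    · apply Continuous.intervalIntegrable
      exact continuous_const.mul hdc
    · apply Continuous.intervalIntegrable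
      exact (hdc.mul (by fun_prop)).sub (hdc.mul hMc)
    · have h3 := hG y hy
      have h4 : 0 ≤ 2 * b * y / (b ^ 2 + y ^ 2) ^ 2 := by
        have := hy.1
        positivity
      have e : -(2 * b * y) / (b ^ 2 + y ^ 2) ^ 2 = -(2 * b * y / (b ^ 2 + y ^ 2) ^ 2) := by ring
      rw [e]
      nlinarith
  rw [intervalIntegral.integral_sub, intervalIntegral.integral_const_mul,
    intervalIntegral.integral_eq_sub_of_hasDerivAt (fun y _ => cb_deriv hb y) (hdc.intervalIntegrable _ _)] at hcmp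
  rotate_left
  · apply Continuous.intervalIntegrable
    exact hdc.mul (by fun_prop)
  · apply Continuous.intervalIntegrable
    exact hdc.mul hMc
  have hG2 := hG Y2 ⟨hY20.le, le_rfl⟩
  have hcb2 := cb_nonneg hb Y2
  have hcb0 : cb b 0 = 1 / b := by
    unfold cb
    field_simp
    ring
  have key : c / 4 * Real.arctan (Y2 / b) - δ / b ≤ ∫ y in (0 : ℝ)..Y2, cb b y * gd κ a y := by
    rw [a1]
    have h5 := mul_le_mul_of_nonneg_left hG2 hcb2
    rw [hcb0] at hcmp
    have e : δ / b = δ * (1 / b) := by ring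
    rw [e]
    nlinarith
  have hKI : ∫ y in (0 : ℝ)..Y2, cb b y * gd κ a y ≤ KI (cb b) κ a := by
    unfold KI
    rw [intervalIntegral.integral_of_le hY20.le]
    have i1 : Integrable (fun y => cb b y * gd κ a y) :=
      gd_integrable (cb_cont hb) hgc (fun y => by
        rw [abs_of_nonneg (cb_nonneg hb y)]; exact cb_le hb y) hgi
    exact setIntegral_mono_set i1.integrableOn
      (ae_of_all _ fun y => mul_nonneg (cb_nonneg hb y) (gd_nonneg κ a y)) Ioc_subset_Ioi_self.eventuallyLE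
  have h6 : 4 / Real.pi * (c / 4 * Real.arctan (Y2 / b) - δ / b) ≤ 4 / Real.pi * KI (cb b) κ a :=
    mul_le_mul_of_nonneg_left (key.trans hKI) (by positivity)
  have e : 4 / Real.pi * (c / 4 * Real.arctan (Y2 / b) - δ / b) =
    4 / Real.pi * (c / 4 * Real.arctan (Y2 / b)) - 4 / Real.pi * (δ / b) := by ring
  rw [e] at h6
  linarith

/-- **the limit for the Cauchy kernel** -/
theorem cb_lim (hRH : RiemannHypothesis) (hL2 : L2psi) (h : UHk) {a : ℝ} (ha : 0 < a) {b : ℝ}
    (hb : 0 < b) : Tendsto (fun κ => KI (cb b) κ a) (𝓝[>] 0) (𝓝 (Real.pi / 2 * (MM a / 2))) := by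
  have hpi := Real.pi_pos
  have key : Tendsto (fun κ => 4 / Real.pi * KI (cb b) κ a) (𝓝[>] 0) (𝓝 (MM a)) := by
    rw [Metric.tendsto_nhds]
    intro ε hε
    set a' : ℝ := min a (min 1 (ε / 2)) with ha'
    have ha'0 : 0 < a' := by positivity
    have ha'a : a' ≤ a := min_le_left _ _
    have ha'1 : a' ≤ 1 := (min_le_right _ _).trans (min_le_left _ _)
    have ha'ε : a' ≤ ε / 2 := (min_le_right _ _).trans (min_le_right _ _)
    filter_upwards [cb_up hRH hL2 h ha hb (half_pos hε), cb_diff hRH hL2 h ha'0 ha'a hb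
      (show 0 < ε / 4 by positivity), cb_low hRH ha'0 ha'1 hb (show 0 < ε / 4 by positivity)] with κ h1 h2 h3
    have h4 := MM_upper ha'0
    rw [Real.dist_eq, abs_lt]
    have e : 4 / Real.pi * (KI (cb b) κ a' - KI (cb b) κ a) =
      4 / Real.pi * KI (cb b) κ a' - 4 / Real.pi * KI (cb b) κ a := by ring
    rw [e] at h2
    constructor <;> linarith
  have h2 := key.const_mul (Real.pi / 4)
  have e : Real.pi / 2 * (MM a / 2) = Real.pi / 4 * MM a := by ring
  rw [e]
  refine h2.congr fun κ => ?_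
  field_simp

/-- the measure with density `gd` -/
noncomputable def mk (κ a : ℝ) : Measure ℝ :=
  (volume.restrict (Ioi 0)).withDensity fun y => ENNReal.ofReal (gd κ a y)

lemma mk_integral {κ a : ℝ} (hgc : Continuous (gd κ a)) (f : ℝ → ℝ) :
    ∫ y, f y ∂(mk κ a) = ∫ y in Ioi (0 : ℝ), f y * gd κ a y := by
  unfold mk
  rw [integral_withDensity_eq_integral_toReal_smul₀ (by fun_prop)
    (ae_of_all _ fun x => ENNReal.ofReal_lt_top)]
  refine integral_congr_ae (ae_of_all _ fun x => ?_)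
  simp only [smul_eq_mul]
  rw [ENNReal.toReal_ofReal (gd_nonneg κ a x), mul_comm]

lemma mk_integrable {κ a : ℝ} (hgc : Continuous (gd κ a)) {f : ℝ → ℝ}
    (h : IntegrableOn (fun y => f y * gd κ a y) (Ioi 0)) : Integrable f (mk κ a) := by
  unfold mk
  rw [integrable_withDensity_iff_integrable_smul₀' (by fun_prop)
    (ae_of_all _ fun x => ENNReal.ofReal_lt_top)]
  refine Integrable.congr (h : Integrable (fun y => f y * gd κ a y) (volume.restrict (Ioi 0)))
    (ae_of_all _ fun x => ?_)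
  simp only [smul_eq_mul]
  rw [ENNReal.toReal_ofReal (gd_nonneg κ a x), mul_comm]

lemma mk_neg (κ a : ℝ) : mk κ a (Iio 0) = 0 := by
  unfold mk
  rw [withDensity_apply _ measurableSet_Iio, Measure.restrict_restrict measurableSet_Iio]
  have : Iio (0 : ℝ) ∩ Ioi 0 = ∅ := by
    ext x; simp only [mem_inter_iff, mem_Iio, mem_Ioi, mem_empty_iff_false, iff_false]
    intro h; linarith [h.1, h.2]
  rw [this]
  simp

lemma mk_Icc {κ a : ℝ} (hgc : Continuous (gd κ a)) {Y : ℝ} (hY : 0 ≤ Y) :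
    (mk κ a).real (Icc 0 Y) = ∫ y in (0 : ℝ)..Y, gd κ a y := by
  have h1 : (mk κ a).real (Icc 0 Y) = ∫ y, (Icc 0 Y).indicator (fun _ => (1 : ℝ)) y ∂(mk κ a) := by
    rw [integral_indicator measurableSet_Icc, setIntegral_const]
    simp
  rw [h1, mk_integral hgc]
  have h2 : (fun y => (Icc 0 Y).indicator (fun _ => (1 : ℝ)) y * gd κ a y) = (Icc 0 Y).indicator (gd κ a) := by
    funext y
    by_cases h : y ∈ Icc 0 Y
    · rw [indicator_of_mem h, indicator_of_mem h, one_mul]
    · rw [indicator_of_notMem h, indicator_of_notMem h, zero_mul]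
  rw [h2, setIntegral_indicator measurableSet_Icc, intervalIntegral.integral_of_le hY]
  congr 2
  ext x
  simp only [mem_inter_iff, mem_Ioi, mem_Icc, mem_Ioc]
  constructor
  · rintro ⟨h3, -, h4⟩; exact ⟨h3, h4⟩
  · rintro ⟨h3, h4⟩; exact ⟨h3, h3.le, h4⟩

/-- **the limit of the integrated density** -/
theorem G_lim (hRH : RiemannHypothesis) (hL2 : L2psi) (h : UHk) {a : ℝ} (ha : 0 < a) {Y : ℝ}
    (hY : 0 < Y) : Tendsto (fun κ => ∫ y in (0 : ℝ)..Y, gd κ a y) (𝓝[>] 0) (𝓝 (MM a / 2 * Y)) := by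
  obtain ⟨C, hC, hgen⟩ := ev_gen hRH ha le_rfl
  have h1 := Pool.Agent.Q128.GM.stieltjes (l := 𝓝[>] (0 : ℝ)) (m := fun κ => mk κ a) (A := MM a / 2)
    (Eventually.of_forall fun κ => mk_neg κ a)
    (by
      filter_upwards [hgen] with κ hg
      obtain ⟨hκ, hκ1, hL1, hg⟩ := hg
      obtain ⟨hgc, hgi, -, -⟩ := hg a ⟨le_rfl, le_rfl⟩
      refine mk_integrable hgc ?_
      refine (hgi.congr (ae_of_all _ fun y => ?_)).integrableOn
      show gd κ a y / (1 + y ^ 2) = 1 / (1 + y ^ 2) * gd κ a y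
      ring)
    (fun b hb => by
      refine (cb_lim hRH hL2 h ha hb).congr' ?_
      filter_upwards [hgen] with κ hg
      obtain ⟨hκ, hκ1, hL1, hg⟩ := hg
      obtain ⟨hgc, hgi, -, -⟩ := hg a ⟨le_rfl, le_rfl⟩
      rw [mk_integral hgc]
      rfl) hY
  refine h1.congr' ?_
  filter_upwards [hgen] with κ hg
  obtain ⟨hκ, hκ1, hL1, hg⟩ := hg
  obtain ⟨hgc, hgi, -, -⟩ := hg a ⟨le_rfl, le_rfl⟩
  rw [mk_Icc hgc hY.le]

/-- **the pair sums** -/
theorem ra_lim (hRH : RiemannHypothesis) (hL2 : L2psi) (h : UHk) {a : ℝ} (ha : 0 < a) :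
    Tendsto (fun T => ∫ x, ra a x ∂(Mp T)) atTop (𝓝 (1 + 2 * MM a)) := by
  have h1 := G_lim hRH hL2 h ha one_pos
  have hinv : Tendsto (fun T : ℝ => 1 / T) atTop (𝓝[>] 0) := by
    simpa only [one_div] using tendsto_inv_atTop_nhdsGT_zero
  have h2 := h1.comp hinv
  rw [mul_one] at h2
  rw [Metric.tendsto_nhds] at h2 ⊢
  intro ε hε
  filter_upwards [h2 (ε / 8) (by positivity), pair_mean hRH ha le_rfl (ε := ε / 16) (by positivity),
    eventually_ge_atTop (3 : ℝ)] with T h3 h4 hT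
  have hTp : 0 < T := by linarith
  have hL := (Lg_log hT).2
  have hLp : 0 < Real.log T := by linarith
  have h5 := h4 a ⟨le_rfl, le_rfl⟩
  simp only [Function.comp] at h3
  rw [gd_int (by positivity)] at h3
  have e1 : LL (1 / T) = Real.log T := by unfold LL; rw [one_div_one_div]
  have e2 : (1 : ℝ) / (1 / T) = T := one_div_one_div T
  rw [e1, e2, Real.dist_eq] at h3
  set X : ℝ := ∫ t in (0 : ℝ)..T, DD (a / Real.log T) t ^ 2 with hX
  set R : ℝ := ∫ x, ra a x ∂(Mp T) with hR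
  have hQ : 0 < T * Real.log T ^ 2 := by positivity
  have h6 : |1 / T / Real.log T ^ 2 * X - (R - 1) / 4| ≤ ε / 16 := by
    have e : 1 / T / Real.log T ^ 2 * X - (R - 1) / 4 =
        (X - T * Real.log T ^ 2 / 4 * (R - 1)) / (T * Real.log T ^ 2) := by
      field_simp
    rw [e, abs_div, abs_of_pos hQ, div_le_iff₀ hQ]
    exact h5
  rw [Real.dist_eq]
  rw [abs_lt] at h3 ⊢
  rw [abs_le] at h6
  constructor <;> linarith [h3.1, h3.2, h6.1, h6.2]

end Pool.Agent.Q260.GM
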