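import Pool.Agent.Q260.GM.Vh
import Pool.Agent.Q96.GM.Tra
import Pool.Agent.Q128.GM.Karamata

set_option autoImplicit false

/-!
# The converse: from pairs of zeros to primes in short intervals
-/

namespace Pool.Agent.Q260.GM

open MeasureTheory Filter Topology Set
open Pool.Agent.Y749.Rig (Mp Mp_zero Mp_bdd Mp_fin Weak mG)

lemma ra_lip {a1 a2 a a' : ℝ} (h0 : 0 < a1) (ha : a ∈ Icc a1 a2) (ha' : a' ∈ Icc a1 a2) (x : ℝ) :
    |ra a x - ra a' x| ≤ |a - a'| * ((a2 / a1) ^ 2 * (1 / a1 ^ 2 + 1)) * (1 / (1 + x ^ 2)) := by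
  have hpi := Real.pi_gt_three
  have ha0 : 0 < a := by linarith [ha.1]
  have ha'0 : 0 < a' := by linarith [ha'.1]
  have ha20 : 0 < a2 := by linarith [ha.2]
  set z : ℝ := Real.pi ^ 2 * x ^ 2 with hz
  have hz0 : 0 ≤ z := by positivity
  have e1 : ∀ s : ℝ, 0 < s → ra s x = s / (s ^ 2 + z) := by
    intro s hs
    unfold ra
    rw [hz]
    have : 0 < 4 * s ^ 2 + 4 * Real.pi ^ 2 * x ^ 2 := by positivity
    have : 0 < s ^ 2 + Real.pi ^ 2 * x ^ 2 := by positivity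
    field_simp
  rw [e1 a ha0, e1 a' ha'0]
  have p1 : 0 < a ^ 2 + z := by positivity
  have p2 : 0 < a' ^ 2 + z := by positivity
  have e2 : a / (a ^ 2 + z) - a' / (a' ^ 2 + z) = (a - a') * ((z - a * a') / ((a ^ 2 + z) * (a' ^ 2 + z))) := by
    field_simp
    ring
  rw [e2, abs_mul, mul_assoc]
  apply mul_le_mul_of_nonneg_left _ (abs_nonneg _)
  rw [abs_div, abs_of_pos (mul_pos p1 p2)]
  have q1 : a1 ^ 2 + z ≤ a ^ 2 + z := by nlinarith [ha.1]
  have q2 : a1 ^ 2 + z ≤ a' ^ 2 + z := by nlinarith [ha'.1]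
  have q0 : 0 < a1 ^ 2 + z := by positivity
  have q3 : |z - a * a'| ≤ a2 ^ 2 + z := by
    rw [abs_le]
    have : a * a' ≤ a2 * a2 := mul_le_mul ha.2 ha'.2 ha'0.le ha20.le
    constructor <;> nlinarith [mul_pos ha0 ha'0]
  have q4 : a2 ^ 2 + z ≤ (a2 / a1) ^ 2 * (a1 ^ 2 + z) := by
    have h1 : 1 ≤ (a2 / a1) ^ 2 := by
      rw [one_le_sq_iff_one_le_abs, abs_of_pos (by positivity), le_div_iff₀ h0]
      linarith [ha.1, ha.2]
    have h2 : (a2 / a1) ^ 2 * (a1 ^ 2 + z) = a2 ^ 2 + (a2 / a1) ^ 2 * z := by field_simp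
    rw [h2]
    nlinarith
  have q5 : 1 / (a1 ^ 2 + z) ≤ (1 / a1 ^ 2 + 1) * (1 / (1 + x ^ 2)) := by
    rw [mul_one_div, div_le_div_iff₀ q0 (by positivity)]
    have e : (1 / a1 ^ 2 + 1) * (a1 ^ 2 + z) = 1 + z / a1 ^ 2 + a1 ^ 2 + z := by field_simp; ring
    rw [e, hz]
    have h4 : 1 ≤ Real.pi ^ 2 := by nlinarith
    have h5 : x ^ 2 ≤ Real.pi ^ 2 * x ^ 2 := by
      have := mul_le_mul_of_nonneg_right h4 (sq_nonneg x)
      linarith
    have h6 : 0 ≤ Real.pi ^ 2 * x ^ 2 / a1 ^ 2 := by positivity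
    nlinarith [sq_nonneg a1]
  calc |z - a * a'| / ((a ^ 2 + z) * (a' ^ 2 + z)) ≤
        (a2 / a1) ^ 2 * (a1 ^ 2 + z) / ((a1 ^ 2 + z) * (a1 ^ 2 + z)) :=
        div_le_div₀ (by positivity) (q3.trans q4) (by positivity) (mul_le_mul q1 q2 q0.le p1.le)
    _ = (a2 / a1) ^ 2 * (1 / (a1 ^ 2 + z)) := by field_simp
    _ ≤ (a2 / a1) ^ 2 * ((1 / a1 ^ 2 + 1) * (1 / (1 + x ^ 2))) := mul_le_mul_of_nonneg_left q5 (by positivity)
    _ = _ := by ring

lemma inv_bdd : ∃ C : ℝ, 0 < C ∧ ∀ᶠ T in atTop, Integrable (fun x : ℝ => 1 / (1 + x ^ 2)) (Mp T) ∧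
    ∫ x, 1 / (1 + x ^ 2) ∂(Mp T) ≤ C := by
  obtain ⟨C, hC, h⟩ := Mp_bdd
  have hC0 : 0 ≤ C := by linarith
  have hD : 0 ≤ Pool.Agent.Y749.Rig.DD 0 := Pool.Agent.Y749.Rig.DD_nonneg 0
  refine ⟨2 * C * Pool.Agent.Y749.Rig.DD 0 + 1, by positivity, ?_⟩
  filter_upwards [h] with T hT
  have hq : Pool.Agent.Y749.Rig.QD fun x : ℝ => 1 / (1 + x ^ 2) := ⟨1, fun x => by rw [abs_of_nonneg (by positivity)]⟩
  have hc : Continuous fun x : ℝ => 1 / (1 + x ^ 2) :=
    continuous_const.div (by fun_prop) fun x => by positivity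
  refine ⟨hT.integrable hC0 hc hq, ?_⟩
  rw [← Pool.Agent.Y749.Rig.wt_integral]
  have e : (fun x : ℝ => (1 + x ^ 2) * (1 / (1 + x ^ 2))) = fun _ => 1 := by
    funext x
    field_simp
  rw [e, integral_const, smul_eq_mul, mul_one, Measure.real]
  have := ENNReal.toReal_le_of_le_ofReal (by positivity) (Pool.Agent.Y749.Rig.wt_univ hC0 hT)
  linarith

lemma R_lip {a1 a2 : ℝ} (h0 : 0 < a1) (h12 : a1 ≤ a2) : ∃ C : ℝ, 0 < C ∧ ∀ᶠ T in atTop, ∀ a ∈ Icc a1 a2,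
    ∀ a' ∈ Icc a1 a2, |(∫ x, ra a x ∂(Mp T)) - ∫ x, ra a' x ∂(Mp T)| ≤ C * |a - a'| := by
  obtain ⟨C, hC, h⟩ := inv_bdd
  obtain ⟨C', hC', hB⟩ := Mp_bdd
  have ha20 : 0 < a2 := by linarith
  refine ⟨(a2 / a1) ^ 2 * (1 / a1 ^ 2 + 1) * C, by positivity, ?_⟩
  filter_upwards [h, hB] with T hT hBT a ha a' ha'
  have ha0 : 0 < a := by linarith [ha.1]
  have ha'0 : 0 < a' := by linarith [ha'.1]
  have i1 : Integrable (ra a) (Mp T) := hBT.integrable (by linarith) (ra_cont ha0) (ra_qd ha0)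
  have i2 : Integrable (ra a') (Mp T) := hBT.integrable (by linarith) (ra_cont ha'0) (ra_qd ha'0)
  rw [← integral_sub i1 i2]
  refine abs_integral_le_integral_abs.trans ?_
  have h2 : ∫ x, |ra a x - ra a' x| ∂(Mp T) ≤
      ∫ x, |a - a'| * ((a2 / a1) ^ 2 * (1 / a1 ^ 2 + 1)) * (1 / (1 + x ^ 2)) ∂(Mp T) :=
    integral_mono (i1.sub i2).abs (hT.1.const_mul _) fun x => ra_lip h0 ha ha' x
  refine h2.trans ?_
  rw [integral_const_mul]
  calc |a - a'| * ((a2 / a1) ^ 2 * (1 / a1 ^ 2 + 1)) * ∫ x, 1 / (1 + x ^ 2) ∂(Mp T) ≤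
        |a - a'| * ((a2 / a1) ^ 2 * (1 / a1 ^ 2 + 1)) * C := mul_le_mul_of_nonneg_left hT.2 (by positivity)
    _ = _ := by ring

/-- the normalised mean square along `T = Y / κ` -/
lemma G_of_R (hRH : RiemannHypothesis) {a : ℝ} (ha : 0 < a)
    (h : Tendsto (fun T => ∫ x, ra a x ∂(Mp T)) atTop (𝓝 (1 + 2 * MM a))) {Y : ℝ} (hY : 0 < Y) :
    Tendsto (fun κ => ∫ y in (0 : ℝ)..Y, gd κ a y) (𝓝[>] 0) (𝓝 (MM a / 2 * Y)) := by
  obtain ⟨C, hC, hlip⟩ := R_lip (a1 := a / 2) (a2 := 2 * a) (by positivity) (by linarith)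
  have hT : Tendsto (fun κ : ℝ => Y / κ) (𝓝[>] 0) atTop := by
    have := inv_top.const_mul_atTop hY
    refine this.congr fun κ => ?_
    ring
  -- the ratio of logarithms
  have hr : Tendsto (fun κ : ℝ => Real.log (Y / κ) / LL κ) (𝓝[>] 0) (𝓝 1) := by
    have h1 : Tendsto (fun κ : ℝ => 1 + Real.log Y / LL κ) (𝓝[>] 0) (𝓝 (1 + 0)) :=
      tendsto_const_nhds.add (LL_top.const_div_atTop _)
    rw [add_zero] at h1
    refine h1.congr' ?_
    filter_upwards [ev_pos, ev_L 1] with κ hκ hL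
    have hLp : LL κ ≠ 0 := by linarith
    have : Real.log (Y / κ) = LL κ + Real.log Y := by
      rw [Real.log_div hY.ne' hκ.ne']
      unfold LL
      rw [Real.log_div one_ne_zero hκ.ne', Real.log_one]
      ring
    rw [this]
    field_simp
  -- the limit of the bracket
  have hb : Tendsto (fun κ : ℝ => (∫ y in (0 : ℝ)..Y, gd κ a y) / (Y * (Real.log (Y / κ) / LL κ) ^ 2)) (𝓝[>] 0)
      (𝓝 (MM a / 2)) := by
    rw [Metric.tendsto_nhds]
    intro ε hε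
    have h1 := hT.eventually (pair_mean hRH (a1 := a / 2) (a2 := 2 * a) (by positivity) (by linarith)
      (ε := ε / 4) (by positivity))
    have h2 := hT.eventually hlip
    have h3 := hT.eventually ((Metric.tendsto_nhds.1 h) ε hε)
    have h4 : ∀ᶠ κ : ℝ in 𝓝[>] 0, |Real.log (Y / κ) / LL κ - 1| < min (1 / 2) (ε / (C * a)) := by
      have := (Metric.tendsto_nhds.1 hr) (min (1 / 2) (ε / (C * a))) (by positivity)
      simpa only [Real.dist_eq] using this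
    filter_upwards [h1, h2, h3, h4, ev_pos, ev_L 1, hT.eventually_ge_atTop 3] with κ k1 k2 k3 k4 hκ hL hT3
    have hLp : 0 < LL κ := by linarith
    set T : ℝ := Y / κ with hTd
    have hTp : 0 < T := by linarith
    have hlT : 1 ≤ Real.log T := (Lg_log hT3).2
    set r : ℝ := Real.log T / LL κ with hrd
    have hr1 : |r - 1| < 1 / 2 := k4.trans_le (min_le_left _ _)
    have hr2 : |r - 1| < ε / (C * a) := k4.trans_le (min_le_right _ _)
    rw [abs_lt] at hr1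
    have hrp : 0 < r := by linarith [hr1.1]
    set a' : ℝ := a * r with ha'
    have m1 : a' ∈ Icc (a / 2) (2 * a) := by
      constructor
      · rw [ha']; nlinarith [hr1.1]
      · rw [ha']; nlinarith [hr1.2]
    have m2 : a ∈ Icc (a / 2) (2 * a) := ⟨by linarith, by linarith⟩
    have e1 : a' / Real.log T = a / LL κ := by
      rw [ha', hrd]; field_simp
    have l1 := k1 a' m1
    rw [e1] at l1
    have l2 := k2 a' m1 a m2
    rw [Real.dist_eq] at k3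
    have l3 : C * |a' - a| ≤ ε := by
      have e : a' - a = a * (r - 1) := by rw [ha']; ring
      rw [e, abs_mul, abs_of_pos ha]
      rw [lt_div_iff₀ (by positivity)] at hr2
      nlinarith
    set R' : ℝ := ∫ x, ra a' x ∂(Mp T)
    set R : ℝ := ∫ x, ra a x ∂(Mp T)
    rw [gd_int hκ, ← hTd]
    set X : ℝ := ∫ t in (0 : ℝ)..T, DD (a / LL κ) t ^ 2 with hX
    have hQ : 0 < T * Real.log T ^ 2 := by positivity
    have hlTp : 0 < Real.log T := by linarith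
    have hYT : Y = T * κ := by rw [hTd]; field_simp
    have e2 : κ / LL κ ^ 2 * X / (Y * r ^ 2) = X / (T * Real.log T ^ 2) := by
      rw [hrd, hYT]
      field_simp
    rw [e2, Real.dist_eq]
    have l4 : |X / (T * Real.log T ^ 2) - (R' - 1) / 4| ≤ ε / 4 := by
      have e : X / (T * Real.log T ^ 2) - (R' - 1) / 4 =
          (X - T * Real.log T ^ 2 / 4 * (R' - 1)) / (T * Real.log T ^ 2) := by
        field_simp
      rw [e, abs_div, abs_of_pos hQ, div_le_iff₀ hQ]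
      exact l1
    have l5 : |R' - R| ≤ ε := l2.trans l3
    rw [abs_lt] at k3 ⊢
    rw [abs_le] at l4 l5
    constructor <;> linarith [k3.1, k3.2, l4.1, l4.2, l5.1, l5.2]
  have hfin := hb.mul ((hr.pow 2).const_mul Y)
  have e : MM a / 2 * (Y * 1 ^ 2) = MM a / 2 * Y := by ring
  rw [e] at hfin
  refine hfin.congr' ?_
  filter_upwards [ev_pos, ev_L 1, hT.eventually_ge_atTop 3] with κ hκ hL hT3
  have hLp : 0 < LL κ := by linarith
  have hlT : 1 ≤ Real.log (Y / κ) := (Lg_log hT3).2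
  have : Y * (Real.log (Y / κ) / LL κ) ^ 2 ≠ 0 := by positivity
  rw [div_mul_cancel₀ _ this]

end Pool.Agent.Q260.GM
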