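import Pool.Agent.Q260.GM.Wa

set_option autoImplicit false

/-!
# The converse: from pairs of zeros to primes in short intervals, continued
-/

namespace Pool.Agent.Q260.GM

open MeasureTheory Filter Topology Set

lemma kk_one_int : IntegrableOn (kk 1) (Ioi 0) ∧ ∫ y in Ioi (0 : ℝ), kk 1 y = Real.pi := by
  have hpi := Real.pi_pos
  have h1 := Pool.Agent.Y749.Rig.int_fl (Pool.Agent.Y749.Rig.adm_tr (h := 1) one_pos)
  have h2 := Pool.Agent.Y749.Rig.fl_int (Pool.Agent.Y749.Rig.adm_tr (h := 1) one_pos)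
  have htr : Pool.Agent.Y749.Rig.tr 1 0 = 1 := by
    unfold Pool.Agent.Y749.Rig.tr
    norm_num
  rw [htr] at h1
  have e0 : ∀ᵐ x : ℝ, x ≠ 0 := by
    rw [ae_iff]
    simp
  have hfl : ∀ᵐ x : ℝ, Pool.Agent.Y749.Rig.fl (Pool.Agent.Y749.Rig.tr 1) x = kk 1 (2 * Real.pi * x) := by
    filter_upwards [e0] with x hx
    rw [Pool.Agent.Y749.Rig.fl_tr one_pos hx]
    unfold kk
    have hne : 1 * (2 * Real.pi * x) / 2 ≠ 0 := by
      have : Real.pi * x ≠ 0 := mul_ne_zero hpi.ne' hx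
      intro h
      apply this
      linarith
    rw [Real.sinc_of_ne_zero hne]
    have e1 : 1 * (2 * Real.pi * x) / 2 = Real.pi * 1 * x := by ring
    rw [e1]
    ring
  have h3 : Integrable (fun x : ℝ => kk 1 (2 * Real.pi * x)) := h2.congr hfl
  have h4 : ∫ x : ℝ, kk 1 (2 * Real.pi * x) = 1 := by
    exact (integral_congr_ae hfl).symm.trans h1
  have h5 : Integrable (kk 1) := by
    have := h3.comp_mul_left' (R := (2 * Real.pi)⁻¹) (by positivity)
    refine this.congr (ae_of_all _ fun x => ?_)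
    show kk 1 (2 * Real.pi * ((2 * Real.pi)⁻¹ * x)) = kk 1 x
    congr 1
    field_simp
  have h6 : ∫ x : ℝ, kk 1 x = 2 * Real.pi := by
    have := Measure.integral_comp_mul_left (kk 1) (2 * Real.pi)
    rw [h4, abs_of_pos (by positivity), smul_eq_mul] at this
    field_simp at this
    linarith
  refine ⟨h5.integrableOn, ?_⟩
  have h7 := integral_comp_abs (f := kk 1)
  have h8 : ∫ x : ℝ, kk 1 |x| = ∫ x : ℝ, kk 1 x := by
    refine integral_congr_ae (ae_of_all _ fun x => ?_)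
    show kk 1 |x| = kk 1 x
    rcases abs_choice x with h | h
    · rw [h]
    · rw [h, kk_even]
  rw [h8, h6] at h7
  linarith

/-- **the pairing with a kernel converges** -/
theorem KI_lim (hRH : RiemannHypothesis) {a : ℝ} (ha : 0 < a) {c : ℝ} (hc : 0 ≤ c)
    (hG : ∀ Y : ℝ, 0 < Y → Tendsto (fun κ => ∫ y in (0 : ℝ)..Y, gd κ a y) (𝓝[>] 0) (𝓝 (c * Y)))
    {f : ℝ → ℝ} (hf : Continuous f) (hf0 : ∀ y, 0 ≤ f y) {B : ℝ} (hB : 0 < B)
    (hfB : ∀ y, f y ≤ B * (1 / (1 + y ^ 2))) (hfi : IntegrableOn f (Ioi 0)) :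
    Tendsto (fun κ => KI f κ a) (𝓝[>] 0) (𝓝 (c * ∫ y in Ioi (0 : ℝ), f y)) := by
  classical
  obtain ⟨C, hC, hgen⟩ := ev_gen hRH ha le_rfl
  have hG' : ∀ Y : ℝ, 0 ≤ Y → Tendsto (fun κ => ∫ y in (0 : ℝ)..Y, gd κ a y) (𝓝[>] 0) (𝓝 (c * Y)) := by
    intro Y hY
    rcases hY.eq_or_lt with h | h
    · rw [← h]
      simp
    · exact hG Y h
  set g : ℝ → ℝ → ℝ := fun κ y => if Continuous (gd κ a) then gd κ a y else 0 with hg
  have hg0 : ∀ κ y, 0 ≤ g κ y := by
    intro κ y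
    rw [hg]
    simp only
    split_ifs
    · exact gd_nonneg κ a y
    · exact le_rfl
  have hgi : ∀ κ a' b', IntervalIntegrable (g κ) volume a' b' := by
    intro κ a' b'
    rw [hg]
    simp only
    split_ifs with h
    · exact h.intervalIntegrable _ _
    · exact intervalIntegrable_const
  have hge : ∀ᶠ κ : ℝ in 𝓝[>] 0, g κ = gd κ a := by
    filter_upwards [hgen] with κ hk
    have := (hk.2.2.2 a ⟨le_rfl, le_rfl⟩).1
    funext y
    rw [hg]
    simp only
    rw [if_pos this]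
  have hwin : ∀ c' d' : ℝ, 0 ≤ c' → c' < d' → ∀ ε : ℝ, 0 < ε →
      ∀ᶠ κ : ℝ in 𝓝[>] 0, ∫ y in c'..d', g κ y ≤ (∫ y in c'..d', (fun _ => c) y) + ε := by
    intro c' d' hc' hcd' ε hε
    have h1 := (Metric.tendsto_nhds.1 (hG' c' hc')) (ε / 2) (by positivity)
    have h2 := (Metric.tendsto_nhds.1 (hG' d' (by linarith))) (ε / 2) (by positivity)
    filter_upwards [h1, h2, hge, hgen] with κ k1 k2 k3 k4
    have hgc := (k4.2.2.2 a ⟨le_rfl, le_rfl⟩).1
    rw [k3, intervalIntegral.integral_const, smul_eq_mul]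
    have e := intervalIntegral.integral_interval_sub_left (hgc.intervalIntegrable (μ := volume) 0 d')
      (hgc.intervalIntegrable 0 c')
    rw [← e]
    rw [Real.dist_eq, abs_lt] at k1 k2
    linarith [k1.1, k2.2]
  have hfB' : ∀ y, f y ≤ B := fun y => (hfB y).trans (by
    have : 1 / (1 + y ^ 2) ≤ 1 := by rw [div_le_one (by positivity)]; nlinarith [sq_nonneg y]
    nlinarith)
  rw [Metric.tendsto_nhds]
  intro ε hε
  -- choose R
  have hR1 : Tendsto (fun R : ℝ => c * ∫ y in (0 : ℝ)..R, f y) atTop (𝓝 (c * ∫ y in Ioi (0 : ℝ), f y)) :=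
    (intervalIntegral_tendsto_integral_Ioi 0 hfi tendsto_id).const_mul c
  have hR2 : Tendsto (fun R : ℝ => B * (C * (1 / (1 + R)))) atTop (𝓝 (B * (C * 0))) := by
    refine Tendsto.const_mul _ (Tendsto.const_mul _ ?_)
    exact (tendsto_const_nhds (x := (1 : ℝ))).div_atTop (tendsto_atTop_add_const_left _ 1 tendsto_id)
  rw [mul_zero, mul_zero] at hR2
  obtain ⟨R, ⟨hRa, hRb⟩, hR0⟩ := (((Metric.tendsto_nhds.1 hR1 (ε / 8) (by positivity)).and
    (hR2.eventually (ge_mem_nhds (by positivity : 0 < ε / 8)))).and (eventually_gt_atTop 0)).exists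
  have hup := riemann (l := 𝓝[>] (0 : ℝ)) (g := g) (w := fun _ => c) (φ := f) hR0 hg0 hgi continuous_const
    (fun _ _ => hc) hf (fun y _ => hf0 y) hwin (ε := ε / 8) (by positivity)
  have hlo := riemann (l := 𝓝[>] (0 : ℝ)) (g := g) (w := fun _ => c) (φ := fun y => B - f y) hR0 hg0 hgi
    continuous_const (fun _ _ => hc) (continuous_const.sub hf) (fun y _ => by linarith [hfB' y]) hwin
    (ε := ε / 8) (by positivity)
  have hGR := (Metric.tendsto_nhds.1 (hG R hR0)) (ε / (8 * B)) (by positivity)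
  have hsq : ∀ᶠ κ : ℝ in 𝓝[>] 0, B * (C * Real.sqrt κ) ≤ ε / 8 := by
    have h2 : Tendsto (fun κ : ℝ => B * (C * Real.sqrt κ)) (𝓝 0) (𝓝 (B * (C * Real.sqrt 0))) :=
      ((continuous_const.mul (continuous_const.mul Real.continuous_sqrt)).tendsto 0)
    rw [Real.sqrt_zero, mul_zero, mul_zero] at h2
    exact (h2.mono_left nhdsWithin_le_nhds).eventually (ge_mem_nhds (by positivity))
  filter_upwards [hup, hlo, hGR, hsq, hge, hgen, ev_le (c := 1 / (R + 1)) (by positivity)]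
    with κ k1 k2 k3 k4 k5 k6 k7
  obtain ⟨hκ, hκ1, hL1, hgk⟩ := k6
  obtain ⟨hgc, hgin, htail, -⟩ := hgk a ⟨le_rfl, le_rfl⟩
  rw [k5] at k1 k2
  have hRκ : R ≤ 1 / κ ^ 2 := by
    rw [le_div_iff₀ (by positivity)]
    rw [le_div_iff₀ (by positivity)] at k7
    nlinarith
  have i1 : Integrable (fun y => f y * gd κ a y) :=
    gd_integrable hf hgc (fun y => by rw [abs_of_nonneg (hf0 y)]; exact hfB y) hgin
  have hsplit := intervalIntegral.integral_Ioi_sub_Ioi i1.integrableOn hR0.le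
  have ht0 : 0 ≤ ∫ y in Ioi R, f y * gd κ a y :=
    setIntegral_nonneg measurableSet_Ioi fun y _ => mul_nonneg (hf0 y) (gd_nonneg κ a y)
  have ht1 : ∫ y in Ioi R, f y * gd κ a y ≤ ε / 4 := by
    have h2 : ∫ y in Ioi R, f y * gd κ a y ≤ ∫ y in Ioi R, B * (gd κ a y / (1 + y ^ 2)) := by
      refine setIntegral_mono_on i1.integrableOn (hgin.const_mul _).integrableOn measurableSet_Ioi fun y _ => ?_
      calc f y * gd κ a y ≤ B * (1 / (1 + y ^ 2)) * gd κ a y :=
            mul_le_mul_of_nonneg_right (hfB y) (gd_nonneg κ a y)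
        _ = _ := by ring
    refine h2.trans ?_
    rw [integral_const_mul]
    have h3 := mul_le_mul_of_nonneg_left (htail R hR0.le hRκ) hB.le
    have e3 : B * (C * (1 / (1 + R) + Real.sqrt κ)) = B * (C * (1 / (1 + R))) + B * (C * Real.sqrt κ) := by ring
    rw [e3] at h3
    linarith
  have e1 : ∫ y in (0 : ℝ)..R, f y * c = c * ∫ y in (0 : ℝ)..R, f y := by
    rw [intervalIntegral.integral_mul_const]; ring
  have e2 : ∫ y in (0 : ℝ)..R, (B - f y) * gd κ a y =
      B * (∫ y in (0 : ℝ)..R, gd κ a y) - ∫ y in (0 : ℝ)..R, f y * gd κ a y := by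
    rw [← intervalIntegral.integral_const_mul, ← intervalIntegral.integral_sub]
    · exact intervalIntegral.integral_congr fun y _ => by ring
    · exact (hgc.intervalIntegrable _ _).const_mul _
    · exact (hf.mul hgc).intervalIntegrable _ _
  have e3 : ∫ y in (0 : ℝ)..R, (B - f y) * c = B * (c * R) - c * ∫ y in (0 : ℝ)..R, f y := by
    rw [intervalIntegral.integral_mul_const, intervalIntegral.integral_sub intervalIntegrable_const
      (hf.intervalIntegrable _ _), intervalIntegral.integral_const, smul_eq_mul]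
    ring
  have k1' : ∫ y in (0 : ℝ)..R, f y * gd κ a y ≤ c * (∫ y in (0 : ℝ)..R, f y) + ε / 8 := by
    rw [← e1]; exact k1
  have k2' : B * (∫ y in (0 : ℝ)..R, gd κ a y) - (∫ y in (0 : ℝ)..R, f y * gd κ a y) ≤
      B * (c * R) - c * (∫ y in (0 : ℝ)..R, f y) + ε / 8 := by
    rw [← e2, ← e3]; exact k2
  rw [Real.dist_eq] at k3
  have k3' : |B * (∫ y in (0 : ℝ)..R, gd κ a y) - B * (c * R)| ≤ ε / 8 := by
    rw [← mul_sub, abs_mul, abs_of_pos hB]
    rw [lt_div_iff₀ (by positivity)] at k3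
    linarith
  rw [Real.dist_eq, abs_lt] at hRa
  rw [abs_le] at k3'
  have hKI : KI f κ a = (∫ y in (0 : ℝ)..R, f y * gd κ a y) + ∫ y in Ioi R, f y * gd κ a y := by
    unfold KI
    linarith
  rw [Real.dist_eq, hKI, abs_lt]
  constructor <;> linarith [hRa.1, hRa.2, k3'.1, k3'.2]

/-- **the weighted mean square for primes** -/
theorem SS_lim (hRH : RiemannHypothesis) (hL2 : L2psi)
    (h : ∀ a : ℝ, 0 < a → Tendsto (fun T => ∫ x, ra a x ∂(Pool.Agent.Y749.Rig.Mp T)) atTop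
      (𝓝 (1 + 2 * MM a))) {a : ℝ} (ha : 0 < a) :
    Tendsto (fun κ => SS κ (a / LL κ) / (κ * LL κ ^ 2)) (𝓝[>] 0) (𝓝 (MM a)) := by
  have hpi := Real.pi_pos
  have hK := KI_lim hRH ha (c := MM a / 2) (by have := MM_nonneg a; linarith)
    (fun Y hY => G_of_R hRH ha (h a ha) hY) (kk_cont 1) (kk_nonneg 1) (B := 5) (by norm_num)
    (fun y => (kk_le 1 y).trans (le_of_eq (by norm_num))) kk_one_int.1
  rw [kk_one_int.2] at hK
  have hK2 := hK.const_mul (2 / Real.pi)
  have e : 2 / Real.pi * (MM a / 2 * Real.pi) = MM a := by field_simp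
  rw [e] at hK2
  rw [Metric.tendsto_nhds] at hK2 ⊢
  intro ε hε
  filter_upwards [hK2 (ε / 2) (by positivity), T1b hRH hL2 ha le_rfl one_pos (ε := ε / 4) (by positivity),
    ev_pos, ev_L 1] with κ k1 k2 hκ hL
  have hLp : 0 < LL κ := by linarith
  have hQ : 0 < κ * LL κ ^ 2 := by positivity
  have k3 := k2 a ⟨le_rfl, le_rfl⟩
  rw [one_mul] at k3
  have e2 : SS κ (a / LL κ) / (κ * LL κ ^ 2) - 2 / Real.pi * KI (kk 1) κ a =
      (SS κ (a / LL κ) - 2 / Real.pi * (κ * LL κ ^ 2 * ∫ y in Ioi (0 : ℝ), kk 1 y * gd κ a y)) /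
        (κ * LL κ ^ 2) := by
    unfold KI
    field_simp
  have k4 : |SS κ (a / LL κ) / (κ * LL κ ^ 2) - 2 / Real.pi * KI (kk 1) κ a| ≤ ε / 4 := by
    rw [e2, abs_div, abs_of_pos hQ, div_le_iff₀ hQ]
    exact k3
  rw [Real.dist_eq] at k1 ⊢
  rw [abs_lt] at k1 ⊢
  rw [abs_le] at k4
  constructor <;> linarith [k1.1, k1.2, k4.1, k4.2]

end Pool.Agent.Q260.GM
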