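import Pool.Agent.Q260.GM.Wb

set_option autoImplicit false

/-!
# The windows
-/

namespace Pool.Agent.Q260.GM

open MeasureTheory Filter Topology Set
open Pool.Agent.Q213.GM (Dl_sq_ii Dl_meas)

/-- the normalised measure on the side of the primes -/
noncomputable def nk (κ : ℝ) : Measure ℝ :=
  (volume.restrict (Ioi 0)).withDensity fun α => ENNReal.ofReal (Dl κ (α * LL κ) ^ 2 / (κ * LL κ))

lemma nk_meas (κ : ℝ) : Measurable fun α : ℝ => Dl κ (α * LL κ) ^ 2 / (κ * LL κ) :=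
  (((Dl_meas κ).comp (measurable_id.mul_const _)).pow_const 2).div_const _

lemma nk_integral {κ : ℝ} (hκ : 0 < κ) (hL : 0 < LL κ) (f : ℝ → ℝ) :
    ∫ y, f y ∂(nk κ) = ∫ y in Ioi (0 : ℝ), f y * (Dl κ (y * LL κ) ^ 2 / (κ * LL κ)) := by
  unfold nk
  rw [integral_withDensity_eq_integral_toReal_smul₀ (nk_meas κ).ennreal_ofReal.aemeasurable
    (ae_of_all _ fun x => ENNReal.ofReal_lt_top)]
  refine integral_congr_ae (ae_of_all _ fun x => ?_)
  simp only [smul_eq_mul]
  rw [ENNReal.toReal_ofReal (by positivity), mul_comm]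

lemma nk_integrable {κ : ℝ} (hκ : 0 < κ) (hL : 0 < LL κ) {f : ℝ → ℝ}
    (h : IntegrableOn (fun y => f y * (Dl κ (y * LL κ) ^ 2 / (κ * LL κ))) (Ioi 0)) :
    Integrable f (nk κ) := by
  unfold nk
  rw [integrable_withDensity_iff_integrable_smul₀' (nk_meas κ).ennreal_ofReal.aemeasurable
    (ae_of_all _ fun x => ENNReal.ofReal_lt_top)]
  refine Integrable.congr (h : Integrable (fun y => f y * (Dl κ (y * LL κ) ^ 2 / (κ * LL κ)))
    (volume.restrict (Ioi 0))) (ae_of_all _ fun x => ?_)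
  simp only [smul_eq_mul]
  rw [ENNReal.toReal_ofReal (by positivity), mul_comm]

lemma nk_neg (κ : ℝ) : nk κ (Iio 0) = 0 := by
  unfold nk
  rw [withDensity_apply _ measurableSet_Iio, Measure.restrict_restrict measurableSet_Iio]
  have : Iio (0 : ℝ) ∩ Ioi 0 = ∅ := by
    ext x; simp only [mem_inter_iff, mem_Iio, mem_Ioi, mem_empty_iff_false, iff_false]
    intro h; linarith [h.1, h.2]
  rw [this]
  simp

lemma nk_Icc {κ : ℝ} (hκ : 0 < κ) (hL : 0 < LL κ) {c d : ℝ} (hc : 0 < c) (hcd : c ≤ d) :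
    (nk κ).real (Icc c d) = (∫ u in (c * LL κ)..(d * LL κ), Dl κ u ^ 2) / (κ * LL κ ^ 2) := by
  have h1 : (nk κ).real (Icc c d) = ∫ y, (Icc c d).indicator (fun _ => (1 : ℝ)) y ∂(nk κ) := by
    rw [integral_indicator measurableSet_Icc, setIntegral_const]
    simp
  rw [h1, nk_integral hκ hL]
  have h2 : (fun y => (Icc c d).indicator (fun _ => (1 : ℝ)) y * (Dl κ (y * LL κ) ^ 2 / (κ * LL κ))) =
      (Icc c d).indicator (fun y => Dl κ (y * LL κ) ^ 2 / (κ * LL κ)) := by
    funext y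
    by_cases h : y ∈ Icc c d
    · rw [indicator_of_mem h, indicator_of_mem h, one_mul]
    · rw [indicator_of_notMem h, indicator_of_notMem h, zero_mul]
  have h3 : Ioi (0 : ℝ) ∩ Icc c d = Icc c d := inter_eq_right.2 fun y hy => lt_of_lt_of_le hc hy.1
  rw [h2, setIntegral_indicator measurableSet_Icc, h3, integral_Icc_eq_integral_Ioc,
    ← intervalIntegral.integral_of_le hcd, intervalIntegral.integral_div,
    intervalIntegral.integral_comp_mul_right (fun u => Dl κ u ^ 2) hL.ne', smul_eq_mul]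
  field_simp

lemma nk_exp (hL2 : L2psi) {κ : ℝ} (hκ : 0 < κ) (hL : 0 < LL κ) {a : ℝ} (ha : 0 < a) :
    Integrable (fun y => Real.exp (-(a * y))) (nk κ) ∧
    ∫ y, Real.exp (-(a * y)) ∂(nk κ) = SS κ (a / 2 / LL κ) / (κ * LL κ ^ 2) := by
  have hx : 0 < a / 2 / LL κ := by positivity
  have h1 := Dl_sq_int hL2 hκ hx
  have e : ∀ y : ℝ, Real.exp (-(a * y)) * (Dl κ (y * LL κ) ^ 2 / (κ * LL κ)) =
      (fun u => (κ * LL κ)⁻¹ * (Dl κ u ^ 2 * Real.exp (-(2 * (a / 2 / LL κ) * u)))) (y * LL κ) := by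
    intro y
    show _ = (κ * LL κ)⁻¹ * (Dl κ (y * LL κ) ^ 2 * Real.exp (-(2 * (a / 2 / LL κ) * (y * LL κ))))
    have : 2 * (a / 2 / LL κ) * (y * LL κ) = a * y := by field_simp
    rw [this]
    ring
  have hc := integral_comp_mul_right_Ioi (fun u => (κ * LL κ)⁻¹ * (Dl κ u ^ 2 * Real.exp (-(2 * (a / 2 / LL κ) * u))))
    0 hL
  have hci := (integrableOn_Ioi_comp_mul_right_iff
    (fun u => (κ * LL κ)⁻¹ * (Dl κ u ^ 2 * Real.exp (-(2 * (a / 2 / LL κ) * u)))) 0 hL).2 (by
      rw [zero_mul]; exact h1.const_mul _)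
  constructor
  · apply nk_integrable hκ hL
    simp only [e]
    exact hci
  · rw [nk_integral hκ hL]
    simp only [e]
    rw [hc, zero_mul, integral_const_mul, smul_eq_mul]
    unfold SS
    field_simp

/-- **the windows converge** -/
theorem win_lim (hL2 : L2psi)
    (h : ∀ a : ℝ, 0 < a → Tendsto (fun κ => SS κ (a / LL κ) / (κ * LL κ ^ 2)) (𝓝[>] 0) (𝓝 (MM a)))
    {c d : ℝ} (hc : 0 < c) (hcd : c < d) :
    Tendsto (fun κ => (∫ u in (c * LL κ)..(d * LL κ), Dl κ u ^ 2) / (κ * LL κ ^ 2)) (𝓝[>] 0)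
      (𝓝 (∫ α in c..d, mn α)) := by
  have h1 := Pool.Agent.Q128.GM.karamata (l := 𝓝[>] (0 : ℝ)) (m := nk) (w := fun α => max 0 (mn α))
    (continuous_const.max mn_cont) (fun _ => le_max_left _ _) (fun x => max_le zero_le_one (mn_le x))
    (Eventually.of_forall nk_neg)
    (by
      filter_upwards [ev_pos, ev_L 1] with κ hκ hL a ha
      exact (nk_exp hL2 hκ (by linarith) ha).1)
    (fun a ha => by
      have e : ∫ y in Ioi (0 : ℝ), Real.exp (-(a * y)) * max 0 (mn y) = MM (a / 2) := by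
        rw [MM_eq]
        refine setIntegral_congr_fun measurableSet_Ioi fun y hy => ?_
        show Real.exp (-(a * y)) * max 0 (mn y) = Real.exp (-(2 * (a / 2) * y)) * mn y
        rw [max_eq_right (mn_nonneg (le_of_lt hy))]
        congr 3
        ring
      rw [e]
      refine (h (a / 2) (by positivity)).congr' ?_
      filter_upwards [ev_pos, ev_L 1] with κ hκ hL
      exact ((nk_exp hL2 hκ (by linarith) ha).2).symm) hc hcd
  have e : ∫ y in c..d, max 0 (mn y) = ∫ α in c..d, mn α := by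
    refine intervalIntegral.integral_congr fun y hy => ?_
    rw [uIcc_of_le hcd.le] at hy
    exact max_eq_right (mn_nonneg (hc.le.trans hy.1))
  rw [e] at h1
  refine h1.congr' ?_
  filter_upwards [ev_pos, ev_L 1] with κ hκ hL
  exact nk_Icc hκ (by linarith) hc hcd.le

end Pool.Agent.Q260.GM
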