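import Pool.Agent.Q260.GM.Wc

set_option autoImplicit false

/-!
# The functional of the theorem
-/

namespace Pool.Agent.Q260.GM

open MeasureTheory Filter Topology Set
open Pool.Agent.Q213.GM (Dl_sq_ii Dl_meas)

/-- `∫_{T^a}^{T^b} (ψ(x + x/T) - ψ(x) - x/T)² dx/x²` -/
noncomputable def JJ (T a b : ℝ) : ℝ := ∫ x in (T ^ a)..(T ^ b),
  (Chebyshev.psi (x + x / T) - Chebyshev.psi x - x / T) ^ 2 / x ^ 2

/-- the logarithmic length -/
noncomputable def kT (T : ℝ) : ℝ := Real.log (1 + 1 / T)

lemma kT_pos {T : ℝ} (hT : 0 < T) : 0 < kT T := by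
  unfold kT
  apply Real.log_pos
  have : 0 < 1 / T := by positivity
  linarith

lemma exp_kT {T : ℝ} (hT : 0 < T) : Real.exp (kT T) = 1 + 1 / T := by
  unfold kT
  rw [Real.exp_log (by positivity)]

lemma exp_image (A B : ℝ) : Real.exp '' Ioc A B = Ioc (Real.exp A) (Real.exp B) := by
  ext x
  constructor
  · rintro ⟨u, hu, rfl⟩
    exact ⟨Real.exp_lt_exp.2 hu.1, Real.exp_le_exp.2 hu.2⟩
  · rintro ⟨h1, h2⟩
    have hx : 0 < x := (Real.exp_pos A).trans h1
    refine ⟨Real.log x, ⟨?_, ?_⟩, Real.exp_log hx⟩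
    · rwa [Real.lt_log_iff_exp_lt hx]
    · rwa [Real.log_le_iff_le_exp hx]

lemma exp_change (g : ℝ → ℝ) {A B : ℝ} (hAB : A ≤ B) :
    ∫ x in (Real.exp A)..(Real.exp B), g x = ∫ u in A..B, Real.exp u * g (Real.exp u) := by
  rw [intervalIntegral.integral_of_le (Real.exp_le_exp.2 hAB), intervalIntegral.integral_of_le hAB,
    ← exp_image, integral_image_eq_integral_abs_deriv_smul measurableSet_Ioc
      (fun u _ => (Real.hasDerivAt_exp u).hasDerivWithinAt) Real.exp_injective.injOn]
  refine integral_congr_ae (ae_of_all _ fun u => ?_)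
  show |Real.exp u| • g (Real.exp u) = Real.exp u * g (Real.exp u)
  rw [abs_of_pos (Real.exp_pos u), smul_eq_mul]

lemma JJ_eq {T : ℝ} (hT : 1 ≤ T) {a b : ℝ} (hab : a ≤ b) :
    JJ T a b = ∫ u in (a * Real.log T)..(b * Real.log T), Dl (kT T) u ^ 2 := by
  have hTp : 0 < T := by linarith
  have hlog : 0 ≤ Real.log T := Real.log_nonneg hT
  unfold JJ
  rw [Real.rpow_def_of_pos hTp, Real.rpow_def_of_pos hTp, mul_comm (Real.log T), mul_comm (Real.log T),
    exp_change _ (mul_le_mul_of_nonneg_right hab hlog)]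
  refine intervalIntegral.integral_congr fun u _ => ?_
  show Real.exp u * ((Chebyshev.psi (Real.exp u + Real.exp u / T) - Chebyshev.psi (Real.exp u) -
    Real.exp u / T) ^ 2 / Real.exp u ^ 2) = Dl (kT T) u ^ 2
  have e1 : Real.exp (u + kT T) = Real.exp u + Real.exp u / T := by
    rw [Real.exp_add, exp_kT hTp]; ring
  unfold Dl ph
  have e2 : Real.exp (-(u / 2)) ^ 2 = (Real.exp u)⁻¹ := by
    rw [← Real.exp_nat_mul, ← Real.exp_neg]; congr 1; push_cast; ring
  rw [e1, mul_pow, e2]
  have hne := (Real.exp_pos u).ne'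
  field_simp
  ring

lemma kT_le {T : ℝ} (hT : 0 < T) : kT T ≤ 1 / T := by
  unfold kT
  have := Real.log_le_sub_one_of_pos (x := 1 + 1 / T) (by positivity)
  linarith

lemma kT_ge {T : ℝ} (hT : 0 < T) : 1 / (T + 1) ≤ kT T := by
  unfold kT
  have h1 : Real.log (T / (T + 1)) ≤ T / (T + 1) - 1 := Real.log_le_sub_one_of_pos (by positivity)
  have h2 : Real.log (T / (T + 1)) = -Real.log (1 + 1 / T) := by
    rw [← Real.log_inv]
    congr 1
    field_simp
  have h3 : T / (T + 1) - 1 = -(1 / (T + 1)) := by field_simp; ring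
  rw [h2, h3] at h1
  linarith

lemma LL_kT {T : ℝ} (hT : 1 ≤ T) : Real.log T ≤ LL (kT T) ∧ LL (kT T) ≤ Real.log T + 1 / T := by
  have hTp : 0 < T := by linarith
  have hk := kT_pos hTp
  unfold LL
  constructor
  · apply Real.log_le_log hTp
    rw [le_div_iff₀ hk]
    have := mul_le_mul_of_nonneg_left (kT_le hTp) hTp.le
    rwa [mul_one_div, div_self hTp.ne'] at this
  · have h1 : 1 / kT T ≤ T + 1 := by
      rw [div_le_iff₀ hk]
      have := mul_le_mul_of_nonneg_left (kT_ge hTp) (by linarith : 0 ≤ T + 1)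
      rwa [mul_one_div, div_self (by linarith)] at this
    have h2 := Real.log_le_log (by positivity) h1
    have h3 : Real.log (T + 1) = Real.log T + Real.log (1 + 1 / T) := by
      rw [← Real.log_mul hTp.ne' (by positivity)]
      congr 1
      field_simp
    rw [h3] at h2
    have h4 := kT_le hTp
    unfold kT at h4
    linarith

lemma kT_tendsto : Tendsto kT atTop (𝓝[>] 0) := by
  refine tendsto_nhdsWithin_iff.2 ⟨?_, ?_⟩
  · refine squeeze_zero' (g := fun T : ℝ => 1 / T) ?_ ?_ ?_
    · filter_upwards [eventually_gt_atTop (0 : ℝ)] with T hT using (kT_pos hT).le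
    · filter_upwards [eventually_gt_atTop (0 : ℝ)] with T hT using kT_le hT
    · simpa only [one_div] using tendsto_inv_atTop_zero
  · filter_upwards [eventually_gt_atTop (0 : ℝ)] with T hT using kT_pos hT

/-- the inverse function -/
noncomputable def Tk (κ : ℝ) : ℝ := 1 / (Real.exp κ - 1)

lemma Tk_pos {κ : ℝ} (hκ : 0 < κ) : 0 < Tk κ := by
  unfold Tk
  have := Real.add_one_le_exp κ
  have : 0 < Real.exp κ - 1 := by linarith
  positivity

lemma kT_Tk {κ : ℝ} (_hκ : 0 < κ) : kT (Tk κ) = κ := by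
  unfold kT Tk
  rw [one_div_one_div, add_sub_cancel, Real.log_exp]

lemma Tk_tendsto : Tendsto Tk (𝓝[>] 0) atTop := by
  have h1 : Tendsto (fun κ : ℝ => Real.exp κ - 1) (𝓝[>] 0) (𝓝[>] 0) := by
    refine tendsto_nhdsWithin_iff.2 ⟨?_, ?_⟩
    · have : Tendsto (fun κ : ℝ => Real.exp κ - 1) (𝓝 0) (𝓝 (Real.exp 0 - 1)) :=
        (Real.continuous_exp.sub continuous_const).tendsto 0
      rw [Real.exp_zero, sub_self] at this
      exact this.mono_left nhdsWithin_le_nhds
    · filter_upwards [ev_pos] with κ hκ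
      have := Real.add_one_le_exp κ
      show 0 < Real.exp κ - 1
      linarith
  have h2 := tendsto_inv_nhdsGT_zero.comp h1
  refine h2.congr fun κ => ?_
  show (Real.exp κ - 1)⁻¹ = 1 / (Real.exp κ - 1)
  rw [one_div]

/-- the upper bound hypothesis -/
def UH : Prop := ∀ a b : ℝ, 1 ≤ a → a < b → ∀ ε : ℝ, 0 < ε → ∀ᶠ T : ℝ in atTop,
  T / Real.log T ^ 2 * JJ T a b ≤ b - a + ε

/-- the asymptotic formula -/
def UL : Prop := ∀ a b : ℝ, 1 ≤ a → a < b →
  Tendsto (fun T => T / Real.log T ^ 2 * JJ T a b) atTop (𝓝 (b - a))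

lemma UH_of_UL (h : UL) : UH := by
  intro a b ha hab ε hε
  exact (h a b ha hab).eventually (ge_mem_nhds (by linarith))

lemma UHk_of_UH (h : UH) : UHk := by
  intro c d hc hcd ε hε
  -- the enlarged window
  set δ : ℝ := min 1 (ε / (d - c + 6)) with hδ
  have hdc : 0 < d - c := by linarith
  have hδ0 : 0 < δ := by positivity
  have hδ1 : δ ≤ 1 := min_le_left _ _
  have hδ2 : δ * (d - c + 6) ≤ ε := by
    have : δ ≤ ε / (d - c + 6) := min_le_right _ _
    rwa [le_div_iff₀ (by positivity)] at this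
  have h1 := Tk_tendsto.eventually (h c (d + δ) hc (by linarith) δ hδ0)
  have h2 := Tk_tendsto.eventually_ge_atTop (Real.exp (max 1 (d / δ)))
  filter_upwards [h1, h2, ev_pos, ev_le (c := δ / 4) (by positivity)] with κ k1 k2 hκ hκδ
  set T : ℝ := Tk κ with hT
  have hTp : 0 < T := Tk_pos hκ
  have hlogT : max 1 (d / δ) ≤ Real.log T := by rwa [Real.le_log_iff_exp_le hTp]
  have hlT1 : 1 ≤ Real.log T := (le_max_left _ _).trans hlogT
  have hlT2 : d ≤ δ * Real.log T := by
    have := (le_max_right _ _).trans hlogT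
    rw [div_le_iff₀ hδ0] at this
    linarith
  have hT1 : 1 ≤ T := by
    have h3 := Real.add_one_le_exp (max 1 (d / δ))
    have h4 : 1 ≤ max 1 (d / δ) := le_max_left _ _
    linarith
  have hkT : kT T = κ := kT_Tk hκ
  obtain ⟨l1, l2⟩ := LL_kT hT1
  rw [hkT] at l1 l2
  have hLp : 0 < LL κ := by linarith
  have hT1' : 1 / T ≤ 1 := by rw [div_le_one hTp]; exact hT1
  have hmono : ∫ u in (c * LL κ)..(d * LL κ), Dl κ u ^ 2 ≤ JJ T c (d + δ) := by
    rw [JJ_eq hT1 (by linarith), hkT]
    refine intervalIntegral.integral_mono_interval ?_ (mul_le_mul_of_nonneg_right hcd.le hLp.le) ?_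
      (ae_of_all _ fun u => sq_nonneg _) (Dl_sq_ii _ _ _)
    · exact mul_le_mul_of_nonneg_left l1 (by linarith)
    · have hd : 0 < d := by linarith
      have : d * LL κ ≤ d * (Real.log T + 1) := mul_le_mul_of_nonneg_left (by linarith) hd.le
      nlinarith
  have hlTp : 0 < Real.log T := by linarith
  have hJ : JJ T c (d + δ) ≤ (d + δ - c + δ) * (Real.log T ^ 2 / T) := by
    have hq : 0 < Real.log T ^ 2 / T := by positivity
    have := mul_le_mul_of_nonneg_right k1 hq.le
    have e : T / Real.log T ^ 2 * JJ T c (d + δ) * (Real.log T ^ 2 / T) = JJ T c (d + δ) := by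
      field_simp
    linarith
  have hTinv : 1 / T ≤ κ * (1 + δ) := by
    have e : 1 / T = Real.exp κ - 1 := by rw [hT]; unfold Tk; rw [one_div_one_div]
    rw [e]
    have h5 := Real.abs_exp_sub_one_sub_id_le (x := κ) (by rw [abs_of_pos hκ]; linarith)
    have h6 := (abs_le.1 h5).2
    nlinarith
  refine hmono.trans (hJ.trans ?_)
  calc (d + δ - c + δ) * (Real.log T ^ 2 / T) = (d - c + 2 * δ) * (Real.log T ^ 2 * (1 / T)) := by ring
    _ ≤ (d - c + 2 * δ) * (LL κ ^ 2 * (κ * (1 + δ))) := by gcongr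
    _ = (d - c + 2 * δ) * (1 + δ) * (κ * LL κ ^ 2) := by ring
    _ ≤ (d - c + ε) * (κ * LL κ ^ 2) := by
        apply mul_le_mul_of_nonneg_right _ (by positivity)
        nlinarith

/-- the windows for all exponents -/
theorem JJ_lim (h : ∀ c d : ℝ, 0 < c → c < d →
    Tendsto (fun κ => (∫ u in (c * LL κ)..(d * LL κ), Dl κ u ^ 2) / (κ * LL κ ^ 2)) (𝓝[>] 0)
      (𝓝 (∫ α in c..d, mn α))) {a b : ℝ} (ha : 0 < a) (hab : a < b) :
    Tendsto (fun T => T / Real.log T ^ 2 * JJ T a b) atTop (𝓝 (∫ α in a..b, mn α)) := by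
  have hmi : ∀ c d : ℝ, IntervalIntegrable mn volume c d := fun c d => mn_cont.intervalIntegrable c d
  -- the normalisation
  have hnorm : Tendsto (fun T => T / Real.log T ^ 2 * (kT T * LL (kT T) ^ 2)) atTop (𝓝 1) := by
    have h1 : Tendsto (fun T : ℝ => T * kT T) atTop (𝓝 1) := by
      refine tendsto_of_tendsto_of_tendsto_of_le_of_le' (g := fun T : ℝ => T / (T + 1)) (h := fun _ => (1 : ℝ))
        ?_ tendsto_const_nhds ?_ ?_
      · have h2 : Tendsto (fun T : ℝ => 1 - 1 / (T + 1)) atTop (𝓝 (1 - 0)) := by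
          refine tendsto_const_nhds.sub ?_
          exact (tendsto_const_nhds (x := (1 : ℝ))).div_atTop (tendsto_atTop_add_const_right _ 1 tendsto_id)
        rw [sub_zero] at h2
        refine h2.congr' ?_
        filter_upwards [eventually_gt_atTop (0 : ℝ)] with T hT
        field_simp
        ring
      · filter_upwards [eventually_gt_atTop (0 : ℝ)] with T hT
        have := mul_le_mul_of_nonneg_left (kT_ge hT) hT.le
        rwa [mul_one_div] at this
      · filter_upwards [eventually_gt_atTop (0 : ℝ)] with T hT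
        have := mul_le_mul_of_nonneg_left (kT_le hT) hT.le
        rwa [mul_one_div, div_self hT.ne'] at this
    have h2 : Tendsto (fun T : ℝ => LL (kT T) / Real.log T) atTop (𝓝 1) := by
      refine tendsto_of_tendsto_of_tendsto_of_le_of_le' (g := fun _ : ℝ => (1 : ℝ))
        (h := fun T => 1 + 1 / Real.log T) tendsto_const_nhds ?_ ?_ ?_
      · have h3 : Tendsto (fun T : ℝ => 1 + 1 / Real.log T) atTop (𝓝 (1 + 0)) :=
          tendsto_const_nhds.add ((tendsto_const_nhds (x := (1 : ℝ))).div_atTop Real.tendsto_log_atTop)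
        rwa [add_zero] at h3
      · filter_upwards [eventually_ge_atTop (3 : ℝ)] with T hT
        have hl := (Lg_log hT).2
        rw [le_div_iff₀ (by linarith), one_mul]
        exact (LL_kT (by linarith)).1
      · filter_upwards [eventually_ge_atTop (3 : ℝ)] with T hT
        have hl := (Lg_log hT).2
        have hlp : 0 < Real.log T := by linarith
        rw [div_le_iff₀ hlp]
        have h4 := (LL_kT (T := T) (by linarith)).2
        have h5 : 1 / T ≤ 1 := by rw [div_le_one (by linarith)]; linarith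
        have e : (1 + 1 / Real.log T) * Real.log T = Real.log T + 1 := by field_simp
        rw [e]
        linarith
    have h3 := h1.mul (h2.pow 2)
    rw [one_pow, mul_one] at h3
    refine h3.congr' ?_
    filter_upwards [eventually_ge_atTop (3 : ℝ)] with T hT
    have hl := (Lg_log hT).2
    have hlp : 0 < Real.log T := by linarith
    field_simp
  have hwin : ∀ c d : ℝ, 0 < c → c < d → Tendsto (fun T => T / Real.log T ^ 2 *
      ∫ u in (c * LL (kT T))..(d * LL (kT T)), Dl (kT T) u ^ 2) atTop (𝓝 (∫ α in c..d, mn α)) := by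
    intro c d hc hcd
    have h1 := hnorm.mul ((h c d hc hcd).comp kT_tendsto)
    rw [one_mul] at h1
    refine h1.congr' ?_
    filter_upwards [eventually_ge_atTop (3 : ℝ)] with T hT
    have hk := kT_pos (T := T) (by linarith)
    have hl := (Lg_log hT).2
    have hL : 0 < LL (kT T) := by linarith [(LL_kT (T := T) (by linarith)).1]
    simp only [Function.comp]
    field_simp
  rw [Metric.tendsto_nhds]
  intro ε hε
  obtain ⟨δ, hδ0, hδ1, hδ2, hδ3⟩ : ∃ δ : ℝ, 0 < δ ∧ δ < a ∧ δ < b - a ∧ δ < ε / 2 := by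
    refine ⟨min (min (a / 2) ((b - a) / 2)) (ε / 4), ?_, ?_, ?_, ?_⟩
    · have : 0 < b - a := by linarith
      positivity
    · have : min (min (a / 2) ((b - a) / 2)) (ε / 4) ≤ a / 2 := (min_le_left _ _).trans (min_le_left _ _)
      linarith
    · have : min (min (a / 2) ((b - a) / 2)) (ε / 4) ≤ (b - a) / 2 := (min_le_left _ _).trans (min_le_right _ _)
      linarith
    · have : min (min (a / 2) ((b - a) / 2)) (ε / 4) ≤ ε / 4 := min_le_right _ _
      linarith
  have hu := (Metric.tendsto_nhds.1 (hwin (a - δ) b (by linarith) (by linarith))) (ε / 2) (by positivity)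
  have hl := (Metric.tendsto_nhds.1 (hwin a (b - δ) ha (by linarith))) (ε / 2) (by positivity)
  have hlog : ∀ᶠ T : ℝ in atTop, max 1 (b / δ) ≤ Real.log T :=
    Real.tendsto_log_atTop.eventually_ge_atTop _
  have m1 : ∫ α in (a - δ)..b, mn α ≤ (∫ α in a..b, mn α) + δ := by
    have e : ∫ α in (a - δ)..b, mn α = (∫ α in (a - δ)..a, mn α) + ∫ α in a..b, mn α :=
      (intervalIntegral.integral_add_adjacent_intervals (hmi _ _) (hmi _ _)).symm
    have h1 : ∫ α in (a - δ)..a, mn α ≤ δ := by
      have := intervalIntegral.integral_mono_on (μ := volume) (by linarith : a - δ ≤ a) (hmi _ _)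
        (intervalIntegrable_const (c := (1 : ℝ))) fun α _ => mn_le α
      rw [intervalIntegral.integral_const, smul_eq_mul, mul_one] at this
      linarith
    linarith
  have m2 : (∫ α in a..b, mn α) - δ ≤ ∫ α in a..(b - δ), mn α := by
    have e : ∫ α in a..b, mn α = (∫ α in a..(b - δ), mn α) + ∫ α in (b - δ)..b, mn α :=
      (intervalIntegral.integral_add_adjacent_intervals (hmi _ _) (hmi _ _)).symm
    have h1 : ∫ α in (b - δ)..b, mn α ≤ δ := by
      have := intervalIntegral.integral_mono_on (μ := volume) (by linarith : b - δ ≤ b) (hmi _ _)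
        (intervalIntegrable_const (c := (1 : ℝ))) fun α _ => mn_le α
      rw [intervalIntegral.integral_const, smul_eq_mul, mul_one] at this
      linarith
    linarith
  filter_upwards [hu, hl, hlog, eventually_ge_atTop (3 : ℝ)] with T k1 k2 k3 hT
  have hl1 : 1 ≤ Real.log T := (le_max_left _ _).trans k3
  have hl2 : b ≤ δ * Real.log T := by
    have := (le_max_right _ _).trans k3
    rw [div_le_iff₀ hδ0] at this
    linarith
  obtain ⟨l1, l2⟩ := LL_kT (T := T) (by linarith)
  have hT1 : 1 / T ≤ 1 := by rw [div_le_one (by linarith)]; linarith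
  have hLp : 0 < LL (kT T) := by linarith
  have hq : 0 < T / Real.log T ^ 2 := by positivity
  have u1 : JJ T a b ≤ ∫ u in ((a - δ) * LL (kT T))..(b * LL (kT T)), Dl (kT T) u ^ 2 := by
    rw [JJ_eq (by linarith) hab.le]
    refine intervalIntegral.integral_mono_interval ?_ (mul_le_mul_of_nonneg_right hab.le (by linarith)) ?_
      (ae_of_all _ fun u => sq_nonneg _) (Dl_sq_ii _ _ _)
    · have : (a - δ) * LL (kT T) ≤ (a - δ) * (Real.log T + 1) :=
        mul_le_mul_of_nonneg_left (by linarith) (by linarith)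
      nlinarith
    · exact mul_le_mul_of_nonneg_left l1 (by linarith)
  have u2 : ∫ u in (a * LL (kT T))..((b - δ) * LL (kT T)), Dl (kT T) u ^ 2 ≤ JJ T a b := by
    rw [JJ_eq (by linarith) hab.le]
    refine intervalIntegral.integral_mono_interval ?_ (mul_le_mul_of_nonneg_right (by linarith) hLp.le) ?_
      (ae_of_all _ fun u => sq_nonneg _) (Dl_sq_ii _ _ _)
    · exact mul_le_mul_of_nonneg_left l1 ha.le
    · have : (b - δ) * LL (kT T) ≤ (b - δ) * (Real.log T + 1) :=
        mul_le_mul_of_nonneg_left (by linarith) (by linarith)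
      nlinarith
  have v1 := mul_le_mul_of_nonneg_left u1 hq.le
  have v2 := mul_le_mul_of_nonneg_left u2 hq.le
  rw [Real.dist_eq, abs_lt] at k1 k2
  rw [Real.dist_eq, abs_lt]
  constructor <;> linarith [k1.1, k1.2, k2.1, k2.2]

end Pool.Agent.Q260.GM
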