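import Pool.Agent.Q260.GM.We

set_option autoImplicit false

/-!
# Local lower bounds
-/

namespace Pool.Agent.Q260.GM

open MeasureTheory Filter Topology Set
open Pool.Agent.Y749.Rig (Mp ZZ mm RR nT nT_pos Mp_integral ZZ_mono mm_nonneg mem_ZZ one_lt_log)

/-- the sum of the Cauchy kernels over the pairs -/
noncomputable def QQ (x T : ℝ) : ℝ :=
  ∑ s ∈ ZZ T, ∑ s' ∈ ZZ T, mm s * mm s' * (4 * x / (4 * x ^ 2 + (s.im - s'.im) ^ 2))

/-- the number of zeros -/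
noncomputable def Ns (T : ℝ) : ℝ := ∑ s ∈ ZZ T, mm s

lemma QQ_eq {x T : ℝ} (hx : 0 < x) (hT : 10 ≤ T) :
    ∫ y, ra (x * Real.log T) y ∂(Mp T) = QQ x T / (nT T * Real.log T) := by
  have hL : 1 < Real.log T := one_lt_log (by linarith)
  have hLp : 0 < Real.log T := by linarith
  have hn := nT_pos hT
  have hpi := Real.pi_pos
  rw [Mp_integral hT]
  have e : RR (ra (x * Real.log T)) (ZZ T) (ZZ T) (Real.log T) = QQ x T / Real.log T := by
    unfold RR QQ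
    rw [Finset.sum_div]
    refine Finset.sum_congr rfl fun s _ => ?_
    rw [Finset.sum_div]
    refine Finset.sum_congr rfl fun s' _ => ?_
    unfold ra
    have h1 : (4 : ℝ) * x ^ 2 + (s.im - s'.im) ^ 2 ≠ 0 := by positivity
    have e1 : 4 * (x * Real.log T) ^ 2 + 4 * Real.pi ^ 2 * ((s.im - s'.im) * Real.log T / (2 * Real.pi)) ^ 2 =
        Real.log T ^ 2 * (4 * x ^ 2 + (s.im - s'.im) ^ 2) := by
      field_simp
      ring
    rw [e1]
    field_simp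
  rw [e, div_div, mul_comm (Real.log T)]

lemma QQ_diff {x T1 T2 : ℝ} (hx : 0 < x) (h12 : T1 ≤ T2) : 1 / x * (Ns T2 - Ns T1) ≤ QQ x T2 - QQ x T1 := by
  classical
  set K : ℂ → ℂ → ℝ := fun s s' => mm s * mm s' * (4 * x / (4 * x ^ 2 + (s.im - s'.im) ^ 2)) with hK
  have hK0 : ∀ s s', 0 ≤ K s s' := fun s s' => by
    have := mm_nonneg s
    have := mm_nonneg s'
    rw [hK]; positivity
  have hsub : ZZ T1 ⊆ ZZ T2 := ZZ_mono h12
  have e1 : Ns T2 - Ns T1 = ∑ s ∈ ZZ T2 \ ZZ T1, mm s := by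
    unfold Ns
    rw [← Finset.sum_sdiff hsub]; ring
  have e2 : QQ x T2 = (∑ s ∈ ZZ T2 \ ZZ T1, ∑ s' ∈ ZZ T2, K s s') + ∑ s ∈ ZZ T1, ∑ s' ∈ ZZ T2, K s s' := by
    unfold QQ
    rw [Finset.sum_sdiff hsub]
  have e3 : QQ x T1 ≤ ∑ s ∈ ZZ T1, ∑ s' ∈ ZZ T2, K s s' := by
    unfold QQ
    exact Finset.sum_le_sum fun s _ => Finset.sum_le_sum_of_subset_of_nonneg hsub fun s' _ _ => hK0 s s'
  have e4 : ∑ s ∈ ZZ T2 \ ZZ T1, 1 / x * mm s ≤ ∑ s ∈ ZZ T2 \ ZZ T1, ∑ s' ∈ ZZ T2, K s s' := by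
    refine Finset.sum_le_sum fun s hs => ?_
    have hs2 : s ∈ ZZ T2 := (Finset.mem_sdiff.1 hs).1
    refine le_trans ?_ (Finset.single_le_sum (f := fun s' => K s s') (fun s' _ => hK0 s s') hs2)
    show 1 / x * mm s ≤ mm s * mm s * (4 * x / (4 * x ^ 2 + (s.im - s.im) ^ 2))
    have e5 : 4 * x / (4 * x ^ 2 + (s.im - s.im) ^ 2) = 1 / x := by
      rw [sub_self]; field_simp; ring
    rw [e5]
    have h5 : mm s ≤ mm s * mm s := by
      unfold mm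
      rcases Nat.eq_zero_or_pos (H370.mult riemannZeta s) with h5 | h5
      · rw [h5]; simp
      · have : (1 : ℝ) ≤ (H370.mult riemannZeta s : ℝ) := by exact_mod_cast h5
        nlinarith
    calc 1 / x * mm s ≤ 1 / x * (mm s * mm s) := mul_le_mul_of_nonneg_left h5 (by positivity)
      _ = _ := by ring
  rw [← Finset.mul_sum, ← e1] at e4
  linarith

lemma Ns_lim : Tendsto (fun T : ℝ => Ns T / (T * Real.log T)) atTop (𝓝 (1 / (2 * Real.pi))) := by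
  have hpi := Real.pi_pos
  rw [Metric.tendsto_nhds]
  intro ε hε
  obtain ⟨T0, hT0, h⟩ := Pool.Agent.W54.TCF.NT_asymp' ε hε
  filter_upwards [eventually_ge_atTop T0] with T hT
  have hT10 : 10 ≤ T := hT0.trans hT
  have hL : 1 < Real.log T := one_lt_log (by linarith)
  obtain ⟨h1, h2⟩ := h T hT
  have e : Ns T = (H370.NN riemannZeta 0 T : ℝ) := by
    rw [← Pool.Agent.Y744.sum_Zt]
    unfold Ns
    rw [Pool.Agent.Y749.Rig.ZZ_eq]
    rfl
  rw [← e] at h1 h2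
  have hX : 0 < T * Real.log T := by positivity
  rw [Real.dist_eq]
  have e2 : Ns T / (T * Real.log T) - 1 / (2 * Real.pi) = (Ns T - T / (2 * Real.pi) * Real.log T) / (T * Real.log T) := by
    field_simp
  rw [e2, abs_div, abs_of_pos hX, div_lt_iff₀ hX]
  have h3 : |Ns T - T / (2 * Real.pi) * Real.log T| ≤ ε * (T / (2 * Real.pi) * Real.log T) := by
    rw [abs_le]; constructor <;> linarith
  refine h3.trans_lt ?_
  have e3 : ε * (T / (2 * Real.pi) * Real.log T) = ε * (T * Real.log T) / (2 * Real.pi) := by ring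
  rw [e3, div_lt_iff₀ (by positivity)]
  have h4 : 0 < ε * (T * Real.log T) := by positivity
  nlinarith [Real.pi_gt_three]

lemma T_top {Y : ℝ} (hY : 0 < Y) : Tendsto (fun κ : ℝ => Y / κ) (𝓝[>] 0) atTop := by
  have := inv_top.const_mul_atTop hY
  refine this.congr fun κ => ?_
  ring

lemma r_lim {Y : ℝ} (hY : 0 < Y) : Tendsto (fun κ : ℝ => Real.log (Y / κ) / LL κ) (𝓝[>] 0) (𝓝 1) := by
  have h1 : Tendsto (fun κ : ℝ => 1 + Real.log Y / LL κ) (𝓝[>] 0) (𝓝 (1 + 0)) :=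
    tendsto_const_nhds.add (LL_top.const_div_atTop _)
  rw [add_zero] at h1
  refine h1.congr' ?_
  filter_upwards [ev_pos, ev_L 1] with κ hκ hL
  have hLp : LL κ ≠ 0 := by linarith
  have : Real.log (Y / κ) = LL κ + Real.log Y := by
    rw [Real.log_div hY.ne' hκ.ne']
    unfold LL
    rw [Real.log_div one_ne_zero hκ.ne', Real.log_one]
    ring
  rw [this]
  field_simp

/-- **the local lower bound** -/
theorem LOC (hRH : RiemannHypothesis) {a : ℝ} (ha : 0 < a) {Y1 Y2 : ℝ} (hY1 : 0 < Y1) (h12 : Y1 < Y2)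
    {δ : ℝ} (hδ : 0 < δ) : ∀ᶠ κ : ℝ in 𝓝[>] 0,
      (1 / a - 1) / 4 * (Y2 - Y1) - δ ≤ ∫ y in Y1..Y2, gd κ a y := by
  have hpi := Real.pi_pos
  have hY2 : 0 < Y2 := hY1.trans h12
  obtain ⟨ε, hε0, hε⟩ : ∃ ε : ℝ, 0 < ε ∧ ε * (Y1 + Y2) < δ := by
    refine ⟨δ / (2 * (Y1 + Y2)), by positivity, ?_⟩
    rw [div_mul_eq_mul_div, div_lt_iff₀ (by positivity)]
    nlinarith [mul_pos hδ (add_pos hY1 hY2)]
  -- the limit of the lower bound
  set r : ℝ → ℝ → ℝ := fun Y κ => Real.log (Y / κ) / LL κ with hr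
  set n : ℝ → ℝ → ℝ := fun Y κ => Ns (Y / κ) / (Y / κ * Real.log (Y / κ)) with hn
  have hnl : ∀ Y : ℝ, 0 < Y → Tendsto (n Y) (𝓝[>] 0) (𝓝 (1 / (2 * Real.pi))) := fun Y hY =>
    Ns_lim.comp (T_top hY)
  have hlim : Tendsto (fun κ => Real.pi / (2 * a) * (Y2 * (n Y2 κ * r Y2 κ) - Y1 * (n Y1 κ * r Y1 κ)) -
      (Y2 * r Y2 κ ^ 2 - Y1 * r Y1 κ ^ 2) / 4 - ε * (Y1 * r Y1 κ ^ 2 + Y2 * r Y2 κ ^ 2)) (𝓝[>] 0)
      (𝓝 (Real.pi / (2 * a) * (Y2 * (1 / (2 * Real.pi) * 1) - Y1 * (1 / (2 * Real.pi) * 1)) -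
      (Y2 * 1 ^ 2 - Y1 * 1 ^ 2) / 4 - ε * (Y1 * 1 ^ 2 + Y2 * 1 ^ 2))) := by
    refine Tendsto.sub (Tendsto.sub (Tendsto.const_mul _ (Tendsto.sub ?_ ?_)) (Tendsto.div_const (Tendsto.sub ?_ ?_) _))
      (Tendsto.const_mul _ (Tendsto.add ?_ ?_))
    · exact ((hnl Y2 hY2).mul (r_lim hY2)).const_mul _
    · exact ((hnl Y1 hY1).mul (r_lim hY1)).const_mul _
    · exact ((r_lim hY2).pow 2).const_mul _
    · exact ((r_lim hY1).pow 2).const_mul _
    · exact ((r_lim hY1).pow 2).const_mul _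
    · exact ((r_lim hY2).pow 2).const_mul _
  have hval : Real.pi / (2 * a) * (Y2 * (1 / (2 * Real.pi) * 1) - Y1 * (1 / (2 * Real.pi) * 1)) -
      (Y2 * 1 ^ 2 - Y1 * 1 ^ 2) / 4 - ε * (Y1 * 1 ^ 2 + Y2 * 1 ^ 2) =
      (1 / a - 1) / 4 * (Y2 - Y1) - ε * (Y1 + Y2) := by
    field_simp
    ring
  rw [hval] at hlim
  have hpm := pair_mean hRH (a1 := a / 2) (a2 := 2 * a) (by positivity) (by linarith) hε0
  have hrr : ∀ Y : ℝ, 0 < Y → ∀ᶠ κ : ℝ in 𝓝[>] 0, 1 / 2 ≤ r Y κ ∧ r Y κ ≤ 2 := fun Y hY =>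
    ((r_lim hY).eventually (le_mem_nhds (by norm_num))).and ((r_lim hY).eventually (ge_mem_nhds (by norm_num)))
  filter_upwards [hlim.eventually (le_mem_nhds (show (1 / a - 1) / 4 * (Y2 - Y1) - δ <
      (1 / a - 1) / 4 * (Y2 - Y1) - ε * (Y1 + Y2) by linarith)),
    (T_top hY1).eventually hpm, (T_top hY2).eventually hpm, hrr Y1 hY1, hrr Y2 hY2, ev_pos,
    ev_L (max 1 (4 * a)), (T_top hY1).eventually_ge_atTop 10, (T_top hY2).eventually_ge_atTop 10]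
    with κ k0 k1 k2 kr1 kr2 hκ hL hT1 hT2
  have hL1 : 1 ≤ LL κ := (le_max_left _ _).trans hL
  have hL4 : 4 * a ≤ LL κ := (le_max_right _ _).trans hL
  have hLp : 0 < LL κ := by linarith
  set x : ℝ := a / LL κ with hx
  have hx0 : 0 < x := by positivity
  have hx1 : x ≤ 1 / 4 := by rw [hx, div_le_iff₀ hLp]; linarith
  have hgc := gd_cont hRH (κ := κ) (a := a) hx0 hx1
  refine k0.trans ?_
  -- the two endpoints
  have main : ∀ Y : ℝ, 0 < Y → 10 ≤ Y / κ → 1 / 2 ≤ r Y κ → r Y κ ≤ 2 →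
      (∀ b ∈ Icc (a / 2) (2 * a), |(∫ t in (0 : ℝ)..(Y / κ), DD (b / Real.log (Y / κ)) t ^ 2) -
        Y / κ * Real.log (Y / κ) ^ 2 / 4 * ((∫ z, ra b z ∂(Mp (Y / κ))) - 1)| ≤
          ε * (Y / κ * Real.log (Y / κ) ^ 2)) →
      |(∫ y in (0 : ℝ)..Y, gd κ a y) - (κ / LL κ ^ 2 * (Real.pi / 2 * QQ x (Y / κ)) - Y * r Y κ ^ 2 / 4)| ≤
        ε * (Y * r Y κ ^ 2) := by
    intro Y hY hT hr1 hr2 hp
    set T : ℝ := Y / κ with hTd
    have hTp : 0 < T := by linarith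
    have hlT : 1 < Real.log T := one_lt_log (by linarith)
    have hlTp : 0 < Real.log T := by linarith
    have hb : a * r Y κ ∈ Icc (a / 2) (2 * a) := by
      constructor
      · nlinarith
      · nlinarith
    have e1 : a * r Y κ = x * Real.log T := by
      rw [hr, hx]; simp only; rw [← hTd]; ring
    have h1 := hp (a * r Y κ) hb
    rw [e1] at h1
    have e2 : x * Real.log T / Real.log T = x := by field_simp
    rw [e2, QQ_eq hx0 hT] at h1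
    rw [gd_int hκ, ← hTd]
    set I : ℝ := ∫ t in (0 : ℝ)..T, DD x t ^ 2 with hI
    have hYT : Y = T * κ := by rw [hTd]; field_simp
    have hrT : r Y κ = Real.log T / LL κ := by rw [hr]
    have e3 : κ / LL κ ^ 2 * I - (κ / LL κ ^ 2 * (Real.pi / 2 * QQ x T) - Y * r Y κ ^ 2 / 4) =
        κ / LL κ ^ 2 * (I - T * Real.log T ^ 2 / 4 * (QQ x T / (nT T * Real.log T) - 1)) := by
      rw [hrT, hYT]
      unfold nT
      field_simp
      ring
    rw [e3, abs_mul, abs_of_pos (by positivity : 0 < κ / LL κ ^ 2)]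
    calc κ / LL κ ^ 2 * |I - T * Real.log T ^ 2 / 4 * (QQ x T / (nT T * Real.log T) - 1)| ≤
          κ / LL κ ^ 2 * (ε * (T * Real.log T ^ 2)) := mul_le_mul_of_nonneg_left h1 (by positivity)
      _ = _ := by rw [hrT, hYT]; field_simp
  have m1 := main Y1 hY1 hT1 kr1.1 kr1.2 k1
  have m2 := main Y2 hY2 hT2 kr2.1 kr2.2 k2
  have e := intervalIntegral.integral_interval_sub_left (hgc.intervalIntegrable (μ := volume) 0 Y2)
    (hgc.intervalIntegrable 0 Y1)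
  rw [← e]
  have hTT : Y1 / κ ≤ Y2 / κ := div_le_div_of_nonneg_right h12.le hκ.le
  have hq := QQ_diff hx0 hTT
  have hN : ∀ Y : ℝ, 0 < Y → 10 ≤ Y / κ → κ / LL κ ^ 2 * (1 / x * Ns (Y / κ)) = 1 / a * (Y * (n Y κ * r Y κ)) := by
    intro Y hY hT
    have hlT : 1 < Real.log (Y / κ) := one_lt_log (by linarith)
    have hlTp : Real.log (Y / κ) ≠ 0 := by linarith
    rw [hn, hr, hx]
    simp only
    field_simp
  have hN1 := hN Y1 hY1 hT1
  have hN2 := hN Y2 hY2 hT2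
  have hq2 : κ / LL κ ^ 2 * (1 / x * (Ns (Y2 / κ) - Ns (Y1 / κ))) ≤ κ / LL κ ^ 2 * (QQ x (Y2 / κ) - QQ x (Y1 / κ)) :=
    mul_le_mul_of_nonneg_left hq (by positivity)
  have hq3 : 1 / a * (Y2 * (n Y2 κ * r Y2 κ)) - 1 / a * (Y1 * (n Y1 κ * r Y1 κ)) ≤
      κ / LL κ ^ 2 * QQ x (Y2 / κ) - κ / LL κ ^ 2 * QQ x (Y1 / κ) := by
    rw [← hN1, ← hN2]
    linarith
  have hq4 := mul_le_mul_of_nonneg_left hq3 (show 0 ≤ Real.pi / 2 by positivity)
  have e5 : Real.pi / (2 * a) * (Y2 * (n Y2 κ * r Y2 κ) - Y1 * (n Y1 κ * r Y1 κ)) =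
      Real.pi / 2 * (1 / a * (Y2 * (n Y2 κ * r Y2 κ)) - 1 / a * (Y1 * (n Y1 κ * r Y1 κ))) := by
    field_simp
  rw [e5]
  rw [abs_le] at m1 m2
  linarith [m1.2, m2.1]

end Pool.Agent.Q260.GM
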