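import Pool.Agent.Q260.GM.Xa

set_option autoImplicit false

/-!
# Lower bounds for the kernels and for the primes
-/

namespace Pool.Agent.Q260.GM

open MeasureTheory Filter Topology Set

/-- **lower bounds on windows give lower bounds for weighted integrals** -/
theorem riemann_low {ι : Type*} {l : Filter ι} {g : ι → ℝ → ℝ} {φ : ℝ → ℝ} {A c : ℝ} (hA : 0 < A)
    (hc : 0 ≤ c)
    (hg0 : ∀ i y, 0 ≤ g i y) (hgi : ∀ i a b, IntervalIntegrable (g i) volume a b)
    (hφ : Continuous φ) (hφ0 : ∀ y, 0 ≤ y → 0 ≤ φ y)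
    (h : ∀ p q : ℝ, 0 < p → p < q → ∀ ε : ℝ, 0 < ε → ∀ᶠ i in l, c * (q - p) - ε ≤ ∫ y in p..q, g i y)
    {ε : ℝ} (hε : 0 < ε) :
    ∀ᶠ i in l, c * (∫ y in (0 : ℝ)..A, φ y) - ε ≤ ∫ y in (0 : ℝ)..A, φ y * g i y := by
  obtain ⟨Φ, hΦ⟩ : ∃ Φ : ℝ, ∀ y ∈ Icc 0 A, φ y ≤ Φ := by
    obtain ⟨y, -, hy⟩ := isCompact_Icc.exists_isMaxOn (nonempty_Icc.2 hA.le) hφ.continuousOn
    exact ⟨φ y, fun z hz => hy hz⟩
  have hΦ0 : 0 ≤ Φ := (hφ0 0 le_rfl).trans (hΦ 0 ⟨le_rfl, hA.le⟩)
  obtain ⟨δ, hδ0, hδ1⟩ : ∃ δ : ℝ, 0 < δ ∧ 2 * δ * c * A ≤ ε / 4 := by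
    refine ⟨ε / 8 / (c * A + 1), by positivity, ?_⟩
    have : 2 * (ε / 8 / (c * A + 1)) * c * A = ε / 4 * (c * A / (c * A + 1)) := by field_simp; ring
    rw [this]
    have h2 : c * A / (c * A + 1) ≤ 1 := by rw [div_le_one (by positivity)]; linarith
    nlinarith
  have huc : UniformContinuousOn φ (Icc 0 A) := isCompact_Icc.uniformContinuousOn_of_continuous hφ.continuousOn
  rw [Metric.uniformContinuousOn_iff] at huc
  obtain ⟨η, hη0, hη⟩ := huc δ hδ0
  obtain ⟨N, hN⟩ := exists_nat_gt (max (A / η) (4 * (c * A * Φ) / ε))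
  have hN1 : A / η < N := (le_max_left _ _).trans_lt hN
  have hN2 : 4 * (c * A * Φ) / ε < N := (le_max_right _ _).trans_lt hN
  have hN0 : (0 : ℝ) < N := lt_of_le_of_lt (by positivity) hN1
  have hNn : 0 < N := by exact_mod_cast hN0
  set s : ℝ := A / N with hs
  have hs0 : 0 < s := by positivity
  have hsη : s < η := by
    rw [hs, div_lt_iff₀ hN0]
    rw [div_lt_iff₀ hη0] at hN1
    linarith
  have hsΦ : c * s * Φ ≤ ε / 4 := by
    rw [hs]
    have e : c * (A / N) * Φ = c * A * Φ / N := by ring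
    rw [e, div_le_iff₀ hN0]
    rw [div_lt_iff₀ hε] at hN2
    linarith
  set ε' : ℝ := ε / 4 / (N * (Φ + 1)) with hε'
  have hε'0 : 0 < ε' := by positivity
  have hall : ∀ᶠ i in l, ∀ k ∈ Finset.range N, k ≠ 0 → c * s - ε' ≤ ∫ y in (k * s)..((k + 1 : ℕ) * s), g i y := by
    rw [eventually_all_finset]
    intro k _
    rcases Nat.eq_zero_or_pos k with hk | hk
    · exact Eventually.of_forall fun i hk2 => absurd hk hk2
    · have hk' : (0 : ℝ) < k := by exact_mod_cast hk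
      filter_upwards [h (k * s) ((k + 1 : ℕ) * s) (by positivity) (by push_cast; nlinarith) _ hε'0] with i hi _
      refine le_trans (le_of_eq ?_) hi
      push_cast
      ring
  filter_upwards [hall] with i hi
  have hφg : ∀ a b : ℝ, IntervalIntegrable (fun y => φ y * g i y) volume a b := fun a b =>
    (hgi i a b).continuousOn_mul hφ.continuousOn
  have hφ' : ∀ a b : ℝ, IntervalIntegrable φ volume a b := fun a b => hφ.intervalIntegrable a b
  have e0 : ((0 : ℕ) : ℝ) * s = 0 := by simp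
  have eN : ((N : ℕ) : ℝ) * s = A := by rw [hs]; field_simp
  have t1 := intervalIntegral.sum_integral_adjacent_intervals (a := fun k : ℕ => (k : ℝ) * s) (n := N)
    (f := fun y => φ y * g i y) (μ := volume) fun k _ => hφg _ _
  have t2 := intervalIntegral.sum_integral_adjacent_intervals (a := fun k : ℕ => (k : ℝ) * s) (n := N)
    (f := φ) (μ := volume) fun k _ => hφ' _ _
  rw [e0, eN] at t1 t2
  rw [← t1, ← t2, Finset.mul_sum]
  have key : ∀ k ∈ Finset.range N, c * (∫ y in ((k : ℕ) : ℝ) * s..((k + 1 : ℕ) : ℝ) * s, φ y) -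
      2 * δ * c * s - Φ * ε' - (if k = 0 then ε / 4 else 0) ≤
      ∫ y in ((k : ℕ) : ℝ) * s..((k + 1 : ℕ) : ℝ) * s, φ y * g i y := by
    intro k hk
    have hkN : k < N := Finset.mem_range.1 hk
    set p : ℝ := (k : ℝ) * s with hp
    set q : ℝ := ((k + 1 : ℕ) : ℝ) * s with hq
    have hpq : p ≤ q := by rw [hp, hq]; push_cast; nlinarith
    have hqp : q - p = s := by rw [hp, hq]; push_cast; ring
    have hp0 : 0 ≤ p := by positivity
    have hqA : q ≤ A := by
      rw [← eN, hq]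
      have : ((k + 1 : ℕ) : ℝ) ≤ (N : ℝ) := by exact_mod_cast hkN
      exact mul_le_mul_of_nonneg_right this hs0.le
    have hpI : p ∈ Icc 0 A := ⟨hp0, hpq.trans hqA⟩
    have hφp2 : φ p ≤ Φ := hΦ p hpI
    have hφp : 0 ≤ φ p := hφ0 p hp0
    rcases Nat.eq_zero_or_pos k with hk0 | hk0
    · have f1 : c * (∫ y in p..q, φ y) ≤ ε / 4 := by
        have : ∫ y in p..q, φ y ≤ ∫ y in p..q, Φ :=
          intervalIntegral.integral_mono_on hpq (hφ' _ _) intervalIntegrable_const fun y hy =>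
            hΦ y ⟨hp0.trans hy.1, hy.2.trans hqA⟩
        rw [intervalIntegral.integral_const, smul_eq_mul, hqp] at this
        calc c * (∫ y in p..q, φ y) ≤ c * (s * Φ) := mul_le_mul_of_nonneg_left this hc
          _ = c * s * Φ := by ring
          _ ≤ _ := hsΦ
      have f2 : 0 ≤ ∫ y in p..q, φ y * g i y := intervalIntegral.integral_nonneg hpq fun y hy =>
        mul_nonneg (hφ0 y (hp0.trans hy.1)) (hg0 i y)
      rw [if_pos hk0]
      have f3 : 0 ≤ 2 * δ * c * s := by positivity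
      have f4 : 0 ≤ Φ * ε' := by positivity
      linarith
    · rw [if_neg (Nat.pos_iff_ne_zero.1 hk0)]
      have hcl : ∀ y ∈ Icc p q, |φ y - φ p| ≤ δ := by
        intro y hy
        have hyI : y ∈ Icc 0 A := ⟨hp0.trans hy.1, hy.2.trans hqA⟩
        have h3 := hη y hyI p hpI (by
          rw [Real.dist_eq, abs_of_nonneg (by linarith [hy.1])]
          linarith [hy.2])
        rw [Real.dist_eq] at h3
        exact h3.le
      set m : ℝ := max 0 (φ p - δ) with hm
      have hm0 : 0 ≤ m := le_max_left _ _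
      have hm1 : φ p - δ ≤ m := le_max_right _ _
      have hm2 : m ≤ Φ := max_le hΦ0 (by linarith)
      have f1 : m * ∫ y in p..q, g i y ≤ ∫ y in p..q, φ y * g i y := by
        rw [← intervalIntegral.integral_const_mul]
        refine intervalIntegral.integral_mono_on hpq ((hgi i _ _).const_mul _) (hφg _ _) fun y hy => ?_
        have h4 := (abs_le.1 (hcl y hy)).1
        have h5 := hφ0 y (hp0.trans hy.1)
        exact mul_le_mul_of_nonneg_right (max_le h5 (by linarith)) (hg0 i y)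
      have f2 : ∫ y in p..q, φ y ≤ (m + 2 * δ) * s := by
        have : ∫ y in p..q, φ y ≤ ∫ y in p..q, (m + 2 * δ) :=
          intervalIntegral.integral_mono_on hpq (hφ' _ _) intervalIntegrable_const fun y hy => by
            have h4 := (abs_le.1 (hcl y hy)).2
            linarith
        rw [intervalIntegral.integral_const, smul_eq_mul, hqp] at this
        linarith
      have f3 := hi k hk (Nat.pos_iff_ne_zero.1 hk0)
      have f4 : c * (∫ y in p..q, φ y) ≤ c * ((m + 2 * δ) * s) := mul_le_mul_of_nonneg_left f2 hc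
      have f5 : m * (c * s - ε') ≤ m * ∫ y in p..q, g i y := mul_le_mul_of_nonneg_left f3 hm0
      have f6 : m * ε' ≤ Φ * ε' := mul_le_mul_of_nonneg_right hm2 hε'0.le
      have e : c * ((m + 2 * δ) * s) = m * (c * s) + 2 * δ * c * s := by ring
      rw [e] at f4
      rw [mul_sub] at f5
      linarith
  refine le_trans ?_ (Finset.sum_le_sum key)
  rw [Finset.sum_sub_distrib, Finset.sum_sub_distrib, Finset.sum_sub_distrib, Finset.sum_const, Finset.sum_const,
    Finset.card_range, nsmul_eq_mul, nsmul_eq_mul]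
  have h5 : (N : ℝ) * (Φ * ε') ≤ ε / 4 := by
    rw [hε']
    have e : (N : ℝ) * (Φ * (ε / 4 / (N * (Φ + 1)))) = ε / 4 * (Φ / (Φ + 1)) := by
      field_simp
    rw [e]
    have h6 : Φ / (Φ + 1) ≤ 1 := by rw [div_le_one (by positivity)]; linarith
    nlinarith
  have h6 : (N : ℝ) * (2 * δ * c * s) ≤ ε / 4 := by
    have e : (N : ℝ) * (2 * δ * c * s) = 2 * δ * c * A := by rw [← eN]; ring
    rw [e]; exact hδ1
  have h7 : ∑ k ∈ Finset.range N, (if k = 0 then ε / 4 else 0) ≤ ε / 4 := by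
    rw [Finset.sum_ite_eq' (Finset.range N) 0 (fun _ => ε / 4)]
    split_ifs
    · exact le_rfl
    · positivity
  linarith

/-- **the pairing with a kernel is bounded below by the diagonal** -/
theorem KI_low (hRH : RiemannHypothesis) {a : ℝ} (ha : 0 < a) (ha1 : a ≤ 1) {f : ℝ → ℝ}
    (hf : Continuous f) (hf0 : ∀ y, 0 ≤ f y) {B : ℝ}
    (hfB : ∀ y, f y ≤ B * (1 / (1 + y ^ 2))) (hfi : IntegrableOn f (Ioi 0)) {ε : ℝ} (hε : 0 < ε) :
    ∀ᶠ κ : ℝ in 𝓝[>] 0, (1 / a - 1) / 4 * (∫ y in Ioi (0 : ℝ), f y) - ε ≤ KI f κ a := by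
  classical
  set c : ℝ := (1 / a - 1) / 4 with hc
  have hc0 : 0 ≤ c := by
    have : 1 ≤ 1 / a := by rw [le_div_iff₀ ha]; linarith
    rw [hc]; linarith
  obtain ⟨C, hC, hgen⟩ := ev_gen hRH ha le_rfl
  set g : ℝ → ℝ → ℝ := fun κ y => if Continuous (gd κ a) then gd κ a y else 0 with hg
  have hg0 : ∀ κ y, 0 ≤ g κ y := by
    intro κ y
    rw [hg]
    simp only
    split_ifs
    · exact gd_nonneg κ a y
    · exact le_rfl
  have hgi : ∀ κ a' b', IntervalIntegrable (g κ) volume a' b' := by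
    intro κ a' b'
    rw [hg]
    simp only
    split_ifs with h
    · exact h.intervalIntegrable _ _
    · exact intervalIntegrable_const
  have hge : ∀ᶠ κ : ℝ in 𝓝[>] 0, g κ = gd κ a := by
    filter_upwards [hgen] with κ hk
    have := (hk.2.2.2 a ⟨le_rfl, le_rfl⟩).1
    funext y
    rw [hg]
    simp only
    rw [if_pos this]
  have hR1 : Tendsto (fun R : ℝ => c * ∫ y in (0 : ℝ)..R, f y) atTop (𝓝 (c * ∫ y in Ioi (0 : ℝ), f y)) :=
    (intervalIntegral_tendsto_integral_Ioi 0 hfi tendsto_id).const_mul c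
  obtain ⟨R, hRa, hR0⟩ := ((hR1.eventually (le_mem_nhds (show c * (∫ y in Ioi (0 : ℝ), f y) - ε / 2 <
    c * ∫ y in Ioi (0 : ℝ), f y by linarith))).and (eventually_gt_atTop 0)).exists
  have hlo := riemann_low (l := 𝓝[>] (0 : ℝ)) (g := g) (φ := f) (c := c) hR0 hc0 hg0 hgi hf (fun y _ => hf0 y)
    (fun p q hp hpq ε hε => by
      filter_upwards [LOC hRH ha hp hpq hε, hge] with κ k1 k2
      rw [k2]
      exact k1) (half_pos hε)
  filter_upwards [hlo, hge, hgen] with κ k1 k2 k3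
  obtain ⟨hκ, hκ1, hL1, hgk⟩ := k3
  obtain ⟨hgc, hgin, -, -⟩ := hgk a ⟨le_rfl, le_rfl⟩
  rw [k2] at k1
  have i1 : Integrable (fun y => f y * gd κ a y) :=
    gd_integrable hf hgc (fun y => by rw [abs_of_nonneg (hf0 y)]; exact hfB y) hgin
  have hKI : ∫ y in (0 : ℝ)..R, f y * gd κ a y ≤ KI f κ a := by
    unfold KI
    rw [intervalIntegral.integral_of_le hR0.le]
    exact setIntegral_mono_set i1.integrableOn
      (ae_of_all _ fun y => mul_nonneg (hf0 y) (gd_nonneg κ a y)) Ioc_subset_Ioi_self.eventuallyLE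
  linarith

/-- **lower bound for the primes** -/
theorem SS_low (hRH : RiemannHypothesis) (hL2 : L2psi) {a : ℝ} (ha : 0 < a) (ha1 : a ≤ 1)
    {ε : ℝ} (hε : 0 < ε) : ∀ᶠ κ : ℝ in 𝓝[>] 0,
      ((1 / a - 1) / 2 - ε) * (κ * LL κ ^ 2) ≤ SS κ (a / LL κ) := by
  have hpi := Real.pi_pos
  have hK := KI_low hRH ha ha1 (kk_cont 1) (kk_nonneg 1) (B := 5)
    (fun y => (kk_le 1 y).trans (le_of_eq (by norm_num))) kk_one_int.1 (ε := ε / 2) (by positivity)
  rw [kk_one_int.2] at hK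
  filter_upwards [hK, T1b hRH hL2 ha le_rfl one_pos (ε := ε / 2) (by positivity), ev_pos, ev_L 1]
    with κ k1 k2 hκ hL
  have hLp : 0 < LL κ := by linarith
  have hQ : 0 < κ * LL κ ^ 2 := by positivity
  have k3 := (abs_le.1 (k2 a ⟨le_rfl, le_rfl⟩)).1
  rw [one_mul] at k3
  have k4 : (1 / a - 1) / 2 - ε / 2 ≤ 2 / Real.pi * KI (kk 1) κ a := by
    have h1 := mul_le_mul_of_nonneg_left k1 (show 0 ≤ 2 / Real.pi by positivity)
    refine le_trans ?_ h1
    have e : 2 / Real.pi * ((1 / a - 1) / 4 * Real.pi - ε / 2) = (1 / a - 1) / 2 - ε / Real.pi := by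
      field_simp
      ring
    rw [e]
    have : ε / Real.pi ≤ ε / 2 := div_le_div_of_nonneg_left hε.le (by norm_num) (by linarith [Real.pi_gt_three])
    linarith
  have k5 : ((1 / a - 1) / 2 - ε / 2) * (κ * LL κ ^ 2) ≤
      2 / Real.pi * (κ * LL κ ^ 2 * ∫ y in Ioi (0 : ℝ), kk 1 y * gd κ a y) := by
    have e : 2 / Real.pi * (κ * LL κ ^ 2 * ∫ y in Ioi (0 : ℝ), kk 1 y * gd κ a y) =
      2 / Real.pi * KI (kk 1) κ a * (κ * LL κ ^ 2) := by unfold KI; ring
    rw [e]
    exact mul_le_mul_of_nonneg_right k4 hQ.le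
  have e : ((1 / a - 1) / 2 - ε) * (κ * LL κ ^ 2) = ((1 / a - 1) / 2 - ε / 2) * (κ * LL κ ^ 2) -
    ε / 2 * (κ * LL κ ^ 2) := by ring
  rw [e]
  linarith

end Pool.Agent.Q260.GM
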