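import Pool.Agent.Q260.GM.Xc

set_option autoImplicit false

/-!
# From the averaged bound for the primes to the pair sums
-/

namespace Pool.Agent.Q260.GM

open MeasureTheory Filter Topology Set
open Pool.Agent.Y749.Rig (Mp Mp_bdd Mp_fin)

lemma sin_one_sq : 2 * Real.pi / 9 ≤ Real.sin 1 ^ 2 := by
  have h1 := Real.sin_bound (x := 1 / 2) (by rw [abs_of_pos] <;> norm_num)
  rw [abs_of_pos (by norm_num : (0 : ℝ) < 1 / 2), abs_le] at h1
  have h2 : (0.4759 : ℝ) ≤ Real.sin (1 / 2) := by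
    have := h1.1
    norm_num at this ⊢
    linarith
  have h3 : Real.cos 1 = 1 - 2 * Real.sin (1 / 2) ^ 2 := by
    have := Real.cos_two_mul (1 / 2)
    have h4 := Real.sin_sq_add_cos_sq (1 / 2)
    have e : (2 : ℝ) * (1 / 2) = 1 := by norm_num
    rw [e] at this
    rw [this]
    linarith
  have h5 : Real.cos 1 ≤ 0.5471 := by
    rw [h3]
    nlinarith
  have h6 : 0 < Real.cos 1 := Real.cos_one_pos
  have h7 := Real.sin_sq_add_cos_sq 1
  have h8 : Real.cos 1 ^ 2 ≤ 0.2994 := by nlinarith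
  have h9 := Real.pi_lt_d4
  have : 2 * Real.pi / 9 ≤ 0.6982 := by linarith
  linarith

lemma kk_two : kk 1 2 = Real.sin 1 ^ 2 := by
  unfold kk
  have e : (1 : ℝ) * 2 / 2 = 1 := by norm_num
  rw [e, Real.sinc_of_ne_zero one_ne_zero]
  ring

lemma kk_ge_two {y : ℝ} (h0 : 0 ≤ y) (h2 : y ≤ 2) : kk 1 2 ≤ kk 1 y := by
  rw [kk_two]
  rcases h0.eq_or_lt with h | h
  · rw [← h]
    unfold kk
    simp only [mul_zero, zero_div, Real.sinc_zero, one_pow, mul_one]
    have := Real.sin_sq_add_cos_sq 1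
    nlinarith [sq_nonneg (Real.cos 1)]
  · unfold kk
    have hy : y / 2 ≠ 0 := by positivity
    rw [one_pow, one_mul, one_mul, Real.sinc_of_ne_zero hy]
    have hc := strictConcaveOn_sin_Icc.concaveOn.2
      (show (1 : ℝ) ∈ Icc 0 Real.pi from ⟨by norm_num, by linarith [Real.pi_gt_three]⟩)
      (show (0 : ℝ) ∈ Icc 0 Real.pi from ⟨le_rfl, Real.pi_pos.le⟩)
      (show 0 ≤ y / 2 by positivity) (show 0 ≤ 1 - y / 2 by linarith) (by ring)
    simp only [smul_eq_mul, mul_one, mul_zero, add_zero, Real.sin_zero] at hc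
    have hs : 0 < Real.sin 1 := Real.sin_pos_of_pos_of_lt_pi one_pos (by linarith [Real.pi_gt_three])
    apply pow_le_pow_left₀ hs.le
    rw [le_div_iff₀ (by positivity)]
    linarith

/-- **the kernel integral sees the excess of the pairs** -/
theorem KI_excess (hRH : RiemannHypothesis) {a : ℝ} (ha : 0 < a) (ha1 : a ≤ 1) {ε : ℝ} (hε : 0 < ε) :
    ∀ᶠ κ : ℝ in 𝓝[>] 0, (1 / a - 1) / 4 * Real.pi +
      Real.sin 1 ^ 2 * ((∫ y in (0 : ℝ)..2, gd κ a y) - 2 * ((1 / a - 1) / 4)) - ε ≤ KI (kk 1) κ a := by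
  classical
  set c : ℝ := (1 / a - 1) / 4 with hc
  have hc0 : 0 ≤ c := by
    have : 1 ≤ 1 / a := by rw [le_div_iff₀ ha]; linarith
    rw [hc]; linarith
  obtain ⟨C, hC, hgen⟩ := ev_gen hRH ha le_rfl
  set g : ℝ → ℝ → ℝ := fun κ y => if Continuous (gd κ a) then gd κ a y else 0 with hg
  have hg0 : ∀ κ y, 0 ≤ g κ y := by
    intro κ y
    rw [hg]
    simp only
    split_ifs
    · exact gd_nonneg κ a y
    · exact le_rfl
  have hgi : ∀ κ a' b', IntervalIntegrable (g κ) volume a' b' := by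
    intro κ a' b'
    rw [hg]
    simp only
    split_ifs with h
    · exact h.intervalIntegrable _ _
    · exact intervalIntegrable_const
  have hge : ∀ᶠ κ : ℝ in 𝓝[>] 0, g κ = gd κ a := by
    filter_upwards [hgen] with κ hk
    have := (hk.2.2.2 a ⟨le_rfl, le_rfl⟩).1
    funext y
    rw [hg]
    simp only
    rw [if_pos this]
  have hkc := kk_cont 1
  have hki := kk_one_int.1
  have hR1 : Tendsto (fun R : ℝ => c * ∫ y in (0 : ℝ)..R, kk 1 y) atTop (𝓝 (c * Real.pi)) := by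
    have := (intervalIntegral_tendsto_integral_Ioi 0 hki tendsto_id).const_mul c
    rwa [kk_one_int.2] at this
  obtain ⟨R, hRa, hR2⟩ := ((hR1.eventually (le_mem_nhds (show c * Real.pi - ε / 4 < c * Real.pi by linarith))).and
    (eventually_gt_atTop 2)).exists
  have hlo1 := riemann_low (l := 𝓝[>] (0 : ℝ)) (g := g) (φ := fun y => max (kk 1 y - kk 1 2) 0) (c := c)
    (A := 2) two_pos hc0 hg0 hgi ((hkc.sub continuous_const).max continuous_const) (fun y _ => le_max_right _ _)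
    (fun p q hp hpq ε hε => by
      filter_upwards [LOC hRH ha hp hpq hε, hge] with κ k1 k2
      rw [k2]
      exact k1) (show 0 < ε / 4 by positivity)
  have hlo2 := riemann_low (l := 𝓝[>] (0 : ℝ)) (g := fun κ y => g κ (y + 2)) (φ := fun y => kk 1 (y + 2)) (c := c)
    (A := R - 2) (by linarith) hc0 (fun κ y => hg0 κ (y + 2))
    (fun κ a' b' => by
      have := (hgi κ (a' + 2) (b' + 2)).comp_add_right 2
      simpa using this)
    (hkc.comp (continuous_id.add continuous_const)) (fun y _ => kk_nonneg 1 _)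
    (fun p q hp hpq ε hε => by
      filter_upwards [LOC hRH ha (Y1 := p + 2) (Y2 := q + 2) (by linarith) (by linarith) hε, hge] with κ k1 k2
      rw [k2, intervalIntegral.integral_comp_add_right (fun y => gd κ a y) 2]
      refine le_trans (le_of_eq ?_) k1
      ring) (show 0 < ε / 4 by positivity)
  filter_upwards [hlo1, hlo2, hge, hgen] with κ k1 k2 k3 k4
  obtain ⟨hκ, hκ1, hL1, hgk⟩ := k4
  obtain ⟨hgc, hgin, -, -⟩ := hgk a ⟨le_rfl, le_rfl⟩
  simp only [k3] at k1 k2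
  have i1 : Integrable (fun y => kk 1 y * gd κ a y) :=
    gd_integrable hkc hgc (fun y => by rw [abs_of_nonneg (kk_nonneg 1 y)]; exact kk_le 1 y) hgin
  have hKI : ∫ y in (0 : ℝ)..R, kk 1 y * gd κ a y ≤ KI (kk 1) κ a := by
    unfold KI
    rw [intervalIntegral.integral_of_le (by linarith)]
    exact setIntegral_mono_set i1.integrableOn
      (ae_of_all _ fun y => mul_nonneg (kk_nonneg 1 y) (gd_nonneg κ a y)) Ioc_subset_Ioi_self.eventuallyLE
  have hii : ∀ p q : ℝ, IntervalIntegrable (fun y => kk 1 y * gd κ a y) volume p q := fun p q =>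
    (hkc.mul hgc).intervalIntegrable _ _
  have hkii : ∀ p q : ℝ, IntervalIntegrable (kk 1) volume p q := fun p q => hkc.intervalIntegrable _ _
  have hgii : ∀ p q : ℝ, IntervalIntegrable (gd κ a) volume p q := fun p q => hgc.intervalIntegrable _ _
  rw [← intervalIntegral.integral_add_adjacent_intervals (hii 0 2) (hii 2 R)] at hKI
  rw [← intervalIntegral.integral_add_adjacent_intervals (hkii 0 2) (hkii 2 R)] at hRa
  -- first part
  have e1 : ∫ y in (0 : ℝ)..2, max (kk 1 y - kk 1 2) 0 = (∫ y in (0 : ℝ)..2, kk 1 y) - 2 * kk 1 2 := by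
    have : ∫ y in (0 : ℝ)..2, max (kk 1 y - kk 1 2) 0 = ∫ y in (0 : ℝ)..2, (kk 1 y - kk 1 2) := by
      refine intervalIntegral.integral_congr fun y hy => ?_
      rw [uIcc_of_le (by norm_num)] at hy
      exact max_eq_left (sub_nonneg.2 (kk_ge_two hy.1 hy.2))
    rw [this, intervalIntegral.integral_sub (hkii _ _) intervalIntegrable_const, intervalIntegral.integral_const]
    simp
  have e2 : ∫ y in (0 : ℝ)..2, max (kk 1 y - kk 1 2) 0 * gd κ a y =
      (∫ y in (0 : ℝ)..2, kk 1 y * gd κ a y) - kk 1 2 * ∫ y in (0 : ℝ)..2, gd κ a y := by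
    have : ∫ y in (0 : ℝ)..2, max (kk 1 y - kk 1 2) 0 * gd κ a y =
        ∫ y in (0 : ℝ)..2, (kk 1 y * gd κ a y - kk 1 2 * gd κ a y) := by
      refine intervalIntegral.integral_congr fun y hy => ?_
      rw [uIcc_of_le (by norm_num)] at hy
      show max (kk 1 y - kk 1 2) 0 * gd κ a y = _
      rw [max_eq_left (sub_nonneg.2 (kk_ge_two hy.1 hy.2))]
      ring
    rw [this, intervalIntegral.integral_sub (hii _ _) ((hgii _ _).const_mul _),
      intervalIntegral.integral_const_mul]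
  rw [e1, e2] at k1
  -- second part
  have e3 : ∫ y in (0 : ℝ)..(R - 2), kk 1 (y + 2) = ∫ y in (2 : ℝ)..R, kk 1 y := by
    rw [intervalIntegral.integral_comp_add_right (fun y => kk 1 y) 2]
    congr 1 <;> ring
  have e4 : ∫ y in (0 : ℝ)..(R - 2), kk 1 (y + 2) * gd κ a (y + 2) = ∫ y in (2 : ℝ)..R, kk 1 y * gd κ a y := by
    rw [intervalIntegral.integral_comp_add_right (fun y => kk 1 y * gd κ a y) 2]
    congr 1 <;> ring
  rw [e3, e4] at k2
  rw [kk_two] at k1
  have e5 : c * ((∫ y in (0 : ℝ)..2, kk 1 y) + ∫ y in (2 : ℝ)..R, kk 1 y) =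
    c * (∫ y in (0 : ℝ)..2, kk 1 y) + c * ∫ y in (2 : ℝ)..R, kk 1 y := by ring
  rw [e5] at hRa
  have e6 : c * ((∫ y in (0 : ℝ)..2, kk 1 y) - 2 * Real.sin 1 ^ 2) =
    c * (∫ y in (0 : ℝ)..2, kk 1 y) - 2 * c * Real.sin 1 ^ 2 := by ring
  rw [e6] at k1
  have e7 : Real.sin 1 ^ 2 * ((∫ y in (0 : ℝ)..2, gd κ a y) - 2 * c) =
    Real.sin 1 ^ 2 * (∫ y in (0 : ℝ)..2, gd κ a y) - 2 * c * Real.sin 1 ^ 2 := by ring
  rw [e7]
  linarith

/-- the integrated density from the averaged bound -/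
lemma G_av (hRH : RiemannHypothesis) (hL2 : L2psi) {η : ℝ} (hη : 0 ≤ η) (h : AUk η)
    {ε : ℝ} (hε : 0 < ε) : ∃ a0 : ℝ, 0 < a0 ∧ ∀ a : ℝ, 0 < a → a ≤ a0 → ∀ᶠ κ : ℝ in 𝓝[>] 0,
      1 + 2 * ∫ y in (0 : ℝ)..2, gd κ a y ≤ (1 + 9 / 4 * (η + ε)) / a := by
  obtain ⟨a0, ha0, h1⟩ := SS_av hRH hL2 hη h (ε := ε / 4) (by positivity)
  have hpi := Real.pi_pos
  refine ⟨min a0 (min 1 (ε / 8)), by positivity, fun a ha haa => ?_⟩
  have haa0 : a ≤ a0 := haa.trans (min_le_left _ _)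
  have ha1 : a ≤ 1 := haa.trans ((min_le_right _ _).trans (min_le_left _ _))
  have haε : a ≤ ε / 8 := haa.trans ((min_le_right _ _).trans (min_le_right _ _))
  filter_upwards [h1 a ha haa0, KI_excess hRH ha ha1 (ε := 1 / 4) (by norm_num),
    T1b hRH hL2 ha le_rfl one_pos (ε := 1 / 4) (by norm_num), ev_pos, ev_L 1] with κ k1 k2 k3 hκ hL
  have hLp : 0 < LL κ := by linarith
  have hQ : 0 < κ * LL κ ^ 2 := by positivity
  have k4 := (abs_le.1 (k3 a ⟨le_rfl, le_rfl⟩)).1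
  rw [one_mul] at k4
  set G : ℝ := ∫ y in (0 : ℝ)..2, gd κ a y with hG
  set S2 : ℝ := Real.sin 1 ^ 2 with hS2
  have hS : 2 * Real.pi / 9 ≤ S2 := sin_one_sq
  have hS0 : 0 < S2 := lt_of_lt_of_le (by positivity) hS
  -- upper bound for the kernel integral
  have k5 : 2 / Real.pi * KI (kk 1) κ a ≤ (1 + η + ε / 4) / (2 * a) + 1 / 4 := by
    have e : 2 / Real.pi * (κ * LL κ ^ 2 * ∫ y in Ioi (0 : ℝ), kk 1 y * gd κ a y) =
      2 / Real.pi * KI (kk 1) κ a * (κ * LL κ ^ 2) := by unfold KI; ring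
    rw [e] at k4
    have : 2 / Real.pi * KI (kk 1) κ a * (κ * LL κ ^ 2) ≤ ((1 + η + ε / 4) / (2 * a) + 1 / 4) * (κ * LL κ ^ 2) := by
      linarith
    exact le_of_mul_le_mul_right this hQ
  have k6 : KI (kk 1) κ a ≤ Real.pi / 2 * ((1 + η + ε / 4) / (2 * a) + 1 / 4) := by
    have := mul_le_mul_of_nonneg_left k5 (show 0 ≤ Real.pi / 2 by positivity)
    have e : Real.pi / 2 * (2 / Real.pi * KI (kk 1) κ a) = KI (kk 1) κ a := by field_simp
    rwa [e] at this
  have k7 : S2 * (G - 2 * ((1 / a - 1) / 4)) ≤ Real.pi / 4 * ((η + ε / 4) / a) + Real.pi / 4 + Real.pi / 8 + 1 / 4 := by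
    have e : Real.pi / 2 * ((1 + η + ε / 4) / (2 * a) + 1 / 4) - (1 / a - 1) / 4 * Real.pi =
      Real.pi / 4 * ((η + ε / 4) / a) + Real.pi / 4 + Real.pi / 8 := by field_simp; ring
    linarith
  -- excess
  have hx : G - 2 * ((1 / a - 1) / 4) ≤ 9 / 8 * ((η + ε / 4) / a) + 9 / 4 := by
    by_contra hcon
    push Not at hcon
    have h2 : 0 < (η + ε / 4) / a := by positivity
    have h3 : 2 * Real.pi / 9 * (9 / 8 * ((η + ε / 4) / a) + 9 / 4) ≤ S2 * (9 / 8 * ((η + ε / 4) / a) + 9 / 4) :=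
      mul_le_mul_of_nonneg_right hS (by positivity)
    have h4 : S2 * (9 / 8 * ((η + ε / 4) / a) + 9 / 4) < S2 * (G - 2 * ((1 / a - 1) / 4)) :=
      mul_lt_mul_of_pos_left hcon hS0
    have h5 : 2 * Real.pi / 9 * (9 / 8 * ((η + ε / 4) / a) + 9 / 4) =
      Real.pi / 4 * ((η + ε / 4) / a) + Real.pi / 2 := by ring
    rw [h5] at h3
    linarith [Real.pi_gt_three]
  rw [le_div_iff₀ ha]
  have e : (1 + 2 * G) * a = (1 + 2 * (G - 2 * ((1 / a - 1) / 4))) * a + 1 - a := by field_simp; ring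
  rw [e]
  have h6 : (G - 2 * ((1 / a - 1) / 4)) * a ≤ (9 / 8 * ((η + ε / 4) / a) + 9 / 4) * a :=
    mul_le_mul_of_nonneg_right hx ha.le
  have h7 : (9 / 8 * ((η + ε / 4) / a) + 9 / 4) * a = 9 / 8 * (η + ε / 4) + 9 / 4 * a := by field_simp
  rw [h7] at h6
  nlinarith

/-- **the pair sums from the averaged bound** -/
theorem R_av (hRH : RiemannHypothesis) (hL2 : L2psi) {η : ℝ} (hη : 0 ≤ η) (h : AUk η)
    {ε : ℝ} (hε : 0 < ε) : ∃ a0 : ℝ, 0 < a0 ∧ ∀ a : ℝ, 0 < a → a ≤ a0 → ∀ᶠ T : ℝ in atTop,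
      a * ∫ x, ra a x ∂(Mp T) ≤ 1 + 9 / 4 * η + ε := by
  obtain ⟨a0, ha0, h1⟩ := G_av hRH hL2 hη h (ε := ε / 9) (by positivity)
  refine ⟨min a0 1, by positivity, fun a ha haa => ?_⟩
  have haa0 : a ≤ a0 := haa.trans (min_le_left _ _)
  have ha1 : a ≤ 1 := haa.trans (min_le_right _ _)
  have h2 := h1 a ha haa0
  obtain ⟨C, hC, hlip⟩ := R_lip (a1 := a / 2) (a2 := 2 * a) (by positivity) (by linarith)
  set U : ℝ := (1 + 9 / 4 * (η + ε / 9)) / a with hU
  have hU0 : 0 < U := by positivity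
  have hinv : Tendsto (fun T : ℝ => 2 / T) atTop (𝓝[>] 0) := by
    have : Tendsto (fun T : ℝ => (T / 2)⁻¹) atTop (𝓝[>] 0) :=
      tendsto_inv_atTop_nhdsGT_zero.comp (tendsto_id.atTop_div_const two_pos)
    refine this.congr fun T => ?_
    rw [inv_div]
  have hr : Tendsto (fun T : ℝ => Real.log T / LL (2 / T)) atTop (𝓝 1) := by
    have := (r_lim two_pos).comp hinv
    refine this.congr' ?_
    filter_upwards [eventually_gt_atTop (0 : ℝ)] with T hT
    show Real.log (2 / (2 / T)) / LL (2 / T) = _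
    have e : 2 / (2 / T) = T := by field_simp
    rw [e]
  -- the error terms
  have hlim : Tendsto (fun T : ℝ => (U - 1) / (Real.log T / LL (2 / T)) ^ 2 + 1 + 4 * (ε / 16) +
      C * |a * (Real.log T / LL (2 / T)) - a|) atTop (𝓝 ((U - 1) / 1 ^ 2 + 1 + 4 * (ε / 16) + C * |a * 1 - a|)) := by
    refine Tendsto.add (Tendsto.add_const _ (Tendsto.add_const _ (Tendsto.div tendsto_const_nhds (hr.pow 2) (by norm_num))))
      (Tendsto.const_mul _ (((hr.const_mul a).sub_const a).abs))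
  have hval : (U - 1) / 1 ^ 2 + 1 + 4 * (ε / 16) + C * |a * 1 - a| = U + ε / 4 := by
    rw [mul_one, sub_self, abs_zero]; ring
  rw [hval] at hlim
  filter_upwards [hinv.eventually h2, hlip, pair_mean hRH (a1 := a / 2) (a2 := 2 * a) (by positivity) (by linarith)
    (ε := ε / 16) (by positivity), hr.eventually (le_mem_nhds (show (1 / 2 : ℝ) < 1 by norm_num)),
    hr.eventually (ge_mem_nhds (show (1 : ℝ) < 2 by norm_num)), eventually_ge_atTop 10,
    hlim.eventually (ge_mem_nhds (show U + ε / 4 < U + ε / 2 by linarith)),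
    hinv.eventually (ev_L 1)] with T k1 k2 k3 k4 k5 hT k6 hL
  have hTp : 0 < T := by linarith
  have hlT : 1 < Real.log T := Pool.Agent.Y749.Rig.one_lt_log (by linarith)
  have hlTp : 0 < Real.log T := by linarith
  have hLp : 0 < LL (2 / T) := by linarith
  set r : ℝ := Real.log T / LL (2 / T) with hrd
  have hr0 : 0 < r := by linarith
  have hb : a * r ∈ Icc (a / 2) (2 * a) := by
    constructor
    · nlinarith
    · nlinarith
  have haI : a ∈ Icc (a / 2) (2 * a) := ⟨by linarith, by linarith⟩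
  have l1 := k3 (a * r) hb
  have e1 : a * r / Real.log T = a / LL (2 / T) := by rw [hrd]; field_simp
  rw [e1] at l1
  have l2 := k2 (a * r) hb a haI
  rw [gd_int (by positivity)] at k1
  have e2 : 2 / (2 / T) = T := by field_simp
  rw [e2] at k1
  set X : ℝ := ∫ t in (0 : ℝ)..T, DD (a / LL (2 / T)) t ^ 2 with hX
  set R' : ℝ := ∫ x, ra (a * r) x ∂(Mp T)
  set R : ℝ := ∫ x, ra a x ∂(Mp T)
  have hP : 0 < T * Real.log T ^ 2 := by positivity
  -- X ≤ ...
  have l3 : 4 * X ≤ (U - 1) / r ^ 2 * (T * Real.log T ^ 2) := by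
    have e3 : 2 * (2 / T / LL (2 / T) ^ 2 * X) = 4 * X / (T * Real.log T ^ 2) * r ^ 2 := by
      rw [hrd]; field_simp; ring
    have h4 : 4 * X / (T * Real.log T ^ 2) * r ^ 2 ≤ U - 1 := by rw [← e3]; linarith
    rw [← le_div_iff₀ (by positivity)] at h4
    rwa [div_le_iff₀ hP] at h4
  have l4 := (abs_le.1 l1).1
  have l5 : (R' - 1) * (T * Real.log T ^ 2) ≤ ((U - 1) / r ^ 2 + 4 * (ε / 16)) * (T * Real.log T ^ 2) := by
    nlinarith
  have l6 : R' - 1 ≤ (U - 1) / r ^ 2 + 4 * (ε / 16) := le_of_mul_le_mul_right l5 hP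
  have l7 : R ≤ U + ε / 2 := by
    have := (abs_le.1 l2).1
    linarith
  calc a * R ≤ a * (U + ε / 2) := mul_le_mul_of_nonneg_left l7 ha.le
    _ = (1 + 9 / 4 * (η + ε / 9)) + a * (ε / 2) := by rw [hU]; field_simp
    _ ≤ _ := by nlinarith

end Pool.Agent.Q260.GM
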