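import Pool.Agent.Q260.GM.Xd

set_option autoImplicit false

/-!
# Close pairs and pair sums
-/

namespace Pool.Agent.Q260.GM

open MeasureTheory Filter Topology Set
open Pool.Agent.Y749.Rig (Mp Mp_bdd Mp_fin)

lemma ra_near {a β x : ℝ} (ha : 0 < a) (hx : |x| ≤ β) :
    1 / (a * (1 + Real.pi ^ 2 * β ^ 2 / a ^ 2)) ≤ ra a x := by
  have hpi := Real.pi_pos
  have hx2 : x ^ 2 ≤ β ^ 2 := by
    rw [← sq_abs x]
    exact pow_le_pow_left₀ (abs_nonneg x) hx 2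
  unfold ra
  rw [div_le_div_iff₀ (by positivity) (by positivity)]
  have e : 4 * a * (a * (1 + Real.pi ^ 2 * β ^ 2 / a ^ 2)) = 4 * a ^ 2 + 4 * Real.pi ^ 2 * β ^ 2 := by
    field_simp
  rw [e, one_mul]
  have := mul_le_mul_of_nonneg_left hx2 (show 0 ≤ 4 * Real.pi ^ 2 by positivity)
  linarith

/-- **few close pairs from the pair sums** -/
theorem pairs_of_R {K : ℝ} (hK : 0 ≤ K) (h : ∀ ε : ℝ, 0 < ε → ∃ a0 : ℝ, 0 < a0 ∧ ∀ a : ℝ, 0 < a → a ≤ a0 →
    ∀ᶠ T : ℝ in atTop, a * ∫ x, ra a x ∂(Mp T) ≤ K + ε) {ε : ℝ} (hε : 0 < ε) :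
    ∃ β : ℝ, 0 < β ∧ ∀ᶠ T : ℝ in atTop, (Mp T).real (Icc (-β) β) ≤ K + ε := by
  obtain ⟨C, hC, hB⟩ := Mp_bdd
  have hpi := Real.pi_pos
  obtain ⟨a0, ha0, h1⟩ := h (ε / 2) (by positivity)
  have h2 := h1 a0 ha0 le_rfl
  -- the choice of β
  obtain ⟨β, hβ0, hβ⟩ : ∃ β : ℝ, 0 < β ∧ (K + ε / 2) * (1 + Real.pi ^ 2 * β ^ 2 / a0 ^ 2) ≤ K + ε := by
    have hc : Tendsto (fun β : ℝ => (K + ε / 2) * (1 + Real.pi ^ 2 * β ^ 2 / a0 ^ 2)) (𝓝[>] 0)
        (𝓝 ((K + ε / 2) * (1 + Real.pi ^ 2 * 0 ^ 2 / a0 ^ 2))) :=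
      (Continuous.tendsto (by fun_prop) 0).mono_left nhdsWithin_le_nhds
    have e : (K + ε / 2) * (1 + Real.pi ^ 2 * 0 ^ 2 / a0 ^ 2) = K + ε / 2 := by ring
    rw [e] at hc
    obtain ⟨β, h3, h4⟩ := ((hc.eventually (ge_mem_nhds (by linarith : K + ε / 2 < K + ε))).and ev_pos).exists
    exact ⟨β, h4, h3⟩
  refine ⟨β, hβ0, ?_⟩
  filter_upwards [h2, hB] with T h3 hBT
  have hfin := Mp_fin T
  have hi : Integrable (ra a0) (Mp T) := hBT.integrable (by linarith) (ra_cont ha0) (ra_qd ha0)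
  set q : ℝ := 1 + Real.pi ^ 2 * β ^ 2 / a0 ^ 2 with hq
  have hq0 : 0 < q := by positivity
  have h4 : (Mp T).real (Icc (-β) β) * (1 / (a0 * q)) ≤ ∫ x, ra a0 x ∂(Mp T) := by
    calc (Mp T).real (Icc (-β) β) * (1 / (a0 * q)) = ∫ x in Icc (-β) β, 1 / (a0 * q) ∂(Mp T) := by
          rw [setIntegral_const, smul_eq_mul]
      _ ≤ ∫ x in Icc (-β) β, ra a0 x ∂(Mp T) := by
          refine setIntegral_mono_on (integrable_const _) hi.integrableOn measurableSet_Icc fun x hx => ?_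
          exact ra_near ha0 (abs_le.2 hx)
      _ ≤ _ := setIntegral_le_integral hi (ae_of_all _ fun x => ra_nonneg ha0.le x)
  have h5 : (Mp T).real (Icc (-β) β) ≤ q * (a0 * ∫ x, ra a0 x ∂(Mp T)) := by
    have := mul_le_mul_of_nonneg_left h4 (show 0 ≤ a0 * q by positivity)
    have e : a0 * q * ((Mp T).real (Icc (-β) β) * (1 / (a0 * q))) = (Mp T).real (Icc (-β) β) := by field_simp
    rw [e] at this
    linarith
  calc (Mp T).real (Icc (-β) β) ≤ q * (a0 * ∫ x, ra a0 x ∂(Mp T)) := h5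
    _ ≤ q * (K + ε / 2) := mul_le_mul_of_nonneg_left h3 hq0.le
    _ = (K + ε / 2) * q := by ring
    _ ≤ _ := hβ

/-- **pair sums from few close pairs** -/
theorem R_of_pairs {K : ℝ} {β : ℝ} (hβ : 0 < β) (h : ∀ᶠ T : ℝ in atTop, (Mp T).real (Icc (-β) β) ≤ K)
    {ε : ℝ} (hε : 0 < ε) : ∃ a0 : ℝ, 0 < a0 ∧ ∀ᶠ T : ℝ in atTop, ∀ a : ℝ, 0 < a → a ≤ a0 →
      a * ∫ x, ra a x ∂(Mp T) ≤ K + ε := by
  obtain ⟨C, hC, hi⟩ := inv_bdd
  obtain ⟨C', hC', hB⟩ := Mp_bdd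
  have hpi := Real.pi_pos
  set D : ℝ := (1 + 1 / β ^ 2) * C with hD
  have hD0 : 0 < D := by positivity
  refine ⟨min 1 (ε / D), by positivity, ?_⟩
  filter_upwards [h, hi, hB] with T h1 h2 hBT a ha haa
  have hfin := Mp_fin T
  have ha1 : a ≤ 1 := haa.trans (min_le_left _ _)
  have haD : a * D ≤ ε := by
    have := haa.trans (min_le_right _ _)
    rwa [le_div_iff₀ hD0] at this
  have hint : Integrable (ra a) (Mp T) := hBT.integrable (by linarith) (ra_cont ha) (ra_qd ha)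
  have hpt : ∀ x : ℝ, ra a x ≤ (Icc (-β) β).indicator (fun _ => 1 / a) x +
      a * (1 + 1 / β ^ 2) * (1 / (1 + x ^ 2)) := by
    intro x
    by_cases hx : x ∈ Icc (-β) β
    · rw [indicator_of_mem hx]
      have h3 : ra a x ≤ 1 / a := by
        unfold ra
        rw [div_le_div_iff₀ (by positivity) ha]
        have : 0 ≤ 4 * Real.pi ^ 2 * x ^ 2 := by positivity
        nlinarith
      have h4 : 0 ≤ a * (1 + 1 / β ^ 2) * (1 / (1 + x ^ 2)) := by positivity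
      linarith
    · rw [indicator_of_notMem hx, zero_add]
      have hx2 : β ^ 2 ≤ x ^ 2 := by
        rw [mem_Icc, ← abs_le, not_le] at hx
        rw [← sq_abs x]
        exact pow_le_pow_left₀ hβ.le hx.le 2
      have hx0 : 0 < x ^ 2 := lt_of_lt_of_le (by positivity) hx2
      unfold ra
      have h5 : (1 + 1 / β ^ 2) * (1 / (1 + x ^ 2)) ≥ 1 / x ^ 2 := by
        rw [ge_iff_le, mul_one_div, div_le_div_iff₀ hx0 (by positivity)]
        have e : (1 + 1 / β ^ 2) * x ^ 2 = x ^ 2 + x ^ 2 / β ^ 2 := by ring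
        rw [e]
        have : 1 ≤ x ^ 2 / β ^ 2 := by rw [le_div_iff₀ (by positivity)]; linarith
        linarith
      have h6 : 4 * a / (4 * a ^ 2 + 4 * Real.pi ^ 2 * x ^ 2) ≤ a * (1 / x ^ 2) := by
        rw [mul_one_div, div_le_div_iff₀ (by positivity) hx0]
        have h7 : 1 ≤ Real.pi ^ 2 := by nlinarith [Real.pi_gt_three]
        have h8 : 4 * x ^ 2 ≤ 4 * Real.pi ^ 2 * x ^ 2 := by nlinarith
        nlinarith [sq_nonneg a, mul_le_mul_of_nonneg_left h8 ha.le, mul_nonneg ha.le (sq_nonneg a)]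
      calc 4 * a / (4 * a ^ 2 + 4 * Real.pi ^ 2 * x ^ 2) ≤ a * (1 / x ^ 2) := h6
        _ ≤ a * ((1 + 1 / β ^ 2) * (1 / (1 + x ^ 2))) := mul_le_mul_of_nonneg_left h5 ha.le
        _ = _ := by ring
  have hind : Integrable ((Icc (-β) β).indicator fun _ => 1 / a) (Mp T) :=
    (integrable_const _).indicator measurableSet_Icc
  have h3 : ∫ x, ra a x ∂(Mp T) ≤ (Mp T).real (Icc (-β) β) * (1 / a) + a * D := by
    calc ∫ x, ra a x ∂(Mp T) ≤ ∫ x, ((Icc (-β) β).indicator (fun _ => 1 / a) x +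
          a * (1 + 1 / β ^ 2) * (1 / (1 + x ^ 2))) ∂(Mp T) :=
          integral_mono hint (hind.add (h2.1.const_mul _)) hpt
      _ = (Mp T).real (Icc (-β) β) * (1 / a) + a * (1 + 1 / β ^ 2) * ∫ x, 1 / (1 + x ^ 2) ∂(Mp T) := by
          rw [integral_add hind (h2.1.const_mul _), integral_const_mul, integral_indicator measurableSet_Icc,
            setIntegral_const, smul_eq_mul]
      _ ≤ (Mp T).real (Icc (-β) β) * (1 / a) + a * (1 + 1 / β ^ 2) * C := by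
          have := mul_le_mul_of_nonneg_left h2.2 (show 0 ≤ a * (1 + 1 / β ^ 2) by positivity)
          linarith
      _ = _ := by rw [hD]; ring
  have h4 := mul_le_mul_of_nonneg_left h3 ha.le
  have e : a * ((Mp T).real (Icc (-β) β) * (1 / a) + a * D) = (Mp T).real (Icc (-β) β) + a * (a * D) := by
    field_simp
  rw [e] at h4
  have h5 : a * (a * D) ≤ 1 * ε := mul_le_mul ha1 haD (by positivity) zero_le_one
  linarith

/-- the crude uniform bound for the pair sums -/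
theorem R_crude : ∃ K : ℝ, 1 ≤ K ∧ ∀ᶠ T : ℝ in atTop, ∀ a : ℝ, 0 < a → a ≤ 1 →
    a * ∫ x, ra a x ∂(Mp T) ≤ K := by
  obtain ⟨C, hC, hi⟩ := inv_bdd
  obtain ⟨C', hC', hB⟩ := Mp_bdd
  refine ⟨C + 1, by linarith, ?_⟩
  filter_upwards [hi, hB] with T h2 hBT a ha ha1
  have hint : Integrable (ra a) (Mp T) := hBT.integrable (by linarith) (ra_cont ha) (ra_qd ha)
  have hpt : ∀ x : ℝ, ra a x ≤ 1 / a * (1 / (1 + x ^ 2)) := by
    intro x
    unfold ra
    rw [div_mul_div_comm, one_mul, div_le_div_iff₀ (by positivity) (by positivity)]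
    have h7 : 1 ≤ Real.pi ^ 2 := by nlinarith [Real.pi_gt_three]
    have h8 : x ^ 2 ≤ Real.pi ^ 2 * x ^ 2 := by nlinarith [sq_nonneg x]
    have h9 : a ^ 2 ≤ 1 := by nlinarith
    have h10 : a ^ 2 * x ^ 2 ≤ 1 * x ^ 2 := mul_le_mul_of_nonneg_right h9 (sq_nonneg x)
    nlinarith
  have h3 : ∫ x, ra a x ∂(Mp T) ≤ 1 / a * C := by
    calc ∫ x, ra a x ∂(Mp T) ≤ ∫ x, 1 / a * (1 / (1 + x ^ 2)) ∂(Mp T) :=
          integral_mono hint (h2.1.const_mul _) hpt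
      _ = 1 / a * ∫ x, 1 / (1 + x ^ 2) ∂(Mp T) := integral_const_mul _ _
      _ ≤ _ := mul_le_mul_of_nonneg_left h2.2 (by positivity)
  have h4 := mul_le_mul_of_nonneg_left h3 ha.le
  have e : a * (1 / a * C) = C := by field_simp
  rw [e] at h4
  linarith

end Pool.Agent.Q260.GM
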