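import Pool.Agent.Q260.GM.Xe

set_option autoImplicit false

/-!
# From the pair sums to the weighted integral for the primes
-/

namespace Pool.Agent.Q260.GM

open MeasureTheory Filter Topology Set
open Pool.Agent.Y749.Rig (Mp Mp_bdd Mp_fin one_lt_log)

lemma tail_near {κ a C1 Y : ℝ} (hκ : 0 < κ) (hgc : Continuous (gd κ a)) (hC1 : 0 ≤ C1)
    (hG : ∀ Y : ℝ, 0 ≤ Y → Y ≤ 1 / κ ^ 2 → ∫ y in (0 : ℝ)..Y, gd κ a y ≤ C1 * (1 + Y))
    (hY0 : 0 ≤ Y) (hY1 : Y ≤ 1 / κ ^ 2) :
    ∫ y in Y..(1 / κ ^ 2), gd κ a y / (1 + y ^ 2) ≤ 10 * C1 * (1 / (1 + Y)) := by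
  set B : ℝ := 1 / κ ^ 2 with hB
  have hB0 : 0 < B := by positivity
  have e0 : ∫ y in Y..B, gd κ a y / (1 + y ^ 2) = ∫ y in Y..B, (1 / (1 + y ^ 2)) * gd κ a y :=
    intervalIntegral.integral_congr fun y _ => by ring
  have hd : ∀ y : ℝ, HasDerivAt (fun y : ℝ => 1 / (1 + y ^ 2)) (-(2 * y) / (1 + y ^ 2) ^ 2) y := by
    intro y
    have hne : (1 + y ^ 2) ≠ 0 := by positivity
    have h2 := (((hasDerivAt_id y).pow 2).const_add 1).inv hne
    refine (h2.congr_deriv ?_).congr_of_eventuallyEq (Eventually.of_forall fun z => ?_)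
    · simp
    · simp [one_div]
  have hdc : Continuous fun y : ℝ => -(2 * y) / (1 + y ^ 2) ^ 2 := by
    refine Continuous.div (by fun_prop) (by fun_prop) fun y => by positivity
  rw [e0, abel hd hdc hgc]
  have hM0 : ∀ y : ℝ, 0 ≤ y → 0 ≤ ∫ z in (0 : ℝ)..y, gd κ a z := fun y hy =>
    intervalIntegral.integral_nonneg hy fun z _ => gd_nonneg _ _ _
  have b1 : 1 / (1 + B ^ 2) * (∫ y in (0 : ℝ)..B, gd κ a y) ≤ C1 * (2 / (1 + Y)) := by
    have h2 := hG B hB0.le le_rfl
    calc 1 / (1 + B ^ 2) * (∫ y in (0 : ℝ)..B, gd κ a y) ≤ 1 / (1 + B ^ 2) * (C1 * (1 + B)) :=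
          mul_le_mul_of_nonneg_left h2 (by positivity)
      _ = C1 * ((1 + B) / (1 + B ^ 2)) := by ring
      _ ≤ C1 * (2 / (1 + Y)) := by
          apply mul_le_mul_of_nonneg_left _ hC1
          rw [div_le_div_iff₀ (by positivity) (by positivity)]
          nlinarith [sq_nonneg (B - 1), mul_le_mul_of_nonneg_left hY1 (by linarith : 0 ≤ 1 + B)]
  have b2 : 0 ≤ 1 / (1 + Y ^ 2) * (∫ y in (0 : ℝ)..Y, gd κ a y) :=
    mul_nonneg (by positivity) (hM0 Y hY0)
  have b3 : -(∫ y in Y..B, -(2 * y) / (1 + y ^ 2) ^ 2 * ∫ z in (0 : ℝ)..y, gd κ a z) ≤ C1 * (8 * (1 / (1 + Y))) := by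
    rw [← intervalIntegral.integral_neg]
    have hMc : Continuous fun y : ℝ => ∫ z in (0 : ℝ)..y, gd κ a z :=
      intervalIntegral.continuous_primitive (fun _ _ => hgc.intervalIntegrable _ _) 0
    have h2 : ∫ y in Y..B, -(-(2 * y) / (1 + y ^ 2) ^ 2 * ∫ z in (0 : ℝ)..y, gd κ a z) ≤
        ∫ y in Y..B, C1 * (8 * (1 / (1 + y) ^ 2)) := by
      refine intervalIntegral.integral_mono_on hY1 ((hdc.mul hMc).neg.intervalIntegrable _ _) ?_ fun y hy => ?_
      · apply ContinuousOn.intervalIntegrable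
        rw [uIcc_of_le hY1]
        refine continuousOn_const.mul (continuousOn_const.mul (continuousOn_const.div (by fun_prop) fun y hy => ?_))
        have : 0 < 1 + y := by linarith [hy.1]
        positivity
      · have hy0 : 0 ≤ y := hY0.trans hy.1
        have h3 := hG y hy0 hy.2
        have e : -(-(2 * y) / (1 + y ^ 2) ^ 2 * ∫ z in (0 : ℝ)..y, gd κ a z) =
            2 * y / (1 + y ^ 2) ^ 2 * ∫ z in (0 : ℝ)..y, gd κ a z := by ring
        rw [e]
        calc 2 * y / (1 + y ^ 2) ^ 2 * ∫ z in (0 : ℝ)..y, gd κ a z ≤ 2 * y / (1 + y ^ 2) ^ 2 * (C1 * (1 + y)) :=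
              mul_le_mul_of_nonneg_left h3 (by positivity)
          _ = C1 * (2 * y * (1 + y) / (1 + y ^ 2) ^ 2) := by ring
          _ ≤ C1 * (8 * (1 / (1 + y) ^ 2)) := by
              apply mul_le_mul_of_nonneg_left _ hC1
              rw [mul_one_div, div_le_div_iff₀ (by positivity) (by positivity)]
              have h4 : (1 + y) ^ 2 ≤ 2 * (1 + y ^ 2) := by nlinarith [sq_nonneg (y - 1)]
              have h5 : ((1 + y) ^ 2) ^ 2 ≤ (2 * (1 + y ^ 2)) ^ 2 := pow_le_pow_left₀ (by positivity) h4 2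
              have h6 : 2 * y * (1 + y) ≤ 2 * (1 + y) ^ 2 := by nlinarith
              calc 2 * y * (1 + y) * (1 + y) ^ 2 ≤ 2 * (1 + y) ^ 2 * (1 + y) ^ 2 :=
                    mul_le_mul_of_nonneg_right h6 (by positivity)
                _ = 2 * ((1 + y) ^ 2) ^ 2 := by ring
                _ ≤ 2 * (2 * (1 + y ^ 2)) ^ 2 := by linarith
                _ = 8 * (1 + y ^ 2) ^ 2 := by ring
    refine h2.trans ?_
    rw [intervalIntegral.integral_const_mul, intervalIntegral.integral_const_mul, int_inv_sq hY0 hY1]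
    have : 0 ≤ 1 / (1 + B) := by positivity
    apply mul_le_mul_of_nonneg_left _ hC1
    linarith
  have e : 10 * C1 * (1 / (1 + Y)) = C1 * (2 / (1 + Y)) + C1 * (8 * (1 / (1 + Y))) := by ring
  rw [e]
  linarith

/-- the integrated density grows at most linearly, with the right dependence on `a` -/
lemma G_unif (hRH : RiemannHypothesis) {K a0 : ℝ} (hK : 0 < K)
    (hR : ∀ᶠ T : ℝ in atTop, ∀ a : ℝ, 0 < a → a ≤ a0 → a * ∫ x, ra a x ∂(Mp T) ≤ K)
    {a : ℝ} (ha : 0 < a) (haa : 3 * a ≤ a0) :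
    ∀ᶠ κ : ℝ in 𝓝[>] 0, ∀ Y : ℝ, 0 ≤ Y → Y ≤ 1 / κ ^ 2 →
      ∫ y in (0 : ℝ)..Y, gd κ a y ≤ K / a * (1 + Y) := by
  have hmean : ∀ᶠ T : ℝ in atTop, ∀ b ∈ Icc a (3 * a),
      ∫ t in (0 : ℝ)..T, DD (b / Real.log T) t ^ 2 ≤ K / (4 * b) * (T * Real.log T ^ 2) := by
    filter_upwards [pair_mean hRH ha (by linarith : a ≤ 3 * a) (ε := 1 / 4) (by norm_num), hR,
      eventually_ge_atTop (0 : ℝ)] with T h2 h3 hT b hb
    have hb0 : 0 < b := by linarith [hb.1]
    have h4 := (abs_le.1 (h2 b hb)).2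
    have h5 := h3 b hb0 (hb.2.trans haa)
    have h6 : ∫ x, ra b x ∂(Mp T) ≤ K / b := by rw [le_div_iff₀ hb0]; linarith
    have h8 : 0 ≤ T * Real.log T ^ 2 := by positivity
    have h7 := mul_le_mul_of_nonneg_left h6 h8
    have e : K / (4 * b) * (T * Real.log T ^ 2) = T * Real.log T ^ 2 * (K / b) / 4 := by field_simp
    rw [e]
    linarith
  obtain ⟨T0, hT0⟩ := hmean.exists_forall_of_atTop
  filter_upwards [ev_pos, ev_le (c := 1 / 2) (by norm_num), ev_L (max 1 (4 * a)),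
    inv_top.eventually_ge_atTop T0] with κ hκ hκ1 hL hT
  have hL1 : 1 ≤ LL κ := (le_max_left _ _).trans hL
  have hL4 : 4 * a ≤ LL κ := (le_max_right _ _).trans hL
  have hLp : 0 < LL κ := by linarith
  have hx0 : 0 < a / LL κ := by positivity
  have hx1 : a / LL κ ≤ 1 / 4 := by rw [div_le_iff₀ hLp]; linarith
  have hgc := gd_cont hRH hx0 hx1
  have main : ∀ Y : ℝ, 1 ≤ Y → Y ≤ 1 / κ ^ 2 → ∫ y in (0 : ℝ)..Y, gd κ a y ≤ K / a * Y := by
    intro Y hY1 hY2
    rw [gd_int hκ]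
    set T : ℝ := Y / κ with hTd
    have hTT : T0 ≤ T := by
      refine hT.trans ?_
      rw [hTd]
      exact div_le_div_of_nonneg_right hY1 hκ.le
    have hTp : 0 < T := by positivity
    have hlog : Real.log T = LL κ + Real.log Y := by
      rw [hTd, Real.log_div (by positivity) hκ.ne']
      unfold LL
      rw [Real.log_div one_ne_zero hκ.ne', Real.log_one]
      ring
    have hlY0 : 0 ≤ Real.log Y := Real.log_nonneg hY1
    have hlY1 : Real.log Y ≤ 2 * LL κ := by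
      have := Real.log_le_log (by linarith) hY2
      rw [one_div, Real.log_inv, Real.log_pow] at this
      unfold LL
      rw [one_div, Real.log_inv]
      push_cast at this
      linarith
    have hlT : LL κ ≤ Real.log T := by linarith
    have hlT3 : Real.log T ≤ 3 * LL κ := by linarith
    have hlTp : 0 < Real.log T := by linarith
    set b : ℝ := a * Real.log T / LL κ with hb
    have h2 : b / Real.log T = a / LL κ := by rw [hb]; field_simp
    have hb0 : 0 < b := by positivity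
    have ha1' : a ≤ b := by
      rw [hb, le_div_iff₀ hLp]
      nlinarith
    have ha2' : b ≤ 3 * a := by
      rw [hb, div_le_iff₀ hLp]
      nlinarith
    have h3 := hT0 T hTT b ⟨ha1', ha2'⟩
    rw [h2] at h3
    calc κ / LL κ ^ 2 * ∫ t in (0 : ℝ)..T, DD (a / LL κ) t ^ 2 ≤
          κ / LL κ ^ 2 * (K / (4 * b) * (T * Real.log T ^ 2)) :=
          mul_le_mul_of_nonneg_left h3 (by positivity)
      _ = K / a * Y * (Real.log T / LL κ) / 4 := by
          have hYT : Y = T * κ := by rw [hTd]; field_simp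
          rw [hb, hYT]; field_simp
      _ ≤ K / a * Y * 3 / 4 := by
          have : Real.log T / LL κ ≤ 3 := by rw [div_le_iff₀ hLp]; exact hlT3
          gcongr
      _ ≤ K / a * Y := by
          have : 0 ≤ K / a * Y := by positivity
          linarith
  intro Y hY0 hY
  have hKa : 0 < K / a := by positivity
  rcases le_total 1 Y with hY1 | hY1
  · have := main Y hY1 hY
    have : K / a * Y ≤ K / a * (1 + Y) := mul_le_mul_of_nonneg_left (by linarith) hKa.le
    linarith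
  · have h2 := main 1 le_rfl (by
      rw [le_div_iff₀ (by positivity)]; nlinarith)
    have h3 : ∫ y in (0 : ℝ)..Y, gd κ a y ≤ ∫ y in (0 : ℝ)..1, gd κ a y :=
      intervalIntegral.integral_mono_interval le_rfl hY0 hY1 (ae_of_all _ fun y => gd_nonneg κ a y)
        (hgc.intervalIntegrable _ _)
    have : K / a * 1 ≤ K / a * (1 + Y) := mul_le_mul_of_nonneg_left (by linarith) hKa.le
    linarith

/-- the integrated density at a point -/
lemma G_pt (hRH : RiemannHypothesis) {K a0 : ℝ}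
    (hR : ∀ᶠ T : ℝ in atTop, ∀ a : ℝ, 0 < a → a ≤ a0 → a * ∫ x, ra a x ∂(Mp T) ≤ K)
    {a : ℝ} (ha : 0 < a) (haa : 3 * a ≤ a0) {Y : ℝ} (hY : 0 < Y) {δ : ℝ} (hδ : 0 < δ) :
    ∀ᶠ κ : ℝ in 𝓝[>] 0, ∫ y in (0 : ℝ)..Y, gd κ a y ≤ (K / a - 1) / 4 * Y + δ := by
  set ε : ℝ := δ / (4 * Y) with hε
  have hε0 : 0 < ε := by positivity
  have hr := r_lim hY
  set r : ℝ → ℝ := fun κ => Real.log (Y / κ) / LL κ with hrd
  have hlim : Tendsto (fun κ => Y * (r κ ^ 2 * ((K / (a * r κ) - 1) / 4 + ε))) (𝓝[>] 0)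
      (𝓝 (Y * (1 ^ 2 * ((K / (a * 1) - 1) / 4 + ε)))) := by
    refine Tendsto.const_mul _ ((hr.pow 2).mul (Tendsto.add_const _ (Tendsto.div_const (Tendsto.sub_const ?_ _) _)))
    exact tendsto_const_nhds.div (hr.const_mul a) (by rw [mul_one]; exact ha.ne')
  have hval : Y * (1 ^ 2 * ((K / (a * 1) - 1) / 4 + ε)) = (K / a - 1) / 4 * Y + δ / 4 := by
    rw [hε]; field_simp
  rw [hval] at hlim
  filter_upwards [hlim.eventually (ge_mem_nhds (show (K / a - 1) / 4 * Y + δ / 4 < (K / a - 1) / 4 * Y + δ by linarith)),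
    (T_top hY).eventually hR, (T_top hY).eventually (pair_mean hRH (a1 := a / 2) (a2 := 2 * a) (by positivity)
      (by linarith) hε0), hr.eventually (le_mem_nhds (show (1 / 2 : ℝ) < 1 by norm_num)),
    hr.eventually (ge_mem_nhds (show (1 : ℝ) < 2 by norm_num)), (T_top hY).eventually_ge_atTop 10, ev_pos, ev_L 1]
    with κ k0 k1 k2 k3 k4 hT hκ hL
  have hLp : 0 < LL κ := by linarith
  refine le_trans ?_ k0
  rw [gd_int hκ]
  set T : ℝ := Y / κ with hTd
  have hTp : 0 < T := by linarith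
  have hlT : 1 < Real.log T := one_lt_log (by linarith)
  have hlTp : 0 < Real.log T := by linarith
  have hr0 : 0 < r κ := by linarith
  have hb : a * r κ ∈ Icc (a / 2) (2 * a) := by
    constructor
    · nlinarith
    · nlinarith
  have hb0 : 0 < a * r κ := by positivity
  have h1 := k1 (a * r κ) hb0 (by linarith [hb.2])
  have h2 := (abs_le.1 (k2 (a * r κ) hb)).2
  have hrT : r κ = Real.log T / LL κ := rfl
  have e1 : a * r κ / Real.log T = a / LL κ := by rw [hrT]; field_simp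
  rw [e1] at h2
  have h3 : ∫ x, ra (a * r κ) x ∂(Mp T) ≤ K / (a * r κ) := by rw [le_div_iff₀ hb0]; linarith
  set X : ℝ := ∫ t in (0 : ℝ)..T, DD (a / LL κ) t ^ 2 with hX
  have hP : 0 < T * Real.log T ^ 2 := by positivity
  have h4 : X ≤ (T * Real.log T ^ 2) * ((K / (a * r κ) - 1) / 4 + ε) := by
    have := mul_le_mul_of_nonneg_left h3 hP.le
    linarith
  calc κ / LL κ ^ 2 * X ≤ κ / LL κ ^ 2 * ((T * Real.log T ^ 2) * ((K / (a * r κ) - 1) / 4 + ε)) :=
        mul_le_mul_of_nonneg_left h4 (by positivity)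
    _ = Y * ((Real.log T / LL κ) ^ 2 * ((K / (a * r κ) - 1) / 4 + ε)) := by
        have hYT : Y = T * κ := by rw [hTd]; field_simp
        rw [hYT]; field_simp
    _ = _ := by rw [← hrT]

end Pool.Agent.Q260.GM
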