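import Pool.Agent.Q260.GM.Xf

set_option autoImplicit false

/-!
# From the pair sums to the weighted integral for the primes, II
-/

namespace Pool.Agent.Q260.GM

open MeasureTheory Filter Topology Set
open Pool.Agent.Y749.Rig (Mp Mp_bdd Mp_fin one_lt_log)

lemma cb_one_int : IntegrableOn (cb 1) (Ioi 0) ∧ ∫ y in Ioi (0 : ℝ), cb 1 y = Real.pi / 2 := by
  have e : cb 1 = fun y : ℝ => (1 + y ^ 2)⁻¹ := by
    funext y
    unfold cb
    rw [one_pow, one_div]
  rw [e]
  refine ⟨integrable_inv_one_add_sq.integrableOn, ?_⟩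
  rw [integral_Ioi_inv_one_add_sq, Real.arctan_zero, sub_zero]

lemma cb_anti {x y : ℝ} (hx : 0 ≤ x) (hxy : x ≤ y) : cb 1 y ≤ cb 1 x := by
  unfold cb
  apply one_div_le_one_div_of_le (by positivity)
  nlinarith

lemma cb_grid {h : ℝ} (hh : 0 < h) (N : ℕ) :
    h * ∑ j ∈ Finset.range N, cb 1 (j * h) ≤ h + Real.pi / 2 := by
  have h1 : ∑ j ∈ Finset.range N, cb 1 (j * h) ≤ 1 + ∑ j ∈ Finset.range N, cb 1 ((j + 1 : ℕ) * h) := by
    have e1 := Finset.sum_range_succ (fun j : ℕ => cb 1 (j * h)) N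
    have e2 := Finset.sum_range_succ' (fun j : ℕ => cb 1 (j * h)) N
    have e3 : cb 1 (((0 : ℕ) : ℝ) * h) = 1 := by unfold cb; simp
    have e4 : 0 ≤ cb 1 ((N : ℝ) * h) := cb_nonneg one_pos _
    rw [e3] at e2
    linarith
  have h2 : h * ∑ j ∈ Finset.range N, cb 1 ((j + 1 : ℕ) * h) ≤ Real.pi / 2 := by
    have hc := cb_cont (b := 1) one_pos
    have hs := intervalIntegral.sum_integral_adjacent_intervals (a := fun k : ℕ => (k : ℝ) * h) (n := N)
      (f := cb 1) (μ := volume) fun k _ => hc.intervalIntegrable _ _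
    simp only [Nat.cast_zero, zero_mul] at hs
    have h3 : ∑ j ∈ Finset.range N, h * cb 1 ((j + 1 : ℕ) * h) ≤
        ∑ j ∈ Finset.range N, ∫ y in (j * h)..((j + 1 : ℕ) * h), cb 1 y := by
      refine Finset.sum_le_sum fun j _ => ?_
      have hjj : (j : ℝ) * h ≤ ((j + 1 : ℕ) : ℝ) * h := by push_cast; nlinarith
      have h4 : ∫ y in ((j : ℝ) * h)..((j + 1 : ℕ) * h), cb 1 ((j + 1 : ℕ) * h) ≤
          ∫ y in (j * h)..((j + 1 : ℕ) * h), cb 1 y :=
        intervalIntegral.integral_mono_on hjj intervalIntegrable_const (hc.intervalIntegrable _ _)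
          fun y hy => cb_anti (by have := hy.1; have : (0 : ℝ) ≤ j * h := by positivity
                                  linarith) hy.2
      rw [intervalIntegral.integral_const, smul_eq_mul] at h4
      refine le_trans (le_of_eq ?_) h4
      push_cast
      ring
    rw [← Finset.mul_sum, hs, cb_integral one_pos] at h3
    refine h3.trans (Real.arctan_lt_pi_div_two _).le
  have h3 := mul_le_mul_of_nonneg_left h1 hh.le
  rw [mul_add, mul_one] at h3
  linarith

/-- **upper bound for the Cauchy kernel from the pair sums** -/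
theorem KI_cb_up (hRH : RiemannHypothesis) {K a0 : ℝ} (hK : 1 ≤ K)
    (hR : ∀ᶠ T : ℝ in atTop, ∀ a : ℝ, 0 < a → a ≤ a0 → a * ∫ x, ra a x ∂(Mp T) ≤ K)
    {a : ℝ} (ha : 0 < a) (ha1 : a ≤ 1) (haa : 3 * a ≤ a0) {ε : ℝ} (hε : 0 < ε) :
    ∀ᶠ κ : ℝ in 𝓝[>] 0, KI (cb 1) κ a ≤ (K / a - 1) / 4 * (Real.pi / 2) + ε := by
  have hpi := Real.pi_pos
  have hK0 : 0 < K := by linarith
  set A : ℝ := (K / a - 1) / 4 with hA
  have hA0 : 0 ≤ A := by
    have : 1 ≤ K / a := by rw [le_div_iff₀ ha]; linarith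
    rw [hA]; linarith
  have hKa : 0 < K / a := by positivity
  obtain ⟨C, hC, hT⟩ := tail_bdd hRH ha le_rfl
  -- the cut
  obtain ⟨Y2, hY20, hY2⟩ : ∃ Y2 : ℝ, 0 < Y2 ∧ 10 * (K / a) * (1 / (1 + Y2)) ≤ ε / 8 := by
    refine ⟨80 * (K / a) / ε, by positivity, ?_⟩
    rw [mul_one_div, div_le_iff₀ (by positivity)]
    have e : ε / 8 * (1 + 80 * (K / a) / ε) = ε / 8 + 10 * (K / a) := by field_simp; ring
    rw [e]
    linarith
  obtain ⟨N, hN⟩ := exists_nat_gt (8 * (A * Y2) / ε)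
  have hN0 : (0 : ℝ) < N := lt_of_le_of_lt (by positivity) hN
  set h : ℝ := Y2 / N with hh
  have hh0 : 0 < h := by positivity
  have hNh : (N : ℝ) * h = Y2 := by rw [hh]; field_simp
  have hAh : A * h ≤ ε / 8 := by
    rw [hh]
    have e : A * (Y2 / N) = A * Y2 / N := by ring
    rw [e, div_le_iff₀ hN0]
    rw [div_lt_iff₀ hε] at hN
    linarith
  have hG : ∀ᶠ κ : ℝ in 𝓝[>] 0, ∀ j ∈ Finset.range (N + 1), ∫ y in (0 : ℝ)..(j * h), gd κ a y ≤
      ε / 8 + A * h * j := by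
    rw [eventually_all_finset]
    intro j _
    rcases Nat.eq_zero_or_pos j with hj | hj
    · refine Eventually.of_forall fun κ => ?_
      rw [hj]
      simp only [Nat.cast_zero, zero_mul, intervalIntegral.integral_same, mul_zero, add_zero]
      positivity
    · have hj0 : (0 : ℝ) < j := by exact_mod_cast hj
      filter_upwards [G_pt hRH hR ha haa (Y := j * h) (by positivity) (δ := ε / 8) (by positivity)] with κ hκ
      refine hκ.trans (le_of_eq ?_)
      rw [hA]; ring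
  have hfar : ∀ᶠ κ : ℝ in 𝓝[>] 0, C * (1 / (1 + 1 / κ ^ 2) + Real.sqrt κ) ≤ ε / 8 := by
    have h1 : Tendsto (fun κ : ℝ => C * (κ ^ 2 + Real.sqrt κ)) (𝓝[>] 0) (𝓝 (C * (0 ^ 2 + Real.sqrt 0))) :=
      (Continuous.tendsto (by fun_prop) 0).mono_left nhdsWithin_le_nhds
    rw [Real.sqrt_zero] at h1
    have e : C * ((0 : ℝ) ^ 2 + 0) = 0 := by ring
    rw [e] at h1
    filter_upwards [h1.eventually (ge_mem_nhds (show (0 : ℝ) < ε / 8 by positivity)), ev_pos] with κ h2 hκ
    refine le_trans ?_ h2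
    apply mul_le_mul_of_nonneg_left _ hC.le
    have : 1 / (1 + 1 / κ ^ 2) ≤ κ ^ 2 := by
      rw [div_le_iff₀ (by positivity)]
      have e2 : κ ^ 2 * (1 + 1 / κ ^ 2) = κ ^ 2 + 1 := by field_simp
      rw [e2]
      nlinarith [sq_nonneg κ]
    linarith
  filter_upwards [hG, hfar, hT, G_unif hRH hK0 hR ha haa, ev_pos, ev_le (c := 1 / (Y2 + 1)) (by positivity),
    ev_le (c := 1) one_pos, ev_L (max 1 (4 * a))] with κ k1 k2 k3 k4 hκ hκY hκ1 hL
  have hL1 : 1 ≤ LL κ := (le_max_left _ _).trans hL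
  have hL4 : 4 * a ≤ LL κ := (le_max_right _ _).trans hL
  have hLp : 0 < LL κ := by linarith
  have hx0 : 0 < a / LL κ := by positivity
  have hx1 : a / LL κ ≤ 1 / 4 := by rw [div_le_iff₀ hLp]; linarith
  have hgc := gd_cont hRH hx0 hx1
  obtain ⟨hgi, htail⟩ := k3 a ⟨le_rfl, le_rfl⟩
  have hB0 : 0 < 1 / κ ^ 2 := by positivity
  have hYB : Y2 ≤ 1 / κ ^ 2 := by
    rw [le_div_iff₀ (by positivity)]
    rw [le_div_iff₀ (by positivity)] at hκY
    nlinarith
  have hcc := cb_cont (b := 1) one_pos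
  have i1 : Integrable (fun y => cb 1 y * gd κ a y) :=
    gd_integrable hcc hgc (B := 2) (fun y => by
      rw [abs_of_nonneg (cb_nonneg one_pos y)]
      refine (cb_le one_pos y).trans (le_of_eq (by norm_num))) hgi
  have hii : ∀ p q : ℝ, IntervalIntegrable (fun y => cb 1 y * gd κ a y) volume p q := fun p q =>
    (hcc.mul hgc).intervalIntegrable _ _
  -- the near part
  set I : ℕ → ℝ := fun j => ∫ y in (j * h)..((j + 1 : ℕ) * h), gd κ a y with hI
  have hsumI : ∀ j : ℕ, ∑ i ∈ Finset.range j, I i = ∫ y in (0 : ℝ)..(j * h), gd κ a y := by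
    intro j
    have := intervalIntegral.sum_integral_adjacent_intervals (a := fun k : ℕ => (k : ℝ) * h) (n := j)
      (f := gd κ a) (μ := volume) fun k _ => hgc.intervalIntegrable _ _
    simp only [Nat.cast_zero, zero_mul] at this
    exact this
  have hab := abel_sum (φ := fun j : ℕ => cb 1 (j * h)) (I := I) (W := ε / 8) (K := A * h)
    (fun j => cb_anti (by positivity) (by push_cast; nlinarith)) (fun j => cb_nonneg one_pos _)
    (by positivity) N (fun j hj => by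
      rw [hsumI]
      exact k1 j (Finset.mem_range.2 (by omega)))
  have hnear : ∫ y in (0 : ℝ)..Y2, cb 1 y * gd κ a y ≤ ∑ j ∈ Finset.range N, cb 1 (j * h) * I j := by
    have := intervalIntegral.sum_integral_adjacent_intervals (a := fun k : ℕ => (k : ℝ) * h) (n := N)
      (f := fun y => cb 1 y * gd κ a y) (μ := volume) fun k _ => hii _ _
    simp only [Nat.cast_zero, zero_mul] at this
    rw [← hNh, ← this]
    refine Finset.sum_le_sum fun j _ => ?_
    rw [hI]
    simp only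
    rw [← intervalIntegral.integral_const_mul]
    refine intervalIntegral.integral_mono_on ?_ (hii _ _) ((hgc.intervalIntegrable _ _).const_mul _) fun y hy => ?_
    · push_cast; nlinarith
    · exact mul_le_mul_of_nonneg_right (cb_anti (by positivity) hy.1) (gd_nonneg κ a y)
  have hgrid := cb_grid hh0 N
  have hnear2 : ∫ y in (0 : ℝ)..Y2, cb 1 y * gd κ a y ≤ A * (Real.pi / 2) + ε / 4 := by
    have h0 : cb 1 (((0 : ℕ) : ℝ) * h) = 1 := by unfold cb; simp
    have h5 : ε / 8 * cb 1 (((0 : ℕ) : ℝ) * h) + A * h * ∑ j ∈ Finset.range N, cb 1 (j * h) ≤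
        A * (Real.pi / 2) + ε / 4 := by
      rw [h0, mul_one]
      have h6 : A * (h * ∑ j ∈ Finset.range N, cb 1 (j * h)) ≤ A * (h + Real.pi / 2) :=
        mul_le_mul_of_nonneg_left hgrid hA0
      have e : A * h * ∑ j ∈ Finset.range N, cb 1 (j * h) = A * (h * ∑ j ∈ Finset.range N, cb 1 (j * h)) := by ring
      rw [e]
      linarith
    exact hnear.trans (hab.trans h5)
  -- the tails
  have ecb : ∀ y, cb 1 y * gd κ a y = gd κ a y / (1 + y ^ 2) := by
    intro y
    unfold cb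
    rw [one_pow]
    ring
  have hmid := tail_near hκ hgc hKa.le k4 hY20.le hYB
  have hfar2 := htail (1 / κ ^ 2) hB0.le le_rfl
  have s1 := intervalIntegral.integral_Ioi_sub_Ioi i1.integrableOn hY20.le
  have s2 := intervalIntegral.integral_Ioi_sub_Ioi (i1.integrableOn (s := Ioi Y2)) hYB
  have m1 : ∫ y in Y2..(1 / κ ^ 2), cb 1 y * gd κ a y ≤ ε / 8 := by
    simp only [ecb]
    exact hmid.trans hY2
  have m2 : ∫ y in Ioi (1 / κ ^ 2), cb 1 y * gd κ a y ≤ ε / 8 := by
    simp only [ecb]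
    exact hfar2.trans k2
  unfold KI
  linarith

/-- **the weighted integral for the primes from the pair sums** -/
theorem SS_of_R (hRH : RiemannHypothesis) (hL2 : L2psi) {K a0 : ℝ} (hK : 1 ≤ K)
    (hR : ∀ᶠ T : ℝ in atTop, ∀ a : ℝ, 0 < a → a ≤ a0 → a * ∫ x, ra a x ∂(Mp T) ≤ K)
    {a : ℝ} (ha : 0 < a) (ha1 : a ≤ 1) (haa : 3 * a ≤ a0) {ε : ℝ} (hε : 0 < ε) :
    ∀ᶠ κ : ℝ in 𝓝[>] 0, SS κ (a / LL κ) ≤
      ((1 / a - 1) / 2 + 5 * (K - 1) / (4 * a) + ε) * (κ * LL κ ^ 2) := by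
  have hpi := Real.pi_pos
  set c : ℝ := (1 / a - 1) / 4 with hc
  set f : ℝ → ℝ := fun y => 5 * cb 1 y - kk 1 y with hf
  have hcb : ∀ y, cb 1 y = 1 / (1 + y ^ 2) := fun y => by unfold cb; rw [one_pow]
  have hfc : Continuous f := (continuous_const.mul (cb_cont one_pos)).sub (kk_cont 1)
  have hkk : ∀ y, kk 1 y ≤ 5 * cb 1 y := fun y => by
    rw [hcb]
    refine (kk_le 1 y).trans (le_of_eq (by norm_num))
  have hf0 : ∀ y, 0 ≤ f y := fun y => by
    have := hkk y
    rw [hf]; simp only; linarith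
  have hfB : ∀ y, f y ≤ 5 * (1 / (1 + y ^ 2)) := fun y => by
    have := kk_nonneg 1 y
    rw [hf]; simp only; rw [hcb]; linarith
  have hfi : IntegrableOn f (Ioi 0) := (cb_one_int.1.const_mul 5).sub kk_one_int.1
  have hfv : ∫ y in Ioi (0 : ℝ), f y = 3 * Real.pi / 2 := by
    rw [hf, integral_sub (cb_one_int.1.const_mul 5) kk_one_int.1, integral_const_mul, cb_one_int.2, kk_one_int.2]
    ring
  have hlow := KI_low hRH ha ha1 hfc hf0 hfB hfi (ε := ε / 16) (by positivity)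
  rw [hfv, ← hc] at hlow
  filter_upwards [hlow, KI_cb_up hRH hK hR ha ha1 haa (ε := ε / 16) (by positivity),
    T1b hRH hL2 ha le_rfl one_pos (ε := ε / 4) (by positivity), tail_bdd hRH ha le_rfl |>.choose_spec.2,
    ev_pos, ev_L (max 1 (4 * a))] with κ k1 k2 k3 k4 hκ hL
  have hL1 : 1 ≤ LL κ := (le_max_left _ _).trans hL
  have hL4 : 4 * a ≤ LL κ := (le_max_right _ _).trans hL
  have hLp : 0 < LL κ := by linarith
  have hx0 : 0 < a / LL κ := by positivity
  have hx1 : a / LL κ ≤ 1 / 4 := by rw [div_le_iff₀ hLp]; linarith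
  have hgc := gd_cont hRH (κ := κ) hx0 hx1
  have hQ : 0 < κ * LL κ ^ 2 := by positivity
  obtain ⟨hgi, -⟩ := k4 a ⟨le_rfl, le_rfl⟩
  have i1 : Integrable (fun y => cb 1 y * gd κ a y) :=
    gd_integrable (cb_cont one_pos) hgc (B := 2) (fun y => by
      rw [abs_of_nonneg (cb_nonneg one_pos y)]
      refine (cb_le one_pos y).trans (le_of_eq (by norm_num))) hgi
  have i2 : Integrable (fun y => kk 1 y * gd κ a y) :=
    gd_integrable (kk_cont 1) hgc (fun y => by rw [abs_of_nonneg (kk_nonneg 1 y)]; exact kk_le 1 y) hgi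
  have hKf : KI f κ a = 5 * KI (cb 1) κ a - KI (kk 1) κ a := by
    unfold KI
    rw [← integral_const_mul, ← integral_sub (i1.integrableOn.const_mul 5) i2.integrableOn]
    refine integral_congr_ae (ae_of_all _ fun y => ?_)
    show (5 * cb 1 y - kk 1 y) * gd κ a y = 5 * (cb 1 y * gd κ a y) - kk 1 y * gd κ a y
    ring
  rw [hKf] at k1
  have k5 : KI (kk 1) κ a ≤ c * Real.pi + 5 * Real.pi / 2 * ((K - 1) / (4 * a)) + 3 * ε / 8 := by
    have e : (K / a - 1) / 4 = c + (K - 1) / (4 * a) := by rw [hc]; field_simp; ring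
    rw [e] at k2
    linarith
  have k6 := (abs_le.1 (k3 a ⟨le_rfl, le_rfl⟩)).2
  rw [one_mul] at k6
  have k7 : 2 / Real.pi * KI (kk 1) κ a ≤ 2 * c + 5 * (K - 1) / (4 * a) + ε / 4 := by
    have h1 := mul_le_mul_of_nonneg_left k5 (show 0 ≤ 2 / Real.pi by positivity)
    refine h1.trans ?_
    have e : 2 / Real.pi * (c * Real.pi + 5 * Real.pi / 2 * ((K - 1) / (4 * a)) + 3 * ε / 8) =
      2 * c + 5 * (K - 1) / (4 * a) + 3 * ε / (4 * Real.pi) := by field_simp; ring
    rw [e]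
    have : 3 * ε / (4 * Real.pi) ≤ ε / 4 := by
      rw [div_le_div_iff₀ (by positivity) (by norm_num)]
      nlinarith [Real.pi_gt_three]
    linarith
  have e2 : 2 / Real.pi * (κ * LL κ ^ 2 * ∫ y in Ioi (0 : ℝ), kk 1 y * gd κ a y) =
      2 / Real.pi * KI (kk 1) κ a * (κ * LL κ ^ 2) := by unfold KI; ring
  rw [e2] at k6
  have k8 := mul_le_mul_of_nonneg_right k7 hQ.le
  have e3 : ((1 / a - 1) / 2 + 5 * (K - 1) / (4 * a) + ε) * (κ * LL κ ^ 2) =
    (2 * c + 5 * (K - 1) / (4 * a) + ε / 4) * (κ * LL κ ^ 2) + 3 * ε / 4 * (κ * LL κ ^ 2) := by rw [hc]; ring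
  rw [e3]
  have : 0 ≤ ε / 4 * (κ * LL κ ^ 2) := by positivity
  have : 3 * ε / 4 * (κ * LL κ ^ 2) = 3 * (ε / 4 * (κ * LL κ ^ 2)) := by ring
  linarith

end Pool.Agent.Q260.GM
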