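import Pool.Agent.Q260.GM.Xg

set_option autoImplicit false

/-!
# The asymptotic formula on average
-/

namespace Pool.Agent.Q260.GM

open MeasureTheory Filter Topology Set
open Pool.Agent.Y749.Rig (Mp Mp_bdd Mp_fin one_lt_log)
open Pool.Agent.Q213.GM (Dl_sq_ii Dl_meas)

/-- few close pairs -/
def EssM : Prop := ∀ ε : ℝ, 0 < ε → ∃ β : ℝ, 0 < β ∧ ∀ᶠ T : ℝ in atTop, (Mp T).real (Icc (-β) β) ≤ 1 + ε

lemma SS_ess (hRH : RiemannHypothesis) (hL2 : L2psi) (hE : EssM) {ε : ℝ} (hε : 0 < ε) :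
    ∃ a0 : ℝ, 0 < a0 ∧ ∀ a : ℝ, 0 < a → a ≤ a0 → ∀ᶠ κ : ℝ in 𝓝[>] 0,
      |2 * a * (SS κ (a / LL κ) / (κ * LL κ ^ 2)) - 1| ≤ ε := by
  obtain ⟨β, hβ, h1⟩ := hE (ε / 20) (by positivity)
  obtain ⟨a1, ha1, h2⟩ := R_of_pairs hβ h1 (ε := ε / 20) (by positivity)
  refine ⟨min (a1 / 3) (min 1 (ε / 4)), by positivity, fun a ha haa => ?_⟩
  have haa1 : 3 * a ≤ a1 := by
    have := haa.trans (min_le_left _ _)
    linarith
  have ha1' : a ≤ 1 := haa.trans ((min_le_right _ _).trans (min_le_left _ _))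
  have haε : a ≤ ε / 4 := haa.trans ((min_le_right _ _).trans (min_le_right _ _))
  filter_upwards [SS_of_R hRH hL2 (K := 1 + ε / 20 + ε / 20) (by linarith) h2 ha ha1' haa1
    (ε := ε / 8) (by positivity), SS_low hRH hL2 ha ha1' (ε := ε / 8) (by positivity), ev_pos, ev_L 1]
    with κ k1 k2 hκ hL
  have hLp : 0 < LL κ := by linarith
  have hQ : 0 < κ * LL κ ^ 2 := by positivity
  set S : ℝ := SS κ (a / LL κ) / (κ * LL κ ^ 2) with hS
  have k1' : S ≤ (1 / a - 1) / 2 + 5 * (1 + ε / 20 + ε / 20 - 1) / (4 * a) + ε / 8 := by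
    rw [hS, div_le_iff₀ hQ]; exact k1
  have k2' : (1 / a - 1) / 2 - ε / 8 ≤ S := by rw [hS, le_div_iff₀ hQ]; exact k2
  have m1 := mul_le_mul_of_nonneg_left k1' (show 0 ≤ 2 * a by positivity)
  have m2 := mul_le_mul_of_nonneg_left k2' (show 0 ≤ 2 * a by positivity)
  have e1 : 2 * a * ((1 / a - 1) / 2 + 5 * (1 + ε / 20 + ε / 20 - 1) / (4 * a) + ε / 8) =
    1 - a + ε / 4 + a * (ε / 4) := by field_simp; ring
  have e2 : 2 * a * ((1 / a - 1) / 2 - ε / 8) = 1 - a - a * (ε / 4) := by field_simp; ring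
  rw [e1] at m1
  rw [e2] at m2
  have : a * (ε / 4) ≤ 1 * (ε / 4) := mul_le_mul_of_nonneg_right ha1' (by positivity)
  rw [abs_le]
  constructor <;> linarith

/-- the dilated measure on the side of the primes -/
noncomputable def md (p : ℝ × ℝ) : Measure ℝ :=
  ENNReal.ofReal (1 / p.1) • Measure.map (fun y => y / p.1) (nk p.2)

lemma md_integral (b κ : ℝ) (hb : 0 < b) {f : ℝ → ℝ} (hf : Continuous f) :
    ∫ y, f y ∂(md (b, κ)) = 1 / b * ∫ y, f (y / b) ∂(nk κ) := by
  unfold md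
  rw [integral_smul_measure, integral_map (by fun_prop) hf.aestronglyMeasurable,
    ENNReal.toReal_ofReal (by positivity), smul_eq_mul]

lemma md_integrable (b κ : ℝ) (hb : 0 < b) {f : ℝ → ℝ} (hf : Continuous f)
    (h : Integrable (fun y => f (y / b)) (nk κ)) : Integrable f (md (b, κ)) := by
  unfold md
  refine Integrable.smul_measure ?_ ENNReal.ofReal_ne_top
  rw [integrable_map_measure hf.aestronglyMeasurable (by fun_prop)]
  exact h

lemma md_neg (b κ : ℝ) (hb : 0 < b) : md (b, κ) (Iio 0) = 0 := by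
  unfold md
  rw [Measure.smul_apply, Measure.map_apply (by fun_prop) measurableSet_Iio]
  have : (fun y : ℝ => y / b) ⁻¹' Iio 0 = Iio 0 := by
    ext y
    simp only [mem_preimage, mem_Iio]
    constructor
    · intro h
      by_contra h2
      push Not at h2
      have : 0 ≤ y / b := div_nonneg h2 hb.le
      linarith
    · intro h
      exact div_neg_of_neg_of_pos h hb
  show ENNReal.ofReal (1 / b) • (nk κ) ((fun y : ℝ => y / b) ⁻¹' Iio 0) = 0
  rw [this, nk_neg, smul_zero]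

lemma md_Icc (b κ : ℝ) (hb : 0 < b) (hκ : 0 < κ) (hL : 0 < LL κ) {c d : ℝ} (hc : 0 < c) (hcd : c ≤ d) :
    (md (b, κ)).real (Icc c d) = (∫ u in (c * b * LL κ)..(d * b * LL κ), Dl κ u ^ 2) / (b * (κ * LL κ ^ 2)) := by
  unfold md
  rw [measureReal_def, Measure.smul_apply, Measure.map_apply (by fun_prop) measurableSet_Icc]
  have : (fun y : ℝ => y / b) ⁻¹' Icc c d = Icc (c * b) (d * b) := by
    ext y
    simp only [mem_preimage, mem_Icc]
    rw [le_div_iff₀ hb, div_le_iff₀ hb]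
  show (ENNReal.ofReal (1 / b) • (nk κ) ((fun y : ℝ => y / b) ⁻¹' Icc c d)).toReal = _
  rw [this, smul_eq_mul, ENNReal.toReal_mul, ENNReal.toReal_ofReal (by positivity)]
  have h1 := nk_Icc hκ hL (c := c * b) (d := d * b) (by positivity) (mul_le_mul_of_nonneg_right hcd hb.le)
  rw [measureReal_def] at h1
  rw [h1]
  field_simp

/-- **the asymptotic formula on average** -/
theorem av_asymp (hRH : RiemannHypothesis) (hL2 : L2psi) (hE : EssM) {ε : ℝ} (hε : 0 < ε) :
    ∃ b0 : ℝ, 1 ≤ b0 ∧ ∀ b : ℝ, b0 ≤ b → ∀ᶠ κ : ℝ in 𝓝[>] 0,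
      (1 - ε) * b * (κ * LL κ ^ 2) ≤ ∫ u in (LL κ)..(b * LL κ), Dl κ u ^ 2 ∧
      ∫ u in (0 : ℝ)..(b * LL κ), Dl κ u ^ 2 ≤ (1 + ε) * b * (κ * LL κ ^ 2) := by
  set l : Filter (ℝ × ℝ) := (atTop : Filter ℝ).curry (𝓝[>] (0 : ℝ)) with hl
  have hev : ∀ P : ℝ → ℝ → Prop, (∀ᶠ b in (atTop : Filter ℝ), ∀ᶠ κ in 𝓝[>] (0 : ℝ), P b κ) →
      ∀ᶠ p in l, P p.1 p.2 := fun P h => Filter.eventually_curry_iff.2 h
  have hpos : ∀ᶠ b in (atTop : Filter ℝ), ∀ᶠ κ in 𝓝[>] (0 : ℝ), 0 < b ∧ 0 < κ ∧ 1 ≤ LL κ := by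
    filter_upwards [eventually_gt_atTop 0] with b hb
    filter_upwards [ev_pos, ev_L 1] with κ h1 h2
    exact ⟨hb, h1, h2⟩
  have hexp : ∀ s : ℝ, Continuous fun y : ℝ => Real.exp (-(s * y)) := fun s => by fun_prop
  have hexp2 : ∀ s b κ : ℝ, 0 < s → 0 < b → 0 < κ → 1 ≤ LL κ →
      Integrable (fun y => Real.exp (-(s * (y / b)))) (nk κ) ∧
      ∫ y, Real.exp (-(s * (y / b))) ∂(nk κ) = SS κ (s / b / 2 / LL κ) / (κ * LL κ ^ 2) := by
    intro s b κ hs hb hκ hL
    have h1 := nk_exp hL2 hκ (by linarith) (a := s / b) (by positivity)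
    have e : (fun y : ℝ => Real.exp (-(s * (y / b)))) = fun y => Real.exp (-(s / b * y)) := by
      funext y
      congr 2
      ring
    rw [e]
    exact h1
  have hK := fun (c d : ℝ) (hc : 0 < c) (hcd : c < d) =>
    Pool.Agent.Q128.GM.karamata (l := l) (m := md) (w := fun _ => (1 : ℝ)) continuous_const
    (fun _ => zero_le_one) (fun _ => le_rfl)
    (hev (fun b κ => md (b, κ) (Iio 0) = 0) (by
      filter_upwards [eventually_gt_atTop 0] with b hb
      exact Eventually.of_forall fun κ => md_neg b κ hb))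
    (hev (fun b κ => ∀ a : ℝ, 0 < a → Integrable (fun y : ℝ => Real.exp (-(a * y))) (md (b, κ))) (by
      filter_upwards [hpos] with b h1
      filter_upwards [h1] with κ h2 a ha
      exact md_integrable b κ h2.1 (hexp a) (hexp2 a b κ ha h2.1 h2.2.1 h2.2.2).1))
    (fun s hs => by
      have e1 : ∫ y in Ioi (0 : ℝ), Real.exp (-(s * y)) * 1 = 1 / s := by
        have : (fun y : ℝ => Real.exp (-(s * y)) * 1) = fun y => Real.exp (-s * y) := by
          funext y
          rw [mul_one, neg_mul]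
        rw [this, integral_exp_mul_Ioi (by linarith)]
        simp only [mul_zero, Real.exp_zero]
        field_simp
      rw [e1, Metric.tendsto_nhds]
      intro ε' hε'
      refine hev (fun b κ => dist (∫ y, Real.exp (-(s * y)) ∂(md (b, κ))) (1 / s) < ε') ?_
      obtain ⟨a0, ha0, h1⟩ := SS_ess hRH hL2 hE (ε := ε' * s / 2) (by positivity)
      filter_upwards [eventually_ge_atTop (s / (2 * a0)), eventually_gt_atTop 0] with b hb hb0
      have ha : s / b / 2 ≤ a0 := by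
        rw [div_le_iff₀ (by positivity)] at hb
        rw [div_div, div_le_iff₀ (by positivity)]
        linarith
      filter_upwards [h1 (s / b / 2) (by positivity) ha, ev_pos, ev_L 1] with κ h2 hκ hL
      rw [md_integral b κ hb0 (hexp s), (hexp2 s b κ hs hb0 hκ hL).2, Real.dist_eq]
      set S : ℝ := SS κ (s / b / 2 / LL κ) / (κ * LL κ ^ 2) with hS
      have e2 : 1 / b * S - 1 / s = 1 / s * (2 * (s / b / 2) * S - 1) := by field_simp
      rw [e2, abs_mul, abs_of_pos (by positivity)]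
      calc 1 / s * |2 * (s / b / 2) * S - 1| ≤ 1 / s * (ε' * s / 2) :=
            mul_le_mul_of_nonneg_left h2 (by positivity)
        _ = ε' / 2 := by field_simp
        _ < ε' := by linarith) hc hcd
  -- the parameters
  set c : ℝ := min (1 / 2) (ε / 20) with hc
  have hc0 : 0 < c := by positivity
  have hc1 : c ≤ 1 / 2 := min_le_left _ _
  have hcε : c ≤ ε / 20 := min_le_right _ _
  have h1 := (Metric.tendsto_nhds.1 (hK c 1 hc0 (by linarith))) (ε / 4) (by positivity)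
  have h2 : ∀ᶠ b in (atTop : Filter ℝ), ∀ᶠ κ in 𝓝[>] (0 : ℝ),
      dist ((md (b, κ)).real (Icc c 1)) (∫ _ in c..1, (1 : ℝ)) < ε / 4 := Filter.eventually_curry_iff.1 h1
  obtain ⟨b1, hb1⟩ := h2.exists_forall_of_atTop
  obtain ⟨a0, ha0, h3⟩ := SS_ess hRH hL2 hE (ε := 1) one_pos
  refine ⟨max (max 1 b1) (max (1 / c) (1 / (2 * c * a0))), (le_max_left _ _).trans (le_max_left _ _), fun b hb => ?_⟩
  have hb1' : 1 ≤ b := ((le_max_left _ _).trans (le_max_left _ _)).trans hb
  have hbb : b1 ≤ b := ((le_max_right _ _).trans (le_max_left _ _)).trans hb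
  have hbc : 1 / c ≤ b := ((le_max_left _ _).trans (le_max_right _ _)).trans hb
  have hba : 1 / (2 * c * a0) ≤ b := ((le_max_right _ _).trans (le_max_right _ _)).trans hb
  have hb0 : 0 < b := by linarith
  have hcb : 1 ≤ c * b := by
    rw [div_le_iff₀ hc0] at hbc
    linarith
  set a : ℝ := 1 / (2 * (c * b)) with ha
  have ha0' : 0 < a := by positivity
  have haa : a ≤ a0 := by
    rw [ha, div_le_iff₀ (by positivity)]
    rw [div_le_iff₀ (by positivity)] at hba
    linarith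
  filter_upwards [hb1 b hbb, h3 a ha0' haa, ev_pos, ev_L 1] with κ k1 k2 hκ hL
  have hLp : 0 < LL κ := by linarith
  have hQ : 0 < κ * LL κ ^ 2 := by positivity
  rw [md_Icc b κ hb0 hκ hLp hc0 (by linarith), intervalIntegral.integral_const, smul_eq_mul, mul_one, one_mul,
    Real.dist_eq] at k1
  set W : ℝ := ∫ u in (c * b * LL κ)..(b * LL κ), Dl κ u ^ 2 with hW
  have hbQ : 0 < b * (κ * LL κ ^ 2) := by positivity
  rw [abs_lt] at k1
  have w1 : (1 - c - ε / 4) * (b * (κ * LL κ ^ 2)) ≤ W := by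
    rw [← le_div_iff₀ hbQ]; linarith [k1.1]
  have w2 : W ≤ (1 - c + ε / 4) * (b * (κ * LL κ ^ 2)) := by
    rw [← div_le_iff₀ hbQ]; linarith [k1.2]
  -- the small part
  have w3 : ∫ u in (0 : ℝ)..(c * b * LL κ), Dl κ u ^ 2 ≤ 6 * c * (b * (κ * LL κ ^ 2)) := by
    have hi := Dl_sq_int hL2 hκ (x := a / LL κ) (by positivity)
    have hle : (0 : ℝ) ≤ c * b * LL κ := by positivity
    have m1 : ∫ u in (0 : ℝ)..(c * b * LL κ), Dl κ u ^ 2 ≤ Real.exp 1 * SS κ (a / LL κ) := by
      calc ∫ u in (0 : ℝ)..(c * b * LL κ), Dl κ u ^ 2 ≤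
            ∫ u in (0 : ℝ)..(c * b * LL κ), Real.exp 1 * (Dl κ u ^ 2 * Real.exp (-(2 * (a / LL κ) * u))) := by
            refine intervalIntegral.integral_mono_on hle (Dl_sq_ii _ _ _)
              (((Dl_sq_ii κ _ _).mul_continuousOn (by fun_prop)).const_mul _) fun u hu => ?_
            have e : Real.exp 1 * (Dl κ u ^ 2 * Real.exp (-(2 * (a / LL κ) * u))) =
                Dl κ u ^ 2 * Real.exp (1 + -(2 * (a / LL κ) * u)) := by
              rw [Real.exp_add]; ring
            rw [e]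
            have h4 : 0 ≤ 1 + -(2 * (a / LL κ) * u) := by
              have h5 : 2 * (a / LL κ) * u ≤ 2 * (a / LL κ) * (c * b * LL κ) :=
                mul_le_mul_of_nonneg_left hu.2 (by positivity)
              have h6 : 2 * (a / LL κ) * (c * b * LL κ) = 1 := by rw [ha]; field_simp
              linarith
            have h5 : 1 ≤ Real.exp (1 + -(2 * (a / LL κ) * u)) := Real.one_le_exp h4
            nlinarith [sq_nonneg (Dl κ u)]
        _ = Real.exp 1 * ∫ u in (0 : ℝ)..(c * b * LL κ), Dl κ u ^ 2 * Real.exp (-(2 * (a / LL κ) * u)) :=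
            intervalIntegral.integral_const_mul _ _
        _ ≤ Real.exp 1 * SS κ (a / LL κ) := by
            apply mul_le_mul_of_nonneg_left _ (Real.exp_pos _).le
            unfold SS
            rw [intervalIntegral.integral_of_le hle]
            exact setIntegral_mono_set hi (ae_of_all _ fun u => by positivity) Ioc_subset_Ioi_self.eventuallyLE
    have m2 : SS κ (a / LL κ) ≤ 2 * c * (b * (κ * LL κ ^ 2)) := by
      have h4 := (abs_le.1 k2).2
      have h5 : SS κ (a / LL κ) / (κ * LL κ ^ 2) ≤ 2 * c * b := by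
        have e : 2 * a = 1 / (c * b) := by rw [ha]; field_simp
        rw [e, sub_le_iff_le_add, one_div, inv_mul_le_iff₀ (by positivity)] at h4
        linarith
      rw [div_le_iff₀ hQ] at h5
      linarith
    have m3 : Real.exp 1 ≤ 3 := by
      have := Real.exp_one_lt_d9
      linarith
    calc ∫ u in (0 : ℝ)..(c * b * LL κ), Dl κ u ^ 2 ≤ Real.exp 1 * SS κ (a / LL κ) := m1
      _ ≤ 3 * (2 * c * (b * (κ * LL κ ^ 2))) := mul_le_mul m3 m2 (SS_nonneg _ _) (by norm_num)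
      _ = _ := by ring
  constructor
  · have h4 : W ≤ ∫ u in (LL κ)..(b * LL κ), Dl κ u ^ 2 := by
      refine intervalIntegral.integral_mono_interval ?_ ?_ le_rfl (ae_of_all _ fun u => sq_nonneg _) (Dl_sq_ii _ _ _)
      · nlinarith
      · have : c * b ≤ b := by nlinarith
        exact mul_le_mul_of_nonneg_right this hLp.le
    refine le_trans ?_ (w1.trans h4)
    have : (1 - ε) * b * (κ * LL κ ^ 2) = (1 - ε) * (b * (κ * LL κ ^ 2)) := by ring
    rw [this]
    exact mul_le_mul_of_nonneg_right (by linarith) hbQ.le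
  · rw [← intervalIntegral.integral_add_adjacent_intervals (Dl_sq_ii κ 0 (c * b * LL κ))
      (Dl_sq_ii κ (c * b * LL κ) (b * LL κ))]
    have : (1 + ε) * b * (κ * LL κ ^ 2) = (1 + ε) * (b * (κ * LL κ ^ 2)) := by ring
    rw [this]
    calc (∫ u in (0 : ℝ)..(c * b * LL κ), Dl κ u ^ 2) + W ≤
          6 * c * (b * (κ * LL κ ^ 2)) + (1 - c + ε / 4) * (b * (κ * LL κ ^ 2)) := add_le_add w3 w2
      _ = (6 * c + (1 - c + ε / 4)) * (b * (κ * LL κ ^ 2)) := by ring
      _ ≤ _ := mul_le_mul_of_nonneg_right (by linarith) hbQ.le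

end Pool.Agent.Q260.GM
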