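import Pool.Agent.Q260.GM.Xh

set_option autoImplicit false

/-!
# The functional of the theorem on average
-/

namespace Pool.Agent.Q260.GM

open MeasureTheory Filter Topology Set
open Pool.Agent.Y749.Rig (Mp Mp_bdd Mp_fin one_lt_log)
open Pool.Agent.Q213.GM (Dl_sq_ii Dl_meas)

lemma int_le_SS (hL2 : L2psi) {κ a b : ℝ} (hκ : 0 < κ) (hL : 0 < LL κ) (ha : 0 < a) (hb : 0 ≤ b)
    (hab : 2 * a * b ≤ 1) : ∫ u in (0 : ℝ)..(b * LL κ), Dl κ u ^ 2 ≤ 3 * SS κ (a / LL κ) := by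
  have hi := Dl_sq_int hL2 hκ (x := a / LL κ) (by positivity)
  have hle : (0 : ℝ) ≤ b * LL κ := by positivity
  have m3 : Real.exp 1 ≤ 3 := by
    have := Real.exp_one_lt_d9
    linarith
  calc ∫ u in (0 : ℝ)..(b * LL κ), Dl κ u ^ 2 ≤
        ∫ u in (0 : ℝ)..(b * LL κ), Real.exp 1 * (Dl κ u ^ 2 * Real.exp (-(2 * (a / LL κ) * u))) := by
        refine intervalIntegral.integral_mono_on hle (Dl_sq_ii _ _ _)
          (((Dl_sq_ii κ _ _).mul_continuousOn (by fun_prop)).const_mul _) fun u hu => ?_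
        have e : Real.exp 1 * (Dl κ u ^ 2 * Real.exp (-(2 * (a / LL κ) * u))) =
            Dl κ u ^ 2 * Real.exp (1 + -(2 * (a / LL κ) * u)) := by
          rw [Real.exp_add]; ring
        rw [e]
        have h4 : 0 ≤ 1 + -(2 * (a / LL κ) * u) := by
          have h5 : 2 * (a / LL κ) * u ≤ 2 * (a / LL κ) * (b * LL κ) :=
            mul_le_mul_of_nonneg_left hu.2 (by positivity)
          have h6 : 2 * (a / LL κ) * (b * LL κ) = 2 * a * b := by field_simp
          linarith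
        have h5 : 1 ≤ Real.exp (1 + -(2 * (a / LL κ) * u)) := Real.one_le_exp h4
        nlinarith [sq_nonneg (Dl κ u)]
    _ = Real.exp 1 * ∫ u in (0 : ℝ)..(b * LL κ), Dl κ u ^ 2 * Real.exp (-(2 * (a / LL κ) * u)) :=
        intervalIntegral.integral_const_mul _ _
    _ ≤ Real.exp 1 * SS κ (a / LL κ) := by
        apply mul_le_mul_of_nonneg_left _ (Real.exp_pos _).le
        unfold SS
        rw [intervalIntegral.integral_of_le hle]
        exact setIntegral_mono_set hi (ae_of_all _ fun u => by positivity) Ioc_subset_Ioi_self.eventuallyLE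
    _ ≤ 3 * SS κ (a / LL κ) := mul_le_mul_of_nonneg_right m3 (SS_nonneg _ _)

/-- **the crude bound** -/
theorem crude (hRH : RiemannHypothesis) (hL2 : L2psi) : ∃ C : ℝ, 0 < C ∧ ∀ b : ℝ, 1 ≤ b →
    ∀ᶠ κ : ℝ in 𝓝[>] 0, ∫ u in (0 : ℝ)..(b * LL κ), Dl κ u ^ 2 ≤ C * b * (κ * LL κ ^ 2) := by
  obtain ⟨K, hK, hR⟩ := R_crude
  refine ⟨9 * (3 / 2 + 5 * K / 4), by positivity, fun b hb => ?_⟩
  have hb0 : 0 < b := by linarith
  set a : ℝ := 1 / (3 * b) with ha
  have ha0 : 0 < a := by positivity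
  have ha3 : 3 * a ≤ 1 := by
    rw [ha]
    have : 3 * (1 / (3 * b)) = 1 / b := by field_simp
    rw [this, div_le_one hb0]
    exact hb
  filter_upwards [SS_of_R hRH hL2 hK hR ha0 (by linarith) ha3 (ε := 1) one_pos, ev_pos, ev_L 1] with κ k1 hκ hL
  have hLp : 0 < LL κ := by linarith
  have hQ : 0 < κ * LL κ ^ 2 := by positivity
  have h1 := int_le_SS hL2 hκ hLp ha0 hb0.le (by
    have : 2 * a * b = 2 / 3 := by rw [ha]; field_simp
    rw [this]; norm_num)
  have h2 : (1 / a - 1) / 2 + 5 * (K - 1) / (4 * a) + 1 ≤ (3 / 2 + 5 * K / 4) * (3 * b) := by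
    have e : 1 / a = 3 * b := by rw [ha]; field_simp
    have e2 : 5 * (K - 1) / (4 * a) = 5 * (K - 1) / 4 * (1 / a) := by field_simp
    rw [e2, e]
    nlinarith
  calc ∫ u in (0 : ℝ)..(b * LL κ), Dl κ u ^ 2 ≤ 3 * SS κ (a / LL κ) := h1
    _ ≤ 3 * (((1 / a - 1) / 2 + 5 * (K - 1) / (4 * a) + 1) * (κ * LL κ ^ 2)) :=
        mul_le_mul_of_nonneg_left k1 (by norm_num)
    _ ≤ 3 * ((3 / 2 + 5 * K / 4) * (3 * b) * (κ * LL κ ^ 2)) := by gcongr
    _ = _ := by ring

lemma norm_lim : Tendsto (fun T => T / Real.log T ^ 2 * (kT T * LL (kT T) ^ 2)) atTop (𝓝 1) := by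
  have h1 : Tendsto (fun T : ℝ => T * kT T) atTop (𝓝 1) := by
    refine tendsto_of_tendsto_of_tendsto_of_le_of_le' (g := fun T : ℝ => T / (T + 1)) (h := fun _ => (1 : ℝ))
      ?_ tendsto_const_nhds ?_ ?_
    · have h2 : Tendsto (fun T : ℝ => 1 - 1 / (T + 1)) atTop (𝓝 (1 - 0)) := by
        refine tendsto_const_nhds.sub ?_
        exact (tendsto_const_nhds (x := (1 : ℝ))).div_atTop (tendsto_atTop_add_const_right _ 1 tendsto_id)
      rw [sub_zero] at h2
      refine h2.congr' ?_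
      filter_upwards [eventually_gt_atTop (0 : ℝ)] with T hT
      field_simp
      ring
    · filter_upwards [eventually_gt_atTop (0 : ℝ)] with T hT
      have := mul_le_mul_of_nonneg_left (kT_ge hT) hT.le
      rwa [mul_one_div] at this
    · filter_upwards [eventually_gt_atTop (0 : ℝ)] with T hT
      have := mul_le_mul_of_nonneg_left (kT_le hT) hT.le
      rwa [mul_one_div, div_self hT.ne'] at this
  have h2 : Tendsto (fun T : ℝ => LL (kT T) / Real.log T) atTop (𝓝 1) := by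
    refine tendsto_of_tendsto_of_tendsto_of_le_of_le' (g := fun _ : ℝ => (1 : ℝ))
      (h := fun T => 1 + 1 / Real.log T) tendsto_const_nhds ?_ ?_ ?_
    · have h3 : Tendsto (fun T : ℝ => 1 + 1 / Real.log T) atTop (𝓝 (1 + 0)) :=
        tendsto_const_nhds.add ((tendsto_const_nhds (x := (1 : ℝ))).div_atTop Real.tendsto_log_atTop)
      rwa [add_zero] at h3
    · filter_upwards [eventually_ge_atTop (3 : ℝ)] with T hT
      have hl := (Lg_log hT).2
      rw [le_div_iff₀ (by linarith), one_mul]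
      exact (LL_kT (by linarith)).1
    · filter_upwards [eventually_ge_atTop (3 : ℝ)] with T hT
      have hl := (Lg_log hT).2
      have hlp : 0 < Real.log T := by linarith
      rw [div_le_iff₀ hlp]
      have h4 := (LL_kT (T := T) (by linarith)).2
      have h5 : 1 / T ≤ 1 := by rw [div_le_one (by linarith)]; linarith
      have e : (1 + 1 / Real.log T) * Real.log T = Real.log T + 1 := by field_simp
      rw [e]
      linarith
  have h3 := h1.mul (h2.pow 2)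
  rw [one_pow, mul_one] at h3
  refine h3.congr' ?_
  filter_upwards [eventually_ge_atTop (3 : ℝ)] with T hT
  have hl := (Lg_log hT).2
  have hlp : 0 < Real.log T := by linarith
  field_simp

/-- the normalised functional -/
noncomputable def VV (T b : ℝ) : ℝ := T / Real.log T ^ 2 * JJ T 1 b

lemma k_of_T {b M δ : ℝ} (hb : 1 ≤ b) (hM : 0 ≤ M) (hδ : 0 < δ)
    (h : ∀ᶠ T : ℝ in atTop, VV T (b + 1) ≤ M) :
    ∀ᶠ κ : ℝ in 𝓝[>] 0, ∫ u in (LL κ)..(b * LL κ), Dl κ u ^ 2 ≤ (1 + δ) * M * (κ * LL κ ^ 2) := by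
  have h1 := norm_lim.comp Tk_tendsto
  have hlt : 1 / (1 + δ) < 1 := by rw [div_lt_one (by positivity)]; linarith
  filter_upwards [Tk_tendsto.eventually h, h1.eventually (le_mem_nhds hlt), ev_pos,
    Tk_tendsto.eventually_ge_atTop (Real.exp (max 1 b))] with κ k1 k2 hκ k3
  set T : ℝ := Tk κ with hT
  have hTp : 0 < T := Tk_pos hκ
  have hlT : max 1 b ≤ Real.log T := by rwa [Real.le_log_iff_exp_le hTp]
  have hlT1 : 1 ≤ Real.log T := (le_max_left _ _).trans hlT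
  have hlTb : b ≤ Real.log T := (le_max_right _ _).trans hlT
  have hT1 : 1 ≤ T := by
    have h3 := Real.add_one_le_exp (max 1 b)
    have h4 : 1 ≤ max 1 b := le_max_left _ _
    linarith
  have hkT : kT T = κ := kT_Tk hκ
  obtain ⟨l1, l2⟩ := LL_kT hT1
  rw [hkT] at l1 l2
  have hLp : 0 < LL κ := by linarith
  have hlTp : 0 < Real.log T := by linarith
  have k2' : 1 / (1 + δ) ≤ T / Real.log T ^ 2 * (κ * LL κ ^ 2) := by
    have : 1 / (1 + δ) ≤ T / Real.log T ^ 2 * (kT T * LL (kT T) ^ 2) := k2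
    rwa [hkT] at this
  have hT1' : 1 / T ≤ 1 := by rw [div_le_one hTp]; exact hT1
  have hmono : ∫ u in (LL κ)..(b * LL κ), Dl κ u ^ 2 ≤ JJ T 1 (b + 1) := by
    rw [JJ_eq hT1 (by linarith), hkT]
    refine intervalIntegral.integral_mono_interval ?_ ?_ ?_
      (ae_of_all _ fun u => sq_nonneg _) (Dl_sq_ii _ _ _)
    · rw [one_mul]; exact l1
    · nlinarith
    · have : b * LL κ ≤ b * (Real.log T + 1) := mul_le_mul_of_nonneg_left (by linarith) (by linarith)
      linarith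
  refine hmono.trans ?_
  have hq : 0 < Real.log T ^ 2 / T := by positivity
  have e1 : JJ T 1 (b + 1) = VV T (b + 1) * (Real.log T ^ 2 / T) := by unfold VV; field_simp
  rw [e1]
  have h2 : Real.log T ^ 2 / T ≤ (1 + δ) * (κ * LL κ ^ 2) := by
    rw [div_le_iff₀ (by positivity)] at k2'
    have h3 := mul_le_mul_of_nonneg_right k2' hq.le
    have e2 : T / Real.log T ^ 2 * (κ * LL κ ^ 2) * (1 + δ) * (Real.log T ^ 2 / T) =
      (1 + δ) * (κ * LL κ ^ 2) := by field_simp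
    rw [e2, one_mul] at h3
    exact h3
  calc VV T (b + 1) * (Real.log T ^ 2 / T) ≤ M * (Real.log T ^ 2 / T) := mul_le_mul_of_nonneg_right k1 hq.le
    _ ≤ M * ((1 + δ) * (κ * LL κ ^ 2)) := mul_le_mul_of_nonneg_left h2 hM
    _ = _ := by ring

lemma T_of_k_up {b M δ : ℝ} (hb : 1 ≤ b) (hM : 0 ≤ M) (hδ : 0 < δ)
    (h : ∀ᶠ κ : ℝ in 𝓝[>] 0, ∫ u in (0 : ℝ)..(b * LL κ), Dl κ u ^ 2 ≤ M * (κ * LL κ ^ 2)) :
    ∀ᶠ T : ℝ in atTop, VV T b ≤ (1 + δ) * M := by
  filter_upwards [kT_tendsto.eventually h, norm_lim.eventually (ge_mem_nhds (show (1 : ℝ) < 1 + δ by linarith)),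
    eventually_ge_atTop (3 : ℝ)] with T k1 k2 hT
  have hT1 : 1 ≤ T := by linarith
  have hTp : 0 < T := by linarith
  have hl := (Lg_log hT).2
  have hlp : 0 < Real.log T := by linarith
  obtain ⟨l1, l2⟩ := LL_kT hT1
  have hmono : JJ T 1 b ≤ ∫ u in (0 : ℝ)..(b * LL (kT T)), Dl (kT T) u ^ 2 := by
    rw [JJ_eq hT1 hb]
    refine intervalIntegral.integral_mono_interval (by linarith) ?_ ?_
      (ae_of_all _ fun u => sq_nonneg _) (Dl_sq_ii _ _ _)
    · nlinarith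
    · exact mul_le_mul_of_nonneg_left l1 (by linarith)
  have hq : 0 < T / Real.log T ^ 2 := by positivity
  unfold VV
  calc T / Real.log T ^ 2 * JJ T 1 b ≤ T / Real.log T ^ 2 * (M * (kT T * LL (kT T) ^ 2)) :=
        mul_le_mul_of_nonneg_left (hmono.trans k1) hq.le
    _ = T / Real.log T ^ 2 * (kT T * LL (kT T) ^ 2) * M := by ring
    _ ≤ _ := mul_le_mul_of_nonneg_right k2 hM

lemma T_of_k_low {b M δ : ℝ} (hb : 1 ≤ b) (hM : 0 ≤ M) (hδ : 0 < δ)
    (h : ∀ᶠ κ : ℝ in 𝓝[>] 0, M * (κ * LL κ ^ 2) ≤ ∫ u in (LL κ)..(b * LL κ), Dl κ u ^ 2) :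
    ∀ᶠ T : ℝ in atTop, (1 - δ) * M ≤ VV T (b + 1) := by
  filter_upwards [kT_tendsto.eventually h, norm_lim.eventually (le_mem_nhds (show 1 - δ < (1 : ℝ) by linarith)),
    eventually_ge_atTop (3 : ℝ), Real.tendsto_log_atTop.eventually_ge_atTop b] with T k1 k2 hT hlb
  have hT1 : 1 ≤ T := by linarith
  have hTp : 0 < T := by linarith
  have hl := (Lg_log hT).2
  have hlp : 0 < Real.log T := by linarith
  obtain ⟨l1, l2⟩ := LL_kT hT1
  have hT1' : 1 / T ≤ 1 := by rw [div_le_one hTp]; exact hT1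
  have hLp : 0 < LL (kT T) := by linarith
  have hmono : ∫ u in (LL (kT T))..(b * LL (kT T)), Dl (kT T) u ^ 2 ≤ JJ T 1 (b + 1) := by
    rw [JJ_eq hT1 (by linarith)]
    refine intervalIntegral.integral_mono_interval ?_ ?_ ?_
      (ae_of_all _ fun u => sq_nonneg _) (Dl_sq_ii _ _ _)
    · rw [one_mul]; exact l1
    · nlinarith
    · have : b * LL (kT T) ≤ b * (Real.log T + 1) := mul_le_mul_of_nonneg_left (by linarith) (by linarith)
      linarith
  have hq : 0 < T / Real.log T ^ 2 := by positivity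
  unfold VV
  calc (1 - δ) * M ≤ T / Real.log T ^ 2 * (kT T * LL (kT T) ^ 2) * M := mul_le_mul_of_nonneg_right k2 hM
    _ = T / Real.log T ^ 2 * (M * (kT T * LL (kT T) ^ 2)) := by ring
    _ ≤ T / Real.log T ^ 2 * JJ T 1 (b + 1) := mul_le_mul_of_nonneg_left (k1.trans hmono) hq.le

/-- the averaged upper bound -/
def AU (η : ℝ) : Prop := ∀ ε : ℝ, 0 < ε → ∃ b0 : ℝ, ∀ b : ℝ, b0 ≤ b → ∀ᶠ T : ℝ in atTop,
  VV T b ≤ (1 + η + ε) * b

/-- the averaged asymptotic formula -/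
def AL : Prop := ∀ ε : ℝ, 0 < ε → ∃ b0 : ℝ, ∀ b : ℝ, b0 ≤ b → ∀ᶠ T : ℝ in atTop, |VV T b - b| ≤ ε * b

lemma AUk_of_AU {η : ℝ} (hη : 0 ≤ η) (h : AU η) : AUk η := by
  intro ε hε
  obtain ⟨b1, hb1⟩ := h (ε / 4) (by positivity)
  set δ : ℝ := min 1 (ε / (8 * (1 + η + ε))) with hδ
  have hδ0 : 0 < δ := by positivity
  have hδ1 : δ ≤ 1 := min_le_left _ _
  have hδ2 : δ * (1 + η + ε) ≤ ε / 8 := by
    have : δ ≤ ε / (8 * (1 + η + ε)) := min_le_right _ _
    rw [le_div_iff₀ (by positivity)] at this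
    linarith
  refine ⟨max 1 (max b1 (1 / δ)), le_max_left _ _, fun b hb => ?_⟩
  have hb1' : 1 ≤ b := (le_max_left _ _).trans hb
  have hbb : b1 ≤ b := ((le_max_left _ _).trans (le_max_right _ _)).trans hb
  have hbδ : 1 ≤ δ * b := by
    have : 1 / δ ≤ b := ((le_max_right _ _).trans (le_max_right _ _)).trans hb
    rw [div_le_iff₀ hδ0] at this
    linarith
  filter_upwards [k_of_T hb1' (M := (1 + η + ε / 4) * (b + 1)) (by positivity) hδ0 (hb1 (b + 1) (by linarith)),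
    ev_pos, ev_L 1] with κ k1 hκ hL
  have hLp : 0 < LL κ := by linarith
  refine k1.trans ?_
  apply mul_le_mul_of_nonneg_right _ (by positivity)
  have h2 : b + 1 ≤ (1 + δ) * b := by linarith
  have h3 : (1 + δ) * ((1 + η + ε / 4) * (b + 1)) ≤ (1 + δ) * ((1 + η + ε / 4) * ((1 + δ) * b)) := by gcongr
  refine h3.trans ?_
  have h4 : (1 + δ) * ((1 + η + ε / 4) * (1 + δ)) ≤ 1 + η + ε := by
    have h5 : (1 + δ) * (1 + δ) ≤ 1 + 3 * δ := by nlinarith
    have h6 : (1 + η + ε / 4) * ((1 + δ) * (1 + δ)) ≤ (1 + η + ε / 4) * (1 + 3 * δ) :=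
      mul_le_mul_of_nonneg_left h5 (by positivity)
    have h7 : δ * (1 + η + ε / 4) ≤ ε / 8 := by
      refine le_trans ?_ hδ2
      exact mul_le_mul_of_nonneg_left (by linarith) hδ0.le
    nlinarith
  calc (1 + δ) * ((1 + η + ε / 4) * ((1 + δ) * b)) = (1 + δ) * ((1 + η + ε / 4) * (1 + δ)) * b := by ring
    _ ≤ _ := mul_le_mul_of_nonneg_right h4 (by linarith)

lemma AL_of (hRH : RiemannHypothesis) (hL2 : L2psi) (hE : EssM) : AL := by
  intro ε hε
  set δ : ℝ := min (1 / 2) (ε / 8) with hδ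
  have hδ0 : 0 < δ := by positivity
  have hδ1 : δ ≤ 1 / 2 := min_le_left _ _
  have hδ2 : δ ≤ ε / 8 := min_le_right _ _
  obtain ⟨b1, hb1, h1⟩ := av_asymp hRH hL2 hE hδ0
  refine ⟨max (b1 + 1) (1 / δ), fun b hb => ?_⟩
  have hbb : b1 + 1 ≤ b := (le_max_left _ _).trans hb
  have hbδ : 1 ≤ δ * b := by
    have : 1 / δ ≤ b := (le_max_right _ _).trans hb
    rw [div_le_iff₀ hδ0] at this
    linarith
  have hb0 : 0 < b := by linarith
  have hu := T_of_k_up (b := b) (M := (1 + δ) * b) (δ := δ) (by linarith) (by positivity) hδ0 (by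
    filter_upwards [h1 b (by linarith)] with κ k1
    exact k1.2)
  have hl := T_of_k_low (b := b - 1) (M := (1 - δ) * (b - 1)) (δ := δ) (by linarith)
    (mul_nonneg (by linarith) (by linarith)) hδ0 (by
    filter_upwards [h1 (b - 1) (by linarith)] with κ k1
    exact k1.1)
  filter_upwards [hu, hl] with T k1 k2
  rw [sub_add_cancel] at k2
  have e1 : (1 + δ) * ((1 + δ) * b) ≤ b + ε * b := by
    have : (1 + δ) * (1 + δ) ≤ 1 + ε := by nlinarith
    nlinarith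
  have e2 : b - ε * b ≤ (1 - δ) * ((1 - δ) * (b - 1)) := by
    have h3 : (1 - δ) * b ≤ b - 1 := by linarith
    have h4 : (1 - δ) * ((1 - δ) * ((1 - δ) * b)) ≤ (1 - δ) * ((1 - δ) * (b - 1)) := by
      have : 0 ≤ 1 - δ := by linarith
      gcongr
    refine le_trans ?_ h4
    have h5 : 1 - ε ≤ (1 - δ) * ((1 - δ) * (1 - δ)) := by nlinarith [mul_pos hδ0 hδ0]
    nlinarith
  rw [abs_le]
  constructor <;> linarith

lemma AU_of_AL (h : AL) : AU 0 := by
  intro ε hε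
  obtain ⟨b0, h1⟩ := h ε hε
  refine ⟨b0, fun b hb => ?_⟩
  filter_upwards [h1 b hb] with T k1
  have := (abs_le.1 k1).2
  linarith

lemma L2_of_fin (h : ∀ b : ℝ, 1 ≤ b → ∃ C : ℝ, ∀ᶠ T : ℝ in atTop, VV T b ≤ C) : L2psi :=
  Pool.Agent.Q213.GM.L2_of_upper fun b hb => by
    obtain ⟨C, hC⟩ := h (b + 1) (by linarith)
    refine ⟨(1 + 1) * max C 0, ?_⟩
    exact k_of_T hb.le (le_max_right _ _) one_pos (by
      filter_upwards [hC] with T k1
      exact k1.trans (le_max_left _ _))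

lemma L2_of_AU {η : ℝ} (h : AU η) : L2psi := by
  obtain ⟨b0, h1⟩ := h 1 one_pos
  refine L2_of_fin fun b hb => ⟨(1 + η + 1) * max b b0, ?_⟩
  filter_upwards [h1 (max b b0) (le_max_right _ _), eventually_ge_atTop (3 : ℝ)] with T k1 hT
  refine le_trans ?_ k1
  have hT1 : 1 ≤ T := by linarith
  have hl := (Lg_log hT).2
  have hlp : 0 < Real.log T := by linarith
  unfold VV
  apply mul_le_mul_of_nonneg_left _ (by positivity)
  rw [JJ_eq hT1 hb, JJ_eq hT1 (hb.trans (le_max_left _ _))]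
  exact intervalIntegral.integral_mono_interval le_rfl (by nlinarith)
    (mul_le_mul_of_nonneg_right (le_max_left _ _) hlp.le) (ae_of_all _ fun u => sq_nonneg _) (Dl_sq_ii _ _ _)

/-- **the Riemann hypothesis is the finiteness of the mean** -/
theorem RH_iff : RiemannHypothesis ↔ ∃ C : ℝ, ∀ b : ℝ, 1 ≤ b → ∀ᶠ T : ℝ in atTop, VV T b ≤ C * b := by
  constructor
  · intro hRH
    obtain ⟨C, hC, h1⟩ := crude hRH (Pool.Agent.Q296.GM.L2_of_rh hRH)
    refine ⟨2 * C, fun b hb => ?_⟩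
    have hb0 : 0 < b := by linarith
    filter_upwards [T_of_k_up hb (M := C * b) (δ := 1) (by positivity) one_pos (h1 b hb)] with T k1
    refine k1.trans (le_of_eq ?_)
    ring
  · rintro ⟨C, h⟩
    exact Pool.Agent.Q213.GM.rh_of_L2 (L2_of_fin fun b hb => ⟨C * b, h b hb⟩)

/-- **stability** -/
theorem AU_pairs {η : ℝ} (hη : 0 ≤ η) (h : AU η) : RiemannHypothesis ∧ ∀ ε : ℝ, 0 < ε → ∃ β : ℝ, 0 < β ∧
    ∀ᶠ T : ℝ in atTop, (Mp T).real (Icc (-β) β) ≤ 1 + 9 / 4 * η + ε := by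
  have hL2 := L2_of_AU h
  have hRH := Pool.Agent.Q213.GM.rh_of_L2 hL2
  exact ⟨hRH, fun ε hε => pairs_of_R (K := 1 + 9 / 4 * η) (by positivity)
    (fun ε hε => R_av hRH hL2 hη (AUk_of_AU hη h) hε) hε⟩

/-- **the equivalences** -/
theorem AU_iff : (AU 0 ↔ RiemannHypothesis ∧ EssM) ∧ (AL ↔ RiemannHypothesis ∧ EssM) := by
  have h1 : AU 0 → RiemannHypothesis ∧ EssM := fun h => by
    obtain ⟨h2, h3⟩ := AU_pairs le_rfl h
    refine ⟨h2, fun ε hε => ?_⟩
    obtain ⟨β, hβ, h4⟩ := h3 ε hε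
    refine ⟨β, hβ, ?_⟩
    filter_upwards [h4] with T h5
    linarith
  have h2 : RiemannHypothesis ∧ EssM → AL := fun h => AL_of h.1 (Pool.Agent.Q296.GM.L2_of_rh h.1) h.2
  exact ⟨⟨h1, fun h => AU_of_AL (h2 h)⟩, ⟨fun h => h1 (AU_of_AL h), h2⟩⟩

end Pool.Agent.Q260.GM
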