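import Pool.Agent.Q260.GM.Xi

set_option autoImplicit false

/-!
# The theorem in terms of the zeros
-/

namespace Pool.Agent.Q260.GM

open MeasureTheory Filter Topology Set
open Pool.Agent.Y749.Rig (Mp Mp_bdd Mp_fin one_lt_log ZZ mm RR nT nT_pos Mp_real mem_ZZ)
open Q241.OP.G (zeros mult X)
open Q241.OP (Num)

/-- the number of ordered pairs of zeros whose ordinates differ by at most `β` times the mean
spacing -/
noncomputable def Pc (T β : ℝ) : ℕ :=
  ∑ᶠ p ∈ {p : ℂ × ℂ | p.1 ∈ zeros T ∧ p.2 ∈ zeros T ∧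
    |p.1.im - p.2.im| * Real.log T / (2 * Real.pi) ≤ β}, mult p.1 * mult p.2

lemma Pc_eq {T : ℝ} (hT : 10 ≤ T) (β : ℝ) : (Pc T β : ℝ) = X T * (Mp T).real (Icc (-β) β) := by
  classical
  have hpi := Real.pi_pos
  have hL : 1 < Real.log T := one_lt_log (by linarith)
  have hn := nT_pos hT
  have e : {p : ℂ × ℂ | p.1 ∈ zeros T ∧ p.2 ∈ zeros T ∧
      |p.1.im - p.2.im| * Real.log T / (2 * Real.pi) ≤ β} =
      ↑((ZZ T ×ˢ ZZ T).filter (fun p => (p.1.im - p.2.im) * Real.log T / (2 * Real.pi) ∈ Icc (-β) β)) := by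
    ext p
    rw [Finset.mem_coe, Finset.mem_filter, Finset.mem_product, mem_ZZ, mem_ZZ, mem_Icc, ← abs_le]
    have e2 : |(p.1.im - p.2.im) * Real.log T / (2 * Real.pi)| = |p.1.im - p.2.im| * Real.log T / (2 * Real.pi) := by
      rw [abs_div, abs_mul, abs_of_pos (show 0 < Real.log T by linarith), abs_of_pos (show 0 < 2 * Real.pi by positivity)]
    rw [e2]
    exact ⟨fun h => ⟨⟨h.1, h.2.1⟩, h.2.2⟩, fun h => ⟨h.1.1, h.1.2, h.2⟩⟩
  rw [Mp_real hT measurableSet_Icc]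
  have hX : X T = nT T := rfl
  rw [hX, mul_div_cancel₀ _ hn.ne']
  unfold Pc
  rw [e, finsum_mem_coe_finset]
  push_cast
  rw [Finset.sum_filter, Finset.sum_product]
  unfold RR
  refine Finset.sum_congr rfl fun s _ => Finset.sum_congr rfl fun s' _ => ?_
  by_cases h : (s.im - s'.im) * Real.log T / (2 * Real.pi) ∈ Icc (-β) β
  · rw [if_pos h, Set.indicator_of_mem h, mul_one]
    rfl
  · rw [if_neg h, Set.indicator_of_notMem h, mul_zero]

/-- almost no close pairs besides the diagonal, and almost all zeros are simple -/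
def Ess : Prop := ∀ ε : ℝ, 0 < ε → ∃ β : ℝ, 0 < β ∧ ∀ᶠ T : ℝ in atTop, (Pc T β : ℝ) ≤ (1 + ε) * X T

lemma Ess_iff : Ess ↔ EssM := by
  constructor
  · intro h ε hε
    obtain ⟨β, hβ, h1⟩ := h ε hε
    refine ⟨β, hβ, ?_⟩
    filter_upwards [h1, eventually_ge_atTop (10 : ℝ)] with T h2 hT
    rw [Pc_eq hT, mul_comm] at h2
    have hn : 0 < X T := nT_pos hT
    exact le_of_mul_le_mul_right h2 hn
  · intro h ε hε
    obtain ⟨β, hβ, h1⟩ := h ε hε
    refine ⟨β, hβ, ?_⟩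
    filter_upwards [h1, eventually_ge_atTop (10 : ℝ)] with T h2 hT
    rw [Pc_eq hT, mul_comm]
    have hn : 0 < X T := nT_pos hT
    exact mul_le_mul_of_nonneg_right h2 hn.le

/-- **the theorem on average** -/
theorem av_main :
    (RiemannHypothesis ↔ ∃ C : ℝ, ∀ b : ℝ, 1 ≤ b → ∀ᶠ T : ℝ in atTop, VV T b ≤ C * b) ∧
    (∀ η : ℝ, 0 ≤ η → AU η → RiemannHypothesis ∧
      (∀ ε : ℝ, 0 < ε → ∃ β : ℝ, 0 < β ∧ ∀ᶠ T : ℝ in atTop, (Pc T β : ℝ) ≤ (1 + 9 / 4 * η + ε) * X T) ∧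
      ∀ ε : ℝ, 0 < ε → ∀ᶠ T : ℝ in atTop,
        (Num (fun s => s.re ≠ 1 / 2 ∨ deriv riemannZeta s = 0) T : ℝ) ≤
          (9 / 4 * η + ε) * Num (fun _ => True) T) ∧
    (AU 0 ↔ RiemannHypothesis ∧ Ess) ∧ (AL ↔ RiemannHypothesis ∧ Ess) := by
  refine ⟨RH_iff, fun η hη h => ?_, ?_, ?_⟩
  · obtain ⟨hRH, hp⟩ := AU_pairs hη h
    refine ⟨hRH, fun ε hε => ?_, fun ε hε => ?_⟩
    · obtain ⟨β, hβ, h1⟩ := hp ε hε
      refine ⟨β, hβ, ?_⟩
      filter_upwards [h1, eventually_ge_atTop (10 : ℝ)] with T h2 hT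
      rw [Pc_eq hT, mul_comm]
      have hn : 0 < X T := nT_pos hT
      exact mul_le_mul_of_nonneg_right h2 hn.le
    · have h2 := Q241.OP.bad_lim (η := 9 / 8 * η) (by positivity) (fun ε hε => by
        obtain ⟨β, hβ, h1⟩ := hp ε hε
        filter_upwards [h1, eventually_ge_atTop (10 : ℝ)] with T h2 hT
        rw [← Pool.Agent.Y749.Rig.Mp_Aa hT, neg_zero]
        have hfin := Mp_fin T
        refine (measureReal_mono (Icc_subset_Icc (by linarith) hβ.le)).trans (h2.trans (le_of_eq ?_))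
        ring) ε hε
      filter_upwards [h2] with T h3
      refine h3.trans (le_of_eq ?_)
      ring
  · rw [Ess_iff]; exact AU_iff.1
  · rw [Ess_iff]; exact AU_iff.2

end Pool.Agent.Q260.GM
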