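import Pool.Agent.Q260.GM.Defs
import Pool.Agent.Q260.LF.Fin
import Pool.Agent.H353R6.E9

set_option autoImplicit false

/-!
# The real part of `ζ'/ζ` near the critical line, under RH
-/

namespace Pool.Agent.Q260.GM

open MeasureTheory Filter Topology Set Complex
open scoped ComplexConjugate
open Pool.Agent.Y23 (Zt mu IsZ isZ_iff isZ_conj mu_conj zsummable zsum_le Lg one_le_Lg ZZ YL Rg ZZ_eq)
open Pool.Agent.H24R2.JP (XX)
open Pool.Agent.Q260.LF (hk pf line_of ZZ_right)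

lemma XX_ne (hRH : RiemannHypothesis) {w : ℂ} (h : 0 < w.re) : XX w ≠ 0 := by
  intro h0
  have h1 : IsZ (w + 1 / 2) := by
    rw [isZ_iff, add_sub_cancel_right]
    exact h0
  have h2 := line_of hRH ⟨w + 1 / 2, h1⟩
  simp at h2
  linarith

lemma zeta_ne (hRH : RiemannHypothesis) {s : ℂ} (h : 1 / 2 < s.re) : riemannZeta s ≠ 0 :=
  Pool.Agent.Q260.LF.rh_iff.1 hRH s h

lemma hk_half {z ζ : ℂ} (h1 : z - ζ ≠ 0) (h2 : z + ζ ≠ 0) :
    hk z ζ = (1 / (z - ζ) + 1 / (z + ζ)) / 2 := by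
  unfold hk
  have e : z ^ 2 - ζ ^ 2 = (z - ζ) * (z + ζ) := by ring
  rw [e]
  field_simp
  ring

lemma far {δ R : ℝ} (hδ : 0 < δ) {z ζ : ℂ} (hz : δ ≤ z.re) (hR : ‖z‖ ≤ R) (hζ : ζ.re = 0) :
    1 + ζ.im ^ 2 ≤ ((1 + 2 * R ^ 2) / δ ^ 2 + 2) * ‖z - ζ‖ ^ 2 := by
  rw [← Complex.normSq_eq_norm_sq, Complex.normSq_apply]
  simp only [sub_re, sub_im, hζ, sub_zero]
  have h1 : z.im ^ 2 ≤ R ^ 2 := by
    have h2 := abs_im_le_norm z
    have h3 : |z.im| ≤ R := h2.trans hR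
    rw [← sq_abs]
    exact pow_le_pow_left₀ (abs_nonneg _) h3 2
  have h2 : ζ.im ^ 2 ≤ 2 * ((z.im - ζ.im) * (z.im - ζ.im)) + 2 * z.im ^ 2 := by
    nlinarith [sq_nonneg (2 * z.im - ζ.im)]
  have h3 : 1 + 2 * R ^ 2 ≤ (1 + 2 * R ^ 2) / δ ^ 2 * (z.re * z.re) := by
    rw [div_mul_eq_mul_div, le_div_iff₀ (by positivity)]
    apply mul_le_mul_of_nonneg_left _ (by positivity)
    nlinarith
  have h4 : 0 ≤ (1 + 2 * R ^ 2) / δ ^ 2 * ((z.im - ζ.im) * (z.im - ζ.im)) :=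
    mul_nonneg (by positivity) (mul_self_nonneg _)
  have h5 : 0 ≤ 2 * (z.re * z.re) := mul_nonneg two_pos.le (mul_self_nonneg _)
  nlinarith

lemma hk_loc {δ R : ℝ} (hδ : 0 < δ) {z ζ : ℂ} (hz : δ ≤ z.re) (hR : ‖z‖ ≤ R) (hζ : ζ.re = 0) :
    ‖hk z ζ‖ ≤ R * ((1 + 2 * R ^ 2) / δ ^ 2 + 2) * (1 / (1 + ζ.im ^ 2)) := by
  have hR0 : 0 ≤ R := (norm_nonneg z).trans hR
  set K : ℝ := (1 + 2 * R ^ 2) / δ ^ 2 + 2 with hK
  have hK0 : 0 < K := by positivity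
  have h1 := far hδ hz hR hζ
  have h2 := far hδ (ζ := -ζ) hz hR (by simp [hζ])
  rw [sub_neg_eq_add] at h2
  have e1 : (-ζ).im ^ 2 = ζ.im ^ 2 := by simp
  rw [e1, ← hK] at h2
  rw [← hK] at h1
  have h3 : (1 + ζ.im ^ 2) ^ 2 ≤ (K * (‖z - ζ‖ * ‖z + ζ‖)) ^ 2 := by
    have := mul_le_mul h1 h2 (by positivity) (by positivity)
    calc (1 + ζ.im ^ 2) ^ 2 = (1 + ζ.im ^ 2) * (1 + ζ.im ^ 2) := by ring
      _ ≤ (K * ‖z - ζ‖ ^ 2) * (K * ‖z + ζ‖ ^ 2) := this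
      _ = _ := by ring
  have h4 : 1 + ζ.im ^ 2 ≤ K * (‖z - ζ‖ * ‖z + ζ‖) :=
    (pow_le_pow_iff_left₀ (by positivity) (by positivity) two_ne_zero).1 h3
  have h5 : z ^ 2 - ζ ^ 2 = (z - ζ) * (z + ζ) := by ring
  unfold hk
  rw [norm_div, h5, norm_mul]
  have h6 : 0 < ‖z - ζ‖ * ‖z + ζ‖ := by
    by_contra hcon
    push Not at hcon
    have : K * (‖z - ζ‖ * ‖z + ζ‖) ≤ 0 := mul_nonpos_of_nonneg_of_nonpos hK0.le hcon
    nlinarith [sq_nonneg ζ.im]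
  rw [div_le_iff₀ h6, mul_one_div, div_mul_eq_mul_div, le_div_iff₀ (by positivity)]
  calc ‖z‖ * (1 + ζ.im ^ 2) ≤ R * (K * (‖z - ζ‖ * ‖z + ζ‖)) :=
        mul_le_mul hR h4 (by positivity) hR0
    _ = _ := by ring

lemma zt_re (hRH : RiemannHypothesis) (ρ : Zt) : ((ρ : ℂ) - 1 / 2).re = 0 := by
  have := line_of hRH ρ
  simp [this]

lemma zt_im (ρ : Zt) : ((ρ : ℂ) - 1 / 2).im = (ρ : ℂ).im := by simp

lemma hk_summ (hRH : RiemannHypothesis) {z : ℂ} (hz : 0 < z.re) :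
    Summable (fun ρ : Zt => ‖(mu ρ : ℂ) * hk z ((ρ : ℂ) - 1 / 2)‖) := by
  have h := (zsummable 0).mul_left (‖z‖ * ((1 + 2 * ‖z‖ ^ 2) / z.re ^ 2 + 2))
  refine Summable.of_nonneg_of_le (fun _ => norm_nonneg _) (fun ρ => ?_) h
  rw [norm_mul, Complex.norm_natCast]
  have h1 := hk_loc hz le_rfl le_rfl (zt_re hRH ρ)
  rw [zt_im] at h1
  calc (mu ρ : ℝ) * ‖hk z ((ρ : ℂ) - 1 / 2)‖ ≤ (mu ρ : ℝ) *
        (‖z‖ * ((1 + 2 * ‖z‖ ^ 2) / z.re ^ 2 + 2) * (1 / (1 + (ρ : ℂ).im ^ 2))) :=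
        mul_le_mul_of_nonneg_left h1 (Nat.cast_nonneg _)
    _ = _ := by rw [sub_zero]; ring

/-- **the partial fraction formula in the half plane `Re z > 0`** -/
theorem pfR (hRH : RiemannHypothesis) {z : ℂ} (hz : 0 < z.re) :
    ZZ z = ∑' ρ : Zt, (mu ρ : ℂ) * hk z ((ρ : ℂ) - 1 / 2) := by
  have hU : IsOpen {w : ℂ | 0 < w.re} := isOpen_lt continuous_const continuous_re
  have hUc : IsPreconnected {w : ℂ | 0 < w.re} := (convex_halfSpace_re_gt 0).isPreconnected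
  have hf : DifferentiableOn ℂ ZZ {w : ℂ | 0 < w.re} := by
    intro w hw
    have h1 : DifferentiableAt ℂ ZZ w :=
      ((Pool.Agent.Y23.XX_an w).deriv.differentiableAt).div (Pool.Agent.Y23.XX_diff w)
        (XX_ne hRH hw)
    exact h1.differentiableWithinAt
  have hg : DifferentiableOn ℂ (fun w => ∑' ρ : Zt, (mu ρ : ℂ) * hk w ((ρ : ℂ) - 1 / 2))
      {w : ℂ | 0 < w.re} := by
    intro w hw
    have hw' : 0 < w.re := hw
    set V : Set ℂ := {v : ℂ | w.re / 2 < v.re} ∩ Metric.ball 0 (‖w‖ + 1) with hV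
    have hVo : IsOpen V := (isOpen_lt continuous_const continuous_re).inter Metric.isOpen_ball
    have hwV : w ∈ V := ⟨by show w.re / 2 < w.re; linarith, by simp⟩
    have hd : DifferentiableOn ℂ (fun w => ∑' ρ : Zt, (mu ρ : ℂ) * hk w ((ρ : ℂ) - 1 / 2)) V := by
      refine differentiableOn_tsum_of_summable_norm
        (u := fun ρ : Zt => (‖w‖ + 1) * ((1 + 2 * (‖w‖ + 1) ^ 2) / (w.re / 2) ^ 2 + 2) *
          ((mu ρ : ℝ) * (1 / (1 + ((ρ : ℂ).im - 0) ^ 2))))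
        ((zsummable 0).mul_left _) ?_ hVo ?_
      · intro ρ v hv
        have hv0 : 0 < v.re := by have := hv.1; simp only [mem_ofPred_eq] at this; linarith
        have hne : v ^ 2 - ((ρ : ℂ) - 1 / 2) ^ 2 ≠ 0 := by
          have h1 : v ^ 2 - ((ρ : ℂ) - 1 / 2) ^ 2 =
            (v - ((ρ : ℂ) - 1 / 2)) * (v + ((ρ : ℂ) - 1 / 2)) := by ring
          rw [h1]
          have hr := zt_re hRH ρ
          refine mul_ne_zero ?_ ?_
          · intro h0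
            have h2 := congrArg Complex.re h0
            rw [sub_re, hr, Complex.zero_re] at h2
            linarith
          · intro h0
            have h2 := congrArg Complex.re h0
            rw [add_re, hr, Complex.zero_re] at h2
            linarith
        have h1 : DifferentiableAt ℂ (fun v => (mu ρ : ℂ) * hk v ((ρ : ℂ) - 1 / 2)) v := by
          unfold hk
          have h2 : DifferentiableAt ℂ (fun v : ℂ => v ^ 2 - ((ρ : ℂ) - 1 / 2) ^ 2) v :=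
            (differentiableAt_id.pow 2).sub_const _
          have h3 : DifferentiableAt ℂ (fun v : ℂ => v) v := differentiableAt_id
          exact (h3.div h2 hne).const_mul _
        exact h1.differentiableWithinAt
      · intro ρ v hv
        have hv1 : w.re / 2 ≤ v.re := le_of_lt hv.1
        have hv2 : ‖v‖ ≤ ‖w‖ + 1 := by
          have := hv.2; rw [mem_ball_zero_iff] at this; exact this.le
        have h1 := hk_loc (half_pos hw') hv1 hv2 (zt_re hRH ρ)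
        rw [zt_im] at h1
        rw [norm_mul, Complex.norm_natCast]
        calc (mu ρ : ℝ) * ‖hk v ((ρ : ℂ) - 1 / 2)‖ ≤ (mu ρ : ℝ) *
              ((‖w‖ + 1) * ((1 + 2 * (‖w‖ + 1) ^ 2) / (w.re / 2) ^ 2 + 2) *
                (1 / (1 + (ρ : ℂ).im ^ 2))) := mul_le_mul_of_nonneg_left h1 (Nat.cast_nonneg _)
          _ = _ := by rw [sub_zero]; ring
    exact ((hd w hwV).differentiableAt (hVo.mem_nhds hwV)).differentiableWithinAt
  have ha := hf.analyticOnNhd hU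
  have hb := hg.analyticOnNhd hU
  have h2 : (2 : ℂ) ∈ {w : ℂ | 0 < w.re} := by simp
  have hev : ZZ =ᶠ[𝓝 (2 : ℂ)] fun w => ∑' ρ : Zt, (mu ρ : ℂ) * hk w ((ρ : ℂ) - 1 / 2) := by
    have h3 : {w : ℂ | 1 < w.re} ∈ 𝓝 (2 : ℂ) :=
      (isOpen_lt continuous_const continuous_re).mem_nhds (by simp)
    filter_upwards [h3] with w hw
    exact pf hw
  exact ha.eqOn_of_preconnected_of_eventuallyEq hb hUc h2 hev hz

end Pool.Agent.Q260.GM
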