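import Pool.Agent.Q260.GM.Zl

set_option autoImplicit false

/-!
# The real part of `ζ'/ζ` near the critical line, under RH: the Poisson sum
-/

namespace Pool.Agent.Q260.GM

open MeasureTheory Filter Topology Set Complex
open scoped ComplexConjugate
open Pool.Agent.Y23 (Zt mu IsZ isZ_iff isZ_conj mu_conj zsummable zsum_le Lg one_le_Lg ZZ YL Rg ZZ_eq cjZ)
open Pool.Agent.H24R2.JP (XX)
open Pool.Agent.Q260.LF (hk pf line_of ZZ_right)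

/-- the Poisson kernel -/
noncomputable def pk (x u : ℝ) : ℝ := x / (x ^ 2 + u ^ 2)

lemma pk_nonneg {x : ℝ} (hx : 0 ≤ x) (u : ℝ) : 0 ≤ pk x u := by unfold pk; positivity

lemma pk_le {x : ℝ} (hx : 0 < x) (h1 : x ≤ 1) (u : ℝ) : pk x u ≤ 1 / x * (1 / (1 + u ^ 2)) := by
  unfold pk
  rw [div_mul_div_comm, div_le_div_iff₀ (by positivity) (by positivity)]
  have : x ^ 2 * u ^ 2 ≤ 1 * u ^ 2 := mul_le_mul_of_nonneg_right (by nlinarith) (sq_nonneg _)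
  nlinarith

lemma pk_le_inv {x : ℝ} (hx : 0 < x) (u : ℝ) : pk x u ≤ 1 / x := by
  unfold pk
  rw [div_le_div_iff₀ (by positivity) hx]
  nlinarith [sq_nonneg u]

lemma pk_neg (x u : ℝ) : pk x (-u) = pk x u := by unfold pk; rw [neg_sq]

lemma inv_re' (z : ℂ) : (1 / z).re = pk z.re z.im := by
  unfold pk
  rw [one_div, Complex.inv_re, Complex.normSq_apply, sq, sq]

lemma hk_re {x t : ℝ} (hx : 0 < x) {ζ : ℂ} (hζ : ζ.re = 0) :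
    (hk ⟨x, t⟩ ζ).re = (pk x (t - ζ.im) + pk x (t + ζ.im)) / 2 := by
  have h1 : (⟨x, t⟩ : ℂ) - ζ ≠ 0 := by
    intro h
    have := congrArg Complex.re h
    simp [hζ] at this
    exact hx.ne' this
  have h2 : (⟨x, t⟩ : ℂ) + ζ ≠ 0 := by
    intro h
    have := congrArg Complex.re h
    simp [hζ] at this
    exact hx.ne' this
  rw [hk_half h1 h2]
  have e : ((1 / ((⟨x, t⟩ : ℂ) - ζ) + 1 / ((⟨x, t⟩ : ℂ) + ζ)) / 2).re =
      ((1 / ((⟨x, t⟩ : ℂ) - ζ)).re + (1 / ((⟨x, t⟩ : ℂ) + ζ)).re) / 2 := by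
    rw [← add_re]
    have : ((1 / ((⟨x, t⟩ : ℂ) - ζ) + 1 / ((⟨x, t⟩ : ℂ) + ζ)) / 2) =
      (((1 / 2 : ℝ)) : ℂ) * (1 / ((⟨x, t⟩ : ℂ) - ζ) + 1 / ((⟨x, t⟩ : ℂ) + ζ)) := by
        push_cast; ring
    rw [this, Complex.re_ofReal_mul]
    ring
  rw [e, inv_re', inv_re']
  simp only [sub_re, sub_im, add_re, add_im, hζ, sub_zero, add_zero]

lemma Pz_eq (x t : ℝ) : Pz x t = ∑' ρ : Zt, (mu ρ : ℝ) * pk x (t - (ρ : ℂ).im) := rfl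

lemma pz_summ {x : ℝ} (hx : 0 < x) (h1 : x ≤ 1) (t : ℝ) :
    Summable (fun ρ : Zt => (mu ρ : ℝ) * pk x (t - (ρ : ℂ).im)) := by
  refine Summable.of_nonneg_of_le (fun ρ => mul_nonneg (Nat.cast_nonneg _) (pk_nonneg hx.le _))
    (fun ρ => ?_) ((zsummable t).mul_left (1 / x))
  calc (mu ρ : ℝ) * pk x (t - (ρ : ℂ).im) ≤ (mu ρ : ℝ) * (1 / x * (1 / (1 + (t - (ρ : ℂ).im) ^ 2))) :=
        mul_le_mul_of_nonneg_left (pk_le hx h1 _) (Nat.cast_nonneg _)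
    _ = _ := by rw [← neg_sub t, neg_sq]; ring

lemma pz_conj (x t : ℝ) : ∑' ρ : Zt, (mu ρ : ℝ) * pk x (t + (ρ : ℂ).im) =
    ∑' ρ : Zt, (mu ρ : ℝ) * pk x (t - (ρ : ℂ).im) := by
  rw [← cjZ.tsum_eq]
  refine tsum_congr fun ρ => ?_
  have k1 : ((cjZ ρ : Zt) : ℂ) = conj (ρ : ℂ) := rfl
  rw [k1, Complex.conj_im, mu_conj ρ.2, ← sub_eq_add_neg]

lemma pz_summ' {x : ℝ} (hx : 0 < x) (h1 : x ≤ 1) (t : ℝ) :
    Summable (fun ρ : Zt => (mu ρ : ℝ) * pk x (t + (ρ : ℂ).im)) := by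
  rw [← cjZ.summable_iff]
  refine (pz_summ hx h1 t).congr fun ρ => ?_
  have k1 : ((cjZ ρ : Zt) : ℂ) = conj (ρ : ℂ) := rfl
  show (mu (ρ : ℂ) : ℝ) * pk x (t - (ρ : ℂ).im) = (mu ((cjZ ρ : Zt) : ℂ) : ℝ) * pk x (t + ((cjZ ρ : Zt) : ℂ).im)
  rw [k1, Complex.conj_im, mu_conj ρ.2, ← sub_eq_add_neg]

lemma Pz_nonneg {x : ℝ} (hx : 0 ≤ x) (t : ℝ) : 0 ≤ Pz x t :=
  tsum_nonneg fun ρ => mul_nonneg (Nat.cast_nonneg _) (pk_nonneg hx _)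

lemma Pz_even (x t : ℝ) : Pz x (-t) = Pz x t := by
  rw [Pz_eq, Pz_eq, ← pz_conj]
  refine tsum_congr fun ρ => ?_
  rw [← pk_neg x (t - _)]
  congr 2
  ring

/-- the Poisson sum is the real part of the logarithmic derivative of the completed function -/
theorem re_ZZ (hRH : RiemannHypothesis) {x : ℝ} (hx : 0 < x) (h1 : x ≤ 1) (t : ℝ) :
    (ZZ ⟨x, t⟩).re = Pz x t := by
  have hz : 0 < (⟨x, t⟩ : ℂ).re := hx
  rw [pfR hRH hz]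
  have hs := (hk_summ hRH hz).of_norm
  rw [Complex.re_tsum hs]
  have e : ∀ ρ : Zt, ((mu ρ : ℂ) * hk ⟨x, t⟩ ((ρ : ℂ) - 1 / 2)).re =
      ((mu ρ : ℝ) * pk x (t - (ρ : ℂ).im) + (mu ρ : ℝ) * pk x (t + (ρ : ℂ).im)) / 2 := by
    intro ρ
    have h2 : (mu ρ : ℂ) = ((mu ρ : ℝ) : ℂ) := by push_cast; rfl
    rw [h2, Complex.re_ofReal_mul, hk_re hx (zt_re hRH ρ), zt_im]
    ring
  rw [tsum_congr e, tsum_div_const, (pz_summ hx h1 t).tsum_add (pz_summ' hx h1 t), pz_conj, Pz_eq]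
  ring

end Pool.Agent.Q260.GM
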